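import Pool.Agent.KCC.Stmts3
import Pool.Agent.KCG.GFIN

/-!
# Module BND: order of the coefficients and of the mean of a sequence of models
-/

set_option autoImplicit false

namespace Pool.Agent.KCC.BND

open Finset Filter Topology
open Pool.Agent.KCG Pool.Agent.KCG.GFIN
open Pool.Agent.Gap (closeP cap1 epsn epsn_zero B0 B0_isSol lap mn closeP_coeff_nonneg stair_side)

variable {C θ : ℝ}

/-- the four bounds with constant `K` -/
def Bd (M : SeqModel C θ) (K : ℝ) (n : ℕ) : Prop :=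
    K⁻¹ ≤ ((n : ℝ) * Real.sqrt n) * (M.G n).rho ^ n *
      (closeP (M.C0 n) (M.t n) (M.B n) n).eval 1 ∧
    ((n : ℝ) * Real.sqrt n) * (M.G n).rho ^ n *
      (closeP (M.C0 n) (M.t n) (M.B n) n).eval 1 ≤ K ∧
    K⁻¹ * (((n : ℝ) * Real.sqrt n) * (closeP (M.C0 n) (M.t n) (M.B n) n).eval 1) ≤
      (closeP (M.C0 n) (M.t n) (M.B n) n).derivative.eval 1 ∧
    (closeP (M.C0 n) (M.t n) (M.B n) n).derivative.eval 1 ≤
      K * (((n : ℝ) * Real.sqrt n) * (closeP (M.C0 n) (M.t n) (M.B n) n).eval 1)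

theorem eval_nonneg (M : SeqModel C θ) (n : ℕ) :
    0 ≤ (closeP (M.C0 n) (M.t n) (M.B n) n).eval 1 := by
  rw [Polynomial.eval_eq_sum_range]
  refine Finset.sum_nonneg fun k _ => ?_
  rw [one_pow, mul_one]
  exact Pool.Agent.KCG.closeP_coeff_nonneg (M.cap_s n).cap.nonneg (M.cap_t n).cap.nonneg
    (M.sol n) n k

theorem Bd.mono {M : SeqModel C θ} {K K' : ℝ} {n : ℕ} (hK : 0 < K) (h : K ≤ K')
    (hb : Bd M K n) : Bd M K' n := by
  obtain ⟨h1, h2, h3, h4⟩ := hb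
  have hi : K'⁻¹ ≤ K⁻¹ := inv_anti₀ hK h
  have hP := eval_nonneg M n
  have hY : 0 ≤ ((n : ℝ) * Real.sqrt n) * (closeP (M.C0 n) (M.t n) (M.B n) n).eval 1 := by
    positivity
  exact ⟨hi.trans h1, h2.trans h, (mul_le_mul_of_nonneg_right hi hY).trans h3,
    h4.trans (mul_le_mul_of_nonneg_right h hY)⟩

/-- upper bound at `1` along a subsequence with convergent parameters -/
theorem sub_upper (hLT : GLT_Stmt) {L0 : ℝ} (hL0 : 0 < L0)
    (hL : Tendsto (fun n : ℕ => ((n : ℝ) * Real.sqrt n) * (1 / 4 : ℝ) ^ n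
        * (closeP 1 cap1 B0 n).eval 1) atTop (𝓝 L0))
    (hC : 0 < C) (hθ : 0 < θ) (hθ1 : θ < 1) (M : SeqModel C θ) {φ : ℕ → ℕ} (hφ : StrictMono φ)
    {q : ℝ × ℝ × ℝ} (hq1 : 0 < q.1) (hq3 : 0 < q.2.2)
    (hlim : Tendsto (fun k => par (M.G (φ k))) atTop (𝓝 q)) :
    ∃ K : ℝ, 0 < K ∧ ∀ᶠ k : ℕ in atTop, ((φ k : ℝ) * Real.sqrt (φ k)) *
      (M.G (φ k)).rho ^ (φ k) * (PP M (φ k)).eval 1 ≤ K := by
  obtain ⟨C1, hC1, hLT1⟩ := hLT C θ hC hθ hθ1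
  obtain ⟨ψ, hψ⟩ : ∃ ψ : ℕ → ℕ, ψ = fun n => φ (lastIdx φ n) := ⟨_, rfl⟩
  have hψφ : ∀ k, ψ (φ k) = φ k := fun k => by rw [hψ]; simp only [lastIdx_self hφ]
  have hlim' : Tendsto (fun n => par (M.G (ψ n))) atTop (𝓝 q) := by
    rw [hψ]
    exact hlim.comp (lastIdx_tendsto hφ)
  have hK : KSeq C θ (fun n => M.G (ψ n)) q.1 q.2.1 q.2.2 := by
    refine ⟨fun n => M.cls _, ?_, ?_, ?_⟩
    · exact (continuous_fst.tendsto q).comp hlim'
    · exact ((continuous_fst.comp continuous_snd).tendsto q).comp hlim'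
    · exact ((continuous_snd.comp continuous_snd).tendsto q).comp hlim'
  obtain ⟨cr, hcr, h1⟩ := hLT1 (fun n => M.G (ψ n)) q.1 q.2.1 q.2.2 (fun n => M.C0 (ψ n))
    (fun n => M.s (ψ n)) (fun n => M.t (ψ n)) (fun n => M.B (ψ n)) hK (fun n => M.cap_s _)
    (fun n => M.cap_t _) (fun n => M.sol _) B0 B0_isSol
  set β : ℝ := 2 * q.2.2 / q.1 with hβ
  have hβ0 : 0 < β := by positivity
  set n0 : ℕ → ℕ := fun n => ⌊β * n⌋₊ with hn0
  have h2 : Tendsto (fun n : ℕ => (n0 n : ℝ) / n) atTop (𝓝 (2 * q.2.2 / q.1)) := by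
    rw [← hβ]
    exact (tendsto_nat_floor_mul_div_atTop hβ0.le).comp tendsto_natCast_atTop_atTop
  have h3 : Tendsto n0 atTop atTop :=
    tendsto_nat_floor_atTop.comp (tendsto_natCast_atTop_atTop.const_mul_atTop hβ0)
  have h4 := h1 n0 h2 0 le_rfl
  have hlam : lamS q.1 q.2.1 q.2.2 0 = 0 := by unfold lamS; ring
  simp only [hlam, epsn_zero, neg_zero, Real.exp_zero] at h4
  have h5 := hL.comp h3
  have e1 := (h4.comp hφ.tendsto_atTop).eventually (gt_mem_nhds (one_pos (α := ℝ)))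
  have e3 := (h5.comp hφ.tendsto_atTop).eventually
    (gt_mem_nhds (show L0 < 2 * L0 by linarith))
  refine ⟨1 + C1 * (2 * L0), by positivity, ?_⟩
  filter_upwards [e1, e3] with k f1 f3
  simp only [Function.comp_apply, hψφ] at f1 f3
  obtain ⟨c1, c2⟩ := hcr (φ k)
  have hc0 : 0 < cr (φ k) := lt_of_lt_of_le (inv_pos.2 hC1) c1
  have g3 := (mul_le_mul_of_nonneg_left f3.le hc0.le).trans
    (mul_le_mul_of_nonneg_right c2 (by positivity : (0 : ℝ) ≤ 2 * L0))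
  unfold PP
  linarith

/-- the four bounds along a subsequence with convergent parameters -/
theorem sub_bd (hLT : GLT_Stmt) (hM2 : GM2_Stmt) (oLT1 : Gap.LT1_Stmt)
    (oM2 : Gap.M2_Stmt) (oBAL : Gap.BAL_Stmt)
    (hC : 0 < C) (hθ : 0 < θ) (hθ1 : θ < 1) (M : SeqModel C θ) {φ : ℕ → ℕ} (hφ : StrictMono φ)
    {q : ℝ × ℝ × ℝ} (hq1 : 0 < q.1) (hq2 : 0 < q.2.1) (hq3 : 0 < q.2.2)
    (hlim : Tendsto (fun k => par (M.G (φ k))) atTop (𝓝 q)) :
    ∃ K : ℝ, 0 < K ∧ ∀ᶠ k : ℕ in atTop, Bd M K (φ k) := by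
  obtain ⟨L, m0, C', hL0, hm0, hC', hL, hexp⟩ := stair_side oLT1 oM2 oBAL
  have hL1 := hL 0 le_rfl
  simp only [epsn_zero, neg_zero, Real.exp_zero] at hL1
  obtain ⟨K, hK, hup⟩ := sub_upper hLT hL0 hL1 hC hθ hθ1 M hφ hq1 hq3 hlim
  obtain ⟨b, c, hb, hc, hlow, hmn, _⟩ := sub_side hLT hM2 hL0 hm0 hL hexp hC hθ hθ1 M hφ
    hq1 hq2 hq3 hlim
  refine ⟨K + c⁻¹ + 2 * b + (b / 2)⁻¹, by positivity, ?_⟩
  have hci : 0 < c⁻¹ := by positivity
  have hbi : 0 < (b / 2)⁻¹ := by positivity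
  filter_upwards [hup, hlow, hmn.eventually (lt_mem_nhds (half_lt_self hb)),
    hmn.eventually (gt_mem_nhds (show b < 2 * b by linarith)),
    hφ.tendsto_atTop.eventually (eventually_ge_atTop 1)] with k h1 h2 h3 h4 h5
  have hn0 : (0 : ℝ) < φ k := by exact_mod_cast h5
  have hs : 0 < Real.sqrt (φ k) := Real.sqrt_pos.2 hn0
  have hrho : 0 < (M.G (φ k)).rho ^ (φ k) := pow_pos (M.G (φ k)).rho_pos _
  have hP : 0 < (PP M (φ k)).eval 1 := by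
    by_contra hcon
    have : ((φ k : ℝ) * Real.sqrt (φ k)) * (M.G (φ k)).rho ^ (φ k) *
        (PP M (φ k)).eval 1 ≤ 0 :=
      mul_nonpos_of_nonneg_of_nonpos (by positivity) (not_lt.1 hcon)
    linarith
  have hY : 0 < ((φ k : ℝ) * Real.sqrt (φ k)) * (PP M (φ k)).eval 1 := by positivity
  unfold mn at h3 h4
  rw [lt_div_iff₀ hY] at h3
  rw [div_lt_iff₀ hY] at h4
  change _ ≤ ((φ k : ℝ) * Real.sqrt (φ k)) * (M.G (φ k)).rho ^ (φ k) *
      (PP M (φ k)).eval 1 ∧ ((φ k : ℝ) * Real.sqrt (φ k)) * (M.G (φ k)).rho ^ (φ k) *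
      (PP M (φ k)).eval 1 ≤ _ ∧ _ * (((φ k : ℝ) * Real.sqrt (φ k)) * (PP M (φ k)).eval 1) ≤
      (PP M (φ k)).derivative.eval 1 ∧ (PP M (φ k)).derivative.eval 1 ≤
      _ * (((φ k : ℝ) * Real.sqrt (φ k)) * (PP M (φ k)).eval 1)
  refine ⟨?_, ?_, ?_, ?_⟩
  · refine le_trans ?_ h2
    rw [inv_le_comm₀ (by positivity) hc]
    linarith
  · linarith
  · refine le_trans (mul_le_mul_of_nonneg_right ?_ hY.le) h3.le
    rw [inv_le_comm₀ (by positivity) (by positivity)]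
    linarith
  · exact h4.le.trans (mul_le_mul_of_nonneg_right (by linarith) hY.le)

end Pool.Agent.KCC.BND

namespace Pool.Agent.KCC

open Filter Topology Pool.Agent.KCC.BND

/-- MODULE BND -/
theorem bnd_thm (hLT : KCG.GLT_Stmt) (hM2 : KCG.GM2_Stmt) (oLT1 : Gap.LT1_Stmt)
    (oM2 : Gap.M2_Stmt) (oBAL : Gap.BAL_Stmt) : BND_Stmt := by
  intro C θ hC hθ hθ1 M
  suffices h : ∃ K : ℝ, 0 < K ∧ ∀ᶠ n : ℕ in atTop, Bd M K n from h
  by_contra hcon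
  push Not at hcon
  have h1 : ∀ j : ℕ, ∃ᶠ n : ℕ in atTop, ¬ Bd M ((j : ℝ) + 1) n := fun j =>
    hcon _ (by positivity)
  obtain ⟨ns, hns, hbad⟩ := Filter.extraction_forall_of_frequently h1
  obtain ⟨ms, hms, q, hq1, hq2, hq3, hlim⟩ := KCG.GFIN.sub_exists hC hθ hθ1 M hns.tendsto_atTop
  obtain ⟨K, hK, hb⟩ := sub_bd hLT hM2 oLT1 oM2 oBAL hC hθ hθ1 M hms hq1 hq2 hq3 hlim
  have hmono : StrictMono ms := fun a b hab => hns.lt_iff_lt.1 (hms hab)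
  have h2 : ∀ᶠ k : ℕ in atTop, K ≤ (ms k : ℝ) :=
    (tendsto_natCast_atTop_atTop.comp hmono.tendsto_atTop).eventually (eventually_ge_atTop K)
  obtain ⟨k, hk1, hk2⟩ := (hb.and h2).exists
  exact hbad (ms k) (hk1.mono hK (by linarith))

end Pool.Agent.KCC
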