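import Pool.Agent.KCC.Stmts

/-!
# Column-convex polygons (MP_f6626d_co): module K5S, sizes of the pieces
-/

set_option autoImplicit false

namespace Pool.Agent.KCC

open Finset Pool.Agent.Lib27
open Pool.Agent.SapR (rot2 wordsUpTo)

namespace K5S

/-- L1 norm -/
def nrm (v : ℤ × ℤ) : ℤ := |v.1| + |v.2|

lemma nrm_add (u v : ℤ × ℤ) : nrm (u + v) ≤ nrm u + nrm v := by
  unfold nrm
  have h1 := abs_add_le u.1 v.1
  have h2 := abs_add_le u.2 v.2
  simp only [Prod.fst_add, Prod.snd_add]
  omega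

lemma nrm_dv (d : Fin 4) : nrm (dv d) = 1 := by
  fin_cases d <;> simp [dv, nrm]

lemma nrm_ep (s : Wd) (p : ℤ × ℤ) : nrm (ep p s - p) ≤ s.length := by
  induction s generalizing p with
  | nil => simp [nrm]
  | cons d s ih =>
    rw [ep_cons]
    have h1 := ih (p + dv d)
    have h2 : ep (p + dv d) s - p = (ep (p + dv d) s - (p + dv d)) + dv d := by abel
    have h3 := nrm_add (ep (p + dv d) s - (p + dv d)) (dv d)
    rw [h2]
    rw [nrm_dv] at h3
    simp only [List.length_cons]
    push_cast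
    omega

lemma nrm_ep0 (s : Wd) : |(ep 0 s).1| + |(ep 0 s).2| ≤ s.length := by
  have := nrm_ep s 0
  rwa [sub_zero] at this

lemma parity (p : ℤ × ℤ) (s : Wd) :
    ∃ c : ℤ, (ep p s).1 + (ep p s).2 = p.1 + p.2 + s.length + 2 * c := by
  induction s generalizing p with
  | nil => exact ⟨0, by simp⟩
  | cons d s ih =>
    obtain ⟨c, hc⟩ := ih (p + dv d)
    rw [ep_cons, hc]
    have h : (dv d).1 + (dv d).2 = 1 ∨ (dv d).1 + (dv d).2 = -1 := by
      fin_cases d <;> simp [dv]
    simp only [Prod.fst_add, Prod.snd_add, List.length_cons]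
    rcases h with h | h
    · exact ⟨c, by push_cast; linear_combination h⟩
    · exact ⟨c - 1, by push_cast; linear_combination h⟩

lemma abs_dbl_le (s : Wd) : |dbl 0 s| ≤ (s.length : ℤ) ^ 2 := by
  have h : ∀ (s : Wd) (p : ℤ × ℤ) (M : ℤ), 0 ≤ M → |p.1| ≤ M → |p.2| ≤ M →
      |dbl p s| ≤ s.length * (M + s.length) := by
    intro s
    induction s with
    | nil => intro p M _ _ _; simp
    | cons d s ih =>
      intro p M hM h1 h2
      rw [dbl_cons]
      have hd : |(dv d).1| ≤ 1 ∧ |(dv d).2| ≤ 1 := by fin_cases d <;> simp [dv]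
      have h3 := ih (p + dv d) (M + 1) (by omega)
        ((abs_add_le _ _).trans (add_le_add h1 hd.1)) ((abs_add_le _ _).trans (add_le_add h2 hd.2))
      have h4 : |p.1 * (dv d).2 - p.2 * (dv d).1| ≤ M := by
        fin_cases d <;> simp [dv, h1, h2]
      have h5 := abs_add_le (p.1 * (dv d).2 - p.2 * (dv d).1) (dbl (p + dv d) s)
      have h6 : (List.length (d :: s) : ℤ) = s.length + 1 := by simp
      rw [h6]
      have h7 : (0 : ℤ) ≤ s.length := by positivity
      nlinarith
  have := h s 0 0 le_rfl (by simp) (by simp)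
  rw [zero_add] at this
  rw [pow_two]
  exact this

end K5S

open K5S in
/-- **Module K5S** -/
theorem k5s_thm : K5S_Stmt := by
  classical
  intro k n p hp
  unfold Pc at hp
  rw [mem_filter] at hp
  obtain ⟨-, ⟨⟨h1, h2, -, -, -, -⟩, hev, -, -⟩, hlen⟩ := hp
  have e1 : p.1.length + p.2.length = 2 * hl p := by
    unfold hl
    obtain ⟨c, hc⟩ := hev
    omega
  have n1 := nrm_ep0 p.1
  have n2 := nrm_ep0 p.2
  have a1 := abs_of_pos h1
  have a2 : |(ep 0 p.2).1| = (ep 0 p.1).1 := by rw [h2, abs_neg, a1]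
  rw [a1] at n1
  rw [a2] at n2
  have b1 := abs_le.1 (le_refl |(ep 0 p.1).2|)
  have b2 := abs_le.1 (le_refl |(ep 0 p.2).2|)
  obtain ⟨c1, hc1⟩ := parity 0 p.1
  obtain ⟨c2, hc2⟩ := parity 0 p.2
  have e1' : (p.1.length : ℤ) + p.2.length = 2 * hl p := by exact_mod_cast e1
  have hh : ht p = htn p := by
    unfold htn
    rw [Int.toNat_of_nonneg]
    unfold ht
    omega
  have hh' : (htn p : ℤ) = (ep 0 p.1).1 := by rw [← hh]; rfl
  have hj : (ep 0 p.1).2 + (ep 0 p.2).2 = -(2 * jump p) := by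
    unfold jump
    simp only [Prod.fst_zero, Prod.snd_zero] at hc1 hc2
    omega
  have d1 := abs_dbl_le p.1
  have d2 := abs_dbl_le p.2
  refine ⟨e1, by omega, by omega, hh, by omega, by omega, ?_, ?_, hj⟩
  · have h3 : |jump p| ≤ (hl p : ℤ) - 1 := by
      rw [abs_le]
      constructor <;> omega
    omega
  · unfold off
    have h7 := abs_add_le (dbl 0 p.1) (dbl 0 p.2)
    have hl1 : (0 : ℤ) ≤ p.1.length := by positivity
    have hl2 : (0 : ℤ) ≤ p.2.length := by positivity
    rw [← e1']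
    nlinarith

end Pool.Agent.KCC
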