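import Pool.Agent.KCC.Defs
import Pool.Agent.Lib_helper27.Count
import Pool.Agent.Lib_helper27.HW

/-!
# Column-convex polygons (MP_f6626d_co): lemmas on crossings

`cx_append`, `cx_add`, `cx_rv`, `cx_rot2`, crossings and columns, parity of crossings, rotation and
reversal of closed words, membership lemmas, arches and their crossings of the line `0`.
-/

set_option autoImplicit false

namespace Pool.Agent.KCC

open Finset Pool.Agent.Lib27
open Pool.Agent.SapR (rot2 wordsUpTo)

/-! ### basic rules -/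

@[simp] lemma cx_nil (h : ℤ) (p : ℤ × ℤ) : cx h p [] = [] := rfl

lemma cx_cons (h : ℤ) (p : ℤ × ℤ) (s : Fin 4) (t : Wd) : cx h p (s :: t) =
    (if (s = 0 ∧ p.1 = h) ∨ (s = 2 ∧ p.1 = h + 1) then [p.2] else []) ++ cx h (p + dv s) t := rfl

lemma dv0 : dv 0 = (1, 0) := by decide
lemma dv1 : dv 1 = (0, 1) := by decide
lemma dv2 : dv 2 = (-1, 0) := by decide
lemma dv3 : dv 3 = (0, -1) := by decide

/-- the four letters -/
lemma letter (s : Fin 4) : s = 0 ∨ s = 1 ∨ s = 2 ∨ s = 3 := by revert s; decide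

lemma cx_append (h : ℤ) (p : ℤ × ℤ) (s t : Wd) : cx h p (s ++ t) = cx h p s ++ cx h (ep p s) t := by
  induction s generalizing p with
  | nil => simp
  | cons a s ih => simp only [List.cons_append, cx_cons, ih, ep_cons, List.append_assoc]

lemma cx_add (h : ℤ) (p q : ℤ × ℤ) (w : Wd) :
    cx h (p + q) w = (cx (h - q.1) p w).map (· + q.2) := by
  induction w generalizing p with
  | nil => simp
  | cons a w ih =>
    rw [cx_cons, cx_cons, show p + q + dv a = p + dv a + q by abel, ih, List.map_append]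
    congr 1
    have e : ((a = 0 ∧ (p + q).1 = h) ∨ (a = 2 ∧ (p + q).1 = h + 1)) ↔
        ((a = 0 ∧ p.1 = h - q.1) ∨ (a = 2 ∧ p.1 = h - q.1 + 1)) := by
      rw [Prod.fst_add]
      constructor <;> rintro (⟨h1, h2⟩ | ⟨h1, h2⟩) <;> [left; right; left; right] <;>
        exact ⟨h1, by omega⟩
    by_cases hc : (a = 0 ∧ p.1 = h - q.1) ∨ (a = 2 ∧ p.1 = h - q.1 + 1)
    · rw [if_pos hc, if_pos (e.2 hc)]; simp
    · rw [if_neg hc, if_neg (fun h' => hc (e.1 h'))]; simp

lemma cx_eq (h : ℤ) (q : ℤ × ℤ) (w : Wd) : cx h q w = (cx (h - q.1) 0 w).map (· + q.2) := by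
  rw [← cx_add, zero_add]

lemma cx_length (h : ℤ) (q : ℤ × ℤ) (w : Wd) : (cx h q w).length = cr w (h - q.1) := by
  rw [cx_eq, List.length_map]; rfl

lemma cr_append (s t : Wd) (h : ℤ) : cr (s ++ t) h = cr s h + cr t (h - (ep 0 s).1) := by
  unfold cr
  rw [cx_append, List.length_append, cx_length h (ep 0 s) t]
  rfl

/-- reversal -/
lemma cx_rv (h : ℤ) (p : ℤ × ℤ) (w : Wd) : cx h (ep p w) (rv w) = (cx h p w).reverse := by
  induction w generalizing p with
  | nil => simp [rv]
  | cons a w ih =>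
    rw [rv_cons, ep_cons, cx_append, ih, ep_rv, cx_cons, cx_nil, List.append_nil, cx_cons h p,
      List.reverse_append]
    congr 1
    have e2 : a + 2 = 0 ↔ a = 2 := by clear ih; revert a; decide
    have e3 : a + 2 = 2 ↔ a = 0 := by clear ih e2; revert a; decide
    have e1 : ((a + 2 = 0 ∧ (p + dv a).1 = h) ∨ (a + 2 = 2 ∧ (p + dv a).1 = h + 1)) ↔
        ((a = 0 ∧ p.1 = h) ∨ (a = 2 ∧ p.1 = h + 1)) := by
      rw [e2, e3, Prod.fst_add]
      constructor
      · rintro (⟨rfl, h2⟩ | ⟨rfl, h2⟩)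
        · right; rw [dv2] at h2; simp only at h2; exact ⟨rfl, by omega⟩
        · left; rw [dv0] at h2; simp only at h2; exact ⟨rfl, by omega⟩
      · rintro (⟨rfl, h2⟩ | ⟨rfl, h2⟩)
        · right; rw [dv0]; simp only; exact ⟨trivial, by omega⟩
        · left; rw [dv2]; simp only; exact ⟨trivial, by omega⟩
    by_cases hc : (a = 0 ∧ p.1 = h) ∨ (a = 2 ∧ p.1 = h + 1)
    · rw [if_pos hc, if_pos (e1.2 hc)]
      have : (p + dv a).2 = p.2 := by
        rw [Prod.snd_add]
        rcases hc with ⟨rfl, _⟩ | ⟨rfl, _⟩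
        · rw [dv0]; simp
        · rw [dv2]; simp
      rw [this]
      rfl
    · rw [if_neg hc, if_neg (fun h' => hc (e1.1 h'))]
      rfl

/-- rotation by 180 degrees -/
lemma cx_rot2 (h : ℤ) (p : ℤ × ℤ) (w : Wd) :
    cx h (-p) (rot2 w) = (cx (-h - 1) p w).map Neg.neg := by
  induction w generalizing p with
  | nil => simp [rot2]
  | cons a w ih =>
    have e : rot2 (a :: w) = (a + 2) :: rot2 w := rfl
    rw [e, cx_cons, cx_cons, dv_add_two, show -p + -dv a = -(p + dv a) by abel, ih,
      List.map_append]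
    congr 1
    have e1 : ((a + 2 = 0 ∧ (-p).1 = h) ∨ (a + 2 = 2 ∧ (-p).1 = h + 1)) ↔
        ((a = 0 ∧ p.1 = -h - 1) ∨ (a = 2 ∧ p.1 = -h - 1 + 1)) := by
      have e2 : a + 2 = 0 ↔ a = 2 := by clear e ih; revert a; decide
      have e3 : a + 2 = 2 ↔ a = 0 := by clear e ih e2; revert a; decide
      rw [e2, e3, Prod.fst_neg]
      constructor
      · rintro (⟨h1, h2⟩ | ⟨h1, h2⟩)
        · right; exact ⟨h1, by omega⟩
        · left; exact ⟨h1, by omega⟩
      · rintro (⟨h1, h2⟩ | ⟨h1, h2⟩)
        · right; exact ⟨h1, by omega⟩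
        · left; exact ⟨h1, by omega⟩
    by_cases hc : (a = 0 ∧ p.1 = -h - 1) ∨ (a = 2 ∧ p.1 = -h - 1 + 1)
    · rw [if_pos hc, if_pos (e1.2 hc)]; simp
    · rw [if_neg hc, if_neg (fun h' => hc (e1.1 h'))]; simp

lemma cx_rot2' (h : ℤ) (w : Wd) : cx h 0 (rot2 w) = (cx (-h - 1) 0 w).map Neg.neg := by
  have := cx_rot2 h 0 w
  rwa [neg_zero] at this

/-! ### crossings and columns -/

lemma cx_eq_nil_of_le (h : ℤ) (p : ℤ × ℤ) (w : Wd) (hw : ∀ v ∈ vt p w, v.1 ≤ h) :
    cx h p w = [] := by
  induction w generalizing p with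
  | nil => rfl
  | cons a w ih =>
    rw [vt_cons] at hw
    rw [cx_cons, ih (p + dv a) (fun v hv => hw v (List.mem_cons_of_mem _ hv)), List.append_nil,
      if_neg]
    have h1 := hw p List.mem_cons_self
    have h2 := hw (p + dv a) (List.mem_cons_of_mem _ (mem_vt_self _ _))
    rintro (⟨rfl, h3⟩ | ⟨rfl, h3⟩)
    · rw [dv0, Prod.fst_add] at h2
      simp only at h2
      omega
    · omega

lemma cx_eq_nil_of_lt (h : ℤ) (p : ℤ × ℤ) (w : Wd) (hw : ∀ v ∈ vt p w, h < v.1) :
    cx h p w = [] := by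
  induction w generalizing p with
  | nil => rfl
  | cons a w ih =>
    rw [vt_cons] at hw
    rw [cx_cons, ih (p + dv a) (fun v hv => hw v (List.mem_cons_of_mem _ hv)), List.append_nil,
      if_neg]
    have h1 := hw p List.mem_cons_self
    have h2 := hw (p + dv a) (List.mem_cons_of_mem _ (mem_vt_self _ _))
    rintro (⟨rfl, h3⟩ | ⟨rfl, h3⟩)
    · omega
    · rw [dv2, Prod.fst_add] at h2
      simp only at h2
      omega

/-- parity of the number of crossings -/
lemma cx_parity (h : ℤ) (p : ℤ × ℤ) (w : Wd) :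
    Even (cx h p w).length ↔ (p.1 ≤ h ↔ (ep p w).1 ≤ h) := by
  induction w generalizing p with
  | nil => simp
  | cons a w ih =>
    rw [cx_cons, ep_cons, List.length_append, Nat.even_add, ih (p + dv a)]
    rcases letter a with rfl | rfl | rfl | rfl
    · rw [dv0]
      have e : (p + ((1 : ℤ), (0 : ℤ))).1 = p.1 + 1 := rfl
      rw [e]
      by_cases hc : p.1 = h
      · rw [if_pos (Or.inl ⟨rfl, hc⟩)]
        have e1 : ¬ (p.1 + 1 ≤ h) := by omega
        have e2 : p.1 ≤ h := by omega
        simp [e1, e2]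
      · rw [if_neg (by rintro (⟨_, h2⟩ | ⟨h1, _⟩); exact hc h2; exact absurd h1 (by decide))]
        have e1 : (p.1 + 1 ≤ h) ↔ p.1 ≤ h := by omega
        simp [e1]
    · rw [dv1]
      have e : (p + ((0 : ℤ), (1 : ℤ))).1 = p.1 := by rw [Prod.fst_add]; simp
      rw [e, if_neg (by rintro (⟨h1, _⟩ | ⟨h1, _⟩) <;> exact absurd h1 (by decide))]
      simp
    · rw [dv2]
      have e : (p + ((-1 : ℤ), (0 : ℤ))).1 = p.1 - 1 := by rw [Prod.fst_add]; ring
      rw [e]
      by_cases hc : p.1 = h + 1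
      · rw [if_pos (Or.inr ⟨rfl, hc⟩)]
        have e1 : p.1 - 1 ≤ h := by omega
        have e2 : ¬ (p.1 ≤ h) := by omega
        simp [e1, e2]
      · rw [if_neg (by rintro (⟨h1, _⟩ | ⟨_, h2⟩); exact absurd h1 (by decide); exact hc h2)]
        have e1 : (p.1 - 1 ≤ h) ↔ p.1 ≤ h := by omega
        simp [e1]
    · rw [dv3]
      have e : (p + ((0 : ℤ), (-1 : ℤ))).1 = p.1 := by rw [Prod.fst_add]; simp
      rw [e, if_neg (by rintro (⟨h1, _⟩ | ⟨h1, _⟩) <;> exact absurd h1 (by decide))]
      simp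

/-- a word which goes from the left of the line to its right crosses it -/
lemma cx_pos (h : ℤ) (p : ℤ × ℤ) (w : Wd) (h1 : p.1 ≤ h) (h2 : h < (ep p w).1) :
    0 < (cx h p w).length := by
  rcases Nat.eq_zero_or_pos (cx h p w).length with h0 | h0
  · exfalso
    have := (cx_parity h p w).1 (by rw [h0]; exact Even.zero)
    have := this.1 h1
    omega
  · exact h0

lemma cx_pos' (h : ℤ) (p : ℤ × ℤ) (w : Wd) (h1 : h < p.1) (h2 : (ep p w).1 ≤ h) :
    0 < (cx h p w).length := by
  rcases Nat.eq_zero_or_pos (cx h p w).length with h0 | h0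
  · exfalso
    have := (cx_parity h p w).1 (by rw [h0]; exact Even.zero)
    have := this.2 h2
    omega
  · exact h0

/-- number of crossings of a word is at most its length -/
lemma cx_length_le (h : ℤ) (p : ℤ × ℤ) (w : Wd) : (cx h p w).length ≤ w.length := by
  induction w generalizing p with
  | nil => simp
  | cons a w ih =>
    rw [cx_cons, List.length_append, List.length_cons]
    have := ih (p + dv a)
    split_ifs <;> simp <;> omega

/-- a line far away is not crossed -/
lemma cr_eq_zero (w : Wd) (h : ℤ) (hh : (w.length : ℤ) ≤ |h|) (h0 : h ≠ -(w.length : ℤ)) :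
    cr w h = 0 := by
  have hb : ∀ (p : ℤ × ℤ) (u : Wd), ∀ v ∈ vt p u, |v.1 - p.1| ≤ u.length := by
    intro p u
    induction u generalizing p with
    | nil => intro v hv; rw [vt_nil, List.mem_singleton] at hv; subst hv; simp
    | cons a u ih =>
      intro v hv
      rw [vt_cons, List.mem_cons] at hv
      rcases hv with rfl | hv
      · simp; positivity
      · have h1 := ih (p + dv a) v hv
        have h2 : |(dv a).1| ≤ 1 := by clear h1 hv; revert a; decide
        rw [Prod.fst_add, abs_le] at h1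
        rw [abs_le] at h2 ⊢
        push_cast [List.length_cons]
        constructor <;> omega
  unfold cr
  rw [List.length_eq_zero_iff]
  rcases le_or_gt 0 h with hp | hp
  · apply cx_eq_nil_of_le
    intro v hv
    have := hb 0 w v hv
    rw [abs_of_nonneg hp] at hh
    rw [abs_le] at this
    simp only [Prod.fst_zero, sub_zero] at this
    omega
  · apply cx_eq_nil_of_lt
    intro v hv
    have := hb 0 w v hv
    rw [abs_of_neg hp] at hh
    rw [abs_le] at this
    simp only [Prod.fst_zero, sub_zero] at this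
    omega

/-! ### closed words: rotation and reversal -/

lemma cx_rotate (u v : Wd) (h : ep 0 (u ++ v) = 0) (k : ℤ) :
    cx k 0 (v ++ u) = (cx (k + (ep 0 u).1) (ep 0 u) v ++ cx (k + (ep 0 u).1) 0 u).map
      (· + -(ep 0 u).2) := by
  have h1 : ep 0 v = -(ep 0 u) := by
    rw [ep_append, ep_eq (ep 0 u) v] at h
    exact eq_neg_of_add_eq_zero_left h
  rw [cx_append, h1, List.map_append]
  congr 1
  · have := cx_add k (ep 0 u) (-(ep 0 u)) v
    rw [add_neg_cancel] at this
    rw [this, Prod.fst_neg, Prod.snd_neg, sub_neg_eq_add]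
  · have := cx_add k 0 (-(ep 0 u)) u
    rw [zero_add] at this
    rw [this, Prod.fst_neg, Prod.snd_neg, sub_neg_eq_add]

lemma cr_rotate (u v : Wd) (h : ep 0 (u ++ v) = 0) (k : ℤ) :
    cr (v ++ u) k = cr (u ++ v) (k + (ep 0 u).1) := by
  unfold cr
  rw [cx_rotate u v h k, List.length_map, cx_append, List.length_append, List.length_append,
    add_comm]

lemma EC_rotate (u v : Wd) (h : ep 0 (u ++ v) = 0) (k : ℤ) :
    EC (v ++ u) k ↔ EC (u ++ v) (k + (ep 0 u).1) := by
  unfold EC
  rw [cx_rotate u v h k, cx_append]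
  set a := cx (k + (ep 0 u).1) 0 u
  set b := cx (k + (ep 0 u).1) (ep 0 u) v
  set c := -(ep 0 u).2
  constructor
  · rintro ⟨y, y', h1, h2⟩
    rcases hb : b with _ | ⟨b1, b⟩
    · rw [hb, List.nil_append] at h1
      rcases ha : a with _ | ⟨a1, _ | ⟨a2, a⟩⟩
      · simp [ha] at h1
      · simp [ha] at h1
      · rw [ha] at h1
        simp only [List.map_cons, List.cons.injEq, List.map_eq_nil_iff] at h1
        obtain ⟨e1, e2, rfl⟩ := h1
        refine ⟨a1, a2, rfl, ?_⟩
        have : a1 - a2 = y - y' := by omega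
        rwa [this]
    · rcases ha : a with _ | ⟨a1, a⟩
      · rw [hb, ha] at h1
        rcases b with _ | ⟨b2, b⟩
        · simp at h1
        · simp only [List.cons_append, List.append_nil, List.map_cons, List.cons.injEq,
            List.map_eq_nil_iff] at h1
          obtain ⟨e1, e2, rfl⟩ := h1
          refine ⟨b1, b2, rfl, ?_⟩
          have : b1 - b2 = y - y' := by omega
          rwa [this]
      · rw [hb, ha] at h1
        have hl := congrArg List.length h1
        simp only [List.length_map, List.length_append, List.length_cons, List.length_nil] at hl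
        have hb0 : b = [] := List.length_eq_zero_iff.1 (by omega)
        have ha0 : a = [] := List.length_eq_zero_iff.1 (by omega)
        subst hb0 ha0
        simp only [List.cons_append, List.nil_append, List.map_cons, List.map_nil,
          List.cons.injEq, and_true] at h1
        refine ⟨a1, b1, rfl, ?_⟩
        have : a1 - b1 = -(y - y') := by omega
        rw [this]
        exact h2.neg
  · rintro ⟨y, y', h1, h2⟩
    rcases ha : a with _ | ⟨a1, a⟩
    · rw [ha, List.nil_append] at h1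
      refine ⟨y + c, y' + c, ?_, ?_⟩
      · rw [h1]; rfl
      · have : y + c - (y' + c) = y - y' := by ring
        rwa [this]
    · rcases hb : b with _ | ⟨b1, b⟩
      · rw [ha, hb, List.append_nil] at h1
        refine ⟨y + c, y' + c, ?_, ?_⟩
        · rw [h1]; rfl
        · have : y + c - (y' + c) = y - y' := by ring
          rwa [this]
      · rw [ha, hb] at h1
        have hl := congrArg List.length h1
        simp only [List.length_append, List.length_cons, List.length_nil] at hl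
        have hb0 : b = [] := List.length_eq_zero_iff.1 (by omega)
        have ha0 : a = [] := List.length_eq_zero_iff.1 (by omega)
        subst hb0 ha0
        simp only [List.cons_append, List.nil_append, List.cons.injEq, and_true] at h1
        refine ⟨b1 + c, a1 + c, rfl, ?_⟩
        have : b1 + c - (a1 + c) = -(y - y') := by omega
        rw [this]
        exact h2.neg

lemma Nar_rotate (k : ℕ) (u v : Wd) (h : ep 0 (u ++ v) = 0) : Nar k (v ++ u) ↔ Nar k (u ++ v) := by
  unfold Nar
  constructor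
  · intro hk j
    have := hk (j - (ep 0 u).1)
    rwa [cr_rotate u v h, sub_add_cancel] at this
  · intro hk j
    rw [cr_rotate u v h]
    exact hk _

/-- reversal of a closed word -/
lemma cx_rv_closed (s : Wd) (h : ep 0 s = 0) (k : ℤ) : cx k 0 (rv s) = (cx k 0 s).reverse := by
  have := cx_rv k 0 s
  rwa [h] at this

lemma EC_rv (s : Wd) (h : ep 0 s = 0) (k : ℤ) : EC (rv s) k ↔ EC s k := by
  unfold EC
  rw [cx_rv_closed s h k]
  constructor
  · rintro ⟨y, y', h1, h2⟩
    refine ⟨y', y, ?_, ?_⟩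
    · rw [← List.reverse_reverse (cx k 0 s), h1]; rfl
    · have : y' - y = -(y - y') := by ring
      rw [this]; exact h2.neg
  · rintro ⟨y, y', h1, h2⟩
    refine ⟨y', y, ?_, ?_⟩
    · rw [h1]; rfl
    · have : y' - y = -(y - y') := by ring
      rw [this]; exact h2.neg

lemma cr_rv (s : Wd) (h : ep 0 s = 0) (k : ℤ) : cr (rv s) k = cr s k := by
  unfold cr
  rw [cx_rv_closed s h k, List.length_reverse]

lemma Nar_rv (k : ℕ) (s : Wd) (h : ep 0 s = 0) : Nar k (rv s) ↔ Nar k s := by
  unfold Nar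
  simp only [cr_rv s h]

/-! ### membership -/

lemma mem_Fam (k n : ℕ) (s : Wd) : s ∈ Fam k n ↔ s ∈ W n ∧ Nar k s := by
  classical
  unfold Fam
  rw [mem_filter]

lemma mem_NoCut (k n : ℕ) (s : Wd) :
    s ∈ NoCut k n ↔ s ∈ W n ∧ Nar k s ∧ ∀ h : ℤ, ¬ EC s h := by
  classical
  unfold NoCut
  rw [mem_filter]

lemma mem_ArchSet (k : ℕ) (g : ℤ) (N : ℕ) (w : Wd) :
    w ∈ ArchSet k g N ↔ w.length = N ∧ Arch g w ∧ Nar k w := by
  classical
  rw [ArchSet, mem_filter, mem_words]

lemma mem_CapSet (k : ℕ) (g : ℤ) (N : ℕ) (w : Wd) :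
    w ∈ CapSet k g N ↔ w.length = N ∧ Arch g w ∧ Nar k w ∧ ∀ h : ℤ, 1 ≤ h → ¬ EC w h := by
  classical
  rw [CapSet, mem_filter, mem_words]

lemma mem_wordsUpTo (M : ℕ) (w : Wd) : w ∈ wordsUpTo M ↔ w.length ≤ M := by
  unfold wordsUpTo
  rw [mem_biUnion]
  constructor
  · rintro ⟨m, h1, h2⟩
    rw [mem_words] at h2
    rw [mem_range] at h1
    omega
  · intro h
    exact ⟨w.length, mem_range.2 (by omega), (mem_words _ _).2 rfl⟩

lemma mem_Pc (k n : ℕ) (p : Wd × Wd) :
    p ∈ Pc k n ↔ FreePiece k p.1 p.2 ∧ p.1.length + p.2.length ≤ 2 * n := by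
  classical
  unfold Pc
  rw [mem_filter, mem_product, mem_wordsUpTo, mem_wordsUpTo]
  constructor
  · rintro ⟨_, h⟩; exact h
  · intro h; exact ⟨⟨by omega, by omega⟩, h⟩

lemma mem_allowed (k n : ℕ) (g : ℤ) (p : Wd × Wd) :
    p ∈ allowed k n g ↔ p ∈ Pc k n ∧ 1 ≤ g ∧ 1 ≤ g + jump p ∧ Disj g p := by
  classical
  unfold allowed
  rw [mem_filter]

/-! ### arches -/

lemma mem_vt_iff (p : ℤ × ℤ) (w : Wd) (v : ℤ × ℤ) : v ∈ vt p w ↔ v ∈ vs p w ∨ v = ep p w := by
  unfold vt
  rw [List.mem_append, List.mem_singleton]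

/-- an arch is an east step, a word, a west step -/
lemma Arch_eq {g : ℤ} {w : Wd} (hw : Arch g w) (hg : g ≠ 0) : ∃ u : Wd, w = 0 :: u ++ [2] := by
  obtain ⟨h0, h1, h2, h3⟩ := hw
  rcases w with _ | ⟨a, w⟩
  · exact absurd rfl h0
  rcases List.eq_nil_or_concat w with rfl | ⟨u, b, rfl⟩
  · exfalso
    rw [ep_cons, ep_nil, zero_add] at h1
    rcases letter a with rfl | rfl | rfl | rfl
    · rw [dv0] at h1; simp at h1
    · rw [dv1, Prod.mk.injEq] at h1; omega
    · rw [dv2] at h1; simp at h1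
    · rw [dv3, Prod.mk.injEq] at h1; omega
  · refine ⟨u, ?_⟩
    have ha : a = 0 := by
      have hm : (0 : ℤ × ℤ) + dv a ∈ (vs 0 (a :: u.concat b)).tail := by
        rw [vs_cons, List.tail_cons]
        cases u with
        | nil => simp
        | cons c u => simp
      have := h3 _ hm
      rw [zero_add] at this
      revert this
      rcases letter a with rfl | rfl | rfl | rfl <;> simp [dv]
    subst ha
    have hb : b = 2 := by
      have hm : ep 0 (0 :: u) ∈ (vs 0 (0 :: u.concat b)).tail := by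
        rw [vs_cons, List.tail_cons, List.concat_eq_append, vs_append, ep_cons]
        simp
      have h4 := h3 _ hm
      rw [List.concat_eq_append, ← List.cons_append, ep_append, ep_cons, ep_nil] at h1
      have h5 : (ep 0 (0 :: u)).1 + (dv b).1 = 0 := by
        have := congrArg Prod.fst h1
        rw [Prod.fst_add] at this
        exact this
      rcases letter b with rfl | rfl | rfl | rfl
      · rw [dv0] at h5; simp only at h5; omega
      · rw [dv1] at h5; simp only at h5; omega
      · rfl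
      · rw [dv3] at h5; simp only at h5; omega
    subst hb
    rw [List.concat_eq_append]
    rfl

/-- the crossings of the lines `0` and below by an arch -/
lemma Arch_inner {g : ℤ} {u : Wd} (hw : Arch g (0 :: u ++ [2])) :
    (∀ v ∈ vt (1, 0) u, 0 < v.1) ∧ ep (1, 0) u = (1, 2 * g) := by
  obtain ⟨h0, h1, h2, h3⟩ := hw
  have e1 : vs 0 (0 :: u ++ [2]) = 0 :: vt (1, 0) u := by
    rw [List.cons_append, vs_cons, vs_append]
    have : (0 : ℤ × ℤ) + dv 0 = (1, 0) := by rw [dv0]; rfl
    rw [this]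
    rfl
  refine ⟨fun v hv => h3 v (by rw [e1]; exact hv), ?_⟩
  rw [List.cons_append, ep_cons, ep_append, ep_cons, ep_nil] at h1
  have : (0 : ℤ × ℤ) + dv 0 = (1, 0) := by rw [dv0]; rfl
  rw [this, dv2] at h1
  have h4 := congrArg Prod.fst h1
  have h5 := congrArg Prod.snd h1
  rw [Prod.fst_add] at h4
  rw [Prod.snd_add] at h5
  simp only at h4 h5
  ext
  · simp only; omega
  · simp only; omega

lemma Arch_cx_zero {g : ℤ} {w : Wd} (hw : Arch g w) (hg : g ≠ 0) : cx 0 0 w = [0, 2 * g] := by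
  obtain ⟨u, rfl⟩ := Arch_eq hw hg
  obtain ⟨h1, h2⟩ := Arch_inner hw
  have e : (0 : ℤ × ℤ) + dv 0 = (1, 0) := by rw [dv0]; rfl
  rw [List.cons_append, cx_cons, cx_append, e, h2, cx_eq_nil_of_lt 0 (1, 0) u h1, cx_cons, cx_nil]
  simp

lemma Arch_cx_neg {g : ℤ} {w : Wd} (hw : Arch g w) (hg : g ≠ 0) (h : ℤ) (hh : h < 0) :
    cx h 0 w = [] := by
  obtain ⟨u, rfl⟩ := Arch_eq hw hg
  obtain ⟨h1, h2⟩ := Arch_inner hw
  apply cx_eq_nil_of_lt
  intro v hv
  have e : (0 : ℤ × ℤ) + dv 0 = (1, 0) := by rw [dv0]; rfl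
  rw [mem_vt_iff, hw.2.1, List.cons_append, vs_cons, vs_append, e] at hv
  rcases hv with hv | rfl
  · rw [List.mem_cons] at hv
    rcases hv with rfl | hv
    · exact hh
    · have := h1 v hv
      omega
  · exact hh

end Pool.Agent.KCC
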