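import Pool.Agent.KCC.Stmts3
import Pool.Agent.KCC.Lib
import Pool.Agent.KCC.K5S
import Pool.Agent.Lib_helper27.Transl

/-!
# Column-convex polygons (MP_f6626d_co), module CNT: number of polygons and mean area for fixed `k`
-/

set_option autoImplicit false

namespace Pool.Agent.KCC

open Finset Filter Topology MeasureTheory Pool.Agent.Lib27 Pool.Agent.AreaLaw

namespace CNT


/-- bounds for all `n ≥ 2` from bounds for large `n` -/
lemma all_of_ev (f : ℕ → ℝ) (hf : ∀ n, 2 ≤ n → 0 < f n) {C : ℝ} (hC : 0 < C)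
    (h : ∀ᶠ n : ℕ in atTop, C⁻¹ ≤ f n ∧ f n ≤ C) :
    ∃ C1 : ℝ, 0 < C1 ∧ ∀ n : ℕ, 2 ≤ n → C1⁻¹ ≤ f n ∧ f n ≤ C1 := by
  obtain ⟨N, hN⟩ := eventually_atTop.1 h
  obtain ⟨D, hD⟩ : ∃ D : ℝ, D = ∑ n ∈ range N, (|f n| + |f n|⁻¹) := ⟨_, rfl⟩
  have hD0 : 0 ≤ D := by rw [hD]; positivity
  have hle : ∀ n ∈ range N, |f n| + |f n|⁻¹ ≤ D := by
    intro n hn
    rw [hD]
    exact single_le_sum (f := fun n => |f n| + |f n|⁻¹) (fun i _ => by positivity) hn
  refine ⟨C + D, by positivity, ?_⟩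
  intro n hn
  have hp := hf n hn
  rcases lt_or_ge n N with hlt | hge
  · have h1 := hle n (mem_range.2 hlt)
    rw [abs_of_pos hp] at h1
    have h2 : 0 < (f n)⁻¹ := inv_pos.2 hp
    refine ⟨?_, by linarith⟩
    rw [inv_le_comm₀ (by positivity) hp]
    linarith
  · obtain ⟨h1, h2⟩ := hN n hge
    refine ⟨le_trans ?_ h1, by linarith⟩
    exact inv_anti₀ hC (by linarith)

lemma exists_cub {θ : ℝ} (h0 : 0 < θ) (h1 : θ < 1) :
    ∃ c : ℝ, 0 < c ∧ ∀ n : ℕ, (n : ℝ) ^ 3 * θ ^ n ≤ c := by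
  have h := tendsto_pow_const_mul_const_pow_of_abs_lt_one 3 (r := θ)
    (by rw [abs_of_pos h0]; exact h1)
  obtain ⟨c, hc⟩ := h.bddAbove_range
  refine ⟨max c 1, lt_max_of_lt_right one_pos, fun n => ?_⟩
  exact le_max_of_le_left (hc ⟨n, rfl⟩)

lemma tendsto_err (a b : ℝ) :
    Tendsto (fun n : ℕ => a * (Real.log n / Real.sqrt n) + b / (n : ℝ) ^ 5) atTop (𝓝 0) := by
  have hs : Tendsto (fun n : ℕ => Real.sqrt (n : ℝ)) atTop atTop :=
    Real.tendsto_sqrt_atTop.comp tendsto_natCast_atTop_atTop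
  have h1 : Tendsto (fun x : ℝ => Real.log x / x) atTop (𝓝 0) :=
    Real.isLittleO_log_id_atTop.tendsto_div_nhds_zero
  have h2 : Tendsto (fun n : ℕ => Real.log n / Real.sqrt n) atTop (𝓝 0) := by
    have h3 := (h1.comp hs).const_mul 2
    rw [mul_zero] at h3
    refine h3.congr fun n => ?_
    simp only [Function.comp]
    rw [Real.log_sqrt (Nat.cast_nonneg n)]
    ring
  have h4 : Tendsto (fun n : ℕ => b / (n : ℝ) ^ 5) atTop (𝓝 0) := by
    apply Tendsto.const_div_atTop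
    exact (tendsto_pow_atTop (by norm_num)).comp tendsto_natCast_atTop_atTop
  have h5 := (h2.const_mul a).add h4
  rw [mul_zero, add_zero] at h5
  exact h5

lemma log_le {n : ℕ} (hn : 1 ≤ n) : Real.log n ≤ 2 * Real.sqrt n := by
  have h0 : (0 : ℝ) < n := by exact_mod_cast hn
  have h1 : 0 < Real.sqrt n := Real.sqrt_pos.2 h0
  have h2 := Real.log_le_sub_one_of_pos h1
  rw [Real.log_sqrt h0.le] at h2
  linarith

/-- the estimates for one large `n` -/
lemma step {n : ℕ} (hn : 2 ≤ n) {E A S Nc Sn rho q θ C2 C3 C' C5 c : ℝ} (hE : 0 ≤ E)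
    (hrho : 0 < rho) (hq : 0 < q) (hθ : 0 < θ) (hC2 : 0 < C2) (hC3 : 0 < C3) (hC' : 0 < C')
    (hC5 : 0 < C5) (hc : 0 < c) (hNc : 0 ≤ Nc) (hSn : 0 ≤ Sn)
    (h1 : C2⁻¹ ≤ ((n : ℝ) * Real.sqrt n) * rho ^ n * E)
    (h1' : ((n : ℝ) * Real.sqrt n) * rho ^ n * E ≤ C2)
    (h2 : C2⁻¹ * (((n : ℝ) * Real.sqrt n) * E) ≤ A)
    (h2' : A ≤ C2 * (((n : ℝ) * Real.sqrt n) * E))
    (h3 : |S - A| ≤ C5 * n * Real.log n * E + C5 / ((n : ℝ) ^ 5 * rho ^ n))
    (h4 : Nc * rho ^ n ≤ C' * n * θ ^ n) (h5 : Sn ≤ 2 * (n : ℝ) ^ 2 * Nc)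
    (h6 : q ≤ rho) (h6' : (rho / q) ^ n ≤ C3)
    (h7 : (n : ℝ) ^ 3 * θ ^ n ≤ c)
    (h8 : C5 * (Real.log n / Real.sqrt n) + C5 * C2 / (n : ℝ) ^ 5 ≤ C2⁻¹ / 2) :
    (4 * (C3 * C2)⁻¹ ≤ q ^ n * Real.sqrt n * (4 * n * E + Nc) ∧
      q ^ n * Real.sqrt n * (4 * n * E + Nc) ≤ 4 * C2 + C' * c) ∧
    2 * C2⁻¹ * (((n : ℝ) * Real.sqrt n) * (4 * n * E + Nc)) ≤
      (4 + C' * c * C2) * (4 * n * S + Sn) ∧
    4 * n * S + Sn ≤ (4 * C2 + 8 * C5 + 4 * C5 * C2 + 2 * c * C' * C2) *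
      (((n : ℝ) * Real.sqrt n) * (4 * n * E + Nc)) := by
  have hn0 : (0 : ℝ) < n := by exact_mod_cast (by omega : 0 < n)
  have hn1 : (1 : ℝ) ≤ n := by exact_mod_cast (by omega : 1 ≤ n)
  have hs0 : 0 < Real.sqrt n := Real.sqrt_pos.2 hn0
  have hs1 : 1 ≤ Real.sqrt n := by
    rw [Real.one_le_sqrt]; exact hn1
  have hss : Real.sqrt n * Real.sqrt n = n := Real.mul_self_sqrt hn0.le
  have hsn : Real.sqrt n ≤ n := by nlinarith
  have hnn : (n : ℝ) * Real.sqrt n ≤ (n : ℝ) ^ 2 := by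
    rw [pow_two]; exact mul_le_mul_of_nonneg_left hsn hn0.le
  have hn2 : (n : ℝ) ≤ (n : ℝ) ^ 2 := by
    rw [pow_two]; exact le_mul_of_one_le_left hn0.le hn1
  have hlog := log_le (by omega : 1 ≤ n)
  have hlog0 : 0 ≤ Real.log n := Real.log_nonneg hn1
  obtain ⟨x, hx⟩ : ∃ x, x = (n : ℝ) * Real.sqrt n * E := ⟨_, rfl⟩
  obtain ⟨R, hR⟩ : ∃ R, R = rho ^ n := ⟨_, rfl⟩
  obtain ⟨Q, hQ⟩ : ∃ Q, Q = q ^ n := ⟨_, rfl⟩
  obtain ⟨s, hs⟩ : ∃ s, s = Real.sqrt (n : ℝ) := ⟨_, rfl⟩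
  obtain ⟨t, htt⟩ : ∃ t, t = θ ^ n := ⟨_, rfl⟩
  have hR0 : 0 < R := by rw [hR]; positivity
  have hQ0 : 0 < Q := by rw [hQ]; positivity
  have ht0 : 0 < t := by rw [htt]; positivity
  have hx0 : 0 ≤ x := by rw [hx]; positivity
  have hRx : C2⁻¹ ≤ R * x := by
    have e : (n : ℝ) * Real.sqrt n * rho ^ n * E = R * x := by rw [hR, hx]; ring
    rw [← e]; exact h1
  have hRx' : R * x ≤ C2 := by
    have e : (n : ℝ) * Real.sqrt n * rho ^ n * E = R * x := by rw [hR, hx]; ring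
    rw [← e]; exact h1'
  have hRinv : R⁻¹ ≤ C2 * x := by
    rw [inv_le_iff_one_le_mul₀ hR0]
    have := mul_le_mul_of_nonneg_left hRx hC2.le
    rw [mul_inv_cancel₀ hC2.ne'] at this
    have e : C2 * (R * x) = C2 * x * R := by ring
    rw [← e]; exact this
  have hQR : Q ≤ R := by rw [hQ, hR]; exact pow_le_pow_left₀ hq.le h6 n
  have hRQ : R ≤ C3 * Q := by
    rw [div_pow, div_le_iff₀ (by positivity)] at h6'
    rw [hQ, hR]; exact h6'
  have hxx : x ≤ n * x := le_mul_of_one_le_left hx0 hn1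
  have hA1 : C2⁻¹ * x ≤ A := by rw [hx]; exact h2
  have hA2 : A ≤ C2 * x := by rw [hx]; exact h2'
  have hNcR : Nc * R ≤ C' * n * t := by rw [hR, htt]; exact h4
  have hcub : (n : ℝ) ^ 3 * t ≤ c := by rw [htt]; exact h7
  -- the words without even cut
  have hNc2 : (n : ℝ) ^ 2 * Nc ≤ c * C' * C2 * x := by
    have e1 : Nc ≤ C' * n * t * R⁻¹ := by
      rw [← div_eq_mul_inv, le_div_iff₀ hR0]; exact hNcR
    calc (n : ℝ) ^ 2 * Nc ≤ (n : ℝ) ^ 2 * (C' * n * t * R⁻¹) :=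
          mul_le_mul_of_nonneg_left e1 (by positivity)
      _ = ((n : ℝ) ^ 3 * t) * (C' * R⁻¹) := by ring
      _ ≤ c * (C' * R⁻¹) := mul_le_mul_of_nonneg_right hcub (by positivity)
      _ ≤ c * (C' * (C2 * x)) := by
          apply mul_le_mul_of_nonneg_left _ hc.le
          exact mul_le_mul_of_nonneg_left hRinv hC'.le
      _ = c * C' * C2 * x := by ring
  -- the error
  have e5 : C5 / ((n : ℝ) ^ 5 * rho ^ n) ≤ C5 * C2 / (n : ℝ) ^ 5 * x := by
    rw [← hR]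
    have : C5 / ((n : ℝ) ^ 5 * R) = C5 / (n : ℝ) ^ 5 * R⁻¹ := by
      rw [← div_div, div_eq_mul_inv]
    rw [this]
    calc C5 / (n : ℝ) ^ 5 * R⁻¹ ≤ C5 / (n : ℝ) ^ 5 * (C2 * x) :=
          mul_le_mul_of_nonneg_left hRinv (by positivity)
      _ = C5 * C2 / (n : ℝ) ^ 5 * x := by ring
  have e6 : C5 * n * Real.log n * E = C5 * (Real.log n / Real.sqrt n) * x := by
    rw [hx]
    field_simp
  have hSA := abs_le.1 h3
  rw [e6] at hSA
  have herr : C5 * (Real.log n / Real.sqrt n) * x + C5 / ((n : ℝ) ^ 5 * rho ^ n) ≤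
      C2⁻¹ / 2 * x := by
    have := mul_le_mul_of_nonneg_right h8 hx0
    rw [add_mul] at this
    linarith
  have herr2 : C5 * (Real.log n / Real.sqrt n) * x + C5 / ((n : ℝ) ^ 5 * rho ^ n) ≤
      (2 * C5 + C5 * C2) * x := by
    have a1 : Real.log n / Real.sqrt n ≤ 2 := by rw [div_le_iff₀ hs0]; exact hlog
    have a2 : C5 * C2 / (n : ℝ) ^ 5 ≤ C5 * C2 := by
      apply div_le_self (by positivity)
      exact one_le_pow₀ hn1
    have a3 := mul_le_mul_of_nonneg_right (mul_le_mul_of_nonneg_left a1 hC5.le) hx0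
    have a4 := mul_le_mul_of_nonneg_right a2 hx0
    have a5 : (2 * C5 + C5 * C2) * x = C5 * 2 * x + C5 * C2 * x := by ring
    rw [a5]
    linarith
  have hSlo : C2⁻¹ / 2 * x ≤ S := by
    have : C2⁻¹ * x = C2⁻¹ / 2 * x + C2⁻¹ / 2 * x := by ring
    linarith [hSA.1]
  have hShi : S ≤ (C2 + (2 * C5 + C5 * C2)) * x := by
    rw [add_mul]; linarith [hSA.2]
  have hK : (n : ℝ) * Real.sqrt n * (4 * n * E + Nc) = 4 * n * x + (n : ℝ) * Real.sqrt n * Nc := by
    rw [hx]; ring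
  have hKx : Real.sqrt n * (4 * n * E + Nc) = 4 * x + Real.sqrt n * Nc := by
    rw [hx]; ring
  refine ⟨⟨?_, ?_⟩, ?_, ?_⟩
  · rw [mul_assoc, hKx, ← hQ]
    have a1 : 4 * (C3 * C2)⁻¹ ≤ Q * (4 * x) := by
      have a2 : C2⁻¹ ≤ C3 * (Q * x) := by
        calc C2⁻¹ ≤ R * x := hRx
          _ ≤ C3 * Q * x := mul_le_mul_of_nonneg_right hRQ hx0
          _ = C3 * (Q * x) := by ring
      have a3 : (C3 * C2)⁻¹ ≤ Q * x := by
        rw [mul_inv, inv_mul_le_iff₀ hC3]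
        exact a2
      linarith
    have a4 : 0 ≤ Q * (Real.sqrt n * Nc) := by positivity
    rw [mul_add]
    linarith
  · rw [mul_assoc, hKx, ← hQ, mul_add]
    have a1 : Q * (4 * x) ≤ 4 * C2 := by
      have := mul_le_mul_of_nonneg_right hQR hx0
      linarith
    have a2 : Q * (Real.sqrt n * Nc) ≤ C' * c := by
      calc Q * (Real.sqrt n * Nc) ≤ R * ((n : ℝ) ^ 2 * Nc) := by
            apply mul_le_mul hQR _ (by positivity) hR0.le
            exact mul_le_mul_of_nonneg_right (hsn.trans hn2) hNc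
        _ = (n : ℝ) ^ 2 * (Nc * R) := by ring
        _ ≤ (n : ℝ) ^ 2 * (C' * n * t) := mul_le_mul_of_nonneg_left hNcR (by positivity)
        _ = C' * ((n : ℝ) ^ 3 * t) := by ring
        _ ≤ C' * c := mul_le_mul_of_nonneg_left hcub hC'.le
    linarith
  · rw [hK]
    have a1 : (n : ℝ) * Real.sqrt n * Nc ≤ c * C' * C2 * x := by
      refine le_trans ?_ hNc2
      exact mul_le_mul_of_nonneg_right hnn hNc
    have a2 : c * C' * C2 * x ≤ c * C' * C2 * (n * x) :=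
      mul_le_mul_of_nonneg_left hxx (by positivity)
    have a3 : 4 * n * x + (n : ℝ) * Real.sqrt n * Nc ≤ (4 + C' * c * C2) * (n * x) := by
      have e : (4 + C' * c * C2) * (n * x) = 4 * n * x + c * C' * C2 * (n * x) := by ring
      rw [e]
      linarith
    have a4 : 2 * C2⁻¹ * (n * x) ≤ 4 * n * S := by
      have := mul_le_mul_of_nonneg_left hSlo (show (0 : ℝ) ≤ 4 * n by positivity)
      have e : 4 * (n : ℝ) * (C2⁻¹ / 2 * x) = 2 * C2⁻¹ * (n * x) := by ring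
      rw [← e]; exact this
    have hC2i : 0 < C2⁻¹ := inv_pos.2 hC2
    calc 2 * C2⁻¹ * (4 * n * x + (n : ℝ) * Real.sqrt n * Nc)
        ≤ 2 * C2⁻¹ * ((4 + C' * c * C2) * (n * x)) := mul_le_mul_of_nonneg_left a3 (by positivity)
      _ = (4 + C' * c * C2) * (2 * C2⁻¹ * (n * x)) := by ring
      _ ≤ (4 + C' * c * C2) * (4 * n * S + Sn) := by
          apply mul_le_mul_of_nonneg_left _ (by positivity)
          linarith
  · rw [hK]
    have a0 : 0 ≤ (n : ℝ) * Real.sqrt n * Nc := by positivity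
    have a1 : 4 * n * S ≤ 4 * n * ((C2 + (2 * C5 + C5 * C2)) * x) :=
      mul_le_mul_of_nonneg_left hShi (by positivity)
    have a2 : Sn ≤ 2 * (c * C' * C2 * x) := by linarith
    have a3 : c * C' * C2 * x ≤ c * C' * C2 * (n * x) :=
      mul_le_mul_of_nonneg_left hxx (by positivity)
    have a4 : 0 ≤ (n : ℝ) * x := by positivity
    obtain ⟨D, hD⟩ : ∃ D, D = 4 * C2 + 8 * C5 + 4 * C5 * C2 + 2 * c * C' * C2 := ⟨_, rfl⟩
    have hD0 : 0 < D := by rw [hD]; positivity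
    calc 4 * n * S + Sn ≤ 4 * n * ((C2 + (2 * C5 + C5 * C2)) * x) + 2 * (c * C' * C2 * (n * x)) := by
          linarith
      _ = D * (n * x) := by rw [hD]; ring
      _ ≤ D * (4 * n * x + (n : ℝ) * Real.sqrt n * Nc) := by
          apply mul_le_mul_of_nonneg_left _ hD0.le
          have e : 4 * (n : ℝ) * x = n * x + 3 * (n * x) := by ring
          rw [e]
          linarith
      _ = (4 * C2 + 8 * C5 + 4 * C5 * C2 + 2 * c * C' * C2) *
          (4 * n * x + (n : ℝ) * Real.sqrt n * Nc) := by rw [hD]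



/-! ### The rectangle of width one -/

lemma ep_rep (a : Fin 4) (m : ℕ) : ∀ p : ℤ × ℤ, ep p (List.replicate m a) = p + m • dv a := by
  induction m with
  | zero => intro p; simp
  | succ m ih =>
    intro p
    rw [List.replicate_succ, ep_cons, ih, succ_nsmul']
    abel

lemma vs_rep (a : Fin 4) (m : ℕ) : ∀ p : ℤ × ℤ,
    vs p (List.replicate m a) = (List.range m).map (fun i => p + i • dv a) := by
  induction m with
  | zero => intro p; simp
  | succ m ih =>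
    intro p
    rw [List.replicate_succ, vs_cons, ih, List.range_succ_eq_map, List.map_cons, List.map_map]
    congr 1
    · simp
    · refine List.map_congr_left fun i _ => ?_
      simp only [Function.comp, Nat.succ_eq_add_one]
      rw [succ_nsmul']
      abel

lemma dbl_rep (a : Fin 4) (m : ℕ) : ∀ p : ℤ × ℤ,
    dbl p (List.replicate m a) = m * (p.1 * (dv a).2 - p.2 * (dv a).1) := by
  induction m with
  | zero => intro p; simp
  | succ m ih =>
    intro p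
    rw [List.replicate_succ, dbl_cons, ih, Prod.fst_add, Prod.snd_add]
    push_cast
    ring

lemma cx_rep (h : ℤ) (a : Fin 4) (ha : a = 1 ∨ a = 3) (m : ℕ) : ∀ p : ℤ × ℤ,
    cx h p (List.replicate m a) = [] := by
  induction m with
  | zero => intro p; simp
  | succ m ih =>
    intro p
    rw [List.replicate_succ, cx_cons, ih]
    rcases ha with rfl | rfl <;> simp

/-- the rectangle of width `1` and height `m` -/
def rct (m : ℕ) : Wd := [0] ++ (List.replicate m 1 ++ ([2] ++ List.replicate m 3))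

lemma rct_length (m : ℕ) : (rct m).length = 2 * (m + 1) := by
  simp [rct]; omega

lemma rct_ep (m : ℕ) : ep 0 (rct m) = 0 := by
  unfold rct
  rw [ep_append, ep_append, ep_append, ep_rep, ep_rep]
  simp only [ep_cons, ep_nil, dv0, dv1, dv2, dv3]
  ext <;> simp

lemma rct_dbl (m : ℕ) : dbl 0 (rct m) = 2 * m := by
  unfold rct
  rw [dbl_append, dbl_append, dbl_append, dbl_rep, dbl_rep, ep_rep]
  simp only [ep_cons, ep_nil, dbl_cons, dbl_nil, dv0, dv1, dv2, dv3]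
  simp
  ring

lemma rct_cr (m : ℕ) (h : ℤ) : cr (rct m) h ≤ 2 := by
  unfold rct cr
  rw [cx_append, cx_append, cx_append, cx_rep h 1 (Or.inl rfl), cx_rep h 3 (Or.inr rfl)]
  simp only [List.length_append, List.length_nil]
  have h1 := cx_length_le h 0 [0]
  have h2 := cx_length_le h (ep (ep 0 [0]) (List.replicate m 1)) [2]
  simp only [List.length_cons, List.length_nil] at h1 h2
  omega

lemma rct_nodup (m : ℕ) : (vs 0 (rct m)).Nodup := by
  have e : vs 0 (rct m) = (0, 0) :: ((List.range m).map (fun i : ℕ => ((1 : ℤ), (i : ℤ))) ++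
      ((1, (m : ℤ)) :: (List.range m).map (fun i : ℕ => ((0 : ℤ), (m : ℤ) - i)))) := by
    unfold rct
    rw [vs_append, vs_append, vs_append, vs_rep, vs_rep, ep_rep]
    simp only [ep_cons, ep_nil, vs_cons, vs_nil, dv0, dv1, dv2, dv3, List.cons_append, List.nil_append]
    congr 1
    congr 1
    · refine List.map_congr_left fun i _ => ?_
      ext <;> simp
    · congr 1
      · ext <;> simp
      · refine List.map_congr_left fun i _ => ?_
        ext <;> simp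
        ring
  rw [e, List.nodup_cons, List.nodup_append, List.nodup_cons]
  refine ⟨?_, ?_, ⟨?_, ?_⟩, ?_⟩
  · intro h
    rw [List.mem_append, List.mem_cons, List.mem_map, List.mem_map] at h
    rcases h with ⟨i, _, h⟩ | h | ⟨i, hi, h⟩
    · simp at h
    · simp at h
    · rw [List.mem_range] at hi
      simp only [Prod.mk.injEq, true_and] at h
      omega
  · apply List.Nodup.map _ List.nodup_range
    intro i j hij
    simpa using hij
  · intro h
    rw [List.mem_map] at h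
    obtain ⟨i, _, h⟩ := h
    simp at h
  · apply List.Nodup.map _ List.nodup_range
    intro i j hij
    simpa using hij
  · intro a ha b hb hab
    subst hab
    rw [List.mem_map] at ha
    rw [List.mem_cons, List.mem_map] at hb
    obtain ⟨i, hi, rfl⟩ := ha
    rw [List.mem_range] at hi
    rcases hb with h | ⟨j, _, h⟩
    · simp only [Prod.mk.injEq, true_and] at h
      omega
    · simp at h

lemma rct_mem (k n : ℕ) (hk : 1 ≤ k) (hn : 2 ≤ n) : rct (n - 1) ∈ Fam k n := by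
  rw [mem_Fam, mem_W]
  refine ⟨⟨?_, rct_ep _, rct_nodup _⟩, ?_⟩
  · rw [rct_length]; omega
  · intro h
    exact (rct_cr _ h).trans (by omega)

lemma area_dbl (n : ℕ) (s : Fin (2 * n) → Fin 4) :
    area n s = ((|dbl 0 (List.ofFn s)| : ℤ) : ℝ) / 2 := by
  rw [area_eq]
  rfl

lemma cc_card_pos (hv : VCR_Stmt) (k n : ℕ) (hk : 1 ≤ k) (hn : 2 ≤ n) :
    0 < ((ColConvex k n).card : ℝ) := by
  have h := hv.2 k n (by omega) (fun _ => 1)
  simp only [sum_const, nsmul_eq_mul, mul_one] at h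
  rw [h]
  have : 0 < (Fam k n).card := Finset.card_pos.2 ⟨_, rct_mem k n hk hn⟩
  exact_mod_cast this

lemma cc_area_pos (hv : VCR_Stmt) (k n : ℕ) (hk : 1 ≤ k) (hn : 2 ≤ n) :
    0 < ∑ s ∈ ColConvex k n, area n s := by
  have h := hv.2 k n (by omega) (fun x => (x : ℝ) / 2)
  simp only [area_dbl]
  rw [h]
  refine lt_of_lt_of_le ?_ (single_le_sum (f := fun w : Wd => ((|dbl 0 w| : ℤ) : ℝ) / 2)
    (fun w _ => by positivity) (rct_mem k n hk hn))
  rw [rct_dbl]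
  have : (0 : ℤ) < |2 * ((n - 1 : ℕ) : ℤ)| := by
    rw [abs_pos]
    omega
  have h2 : (0 : ℝ) < ((|2 * ((n - 1 : ℕ) : ℤ)| : ℤ) : ℝ) := by exact_mod_cast this
  show 0 < ((|2 * ((n - 1 : ℕ) : ℤ)| : ℤ) : ℝ) / 2
  linarith


/-! ### Assembly -/

/-- number of polygons and total area in terms of canonical words -/
lemma split (ht : TR_Stmt) (k n : ℕ) (hk : 1 ≤ k) (hn : 2 ≤ n) :
    ((ColConvex k n).card : ℝ) = 4 * n * ((Om k n).card : ℝ) + ((NoCut k n).card : ℝ) ∧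
    ∑ s ∈ ColConvex k n, area n s = 4 * n * ∑ q ∈ Om k n, ((|dq q| : ℤ) : ℝ) / 2 +
      ∑ w ∈ NoCut k n, ((|dbl 0 w| : ℤ) : ℝ) / 2 := by
  constructor
  · have h := ht k n hk hn (fun _ => 1)
    simp only [sum_const, nsmul_eq_mul, mul_one] at h
    exact h
  · have h := ht k n hk hn (fun x => ((|x| : ℤ) : ℝ) / 2)
    simp only [abs_abs] at h
    simp only [area_dbl]
    exact h

lemma aux1 (a s K : ℝ) (ha : a ≠ 0) (hs : s ≠ 0) : K = (a * s * K) * (a⁻¹ / s) := by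
  field_simp

lemma aux2 (S K P : ℝ) (hK : K ≠ 0) (hP : P ≠ 0) : S / K = (S / (P * K)) * P := by
  field_simp

lemma noCut_area (k n : ℕ) : ∑ w ∈ NoCut k n, ((|dbl 0 w| : ℤ) : ℝ) / 2 ≤
    2 * (n : ℝ) ^ 2 * ((NoCut k n).card : ℝ) := by
  have h : ∀ w ∈ NoCut k n, ((|dbl 0 w| : ℤ) : ℝ) / 2 ≤ 2 * (n : ℝ) ^ 2 := by
    intro w hw
    rw [mem_NoCut, mem_W] at hw
    have h1 := K5S.abs_dbl_le w
    rw [hw.1.1] at h1
    have h2 : ((|dbl 0 w| : ℤ) : ℝ) ≤ (((2 * n : ℕ) : ℤ) : ℝ) ^ 2 := by exact_mod_cast h1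
    push_cast at h2 ⊢
    nlinarith
  calc ∑ w ∈ NoCut k n, ((|dbl 0 w| : ℤ) : ℝ) / 2 ≤ ∑ w ∈ NoCut k n, 2 * (n : ℝ) ^ 2 :=
        sum_le_sum h
    _ = 2 * (n : ℝ) ^ 2 * ((NoCut k n).card : ℝ) := by
        rw [sum_const, nsmul_eq_mul]; ring

end CNT

open CNT

theorem cnt_thm (hb : BND_Stmt) (hs : SQ2_Stmt) (hr : RHO_Stmt) (hd : DAT_Stmt) (hn : NEAR_Stmt)
    (ht : TR_Stmt) (hv : VCR_Stmt) (hp : POS_Stmt) : CNT_Stmt := by
  have _ := hp
  intro k q eta C hk hTP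
  have hq : 0 < q := hTP.1
  obtain ⟨C', θ, hC', hθ, hθ1, N0, hN0, hD⟩ := hd k hk
  obtain ⟨M, hM⟩ := hs C' θ k N0 hC' hθ hθ1 hk hN0 hD
  obtain ⟨C2, hC2, hB⟩ := hb C' θ hC' hθ hθ1 M
  obtain ⟨C3', N1, hC3', hR⟩ := hr k q eta C hk hTP
  obtain ⟨C5, hC5, hN⟩ := hn C' θ hC' hθ hθ1
  obtain ⟨c, hc, hcub⟩ := exists_cub hθ hθ1
  have herr := tendsto_err C5 (C5 * C2)
  have hev8 : ∀ᶠ n : ℕ in atTop,
      C5 * (Real.log n / Real.sqrt n) + C5 * C2 / (n : ℝ) ^ 5 ≤ C2⁻¹ / 2 := by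
    have h0 : (0 : ℝ) < C2⁻¹ / 2 := by positivity
    filter_upwards [herr.eventually (gt_mem_nhds h0)] with n hn'
    exact hn'.le
  -- the bounds for large `n`
  have main : ∀ᶠ n : ℕ in atTop,
      (4 * (C3' * C2)⁻¹ ≤ q ^ n * Real.sqrt n * ((ColConvex k n).card : ℝ) ∧
        q ^ n * Real.sqrt n * ((ColConvex k n).card : ℝ) ≤ 4 * C2 + C' * c) ∧
      2 * C2⁻¹ * (((n : ℝ) * Real.sqrt n) * ((ColConvex k n).card : ℝ)) ≤
        (4 + C' * c * C2) * ∑ s ∈ ColConvex k n, area n s ∧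
      ∑ s ∈ ColConvex k n, area n s ≤ (4 * C2 + 8 * C5 + 4 * C5 * C2 + 2 * c * C' * C2) *
        (((n : ℝ) * Real.sqrt n) * ((ColConvex k n).card : ℝ)) := by
    filter_upwards [hB, hev8, eventually_ge_atTop N0, eventually_ge_atTop N1,
      eventually_ge_atTop 2] with n hBn h8 hn0 hn1 hn2
    obtain ⟨hcrit, hle1, htail, hcnt, hder⟩ := hM n hn0
    obtain ⟨b1, b2, b3, b4⟩ := hBn
    have hrho : 0 < (M.G n).rho := (M.G n).rho_pos
    obtain ⟨r1, r2⟩ := hR n (M.G n).rho hn1 hrho hcrit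
    have hnear := hN k n (M.G n).rho hk hn2 hrho hle1 hcrit htail
    rw [hcnt] at b1 b2 b3 b4
    rw [hder] at b3 b4
    have h3 : |∑ q ∈ Om k n, ((|dq q| : ℤ) : ℝ) / 2 - ∑ q ∈ Om k n, (Ar k n q.2.2.2 : ℝ)| ≤
        C5 * n * Real.log n * ((Om k n).card : ℝ) + C5 / ((n : ℝ) ^ 5 * (M.G n).rho ^ n) := by
      rw [← sum_sub_distrib]
      exact (abs_sum_le_sum_abs _ _).trans hnear
    obtain ⟨s1, s2⟩ := split ht k n hk hn2
    rw [s1, s2]
    exact step hn2 (Nat.cast_nonneg _) hrho hq hθ hC2 hC3' hC' hC5 hc (Nat.cast_nonneg _)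
      (sum_nonneg fun w _ => by positivity) b1 b2 b3 b4 h3 htail.2.2 (noCut_area k n) r1 r2
      (hcub n) h8
  -- the first two bounds
  obtain ⟨D1, hD1, hfst⟩ := all_of_ev (fun n => q ^ n * Real.sqrt n * ((ColConvex k n).card : ℝ))
    (fun n hn2 => by
      have h1 := cc_card_pos hv k n hk hn2
      have h2 : (0 : ℝ) < n := by exact_mod_cast (by omega : 0 < n)
      positivity)
    (C := (4 * C2 + C' * c) + C3' * C2) (by positivity) (by
      filter_upwards [main] with n hm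
      refine ⟨le_trans ?_ hm.1.1, hm.1.2.trans ?_⟩
      · have h1 : ((4 * C2 + C' * c) + C3' * C2)⁻¹ ≤ (C3' * C2)⁻¹ := by
          apply inv_anti₀ (by positivity)
          have : 0 < 4 * C2 + C' * c := by positivity
          linarith
        have h2 : 0 < (C3' * C2)⁻¹ := by positivity
        linarith
      · have : 0 < C3' * C2 := by positivity
        linarith)
  -- the mean
  obtain ⟨D2, hD2, hsnd⟩ := all_of_ev
    (fun n => (∑ s ∈ ColConvex k n, area n s) /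
      (((n : ℝ) * Real.sqrt n) * ((ColConvex k n).card : ℝ)))
    (fun n hn2 => by
      have h1 := cc_card_pos hv k n hk hn2
      have h2 : (0 : ℝ) < n := by exact_mod_cast (by omega : 0 < n)
      have h3 := cc_area_pos hv k n hk hn2
      positivity)
    (C := (4 * C2 + 8 * C5 + 4 * C5 * C2 + 2 * c * C' * C2) + (4 + C' * c * C2) * C2)
    (by positivity) (by
      filter_upwards [main, eventually_ge_atTop 2] with n hm hn2
      have h1 := cc_card_pos hv k n hk hn2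
      have h2 : (0 : ℝ) < n := by exact_mod_cast (by omega : 0 < n)
      have h3 := cc_area_pos hv k n hk hn2
      have h4 : 0 < ((n : ℝ) * Real.sqrt n) * ((ColConvex k n).card : ℝ) := by positivity
      obtain ⟨-, m1, m2⟩ := hm
      obtain ⟨X, hX⟩ : ∃ X, X = ((n : ℝ) * Real.sqrt n) * ((ColConvex k n).card : ℝ) := ⟨_, rfl⟩
      obtain ⟨Y, hY⟩ : ∃ Y, Y = ∑ s ∈ ColConvex k n, area n s := ⟨_, rfl⟩
      rw [← hX, ← hY] at m1 m2
      rw [← hX] at h4
      rw [← hY] at h3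
      simp only [← hX, ← hY]
      obtain ⟨K1, hK1⟩ : ∃ K, K = 4 + C' * c * C2 := ⟨_, rfl⟩
      obtain ⟨K2, hK2⟩ : ∃ K, K = 4 * C2 + 8 * C5 + 4 * C5 * C2 + 2 * c * C' * C2 := ⟨_, rfl⟩
      have hK10 : 0 < K1 := by rw [hK1]; positivity
      have hK20 : 0 < K2 := by rw [hK2]; positivity
      rw [← hK1] at m1
      rw [← hK2] at m2
      rw [← hK1, ← hK2]
      constructor
      · rw [le_div_iff₀ h4, inv_mul_le_iff₀ (by positivity)]
        have e1 : X ≤ K1 * C2 * Y := by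
          have := mul_le_mul_of_nonneg_left m1 hC2.le
          have e : C2 * (2 * C2⁻¹ * X) = 2 * X := by field_simp
          rw [e] at this
          have e' : C2 * (K1 * Y) = K1 * C2 * Y := by ring
          rw [e'] at this
          linarith
        have e2 : 0 ≤ K2 * Y := by positivity
        rw [add_mul]
        linarith
      · rw [div_le_iff₀ h4, add_mul]
        have e2 : 0 ≤ K1 * C2 * X := by positivity
        linarith)
  refine ⟨D1 + D2, by positivity, ?_⟩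
  intro n hn2
  have h1 := cc_card_pos hv k n hk hn2
  have h2 : (0 : ℝ) < n := by exact_mod_cast (by omega : 0 < n)
  have hs0 : 0 < Real.sqrt n := Real.sqrt_pos.2 h2
  have hqn : 0 < q ^ n := by positivity
  obtain ⟨f1, f2⟩ := hfst n hn2
  obtain ⟨g1, g2⟩ := hsnd n hn2
  have i1 : (D1 + D2)⁻¹ ≤ D1⁻¹ := inv_anti₀ hD1 (by linarith)
  have i2 : (D1 + D2)⁻¹ ≤ D2⁻¹ := inv_anti₀ hD2 (by linarith)
  have e1 : ((ColConvex k n).card : ℝ) = (q ^ n * Real.sqrt n * ((ColConvex k n).card : ℝ)) *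
      ((q⁻¹) ^ n / Real.sqrt n) := by
    rw [inv_pow]
    exact aux1 _ _ _ hqn.ne' hs0.ne'
  have p1 : 0 < (q⁻¹) ^ n / Real.sqrt n := by positivity
  have p2 : 0 < (n : ℝ) * Real.sqrt n := by positivity
  have e2 : (∑ s ∈ ColConvex k n, area n s) / ((ColConvex k n).card : ℝ) =
      ((∑ s ∈ ColConvex k n, area n s) /
        (((n : ℝ) * Real.sqrt n) * ((ColConvex k n).card : ℝ))) * ((n : ℝ) * Real.sqrt n) :=
    aux2 _ _ _ h1.ne' p2.ne'
  refine ⟨?_, ?_, ?_, ?_⟩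
  · rw [e1]
    exact mul_le_mul_of_nonneg_right (i1.trans f1) p1.le
  · rw [e1]
    exact mul_le_mul_of_nonneg_right (f2.trans (by linarith)) p1.le
  · rw [e2]
    exact mul_le_mul_of_nonneg_right (i2.trans g1) p2.le
  · rw [e2]
    exact mul_le_mul_of_nonneg_right (g2.trans (by linarith)) p2.le

end Pool.Agent.KCC
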