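import Pool.Agent.KCC.Stmts3

/-!
# Column-convex polygons (MP_f6626d_co): assembly of the extended final theorem
-/

set_option autoImplicit false

namespace Pool.Agent.KCC

open Finset Filter Topology MeasureTheory Pool.Agent.Lib27 Pool.Agent.AreaLaw

theorem fn2_thm : FN2_Stmt := by
  intro hT hF hC hM hL
  have hT' : ∀ k : ℕ, ∃ q eta C : ℝ, 1 ≤ k → TP k q eta C := by
    intro k
    by_cases hk : 1 ≤ k
    · obtain ⟨q, eta, C, h⟩ := hT k hk
      exact ⟨q, eta, C, fun _ => h⟩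
    · exact ⟨1, 1, 1, fun h => absurd h hk⟩
  choose q eta C hq using hT'
  obtain ⟨ν, hν, h1, h2⟩ := hF
  obtain ⟨M, hM1, hM2⟩ := hL q (fun k hk => ⟨eta k, C k, hq k hk⟩)
  refine ⟨ν, hν, h1, h2, fun k => (q k)⁻¹, M, fun k hk => ?_, hM2, hM1, fun k hk => ?_⟩
  · have ha := (hq k hk).1
    have hb := (hq (k + 1) (by omega)).1
    refine ⟨inv_pos.2 ha, ?_⟩
    exact (inv_lt_inv₀ ha hb).2 (hM k _ _ _ _ _ _ hk (hq k hk) (hq (k + 1) (by omega)))
  · exact hC k _ _ _ hk (hq k hk)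

end Pool.Agent.KCC
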