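import Pool.Agent.KCC.Stmts
import Pool.Agent.Lib_helper24.SapR.Glue

/-!
# K2: decomposition of an arch at the first even cut
-/

set_option autoImplicit false

namespace Pool.Agent.KCC.K2

open Finset Pool.Agent.Lib27
open Pool.Agent.SapR (rot2 wordsUpTo ep_append0 vt_glue vs_glue3 vs_eq_cons vt_tail_mem_cases
  mem_vs_cases lev_parity)

/-! ### crossings -/

lemma cx_app (h : ℤ) (p : ℤ × ℤ) (s t : Wd) :
    cx h p (s ++ t) = cx h p s ++ cx h (ep p s) t := by
  induction s generalizing p with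
  | nil => simp [cx]
  | cons d s ih => simp only [List.cons_append, cx, ep_cons, ih, List.append_assoc]

lemma cx_shift (h : ℤ) (p q : ℤ × ℤ) (s : Wd) :
    cx h (p + q) s = (cx (h - q.1) p s).map (· + q.2) := by
  induction s generalizing p with
  | nil => simp [cx]
  | cons d s ih =>
    have e : p + q + dv d = p + dv d + q := by abel
    rw [cx, cx, e, ih, List.map_append]
    congr 1
    by_cases h1 : (d = 0 ∧ (p + q).1 = h) ∨ (d = 2 ∧ (p + q).1 = h + 1)
    · have h2 : (d = 0 ∧ p.1 = h - q.1) ∨ (d = 2 ∧ p.1 = h - q.1 + 1) := by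
        rcases h1 with ⟨a, b⟩ | ⟨a, b⟩
        · left; exact ⟨a, by simp only [Prod.fst_add] at b; omega⟩
        · right; exact ⟨a, by simp only [Prod.fst_add] at b; omega⟩
      rw [if_pos h1, if_pos h2]; simp
    · have h2 : ¬ ((d = 0 ∧ p.1 = h - q.1) ∨ (d = 2 ∧ p.1 = h - q.1 + 1)) := by
        intro h3
        apply h1
        rcases h3 with ⟨a, b⟩ | ⟨a, b⟩
        · left; exact ⟨a, by simp only [Prod.fst_add]; omega⟩
        · right; exact ⟨a, by simp only [Prod.fst_add]; omega⟩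
      rw [if_neg h1, if_neg h2]; simp

lemma cx_zero (h : ℤ) (p : ℤ × ℤ) (s : Wd) : cx h p s = (cx (h - p.1) 0 s).map (· + p.2) := by
  rw [← cx_shift, zero_add]

lemma dv_cases (d : Fin 4) : (d = 0 ∧ dv d = (1, 0)) ∨ (d = 1 ∧ dv d = (0, 1)) ∨
    (d = 2 ∧ dv d = (-1, 0)) ∨ (d = 3 ∧ dv d = (0, -1)) := by
  revert d; decide

lemma left_stay (h : ℤ) (s : Wd) (p : ℤ × ℤ) (hp : p.1 ≤ h) (hs : cx h p s = []) :
    ∀ v ∈ vt p s, v.1 ≤ h := by
  induction s generalizing p with
  | nil =>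
    intro v hv
    rw [vt_nil, List.mem_singleton] at hv
    subst hv
    exact hp
  | cons d s ih =>
    rw [cx, List.append_eq_nil_iff] at hs
    obtain ⟨h1, h2⟩ := hs
    intro v hv
    rw [vt_cons, List.mem_cons] at hv
    rcases hv with rfl | hv
    · exact hp
    · refine ih (p + dv d) ?_ h2 v hv
      have h3 : ¬ ((d = 0 ∧ p.1 = h) ∨ (d = 2 ∧ p.1 = h + 1)) := by
        intro h4
        rw [if_pos h4] at h1
        simp at h1
      rw [Prod.fst_add]
      rcases dv_cases d with ⟨a, b⟩ | ⟨a, b⟩ | ⟨a, b⟩ | ⟨a, b⟩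
      · rw [b]
        have h4 : p.1 ≠ h := fun h5 => h3 (Or.inl ⟨a, h5⟩)
        simp only
        omega
      · rw [b]; simp only; omega
      · rw [b]; simp only; omega
      · rw [b]; simp only; omega

lemma right_stay (h : ℤ) (s : Wd) (p : ℤ × ℤ) (hp : h < p.1) (hs : cx h p s = []) :
    ∀ v ∈ vt p s, h < v.1 := by
  induction s generalizing p with
  | nil =>
    intro v hv
    rw [vt_nil, List.mem_singleton] at hv
    subst hv
    exact hp
  | cons d s ih =>
    rw [cx, List.append_eq_nil_iff] at hs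
    obtain ⟨h1, h2⟩ := hs
    intro v hv
    rw [vt_cons, List.mem_cons] at hv
    rcases hv with rfl | hv
    · exact hp
    · refine ih (p + dv d) ?_ h2 v hv
      have h3 : ¬ ((d = 0 ∧ p.1 = h) ∨ (d = 2 ∧ p.1 = h + 1)) := by
        intro h4
        rw [if_pos h4] at h1
        simp at h1
      rw [Prod.fst_add]
      rcases dv_cases d with ⟨a, b⟩ | ⟨a, b⟩ | ⟨a, b⟩ | ⟨a, b⟩
      · rw [b]; simp only; omega
      · rw [b]; simp only; omega
      · rw [b]
        have h4 : p.1 ≠ h + 1 := fun h5 => h3 (Or.inr ⟨a, h5⟩)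
        simp only
        omega
      · rw [b]; simp only; omega

lemma cx_nil_left (h : ℤ) (s : Wd) (p : ℤ × ℤ) (hs : ∀ v ∈ vt p s, v.1 ≤ h) :
    cx h p s = [] := by
  induction s generalizing p with
  | nil => rfl
  | cons d s ih =>
    have h0 : p.1 ≤ h := hs p (mem_vt_self _ _)
    have h1 : ∀ v ∈ vt (p + dv d) s, v.1 ≤ h := by
      intro v hv
      apply hs
      rw [vt_cons]
      exact List.mem_cons_of_mem _ hv
    have h2 : ¬ ((d = 0 ∧ p.1 = h) ∨ (d = 2 ∧ p.1 = h + 1)) := by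
      rintro (⟨a, b⟩ | ⟨a, b⟩)
      · have h3 := h1 (p + dv d) (mem_vt_self _ _)
        rw [Prod.fst_add, a] at h3
        have h4 : (dv 0).1 = 1 := by decide
        omega
      · omega
    rw [cx, if_neg h2, ih _ h1]
    rfl

lemma cx_nil_right (h : ℤ) (s : Wd) (p : ℤ × ℤ) (hs : ∀ v ∈ vt p s, h < v.1) :
    cx h p s = [] := by
  induction s generalizing p with
  | nil => rfl
  | cons d s ih =>
    have h0 : h < p.1 := hs p (mem_vt_self _ _)
    have h1 : ∀ v ∈ vt (p + dv d) s, h < v.1 := by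
      intro v hv
      apply hs
      rw [vt_cons]
      exact List.mem_cons_of_mem _ hv
    have h2 : ¬ ((d = 0 ∧ p.1 = h) ∨ (d = 2 ∧ p.1 = h + 1)) := by
      rintro (⟨a, b⟩ | ⟨a, b⟩)
      · omega
      · have h3 := h1 (p + dv d) (mem_vt_self _ _)
        rw [Prod.fst_add, a] at h3
        have h4 : (dv 2).1 = -1 := by decide
        omega
    rw [cx, if_neg h2, ih _ h1]
    rfl

lemma split_cx (h : ℤ) (s : Wd) (p : ℤ × ℤ) (y : ℤ) (l : List ℤ) (hs : cx h p s = y :: l) :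
    ∃ (U t : Wd) (d : Fin 4), s = U ++ d :: t ∧ cx h p U = [] ∧
      ((d = 0 ∧ (ep p U).1 = h) ∨ (d = 2 ∧ (ep p U).1 = h + 1)) ∧ y = (ep p U).2 ∧
      cx h (ep p U + dv d) t = l := by
  induction s generalizing p with
  | nil => simp [cx] at hs
  | cons d s ih =>
    rw [cx] at hs
    by_cases h1 : (d = 0 ∧ p.1 = h) ∨ (d = 2 ∧ p.1 = h + 1)
    · rw [if_pos h1, List.singleton_append, List.cons.injEq] at hs
      exact ⟨[], s, d, rfl, rfl, h1, hs.1.symm, hs.2⟩
    · rw [if_neg h1, List.nil_append] at hs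
      obtain ⟨U, t, d', e1, e2, e3, e4, e5⟩ := ih (p + dv d) hs
      refine ⟨d :: U, t, d', by rw [e1]; rfl, ?_, e3, e4, e5⟩
      rw [cx, if_neg h1, e2]
      rfl

/-! ### arches -/

section arch

variable {g : ℤ} {w : Wd}

lemma arch_zero_mem (h : Arch g w) : (0 : ℤ × ℤ) ∈ vs 0 w := by
  rw [vs_eq_cons w 0 h.1]; exact List.mem_cons_self ..

lemma arch_ep_ne (h : Arch g w) : ep 0 w ≠ 0 := by
  intro h0
  have h1 := h.2.2.1
  unfold vt at h1
  rw [List.nodup_append] at h1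
  exact h1.2.2 0 (arch_zero_mem h) (ep 0 w) (by simp) h0.symm

lemma arch_ep1 (h : Arch g w) : (ep 0 w).1 = 0 := by rw [h.2.1]

lemma arch_nonneg (h : Arch g w) (v : ℤ × ℤ) (hv : v ∈ vt 0 w) : 0 ≤ v.1 := by
  unfold vt at hv
  rw [List.mem_append, List.mem_singleton] at hv
  rcases hv with hv | rfl
  · rcases mem_vs_cases w 0 v hv with rfl | hv
    · simp
    · exact (h.2.2.2 v hv).le
  · rw [arch_ep1 h]

lemma arch_eq_zero (h : Arch g w) (v : ℤ × ℤ) (hv : v ∈ vs 0 w) (h0 : v.1 ≤ 0) : v = 0 := by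
  rcases mem_vs_cases w 0 v hv with h1 | h1
  · exact h1
  · have := h.2.2.2 v h1
    omega

lemma arch_shape (h : Arch g w) : ∃ u : Wd, w = 0 :: (u ++ [2]) ∧ (∀ v ∈ vt (1, 0) u, 0 < v.1) ∧
    ep (1, 0) u = (1, 2 * g) := by
  obtain ⟨hne, hep, -, hint⟩ := h
  cases w with
  | nil => exact absurd rfl hne
  | cons d w =>
    rw [vs_cons, List.tail_cons, zero_add] at hint
    rw [ep_cons, zero_add] at hep
    rcases List.eq_nil_or_concat w with rfl | ⟨u, e, rfl⟩
    · rw [ep_nil] at hep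
      exfalso
      rcases dv_cases d with ⟨a, b⟩ | ⟨a, b⟩ | ⟨a, b⟩ | ⟨a, b⟩ <;> rw [b, Prod.mk.injEq] at hep <;>
        omega
    · rw [List.concat_eq_append] at *
      have h1 : vs (dv d) (u ++ [e]) = vt (dv d) u := by
        rw [vs_append]; rfl
      rw [h1] at hint
      have h2 := hint _ (mem_vt_self _ _)
      have hd : d = 0 := by
        rcases dv_cases d with ⟨a, b⟩ | ⟨a, b⟩ | ⟨a, b⟩ | ⟨a, b⟩
        · exact a
        · rw [b] at h2; simp at h2
        · rw [b] at h2; simp at h2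
        · rw [b] at h2; simp at h2
      subst hd
      have h3 : dv 0 = ((1 : ℤ), (0 : ℤ)) := by decide
      rw [h3] at hint hep
      have h4 := hint _ (ep_mem_vt _ _)
      rw [ep_append, ep_cons, ep_nil] at hep
      have h5 := congrArg Prod.fst hep
      have h6 := congrArg Prod.snd hep
      rw [Prod.fst_add] at h5
      rw [Prod.snd_add] at h6
      have he : e = 2 ∧ (ep (1, 0) u).1 = 1 ∧ (ep (1, 0) u).2 = 2 * g := by
        rcases dv_cases e with ⟨a, b⟩ | ⟨a, b⟩ | ⟨a, b⟩ | ⟨a, b⟩ <;> rw [b] at h5 h6 <;>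
          simp only at h5 h6
        · exfalso; omega
        · exfalso; omega
        · exact ⟨a, by omega, by omega⟩
        · exfalso; omega
      obtain ⟨he1, he2, he3⟩ := he
      subst he1
      exact ⟨u, rfl, hint, Prod.ext he2 he3⟩

lemma arch_len (h : Arch g w) : 2 ≤ w.length := by
  obtain ⟨u, e, -, -⟩ := arch_shape h
  rw [e]
  simp

lemma arch_cx0 (h : Arch g w) : cx 0 0 w = [0, 2 * g] := by
  obtain ⟨u, e, hu, he⟩ := arch_shape h
  have h3 : (0 : ℤ × ℤ) + dv 0 = (1, 0) := by decide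
  rw [e, cx, cx_app, h3, he, cx_nil_right 0 u _ hu]
  simp [cx]

lemma arch_cx_neg (h : Arch g w) (j : ℤ) (hj : j < 0) : cx j 0 w = [] := by
  apply cx_nil_right
  intro v hv
  have := arch_nonneg h v hv
  omega

end arch

/-! ### gluing a strip pair and an arch -/

section strip

variable {U D : Wd}

lemma sp_U_ne (h : StripPair U D) : U ≠ [] := by
  rintro rfl
  have := h.1
  simp at this

lemma sp_D_ne (h : StripPair U D) : D ≠ [] := by
  rintro rfl
  have h1 := h.1
  have h2 := h.2.1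
  rw [ep_nil, Prod.fst_zero] at h2
  omega

lemma sp_U_le (h : StripPair U D) (v : ℤ × ℤ) (hv : v ∈ vt 0 U) : v.1 ≤ (ep 0 U).1 := by
  rw [vt_head, List.mem_cons] at hv
  rcases hv with rfl | hv
  · have := h.1
    rw [Prod.fst_zero]
    omega
  · exact (h.2.2.2.2.1 v hv).2

lemma sp_D_le (h : StripPair U D) (v : ℤ × ℤ) (hv : v ∈ vt 0 D) : v.1 ≤ 0 := by
  unfold vt at hv
  rw [List.mem_append, List.mem_singleton] at hv
  rcases hv with hv | rfl
  · exact (h.2.2.2.2.2 v hv).2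
  · have h1 := h.1
    have h2 := h.2.1
    omega

end strip

/-- The data of a strip pair glued on the left of an arch. -/
structure Glued (g g' : ℤ) (U w D : Wd) : Prop where
  sp : StripPair U D
  arch : Arch g' w
  hy : g + jump (U, D) = g'
  pr : Even ((ep 0 U).2 + (ep 0 D).2)
  disj : Disj g (U, D)

section glued

variable {g g' : ℤ} {U w D : Wd}

lemma ep_total (G : Glued g g' U w D) : ep 0 (U ++ w ++ D) = (0, 2 * g) := by
  rw [ep_append0, ep_append0, G.arch.2.1]
  have h1 := G.hy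
  have h2 := G.sp.2.1
  obtain ⟨c, hc⟩ := G.pr
  unfold jump at h1
  simp only at h1
  ext
  · simp only [Prod.fst_add]; linarith
  · simp only [Prod.snd_add]; omega

lemma cx_U_ge (h : StripPair U D) (j : ℤ) (hj : (ep 0 U).1 ≤ j) : cx j 0 U = [] := by
  apply cx_nil_left
  intro v hv
  exact (sp_U_le h v hv).trans hj

lemma cx_D_ge (h : StripPair U D) (j : ℤ) (hj : 0 ≤ j) : cx j 0 D = [] := by
  apply cx_nil_left
  intro v hv
  exact (sp_D_le h v hv).trans hj

lemma cx_total (U w D : Wd) (j : ℤ) : cx j 0 (U ++ w ++ D) = cx j 0 U ++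
    ((cx (j - (ep 0 U).1) 0 w).map (· + (ep 0 U).2) ++
      (cx (j - ((ep 0 U).1 + (ep 0 w).1)) 0 D).map (· + ((ep 0 U).2 + (ep 0 w).2))) := by
  rw [List.append_assoc, cx_app, cx_app, cx_zero j (ep 0 U) w, cx_zero j (ep (ep 0 U) w) D,
    ep_eq (ep 0 U) w, add_comm (ep 0 w), Prod.fst_add, Prod.snd_add]

lemma cx_pair (U D : Wd) (j : ℤ) : cx j 0 (U ++ D) = cx j 0 U ++
    (cx (j - (ep 0 U).1) 0 D).map (· + (ep 0 U).2) := by
  rw [cx_app, cx_zero j (ep 0 U) D]

lemma cx_ge (G : Glued g g' U w D) (j : ℤ) (hj : (ep 0 U).1 ≤ j) :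
    cx j 0 (U ++ w ++ D) = (cx (j - (ep 0 U).1) 0 w).map (· + (ep 0 U).2) := by
  rw [cx_total, cx_U_ge G.sp j hj, arch_ep1 G.arch, add_zero, cx_D_ge G.sp _ (by omega)]
  simp

lemma cx_lt (G : Glued g g' U w D) (j : ℤ) (hj : j < (ep 0 U).1) :
    cx j 0 (U ++ w ++ D) = cx j 0 U ++
      (cx (j - (ep 0 U).1) 0 D).map (· + ((ep 0 U).2 + 2 * g')) := by
  rw [cx_total, arch_cx_neg G.arch _ (by omega), arch_ep1 G.arch, add_zero, G.arch.2.1]
  simp

lemma cr_ge (G : Glued g g' U w D) (j : ℤ) (hj : (ep 0 U).1 ≤ j) :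
    cr (U ++ w ++ D) j = cr w (j - (ep 0 U).1) := by
  unfold cr
  rw [cx_ge G j hj, List.length_map]

lemma cr_lt (G : Glued g g' U w D) (j : ℤ) (hj : j < (ep 0 U).1) :
    cr (U ++ w ++ D) j = cr (U ++ D) j := by
  unfold cr
  rw [cx_lt G j hj, cx_pair, List.length_append, List.length_append, List.length_map,
    List.length_map]

lemma cr_pair_ge (h : StripPair U D) (j : ℤ) (hj : (ep 0 U).1 ≤ j) : cr (U ++ D) j = 0 := by
  unfold cr
  rw [cx_pair, cx_U_ge h j hj, cx_D_ge h _ (by omega)]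
  rfl

lemma cr_arch_neg (h : Arch g w) (j : ℤ) (hj : j < 0) : cr w j = 0 := by
  unfold cr
  rw [arch_cx_neg h j hj]
  rfl

lemma nar_iff (G : Glued g g' U w D) (k : ℕ) :
    Nar k (U ++ w ++ D) ↔ Nar k (U ++ D) ∧ Nar k w := by
  unfold Nar
  constructor
  · intro h
    constructor
    · intro j
      rcases lt_or_ge j (ep 0 U).1 with hj | hj
      · rw [← cr_lt G j hj]; exact h j
      · rw [cr_pair_ge G.sp j hj]; exact Nat.zero_le _
    · intro j
      rcases lt_or_ge j 0 with hj | hj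
      · rw [cr_arch_neg G.arch j hj]; exact Nat.zero_le _
      · have h1 := h (j + (ep 0 U).1)
        rw [cr_ge G _ (by omega), add_sub_cancel_right] at h1
        exact h1
  · rintro ⟨h1, h2⟩ j
    rcases lt_or_ge j (ep 0 U).1 with hj | hj
    · rw [cr_lt G j hj]; exact h1 j
    · rw [cr_ge G j hj]; exact h2 _

lemma ec_ge (G : Glued g g' U w D) (j : ℤ) (hj : (ep 0 U).1 ≤ j) :
    EC (U ++ w ++ D) j ↔ EC w (j - (ep 0 U).1) := by
  unfold EC
  rw [cx_ge G j hj]
  constructor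
  · rintro ⟨y, y', h1, h2⟩
    rcases hl : cx (j - (ep 0 U).1) 0 w with _ | ⟨a, _ | ⟨b, _ | ⟨c, l⟩⟩⟩
    · rw [hl] at h1; simp at h1
    · rw [hl] at h1; simp at h1
    · rw [hl] at h1
      simp only [List.map_cons, List.map_nil, List.cons.injEq, and_true] at h1
      refine ⟨a, b, rfl, ?_⟩
      have h3 : a - b = y - y' := by rw [← h1.1, ← h1.2]; ring
      rw [h3]
      exact h2
    · rw [hl] at h1; simp at h1
  · rintro ⟨y, y', h1, h2⟩
    refine ⟨y + (ep 0 U).2, y' + (ep 0 U).2, by rw [h1]; rfl, ?_⟩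
    rw [add_sub_add_right_eq_sub]
    exact h2

/-- an even shift of the second part of a list of crossings -/
lemma even_shift (l m : List ℤ) (a b : ℤ) (hab : Even (a - b)) :
    (∃ y y' : ℤ, l ++ m.map (· + a) = [y, y'] ∧ Even (y - y')) →
      ∃ y y' : ℤ, l ++ m.map (· + b) = [y, y'] ∧ Even (y - y') := by
  rintro ⟨y, y', h1, h2⟩
  obtain ⟨c, hc⟩ := hab
  obtain ⟨e, he⟩ := h2
  rcases l with _ | ⟨x1, _ | ⟨x2, l⟩⟩
  · rcases m with _ | ⟨z1, _ | ⟨z2, _ | ⟨z3, m⟩⟩⟩
    · simp at h1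
    · simp at h1
    · simp only [List.map_cons, List.map_nil, List.nil_append, List.cons.injEq, and_true] at h1
      exact ⟨z1 + b, z2 + b, rfl, ⟨e, by omega⟩⟩
    · simp at h1
  · rcases m with _ | ⟨z1, _ | ⟨z2, m⟩⟩
    · simp at h1
    · simp only [List.map_cons, List.map_nil, List.cons_append, List.nil_append, List.cons.injEq,
        and_true] at h1
      exact ⟨x1, z1 + b, rfl, ⟨e + c, by omega⟩⟩
    · simp at h1
  · rcases l with _ | ⟨x3, l⟩
    · rcases m with _ | ⟨z1, m⟩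
      · simp only [List.map_nil, List.append_nil, List.cons.injEq, and_true] at h1
        exact ⟨x1, x2, rfl, ⟨e, by omega⟩⟩
      · simp at h1
    · simp at h1

lemma ec_lt (G : Glued g g' U w D) (j : ℤ) (hj : j < (ep 0 U).1) :
    EC (U ++ w ++ D) j ↔ EC (U ++ D) j := by
  unfold EC
  rw [cx_lt G j hj, cx_pair]
  constructor
  · exact even_shift _ _ _ _ ⟨g', by ring⟩
  · exact even_shift _ _ _ _ ⟨-g', by ring⟩

lemma ec_at (G : Glued g g' U w D) : EC (U ++ w ++ D) (ep 0 U).1 := by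
  rw [ec_ge G _ le_rfl, sub_self]
  exact ⟨0, 2 * g', arch_cx0 G.arch, ⟨-g', by ring⟩⟩

lemma nodup_total (G : Glued g g' U w D) : (vt 0 (U ++ w ++ D)).Nodup := by
  rw [vt_glue, List.nodup_append', List.nodup_append']
  have hep : ep 0 w = (0, 2 * g') := G.arch.2.1
  have hinj : ∀ q : ℤ × ℤ, Function.Injective (fun v : ℤ × ℤ => v + q) :=
    fun q => add_left_injective q
  have hUn : (vs 0 U).Nodup ∧ ep 0 U ∉ vs 0 U := by
    have := G.sp.2.2.1
    unfold vt at this
    rw [List.nodup_append'] at this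
    exact ⟨this.1, fun h => this.2.2 h (List.mem_singleton_self _)⟩
  have hwn : (vs 0 w).Nodup := by
    have := G.arch.2.2.1
    unfold vt at this
    exact this.of_append_left
  have hd : List.Disjoint (vt 0 U) ((vt 0 D).map (· + (ep 0 U + ep 0 w))) := by
    have h1 := G.disj
    unfold Disj at h1
    rw [G.hy, vt_eq _ D, ← hep] at h1
    exact h1
  refine ⟨hUn.1, ⟨hwn.map (hinj _), G.sp.2.2.2.1.map (hinj _), ?_⟩, ?_⟩
  · intro v hv hv'
    have hv2 := hv'
    rw [List.mem_map] at hv hv'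
    obtain ⟨a, ha, rfl⟩ := hv
    obtain ⟨b, hb, hab⟩ := hv'
    have h1 : 0 ≤ a.1 := arch_nonneg G.arch a (by unfold vt; exact List.mem_append_left _ ha)
    have h2 : b.1 = a.1 := by
      have h4 := congrArg Prod.fst hab
      simp only [Prod.fst_add] at h4
      rw [arch_ep1 G.arch] at h4
      omega
    have h3 := sp_D_le G.sp b hb
    have h5 := arch_eq_zero G.arch a ha (by omega)
    subst h5
    rw [zero_add] at hv2
    exact hd (ep_mem_vt _ _) hv2
  · intro v hv hv'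
    rw [List.mem_append] at hv'
    rcases hv' with hv' | hv'
    · rw [List.mem_map] at hv'
      obtain ⟨a, ha, rfl⟩ := hv'
      have h1 : 0 ≤ a.1 := arch_nonneg G.arch a (by unfold vt; exact List.mem_append_left _ ha)
      have h2 := sp_U_le G.sp (a + ep 0 U) (by unfold vt; exact List.mem_append_left _ hv)
      rw [Prod.fst_add] at h2
      have h5 := arch_eq_zero G.arch a ha (by omega)
      subst h5
      rw [zero_add] at hv
      exact hUn.2 hv
    · exact hd (by unfold vt; exact List.mem_append_left _ hv) hv'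

lemma arch_total (G : Glued g g' U w D) : Arch g (U ++ w ++ D) := by
  refine ⟨?_, ep_total G, nodup_total G, ?_⟩
  · intro h
    apply sp_U_ne G.sp
    rw [List.append_eq_nil_iff, List.append_eq_nil_iff] at h
    exact h.1.1
  · intro v hv
    rw [vs_glue3, vs_eq_cons U 0 (sp_U_ne G.sp), List.cons_append, List.tail_cons, List.mem_append,
      List.mem_append] at hv
    have hh := G.sp.1
    rcases hv with hv | hv | hv
    · refine (G.sp.2.2.2.2.1 v ?_).1
      unfold vt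
      rw [vs_eq_cons U 0 (sp_U_ne G.sp), List.cons_append, List.tail_cons]
      exact List.mem_append_left _ hv
    · rw [List.mem_map] at hv
      obtain ⟨a, ha, rfl⟩ := hv
      have h1 : 0 ≤ a.1 := arch_nonneg G.arch a (by unfold vt; exact List.mem_append_left _ ha)
      rw [Prod.fst_add]
      omega
    · rw [List.mem_map] at hv
      obtain ⟨a, ha, rfl⟩ := hv
      have h1 := G.sp.2.2.2.2.2 a ha
      have h2 := G.sp.2.1
      rw [Prod.fst_add, Prod.fst_add, arch_ep1 G.arch]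
      omega

end glued

/-! ### existence -/

lemma len_parity (s : Wd) : Even ((ep 0 s).1 + (ep 0 s).2 - s.length) := by
  have h := lev_parity s 0
  unfold Pool.Agent.SapR.lev at h
  simpa using h

/-- Existence of the decomposition at an even cut. -/
lemma exists_glued {g : ℤ} {w : Wd} (hw : Arch g w) (h : ℤ) (hh : 1 ≤ h) (hc : EC w h) :
    ∃ (U w' D : Wd) (g' : ℤ), w = U ++ w' ++ D ∧ Glued g g' U w' D ∧ (ep 0 U).1 = h := by
  obtain ⟨y, y', hcx, hev⟩ := hc
  obtain ⟨U, t, d, e1, hU, hd, hy, ht⟩ := split_cx h w 0 y [y'] hcx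
  have hU1 : ∀ v ∈ vt 0 U, v.1 ≤ h := left_stay h U 0 (by rw [Prod.fst_zero]; omega) hU
  have hq1 := hU1 _ (ep_mem_vt _ _)
  have hd1 : d = 0 ∧ (ep 0 U).1 = h := by
    rcases hd with hd | hd
    · exact hd
    · omega
  obtain ⟨rfl, hq⟩ := hd1
  obtain ⟨u, D, d', e2, hu, hd', hy', hD⟩ := split_cx h t _ y' [] ht
  have hdv0 : dv 0 = ((1 : ℤ), (0 : ℤ)) := by decide
  have hdv2 : dv 2 = ((-1 : ℤ), (0 : ℤ)) := by decide
  have hu1 : ∀ v ∈ vt (ep 0 U + dv 0) u, h < v.1 := by
    apply right_stay h u _ _ hu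
    rw [Prod.fst_add, hdv0]
    simp only
    omega
  have hq2 := hu1 _ (ep_mem_vt _ _)
  have hd2 : d' = 2 ∧ (ep (ep 0 U + dv 0) u).1 = h + 1 := by
    rcases hd' with hd' | hd'
    · omega
    · exact hd'
  obtain ⟨rfl, hq3⟩ := hd2
  obtain ⟨q, hqdef⟩ : ∃ q, q = ep 0 U := ⟨_, rfl⟩
  obtain ⟨q', hq'def⟩ : ∃ q', q' = ep (ep 0 U + dv 0) u + dv 2 := ⟨_, rfl⟩
  rw [← hq'def] at hD
  obtain ⟨w', hw'⟩ : ∃ w' : Wd, w' = 0 :: (u ++ [2]) := ⟨_, rfl⟩
  have e3 : w = U ++ w' ++ D := by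
    rw [e1, e2, hw']
    simp
  have hq'1 : q'.1 = h := by
    rw [hq'def, Prod.fst_add, hq3, hdv2]
    simp only
    omega
  have hq'2 : q'.2 = y' := by
    rw [hq'def, Prod.snd_add, ← hy', hdv2]
    simp
  have hepw' : ep q w' = q' := by
    rw [hw', ep_cons, ep_append, ep_cons, ep_nil, hq'def, hqdef]
  have hD1 : ∀ v ∈ vt q' D, v.1 ≤ h := left_stay h D q' hq'1.le hD
  have hsum : q' = ep 0 w' + q := by rw [← hepw', ep_eq]
  have hepw : ep 0 w' = (0, y' - y) := by
    have h1 := congrArg Prod.fst hsum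
    have h2 := congrArg Prod.snd hsum
    rw [Prod.fst_add, hq'1, hqdef, hq] at h1
    rw [Prod.snd_add, hq'2, hqdef, ← hy] at h2
    exact Prod.ext (by simp only; omega) (by simp only; omega)
  obtain ⟨c, hc⟩ := hev
  have hepw2 : ep 0 w' = (0, 2 * (-c)) := by
    rw [hepw]
    exact Prod.ext rfl (by simp only; omega)
  -- self-avoidance
  have hnd : (vt 0 w).Nodup := hw.2.2.1
  have hS1 : SAWs (U ++ (w' ++ D)) := by
    unfold SAWs; rw [← List.append_assoc, ← e3]; exact hnd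
  have hSU := (SAWs_append U (w' ++ D) hS1).1
  have hSw := (SAWs_append w' D (SAWs_append U (w' ++ D) hS1).2).1
  have hSD := (SAWs_append w' D (SAWs_append U (w' ++ D) hS1).2).2
  unfold SAWs at hSU hSw hSD
  have hw'ne : w' ≠ [] := by rw [hw']; exact List.cons_ne_nil _ _
  have hintw : ∀ v ∈ (vs 0 w').tail, 0 < v.1 := by
    intro v hv
    have h1 : vs 0 w' = 0 :: vt (dv 0) u := by
      rw [hw', vs_cons, vs_append, zero_add]
      rfl
    rw [h1, List.tail_cons] at hv
    have h2 : v + q ∈ vt (ep 0 U + dv 0) u := by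
      rw [add_comm (ep 0 U), vt_add, List.mem_map]
      exact ⟨v, hv, by rw [hqdef]⟩
    have h3 := hu1 _ h2
    rw [Prod.fst_add, hqdef, hq] at h3
    omega
  have harch : Arch (-c) w' := ⟨hw'ne, hepw2, hSw, hintw⟩
  -- end points
  have htot : ep 0 w = q + ep 0 w' + ep 0 D := by
    rw [e3, ep_append0, ep_append0, hqdef]
  have hepD : (ep 0 D).1 = -(ep 0 U).1 := by
    have h1 := congrArg Prod.fst htot
    rw [arch_ep1 hw, Prod.fst_add, Prod.fst_add, hepw2, hqdef] at h1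
    simp only at h1
    omega
  have hep2 : 2 * g = (ep 0 U).2 + 2 * (-c) + (ep 0 D).2 := by
    have h1 := congrArg Prod.snd htot
    rw [hw.2.1, Prod.snd_add, Prod.snd_add, hepw2, hqdef] at h1
    simp only at h1
    exact h1
  have hUne : U ≠ [] := by
    rintro rfl
    rw [ep_nil, Prod.fst_zero] at hq
    omega
  have hDne : D ≠ [] := by
    rintro rfl
    rw [ep_nil, Prod.fst_zero, hq] at hepD
    omega
  -- interior vertices
  have hvst1 : (vs 0 w).tail = (vt 0 U).tail ++ vs (q + dv 0) t := by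
    rw [e1, vs_append, vs_cons]
    unfold vt
    rw [vs_eq_cons U 0 hUne, hqdef]
    simp
  have hvst2 : ∀ v ∈ vs q' D, v ∈ (vs 0 w).tail := by
    intro v hv
    rw [e3, vs_append, ep_append, ← hqdef, hepw', vs_append, vs_eq_cons U 0 hUne]
    simp only [List.cons_append, List.tail_cons]
    exact List.mem_append_right _ hv
  have hsp : StripPair U D := by
    refine ⟨by omega, hepD, hSU, hSD, ?_, ?_⟩
    · intro v hv
      refine ⟨?_, ?_⟩
      · apply hw.2.2.2
        rw [hvst1]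
        exact List.mem_append_left _ hv
      · rw [hq]
        exact hU1 v (List.mem_of_mem_tail hv)
    · intro v hv
      have h1 : v + q' ∈ vs q' D := by
        rw [vs_eq q' D, List.mem_map]
        exact ⟨v, hv, rfl⟩
      have h2 : (v + q').1 ≤ h := hD1 _ (by unfold vt; exact List.mem_append_left _ h1)
      have h3 : 0 < (v + q').1 := hw.2.2.2 _ (hvst2 _ h1)
      rw [Prod.fst_add, hq'1] at h2 h3
      rw [hepD, hq]
      omega
  have hpr : Even ((ep 0 U).2 + (ep 0 D).2) := ⟨g + c, by omega⟩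
  have hjump : g + jump (U, D) = -c := by
    unfold jump
    simp only
    omega
  refine ⟨U, w', D, -c, e3, ⟨hsp, harch, hjump, hpr, ?_⟩, hq⟩
  unfold Disj
  rw [hjump]
  simp only
  rw [← hepw2, ← hqdef, add_comm q, ← hsum]
  intro v hv hv'
  have hvt : vt 0 w = vs 0 U ++ (vs q w' ++ vt q' D) := by
    rw [e3, List.append_assoc, vt_append, vt_append, ← hqdef, hepw']
  rw [hvt, List.nodup_append', List.nodup_append'] at hnd
  obtain ⟨-, ⟨-, -, hd1⟩, hd2⟩ := hnd
  unfold vt at hv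
  rw [List.mem_append, List.mem_singleton] at hv
  rcases hv with hv | rfl
  · exact hd2 hv (List.mem_append_right _ hv')
  · refine hd1 ?_ hv'
    rw [← hqdef, vs_eq_cons w' q hw'ne]
    exact List.mem_cons_self ..

/-! ### uniqueness -/

lemma first_unique (h : ℤ) (U A U2 A2 : Wd) (e : U ++ 0 :: A = U2 ++ 0 :: A2)
    (h1 : (ep 0 U).1 = h) (h2 : ∀ v ∈ vt 0 U, v.1 ≤ h)
    (h3 : (ep 0 U2).1 = h) (h4 : ∀ v ∈ vt 0 U2, v.1 ≤ h) : U = U2 ∧ A = A2 := by
  have key : ∀ (V C B : Wd), (ep 0 V).1 = h → (∀ v ∈ vt 0 (V ++ C), v.1 ≤ h) → ∀ A' : Wd,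
      0 :: A' = C ++ B → C = [] := by
    intro V C B hV hVC A' hC
    cases C with
    | nil => rfl
    | cons c C =>
      exfalso
      rw [List.cons_append, List.cons.injEq] at hC
      have h5 := hVC (ep 0 V + dv 0) (by
        rw [vt_append, ← hC.1, vt_cons]
        exact List.mem_append_right _ (List.mem_cons_of_mem _ (mem_vt_self _ _)))
      have hdv0 : (dv 0).1 = (1 : ℤ) := by decide
      rw [Prod.fst_add, hdv0] at h5
      omega
  rcases List.append_eq_append_iff.1 e with ⟨C, hC1, hC2⟩ | ⟨C, hC1, hC2⟩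
  · have := key U C _ h1 (by rw [← hC1]; exact h4) A hC2
    subst this
    simp at hC1 hC2
    exact ⟨hC1.symm, hC2⟩
  · have := key U2 C _ h3 (by rw [← hC1]; exact h2) A2 hC2
    subst this
    simp at hC1 hC2
    exact ⟨hC1, hC2.symm⟩

lemma last_unique {a b : ℤ} (w D w2 D2 : Wd) (e : w ++ D = w2 ++ D2) (h1 : Arch a w)
    (h2 : Arch b w2) : w = w2 ∧ D = D2 := by
  have key : ∀ (x z : ℤ) (V C : Wd), Arch x V → Arch z (V ++ C) → C = [] := by
    intro x z V C hV hVC
    by_contra hC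
    have h5 := hVC.2.2.2 (ep 0 V) (by
      rw [vs_append, vs_eq_cons V 0 hV.1, List.cons_append, List.tail_cons, vs_eq_cons C _ hC]
      exact List.mem_append_right _ (List.mem_cons_self ..))
    rw [arch_ep1 hV] at h5
    omega
  rcases List.append_eq_append_iff.1 e with ⟨C, hC1, hC2⟩ | ⟨C, hC1, hC2⟩
  · have := key _ _ w C h1 (by rw [← hC1]; exact h2)
    subst this
    simp at hC1 hC2
    exact ⟨hC1.symm, hC2⟩
  · have := key _ _ w2 C h2 (by rw [← hC1]; exact h1)
    subst this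
    simp at hC1 hC2
    exact ⟨hC1, hC2.symm⟩

lemma glued_unique {g g' g2' : ℤ} {U w D U2 w2 D2 : Wd} (G : Glued g g' U w D)
    (G2 : Glued g g2' U2 w2 D2) (e : U ++ w ++ D = U2 ++ w2 ++ D2)
    (hi : ∀ h : ℤ, 0 < h → h < (ep 0 U).1 → ¬ EC (U ++ D) h)
    (hi2 : ∀ h : ℤ, 0 < h → h < (ep 0 U2).1 → ¬ EC (U2 ++ D2) h) :
    U = U2 ∧ w = w2 ∧ D = D2 := by
  have hh : (ep 0 U).1 = (ep 0 U2).1 := by
    rcases lt_trichotomy (ep 0 U).1 (ep 0 U2).1 with h | h | h
    · exfalso
      have h1 := ec_at G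
      rw [e, ec_lt G2 _ h] at h1
      exact hi2 _ G.sp.1 h h1
    · exact h
    · exfalso
      have h1 := ec_at G2
      rw [← e, ec_lt G _ h] at h1
      exact hi _ G2.sp.1 h h1
  rw [List.append_assoc, List.append_assoc] at e
  obtain ⟨u, hu, -, -⟩ := arch_shape G.arch
  obtain ⟨u2, hu2, -, -⟩ := arch_shape G2.arch
  have e2 : U ++ 0 :: (u ++ [2] ++ D) = U2 ++ 0 :: (u2 ++ [2] ++ D2) := by
    rw [hu, hu2, List.cons_append, List.cons_append] at e
    exact e
  obtain ⟨h1, h2⟩ := first_unique (ep 0 U).1 U _ U2 _ e2 rfl (sp_U_le G.sp) hh.symm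
    (fun v hv => by rw [hh]; exact sp_U_le G2.sp v hv)
  have e3 : w ++ D = w2 ++ D2 := by
    rw [h1] at e
    exact List.append_cancel_left e
  obtain ⟨h3, h4⟩ := last_unique w D w2 D2 e3 G.arch G2.arch
  exact ⟨h1, h3, h4⟩

/-! ### membership -/

lemma mem_wordsUpTo' (M : ℕ) (w : Wd) : w ∈ wordsUpTo M ↔ w.length ≤ M := by
  simp [wordsUpTo, mem_words]

lemma mem_Pc' (k n : ℕ) (p : Wd × Wd) :
    p ∈ Pc k n ↔ FreePiece k p.1 p.2 ∧ p.1.length + p.2.length ≤ 2 * n := by
  classical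
  unfold Pc
  rw [mem_filter, mem_product, mem_wordsUpTo', mem_wordsUpTo']
  constructor
  · rintro ⟨-, h⟩; exact h
  · rintro ⟨h1, h2⟩; exact ⟨⟨by omega, by omega⟩, h1, h2⟩

lemma mem_allowed' (k n : ℕ) (g : ℤ) (p : Wd × Wd) :
    p ∈ allowed k n g ↔ p ∈ Pc k n ∧ 1 ≤ g ∧ 1 ≤ g + jump p ∧ Disj g p := by
  classical
  unfold allowed
  rw [mem_filter]

lemma mem_ArchSet' (k : ℕ) (g : ℤ) (N : ℕ) (w : Wd) :
    w ∈ ArchSet k g N ↔ w.length = N ∧ Arch g w ∧ Nar k w := by
  classical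
  unfold ArchSet
  rw [mem_filter, mem_words]

lemma mem_CapSet' (k : ℕ) (g : ℤ) (N : ℕ) (w : Wd) :
    w ∈ CapSet k g N ↔ w.length = N ∧ Arch g w ∧ Nar k w ∧ ∀ h : ℤ, 1 ≤ h → ¬ EC w h := by
  classical
  unfold CapSet
  rw [mem_filter, mem_words]

/-- parity of the second coordinates of a free piece -/
lemma piece_even {k : ℕ} {U D : Wd} (h : FreePiece k U D) : Even ((ep 0 U).2 + (ep 0 D).2) := by
  obtain ⟨a, ha⟩ := len_parity U
  obtain ⟨b, hb⟩ := len_parity D
  obtain ⟨c, hc⟩ := h.2.1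
  have h1 := h.1.2.1
  have hc' : (U.length : ℤ) + D.length = c + c := by exact_mod_cast hc
  exact ⟨a + b + c, by omega⟩

lemma pair_even_len {U D : Wd} (h : StripPair U D) (he : Even ((ep 0 U).2 + (ep 0 D).2)) :
    Even (U.length + D.length) := by
  obtain ⟨a, ha⟩ := len_parity U
  obtain ⟨b, hb⟩ := len_parity D
  obtain ⟨c, hc⟩ := he
  have h1 := h.2.1
  rw [Nat.even_iff]
  omega

end Pool.Agent.KCC.K2

namespace Pool.Agent.KCC

open Finset Pool.Agent.Lib27 K2

/-- K2. -/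
theorem k2_thm (h : PLA_Stmt) : K2_Stmt := by
  intro k n g N hk hg hN F
  classical
  rw [← sum_filter_add_sum_filter_not (ArchSet k g N)
    (fun w => ∀ h : ℤ, 1 ≤ h → ¬ EC w h)]
  congr 1
  · apply sum_congr _ (fun _ _ => rfl)
    ext w
    rw [mem_filter, mem_ArchSet', mem_CapSet']
    constructor
    · rintro ⟨⟨h1, h2, h4⟩, h5⟩
      exact ⟨h1, h2, h4, h5⟩
    · rintro ⟨h1, h2, h4, h5⟩
      exact ⟨⟨h1, h2, h4⟩, h5⟩
  · rw [sum_sigma']
    symm
    refine sum_bij (fun z _ => z.1.1 ++ z.2 ++ z.1.2) ?_ ?_ ?_ ?_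
    · rintro ⟨p, w⟩ hz
      rw [mem_sigma, mem_allowed', mem_ArchSet', mem_Pc'] at hz
      obtain ⟨⟨⟨hfp, hlen⟩, -, hy, hdisj⟩, hwl, hwa, hwr⟩ := hz
      have G : Glued g (g + jump p) p.1 w p.2 := ⟨hfp.1, hwa, rfl, piece_even hfp, hdisj⟩
      rw [mem_filter, mem_ArchSet']
      simp only
      refine ⟨⟨?_, arch_total G, (nar_iff G k).2 ⟨hfp.2.2.1, hwr⟩⟩, ?_⟩
      · have h1 : 2 ≤ w.length := arch_len hwa
        have h2 : w.length = N - (p.1.length + p.2.length) := hwl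
        have h3 : p.1.length + p.2.length ≤ 2 * n := hlen
        clear hwl hlen
        rw [List.length_append, List.length_append]
        omega
      · intro h'
        exact h' _ (by have := G.sp.1; omega) (ec_at G)
    · rintro ⟨p, w⟩ hz ⟨p2, w2⟩ hz2 e
      rw [mem_sigma, mem_allowed', mem_ArchSet', mem_Pc'] at hz hz2
      obtain ⟨⟨⟨hfp, hlen⟩, -, hy, hdisj⟩, hwl, hwa, hwr⟩ := hz
      obtain ⟨⟨⟨hfp2, hlen2⟩, -, hy2, hdisj2⟩, hwl2, hwa2, hwr2⟩ := hz2
      have G : Glued g (g + jump p) p.1 w p.2 := ⟨hfp.1, hwa, rfl, piece_even hfp, hdisj⟩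
      have G2 : Glued g (g + jump p2) p2.1 w2 p2.2 :=
        ⟨hfp2.1, hwa2, rfl, piece_even hfp2, hdisj2⟩
      obtain ⟨e1, e2, e3⟩ := glued_unique G G2 e hfp.2.2.2 hfp2.2.2.2
      have e4 : p = p2 := Prod.ext e1 e3
      subst e4
      subst e2
      rfl
    · intro w hw
      rw [mem_filter, mem_ArchSet'] at hw
      obtain ⟨⟨hl, hwa, hwr⟩, hcut⟩ := hw
      push Not at hcut
      -- the leftmost even cut
      obtain ⟨h0, hh0, hc0⟩ := hcut
      have hex : ∃ m : ℕ, EC w ((m : ℤ) + 1) := ⟨(h0 - 1).toNat, by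
        rw [Int.toNat_of_nonneg (by omega), sub_add_cancel]; exact hc0⟩
      have hfind := Nat.find_spec hex
      have hmin : ∀ j : ℤ, 0 < j → j < (Nat.find hex : ℤ) + 1 → ¬ EC w j := by
        intro j hj1 hj2 hcj
        have := Nat.find_min' hex (m := (j - 1).toNat) (by
          rw [Int.toNat_of_nonneg (by omega), sub_add_cancel]; exact hcj)
        omega
      obtain ⟨U, w', D, g', e, G, hU⟩ := exists_glued hwa _ (by omega) hfind
      have hirr : ∀ j : ℤ, 0 < j → j < (ep 0 U).1 → ¬ EC (U ++ D) j := by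
        intro j hj1 hj2
        rw [← ec_lt G j hj2, ← e]
        exact hmin j hj1 (by omega)
      have hr := (nar_iff G k).1 (by rw [← e]; exact hwr)
      obtain ⟨c, hc⟩ := G.pr
      have hj : jump (U, D) = -c := by
        unfold jump
        simp only
        omega
      have hgg := G.hy
      have hy1 : 1 ≤ 2 * (g + jump (U, D)) :=
        h (2 * g) (2 * (g + jump (U, D))) U D (by omega) G.sp (by omega) G.disj
      have hlen : w.length = U.length + w'.length + D.length := by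
        rw [e, List.length_append, List.length_append]
      have hlw := arch_len G.arch
      refine ⟨⟨(U, D), w'⟩, ?_, e.symm⟩
      rw [mem_sigma, mem_allowed', mem_ArchSet', mem_Pc']
      have hy2 : 1 ≤ g + jump (U, D) := by omega
      refine ⟨⟨⟨⟨G.sp, pair_even_len G.sp G.pr, hr.1, hirr⟩, ?_⟩, hg, hy2, G.disj⟩, ?_, ?_,
        hr.2⟩
      · simp only
        omega
      · simp only
        omega
      · simp only
        rw [G.hy]
        exact G.arch
    · rintro ⟨p, w⟩ _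
      rfl

end Pool.Agent.KCC
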