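import Pool.Agent.KCC.Pos
import Pool.Agent.KCC.K2
import Pool.Agent.KCC.Lib

/-! GLU: the canonical words of positive orientation are glued from an arch and a cap. -/

set_option autoImplicit false

namespace Pool.Agent.KCC

open Finset Pool.Agent.Lib27
open Pool.Agent.SapR (rot2)
open Pool.Agent.SapR.H58 (rot2_rot2 rot2_append ep_rot2' vs_rot2' rot2_length)

namespace GLUB

/-! ### reflection of the second coordinate -/

/-- reflection `(x, y) ↦ (x, -y)` of a word -/
def ry (w : Wd) : Wd := w.map (fun s => -s)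

/-- reflection of a vertex -/
def ryv (p : ℤ × ℤ) : ℤ × ℤ := (p.1, -p.2)

lemma dv_neg (a : Fin 4) : dv (-a) = ryv (dv a) := by
  revert a; decide

lemma ryv_add (p q : ℤ × ℤ) : ryv (p + q) = ryv p + ryv q := by
  unfold ryv; ext <;> simp [add_comm]

lemma ryv_inj : Function.Injective ryv := by
  rintro ⟨a, b⟩ ⟨c, d⟩ h
  unfold ryv at h
  simp only [Prod.mk.injEq, neg_inj] at h
  exact Prod.ext h.1 h.2

lemma ep_ry (p : ℤ × ℤ) (w : Wd) : ep (ryv p) (ry w) = ryv (ep p w) := by
  induction w generalizing p with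
  | nil => rfl
  | cons s w ih =>
    show ep (ryv p) (-s :: ry w) = _
    rw [ep_cons, ep_cons, dv_neg, ← ryv_add, ih]

lemma vs_ry (p : ℤ × ℤ) (w : Wd) : vs (ryv p) (ry w) = (vs p w).map ryv := by
  induction w generalizing p with
  | nil => rfl
  | cons s w ih =>
    show vs (ryv p) (-s :: ry w) = _
    rw [vs_cons, vs_cons, dv_neg, ← ryv_add, ih]
    rfl

lemma dbl_ry (p : ℤ × ℤ) (w : Wd) : dbl (ryv p) (ry w) = -dbl p w := by
  induction w generalizing p with
  | nil => simp [ry]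
  | cons s w ih =>
    show dbl (ryv p) (-s :: ry w) = _
    rw [dbl_cons, dbl_cons, dv_neg, ← ryv_add, ih]
    unfold ryv
    simp only
    ring

lemma ryv0 : ryv 0 = 0 := rfl

lemma Arch_ry {g : ℤ} {w : Wd} (h : Arch g w) : Arch (-g) (ry w) := by
  obtain ⟨h0, h1, h2, h3⟩ := h
  have e1 : ep 0 (ry w) = ryv (ep 0 w) := ep_ry 0 w
  have e2 : vs 0 (ry w) = (vs 0 w).map ryv := vs_ry 0 w
  refine ⟨?_, ?_, ?_, ?_⟩
  · unfold ry
    simpa using h0
  · rw [e1, h1]
    unfold ryv
    ext <;> simp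
  · unfold vt
    rw [e1, e2]
    have : (vs 0 w).map ryv ++ [ryv (ep 0 w)] = (vt 0 w).map ryv := by
      unfold vt; simp
    rw [this]
    exact h2.map ryv_inj
  · intro p hp
    rw [e2, ← List.map_tail, List.mem_map] at hp
    obtain ⟨q, hq, rfl⟩ := hp
    exact h3 q hq

lemma glue_ry (w T : Wd) : glue (ry w) (ry T) = ry (glue w T) := by
  unfold glue strip ry rot2
  rw [List.map_append, List.map_tail.symm, List.map_dropLast.symm, List.map_map, List.map_map]
  congr 2
  funext a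
  simp only [Function.comp_apply]
  revert a
  decide

lemma gap_pos (hpos : POS_Stmt) {g : ℤ} {w T : Wd} (hg : g ≠ 0) (hw : Arch g w) (hT : Arch g T)
    (h : 0 < dbl 0 (glue w T)) : 1 ≤ g := by
  by_contra hlt
  have h1 := hpos (-g) (ry w) (ry T) (by omega) (Arch_ry hw) (Arch_ry hT)
  rw [glue_ry] at h1
  have h2 : dbl 0 (ry (glue w T)) = -dbl 0 (glue w T) := dbl_ry 0 _
  omega

/-! ### crossings of a glued word -/

/-- the second part of a glued word, from `(0, 2 g)`, is in the columns `≤ 0` -/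
lemma left_part {g : ℤ} {T : Wd} (hg : 1 ≤ g) (hT : Arch g T) :
    ∀ v ∈ vt (0, 2 * g) (rot2 (strip T)), v.1 ≤ 0 := by
  obtain ⟨p1, p2, p3⟩ := POS.strip_props hg hT
  intro v hv
  rw [vt_eq, List.mem_map] at hv
  obtain ⟨q, hq, rfl⟩ := hv
  unfold vt at hq
  rw [vs_rot2', ep_rot2', List.mem_append, List.mem_singleton, List.mem_map] at hq
  rcases hq with ⟨r, hr, rfl⟩ | rfl
  · have := (p3 r hr).1
    simp only [Prod.fst_add, Prod.fst_neg]
    omega
  · rw [p1]
    simp

lemma cx_glue_nonneg {g : ℤ} {w T : Wd} (hg : 1 ≤ g) (hw : Arch g w) (hT : Arch g T) (h : ℤ)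
    (hh : 0 ≤ h) : cx h 0 (glue w T) = cx h 0 w := by
  unfold glue
  rw [cx_append, hw.2.1, cx_eq_nil_of_le h _ _ fun v hv => (left_part hg hT v hv).trans hh,
    List.append_nil]

lemma cx_cap {u : Wd} {g : ℤ} (he : ep (1, 0) u = (1, 2 * g)) {i : ℤ} (hi : 1 ≤ i) :
    cx i 0 (0 :: (u ++ [2])) = cx (i - 1) 0 u := by
  have h1 : ¬ (((0 : Fin 4) = 0 ∧ (0 : ℤ × ℤ).1 = i) ∨ ((0 : Fin 4) = 2 ∧ (0 : ℤ × ℤ).1 = i + 1)) := by
    simp only [Prod.fst_zero]
    rintro (⟨_, h⟩ | ⟨h, _⟩)
    · omega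
    · exact absurd h (by decide)
  have h2 : ¬ (((2 : Fin 4) = 0 ∧ (1 : ℤ) = i) ∨ ((2 : Fin 4) = 2 ∧ (1 : ℤ) = i + 1)) := by
    rintro (⟨h, _⟩ | ⟨_, h⟩)
    · exact absurd h (by decide)
    · omega
  rw [cx_cons, if_neg h1, List.nil_append, zero_add, cx_append]
  have h3 : ep (dv 0) u = (1, 2 * g) := he
  rw [h3, cx_cons, if_neg h2]
  have h4 : cx i (dv 0) u = (cx (i - (dv 0).1) 0 u).map (· + (dv 0).2) := cx_eq i (dv 0) u
  rw [h4]
  have h5 : (dv 0).1 = 1 := rfl
  have h6 : (dv 0).2 = 0 := rfl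
  rw [h5, h6]
  simp [cx]

lemma cx_glue_neg {g : ℤ} {w T : Wd} (hg : 1 ≤ g) (hw : Arch g w) (hT : Arch g T) (h : ℤ)
    (hh : h < 0) : cx h 0 (glue w T) = (cx (-h) 0 T).map (fun a => -a + 2 * g) := by
  have hf := POS.arch_form hg hT
  obtain ⟨p1, -, -⟩ := POS.strip_props hg hT
  have he : ep (1, 0) (strip T) = (1, 2 * g) := by
    rw [ep_eq, p1]; ext <;> simp
  have h1 : cx (-h) 0 T = cx (-h - 1) 0 (strip T) := by
    conv_lhs => rw [hf]
    exact cx_cap he (by omega)
  unfold glue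
  rw [cx_append, Arch_cx_neg hw (by omega) h hh, List.nil_append, hw.2.1, cx_eq, h1]
  simp only [sub_zero]
  rw [cx_rot2', List.map_map]
  rfl

lemma cr_glue_nonneg {g : ℤ} {w T : Wd} (hg : 1 ≤ g) (hw : Arch g w) (hT : Arch g T) (h : ℤ)
    (hh : 0 ≤ h) : cr (glue w T) h = cr w h := by
  unfold cr; rw [cx_glue_nonneg hg hw hT h hh]

lemma cr_glue_neg {g : ℤ} {w T : Wd} (hg : 1 ≤ g) (hw : Arch g w) (hT : Arch g T) (h : ℤ)
    (hh : h < 0) : cr (glue w T) h = cr T (-h) := by
  unfold cr; rw [cx_glue_neg hg hw hT h hh, List.length_map]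

lemma EC_glue_neg {g : ℤ} {w T : Wd} (hg : 1 ≤ g) (hw : Arch g w) (hT : Arch g T) (h : ℤ)
    (hh : h < 0) : EC (glue w T) h ↔ EC T (-h) := by
  unfold EC
  rw [cx_glue_neg hg hw hT h hh]
  constructor
  · rintro ⟨y, y', h1, h2⟩
    have h3 := congrArg List.length h1
    rw [List.length_map] at h3
    obtain ⟨a, b, h4⟩ := List.length_eq_two.1 h3
    rw [h4] at h1 ⊢
    simp only [List.map_cons, List.map_nil, List.cons.injEq, and_true] at h1
    obtain ⟨t, ht⟩ := h2
    exact ⟨a, b, rfl, ⟨-t, by omega⟩⟩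
  · rintro ⟨y, y', h1, h2⟩
    rw [h1]
    obtain ⟨t, ht⟩ := h2
    exact ⟨-y + 2 * g, -y' + 2 * g, rfl, ⟨-t, by omega⟩⟩

lemma cr_arch_neg {g : ℤ} {w : Wd} (hg : g ≠ 0) (hw : Arch g w) {h : ℤ} (hh : h < 0) :
    cr w h = 0 := by
  unfold cr; rw [Arch_cx_neg hw hg h hh]; rfl

lemma cr_arch_zero {g : ℤ} {w : Wd} (hg : g ≠ 0) (hw : Arch g w) : cr w 0 = 2 := by
  unfold cr; rw [Arch_cx_zero hw hg]; rfl

lemma nar_glue {k : ℕ} {g : ℤ} {w T : Wd} (hk : 1 ≤ k) (hg : 1 ≤ g) (hw : Arch g w)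
    (hT : Arch g T) : Nar k (glue w T) ↔ Nar k w ∧ Nar k T := by
  constructor
  · intro h
    constructor
    · intro i
      rcases lt_or_ge i 0 with hi | hi
      · rw [cr_arch_neg (by omega) hw hi]
        omega
      · rw [← cr_glue_nonneg hg hw hT i hi]
        exact h i
    · intro i
      rcases lt_trichotomy i 0 with hi | rfl | hi
      · rw [cr_arch_neg (by omega) hT hi]
        omega
      · rw [cr_arch_zero (by omega) hT]
        omega
      · have := cr_glue_neg hg hw hT (-i) (by omega)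
        rw [neg_neg] at this
        rw [← this]
        exact h _
  · rintro ⟨h1, h2⟩ i
    rcases lt_or_ge i 0 with hi | hi
    · rw [cr_glue_neg hg hw hT i hi]
      exact h2 _
    · rw [cr_glue_nonneg hg hw hT i hi]
      exact h1 _

lemma canon_glue {g : ℤ} {w T : Wd} (hg : 1 ≤ g) (hw : Arch g w) (hT : Arch g T) :
    Canon (glue w T) ↔ ∀ h : ℤ, 1 ≤ h → ¬ EC T h := by
  have h0 : (glue w T).getD 0 1 = 0 := by
    unfold glue
    rw [POS.arch_form hg hw]
    rfl
  have h1 : EC (glue w T) 0 := by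
    refine ⟨0, 2 * g, ?_, ⟨-g, by ring⟩⟩
    rw [cx_glue_nonneg hg hw hT 0 le_rfl, Arch_cx_zero hw (by omega)]
  constructor
  · rintro ⟨-, -, h2⟩ h hh hE
    refine h2 (-h) (by omega) ?_
    rw [EC_glue_neg hg hw hT _ (by omega), neg_neg]
    exact hE
  · intro h2
    refine ⟨h0, h1, fun h hh hE => h2 (-h) (by omega) ?_⟩
    rwa [EC_glue_neg hg hw hT _ hh] at hE

lemma strip_length {g : ℤ} {T : Wd} (hg : 1 ≤ g) (hT : Arch g T) :
    (strip T).length + 2 = T.length := by
  conv_rhs => rw [POS.arch_form hg hT]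
  simp

lemma glue_length {g : ℤ} {w T : Wd} (hg : 1 ≤ g) (hT : Arch g T) :
    (glue w T).length + 2 = w.length + T.length := by
  unfold glue
  rw [List.length_append, rot2_length, ← strip_length hg hT]
  ring

/-! ### decomposition of a canonical word -/

lemma canon_decomp {n : ℕ} {s : Wd} (hn : 1 ≤ n) (hl : s.length = 2 * n) (hs : SAPw s)
    (hc : Canon s) (hd : 0 < dbl 0 s) :
    ∃ (g : ℤ) (w T : Wd), g ≠ 0 ∧ Arch g w ∧ Arch g T ∧ s = glue w T := by
  obtain ⟨hc0, ⟨y, y', hcx, heven⟩, -⟩ := hc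
  obtain ⟨hs1, hs2⟩ := hs
  cases s with
  | nil => simp only [List.length_nil] at hl; omega
  | cons d t =>
    have hd0 : d = 0 := by simpa using hc0
    subst hd0
    have e0 : ((0 : ℤ × ℤ) + dv 0) = (1, 0) := rfl
    rw [cx_cons, if_pos (Or.inl ⟨rfl, rfl⟩), e0] at hcx
    simp only [Prod.snd_zero, List.singleton_append, List.cons.injEq] at hcx
    obtain ⟨hy, hcx⟩ := hcx
    obtain ⟨U, v, d, rfl, hU, hd1, hy', hv⟩ := K2.split_cx 0 t (1, 0) y' [] hcx
    have hUs := K2.right_stay 0 U (1, 0) (by norm_num) hU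
    have hUe := hUs _ (ep_mem_vt _ _)
    rcases hd1 with ⟨_, hd2⟩ | ⟨rfl, hd2⟩
    · omega
    have hep : ep (1, 0) U = (1, y') := Prod.ext (by rw [hd2]; rfl) hy'.symm
    have e2 : ((1, y') : ℤ × ℤ) + dv 2 = (0, y') := by
      rw [dv2]; ext <;> simp
    rw [hep, e2] at hv
    have hvs := K2.left_stay 0 v (0, y') le_rfl hv
    obtain ⟨a, ha⟩ := heven
    have hg : y' = 2 * (-a) := by omega
    set g : ℤ := -a with hgdef
    -- the word
    have hsplit : (0 :: (U ++ 2 :: v) : Wd) = (0 :: (U ++ [2])) ++ v := by simp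
    have hew : ep 0 (0 :: (U ++ [2]) : Wd) = (0, 2 * g) := by
      rw [ep_cons, e0, ep_append, hep, ep_cons, ep_nil, e2, hg]
    have hvs0 : vs 0 (0 :: (U ++ 2 :: v) : Wd) =
        vs 0 (0 :: (U ++ [2]) : Wd) ++ vs (0, 2 * g) v := by
      rw [hsplit, vs_append, hew]
    have hvsw : vs 0 (0 :: (U ++ [2]) : Wd) = 0 :: vt (1, 0) U := by
      rw [vs_cons, e0, vs_append, hep]
      unfold vt
      rw [hep]
      rfl
    have hev : ep (0, 2 * g) v = 0 := by
      rw [hsplit, ep_append, hew] at hs1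
      exact hs1
    have hv0 : v ≠ [] := by
      rintro rfl
      rw [ep_nil] at hev
      have hg0 : g = 0 := by
        have := congrArg Prod.snd hev
        simp only [Prod.snd_zero] at this
        omega
      have hU0 : U = [] := by
        by_contra hne
        rw [hvs0, hvsw] at hs2
        simp only [vs_nil, List.append_nil] at hs2
        have h1 : (vt (1, 0) U).Nodup := (List.nodup_cons.1 hs2).2
        unfold vt at h1
        rw [List.nodup_append'] at h1
        have h12 : ∀ p, p ∈ vs (1, 0) U → p ∈ [ep (1, 0) U] → False :=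
          fun p h h' => (List.disjoint_left.1 h1.2.2) h h'
        refine h12 (1, 0) ?_ (by rw [hep, hg, hg0]; simp)
        cases U with
        | nil => exact absurd rfl hne
        | cons b U => rw [vs_cons]; exact List.mem_cons_self
      rw [hU0] at hd
      simp [dbl, dv] at hd
    have hdis : ∀ p ∈ vs 0 (0 :: (U ++ [2]) : Wd), ∀ q ∈ vs (0, 2 * g) v, p ≠ q := by
      rw [hvs0, List.nodup_append] at hs2
      exact hs2.2.2
    have hvhead : ((0, 2 * g) : ℤ × ℤ) ∈ vs (0, 2 * g) v := by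
      cases v with
      | nil => exact absurd rfl hv0
      | cons b v => rw [vs_cons]; exact List.mem_cons_self
    have hg0 : g ≠ 0 := by
      intro h0
      refine hdis 0 (by rw [hvsw]; exact List.mem_cons_self) _ hvhead ?_
      rw [h0]
      rfl
    have hAw : Arch g (0 :: (U ++ [2])) := by
      refine ⟨by simp, hew, ?_, ?_⟩
      · unfold vt
        rw [hew, List.nodup_append]
        refine ⟨?_, List.nodup_singleton _, ?_⟩
        · rw [hvs0, List.nodup_append] at hs2
          exact hs2.1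
        · intro p hp q hq
          rw [List.mem_singleton] at hq
          subst hq
          exact hdis p hp _ hvhead
      · rw [hvsw, List.tail_cons]
        exact hUs
    -- the cap
    have hvt : (vt (0, 2 * g) v).Nodup := by
      unfold vt
      rw [hev, List.nodup_append]
      refine ⟨?_, List.nodup_singleton _, ?_⟩
      · rw [hvs0, List.nodup_append] at hs2
        exact hs2.2.1
      · intro p hp q hq
        rw [List.mem_singleton] at hq
        subst hq
        exact (hdis 0 (by rw [hvsw]; exact List.mem_cons_self) p hp).symm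
    have hev0 : ep 0 v = (0, -(2 * g)) := by
      rw [ep_eq] at hev
      have h1 := congrArg Prod.fst hev
      have h2 := congrArg Prod.snd hev
      simp only [Prod.fst_add, Prod.snd_add, Prod.fst_zero, Prod.snd_zero] at h1 h2
      exact Prod.ext (by simp only; omega) (by simp only; omega)
    have hvt1 : vt (1, 0) (rot2 v) = (vt (0, 2 * g) v).map (fun p => -p + (1, 2 * g)) := by
      rw [vt_eq (1, 0), vt_eq (0, 2 * g)]
      unfold vt
      rw [vs_rot2', ep_rot2']
      simp only [List.map_append, List.map_map, List.map_cons, List.map_nil]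
      congr 1
      · refine List.map_congr_left fun p _ => ?_
        simp only [Function.comp_apply]
        ext <;> simp
      · congr 1
        ext <;> simp
    have hepT : ep (1, 0) (rot2 v) = (1, 2 * g) := by
      rw [ep_eq, ep_rot2', hev0]
      ext <;> simp
    have hvsT : vs 0 (0 :: (rot2 v ++ [2]) : Wd) = 0 :: vt (1, 0) (rot2 v) := by
      rw [vs_cons, e0, vs_append]
      unfold vt
      rfl
    have hepT0 : ep 0 (0 :: (rot2 v ++ [2]) : Wd) = (0, 2 * g) := by
      rw [ep_cons, e0, ep_append, hepT, ep_cons, ep_nil, dv2]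
      ext <;> simp
    have hpos : ∀ p ∈ vt (1, 0) (rot2 v), 0 < p.1 := by
      intro p hp
      rw [hvt1, List.mem_map] at hp
      obtain ⟨q, hq, rfl⟩ := hp
      have := hvs q (by rw [hg]; exact hq)
      simp only [Prod.fst_add, Prod.fst_neg]
      omega
    have hAT : Arch g (0 :: (rot2 v ++ [2])) := by
      refine ⟨by simp, hepT0, ?_, ?_⟩
      · unfold vt
        rw [hepT0, hvsT, List.cons_append, List.nodup_cons, List.nodup_append]
        refine ⟨?_, ?_, List.nodup_singleton _, ?_⟩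
        · rw [List.mem_append, List.mem_singleton]
          rintro (h1 | h1)
          · have := hpos _ h1
            simp at this
          · have := congrArg Prod.snd h1
            simp only [Prod.snd_zero] at this
            omega
        · rw [hvt1]
          refine hvt.map ?_
          intro p q hpq
          simpa using hpq
        · intro p hp q hq
          rw [List.mem_singleton] at hq
          subst hq
          rintro rfl
          have := hpos _ hp
          simp at this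
      · rw [hvsT, List.tail_cons]
        exact hpos
    refine ⟨g, _, _, hg0, hAw, hAT, ?_⟩
    have hst : strip (0 :: (rot2 v ++ [2])) = rot2 v := by
      simp [strip]
    unfold glue
    rw [hst, rot2_rot2, hsplit]

lemma arch_even {g : ℤ} {w : Wd} (hw : Arch g w) : ∃ j : ℕ, w.length = 2 * j := by
  obtain ⟨a, ha⟩ := K2.len_parity w
  rw [hw.2.1] at ha
  simp only at ha
  exact ⟨(g - a).toNat, by omega⟩

lemma snd_le_length (w : Wd) : (ep 0 w).2 ≤ w.length := by
  induction w with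
  | nil => simp
  | cons s w ih =>
    rw [ep_cons, zero_add, ep_eq (dv s), Prod.snd_add, List.length_cons]
    have : (dv s).2 ≤ 1 := POS.dv_snd s
    push_cast
    omega

end GLUB

open GLUB in
theorem glub_thm (hpos : POS_Stmt) : GLU_Stmt := by
  classical
  intro k n hk hn F
  symm
  have hOm : ∀ q : (_ : ℤ) × (_ : ℕ) × (Wd × Wd), q ∈ Om k n ↔ (1 ≤ q.1 ∧ q.1 ≤ n) ∧ q.2.1 ≤ n ∧
      q.2.2.1 ∈ CapSet k q.1 (2 * q.2.1 + 2) ∧ q.2.2.2 ∈ ArchSet k q.1 (2 * (n - q.2.1)) := by
    rintro ⟨g, m, T, w⟩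
    unfold Om
    simp only [mem_sigma, mem_Icc, mem_range, mem_product]
    constructor
    · rintro ⟨h1, h2, h3, h4⟩
      exact ⟨h1, by omega, h3, h4⟩
    · rintro ⟨h1, h2, h3, h4⟩
      exact ⟨h1, by omega, h3, h4⟩
  refine Finset.sum_nbij (fun q => glue q.2.2.2 q.2.2.1) ?_ ?_ ?_ ?_
  · rintro ⟨g, m, T, w⟩ hq
    obtain ⟨⟨h1, h2⟩, h3, h4, h5⟩ := (hOm _).1 hq
    simp only at h1 h2 h3 h4 h5 ⊢
    obtain ⟨a1, a2, a3, a4⟩ := (mem_CapSet _ _ _ _).1 h4
    obtain ⟨b1, b2, b3⟩ := (mem_ArchSet _ _ _ _).1 h5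
    rw [mem_filter, mem_Fam]
    refine ⟨⟨?_, (nar_glue hk h1 b2 a2).2 ⟨b3, a3⟩⟩, (canon_glue h1 b2 a2).2 a4,
      hpos g w T h1 b2 a2⟩
    unfold W
    rw [mem_filter, mem_words]
    refine ⟨?_, POS.glue_SAPw h1 b2 a2⟩
    have := glue_length (w := w) h1 a2
    omega
  · rintro ⟨g, m, T, w⟩ hq ⟨g', m', T', w'⟩ hq' he
    obtain ⟨⟨h1, h2⟩, h3, h4, h5⟩ := (hOm _).1 (Finset.mem_coe.1 hq)
    obtain ⟨⟨h1', h2'⟩, h3', h4', h5'⟩ := (hOm _).1 (Finset.mem_coe.1 hq')
    simp only at h1 h2 h3 h4 h5 h1' h2' h3' h4' h5' he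
    obtain ⟨a1, a2, a3, a4⟩ := (mem_CapSet _ _ _ _).1 h4
    obtain ⟨b1, b2, b3⟩ := (mem_ArchSet _ _ _ _).1 h5
    obtain ⟨a1', a2', a3', a4'⟩ := (mem_CapSet _ _ _ _).1 h4'
    obtain ⟨b1', b2', b3'⟩ := (mem_ArchSet _ _ _ _).1 h5'
    unfold glue at he
    obtain ⟨e1, e2⟩ := K2.last_unique w (rot2 (strip T)) w' (rot2 (strip T')) he b2 b2'
    subst e1
    have e3 : g = g' := by
      have := b2.2.1
      rw [b2'.2.1] at this
      have := congrArg Prod.snd this
      simp only at this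
      omega
    subst e3
    have e4 : strip T = strip T' := by
      rw [← rot2_rot2 (strip T), e2, rot2_rot2]
    have e5 : T = T' := by
      rw [POS.arch_form h1 a2, POS.arch_form h1 a2', e4]
    subst e5
    have e6 : m = m' := by omega
    subst e6
    rfl
  · intro s hs
    rw [Finset.mem_coe, mem_filter, mem_Fam] at hs
    obtain ⟨⟨hsW, hsN⟩, hc, hd⟩ := hs
    unfold W at hsW
    rw [mem_filter, mem_words] at hsW
    obtain ⟨g, w, T, hg0, hAw, hAT, rfl⟩ := canon_decomp hn hsW.1 hsW.2 hc hd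
    have hg : 1 ≤ g := gap_pos hpos hg0 hAw hAT hd
    obtain ⟨i, hi⟩ := arch_even hAw
    obtain ⟨j, hj⟩ := arch_even hAT
    have hlen := glue_length (w := w) hg hAT
    rw [hsW.1, hi, hj] at hlen
    have hT2 := strip_length hg hAT
    have hgw := snd_le_length w
    rw [hAw.2.1] at hgw
    simp only at hgw
    have hgn : g ≤ (n : ℤ) := by omega
    refine ⟨⟨g, j - 1, T, w⟩, Finset.mem_coe.2 ((hOm _).2 ⟨⟨hg, hgn⟩, ?_, ?_, ?_⟩), rfl⟩
    · simp only
      omega
    · simp only
      rw [mem_CapSet]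
      exact ⟨by omega, hAT, ((nar_glue hk hg hAw hAT).1 hsN).2, (canon_glue hg hAw hAT).1 hc⟩
    · simp only
      rw [mem_ArchSet]
      exact ⟨by omega, hAw, ((nar_glue hk hg hAw hAT).1 hsN).1⟩
  · intro q _
    rfl

end Pool.Agent.KCC
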