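import Pool.Agent.KCC.Stmts3
import Pool.Agent.Lib_helper41.SapR.Transfer

/-!
# Column-convex polygons (MP_f6626d_co): the growth rates for fixed `k` (module LMQ)
-/

set_option autoImplicit false

namespace Pool.Agent.KCC.LMQ

open Finset Filter Topology Pool.Agent.Lib27 Pool.Agent.AreaLaw

lemma log_div : Tendsto (fun n : ℕ => Real.log (n : ℝ) / n) atTop (𝓝 0) := by
  have h2 : Tendsto (fun x : ℝ => Real.log x / x) atTop (𝓝 0) := by
    have := Real.isLittleO_log_id_atTop.tendsto_div_nhds_zero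
    simpa using this
  exact h2.comp tendsto_natCast_atTop_atTop

lemma err (c : ℝ) : Tendsto (fun n : ℕ => (c + 1 / 2 * Real.log (n : ℝ)) / n) atTop (𝓝 0) := by
  have h4 : Tendsto (fun n : ℕ => c / (n : ℝ)) atTop (𝓝 0) :=
    tendsto_const_nhds.div_atTop tendsto_natCast_atTop_atTop
  have h5 := h4.add (log_div.const_mul (1 / 2))
  rw [mul_zero, add_zero] at h5
  refine h5.congr fun n => ?_
  ring

lemma err0 (c : ℝ) : Tendsto (fun n : ℕ => c / (n : ℝ)) atTop (𝓝 0) :=
  tendsto_const_nhds.div_atTop tendsto_natCast_atTop_atTop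

lemma sub_SAP (k n : ℕ) : ((ColConvex k n).card : ℝ) ≤ ((W n).card : ℝ) := by
  classical
  rw [← card_SAP]
  have h : ColConvex k n ⊆ SAP n := by
    unfold ColConvex
    exact filter_subset _ _
  exact_mod_cast card_le_card h

end Pool.Agent.KCC.LMQ

namespace Pool.Agent.KCC

open Finset Filter Topology Pool.Agent.Lib27 Pool.Agent.AreaLaw

theorem lmq_thm (hc : CNT_Stmt) (hg : GRO_Stmt) (hm : MUM_Stmt) : LMQ_Stmt := by
  intro q hq
  have hq0 : ∀ k, 1 ≤ k → 0 < q k := fun k hk => by
    obtain ⟨eta, C, h⟩ := hq k hk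
    exact h.1
  -- upper bound
  have hup : ∀ k, 1 ≤ k → Real.log (q k)⁻¹ ≤ Lc := by
    intro k hk
    obtain ⟨eta, C, h⟩ := hq k hk
    obtain ⟨C1, hC1, h1⟩ := hc k (q k) eta C hk h
    have h0 := hq0 k hk
    have h2 : Tendsto (fun n : ℕ => Real.log (q k)⁻¹ -
        (Real.log C1 + 1 / 2 * Real.log (n : ℝ)) / n) atTop (𝓝 (Real.log (q k)⁻¹ - 0)) :=
      tendsto_const_nhds.sub (LMQ.err (Real.log C1))
    rw [sub_zero] at h2
    refine le_of_tendsto_of_tendsto h2 tendsto_W ?_
    filter_upwards [eventually_ge_atTop 2] with n hn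
    have hn0 : (0 : ℝ) < n := by
      have : 0 < n := by omega
      exact_mod_cast this
    have h3 := (h1 n hn).1.trans (LMQ.sub_SAP k n)
    have h4 : (0 : ℝ) < C1⁻¹ * ((q k)⁻¹ ^ n / Real.sqrt n) := by positivity
    have h5 := Real.log_le_log h4 h3
    rw [Real.log_mul (by positivity) (by positivity), Real.log_div (by positivity) (by positivity),
      Real.log_pow, Real.log_sqrt hn0.le, Real.log_inv C1] at h5
    rw [le_div_iff₀ hn0, sub_mul, div_mul_cancel₀ _ hn0.ne']
    linarith
  -- lower bound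
  have hlow : ∀ ε : ℝ, 0 < ε → ∃ k, 1 ≤ k ∧ Lc - ε ≤ Real.log (q k)⁻¹ := by
    intro ε hε
    obtain ⟨k, hk, h6⟩ := hg ε hε
    refine ⟨k, hk, ?_⟩
    obtain ⟨eta, C, h⟩ := hq k hk
    obtain ⟨C1, hC1, h1⟩ := hc k (q k) eta C hk h
    have h0 := hq0 k hk
    have h2 : Tendsto (fun n : ℕ => Real.log (W n).card / n - ε) atTop (𝓝 (Lc - ε)) :=
      tendsto_W.sub tendsto_const_nhds
    have h3 : Tendsto (fun n : ℕ => Real.log (q k)⁻¹ + Real.log C1 / (n : ℝ)) atTop
        (𝓝 (Real.log (q k)⁻¹ + 0)) := tendsto_const_nhds.add (LMQ.err0 _)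
    rw [add_zero] at h3
    refine le_of_tendsto_of_tendsto h2 h3 ?_
    filter_upwards [eventually_ge_atTop 2, h6] with n hn h7
    have hn0 : (0 : ℝ) < n := by
      have : 0 < n := by omega
      exact_mod_cast this
    have hn1 : (1 : ℝ) ≤ n := by
      have : 1 ≤ n := by omega
      exact_mod_cast this
    have hW : (0 : ℝ) < ((W n).card : ℝ) := by exact_mod_cast W_pos n (by omega)
    have h8 : Real.exp (-(ε * n)) * ((W n).card : ℝ) ≤ C1 * (q k)⁻¹ ^ n := by
      rw [card_SAP] at h7
      refine (h7.trans (h1 n hn).2.1).trans ?_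
      refine mul_le_mul_of_nonneg_left ?_ hC1.le
      refine div_le_self (by positivity) ?_
      rw [Real.one_le_sqrt]
      exact hn1
    have h9 := Real.log_le_log (by positivity) h8
    rw [Real.log_mul (by positivity) (by positivity), Real.log_exp,
      Real.log_mul (by positivity) (by positivity), Real.log_pow] at h9
    have h10 : Real.log (W n).card / n - ε = (Real.log (W n).card - ε * n) / n := by
      field_simp
    have h11 : Real.log (q k)⁻¹ + Real.log C1 / (n : ℝ) =
        (n * Real.log (q k)⁻¹ + Real.log C1) / n := by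
      field_simp
    rw [h10, h11]
    exact div_le_div_of_nonneg_right (by linarith) hn0.le
  -- monotonicity
  have hmono : ∀ k, 1 ≤ k → ∀ j, Real.log (q k)⁻¹ ≤ Real.log (q (k + j))⁻¹ := by
    intro k hk j
    induction j with
    | zero => exact le_rfl
    | succ j ih =>
      refine ih.trans ?_
      obtain ⟨eta, C, h⟩ := hq (k + j) (by omega)
      obtain ⟨eta', C', h'⟩ := hq (k + j + 1) (by omega)
      have h1 := hm (k + j) _ eta C _ eta' C' (by omega) h h'
      have h2 := hq0 (k + j) (by omega)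
      have h3 := hq0 (k + j + 1) (by omega)
      refine Real.log_le_log (by positivity) ?_
      exact inv_anti₀ h3 h1.le
  refine ⟨Real.exp Lc, ?_, ?_⟩
  · have h1 : Tendsto (fun n : ℕ => Real.exp (Real.log (W n).card / n)) atTop
        (𝓝 (Real.exp Lc)) := (Real.continuous_exp.tendsto _).comp tendsto_W
    refine h1.congr' ?_
    filter_upwards [eventually_ge_atTop 1] with n hn
    have hW : (0 : ℝ) < ((W n).card : ℝ) := by exact_mod_cast W_pos n hn
    rw [card_SAP, Real.rpow_def_of_pos hW]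
    congr 1
    ring
  · have h1 : Tendsto (fun k : ℕ => Real.log (q k)⁻¹) atTop (𝓝 Lc) := by
      rw [Metric.tendsto_atTop]
      intro ε hε
      obtain ⟨k, hk, h2⟩ := hlow (ε / 2) (by linarith)
      refine ⟨k, fun k' hk' => ?_⟩
      obtain ⟨j, rfl⟩ := Nat.exists_eq_add_of_le hk'
      have h3 := hmono k hk j
      have h4 := hup (k + j) (by omega)
      rw [Real.dist_eq, abs_lt]
      constructor <;> linarith
    have h2 : Tendsto (fun k : ℕ => Real.exp (Real.log (q k)⁻¹)) atTop (𝓝 (Real.exp Lc)) :=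
      (Real.continuous_exp.tendsto _).comp h1
    refine h2.congr' ?_
    filter_upwards [eventually_ge_atTop 1] with k hk
    exact Real.exp_log (inv_pos.2 (hq0 k hk))

end Pool.Agent.KCC
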