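import Pool.Agent.KCC.Stmts3
import Pool.Agent.KCC.Lib

/-!
# Column-convex polygons (MP_f6626d_co): module MUM

The critical weight is strictly decreasing in `k`: one explicit piece of class `k + 1` which is not of
class `k`, and convexity of the powers between `q` and `(1 + eta) q`.
-/

set_option autoImplicit false

namespace Pool.Agent.KCC

open Finset Pool.Agent.Lib27
open Pool.Agent.SapR (rot2 wordsUpTo)

namespace MUM

/-- the zigzag between the columns `1` and `2` -/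
def zig : ℕ → Wd
  | 0 => [0]
  | k + 1 => 0 :: 1 :: 2 :: 1 :: zig k

lemma zig_length (k : ℕ) : (zig k).length = 4 * k + 1 := by
  induction k with
  | zero => rfl
  | succ k ih => simp only [zig, List.length_cons, ih]; omega

lemma st (y : ℤ) : ((1 : ℤ), y) + dv 0 = (2, y) ∧ ((2 : ℤ), y) + dv 1 = (2, y + 1) ∧
    ((2 : ℤ), y) + dv 2 = (1, y) ∧ ((1 : ℤ), y) + dv 1 = (1, y + 1) := by
  rw [dv0, dv1, dv2]
  refine ⟨?_, ?_, ?_, ?_⟩ <;> simp

lemma zig_ep (k : ℕ) : ∀ y : ℤ, ep (1, y) (zig k) = (2, y + 2 * k) := by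
  induction k with
  | zero =>
    intro y
    simp only [zig, ep_cons, ep_nil, (st y).1]
    simp
  | succ k ih =>
    intro y
    simp only [zig, ep_cons, (st y).1, (st y).2.1, (st (y + 1)).2.2.1, (st (y + 1)).2.2.2]
    rw [ih]
    refine Prod.ext rfl ?_
    push_cast
    ring

lemma zig_vt (k : ℕ) : ∀ y : ℤ, ∀ v ∈ vt (1, y) (zig k), 1 ≤ v.1 ∧ v.1 ≤ 2 ∧ y ≤ v.2 := by
  induction k with
  | zero =>
    intro y v hv
    simp only [zig, vt_cons, vt_nil, (st y).1, List.mem_cons, List.not_mem_nil, or_false] at hv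
    rcases hv with rfl | rfl <;> simp
  | succ k ih =>
    intro y v hv
    simp only [zig, vt_cons, (st y).1, (st y).2.1, (st (y + 1)).2.2.1, (st (y + 1)).2.2.2,
      List.mem_cons] at hv
    rcases hv with rfl | rfl | rfl | rfl | hv
    · simp
    · simp
    · simp
    · simp
    · have := ih _ v hv
      exact ⟨this.1, this.2.1, by linarith [this.2.2]⟩

lemma zig_nodup (k : ℕ) : ∀ y : ℤ, (vt (1, y) (zig k)).Nodup := by
  induction k with
  | zero =>
    intro y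
    simp only [zig, vt_cons, vt_nil, (st y).1]
    simp
  | succ k ih =>
    intro y
    simp only [zig, vt_cons, (st y).1, (st y).2.1, (st (y + 1)).2.2.1, (st (y + 1)).2.2.2]
    have h : ∀ a b : ℤ, b ≤ y + 1 → (a, b) ∉ vt (1, y + 1 + 1) (zig k) := by
      intro a b hb hv
      have := (zig_vt k _ _ hv).2.2
      simp only at this
      omega
    have hy1 := h 1 y (by omega)
    have hy2 := h 2 y (by omega)
    have hy3 := h 2 (y + 1) (by omega)
    have hy4 := h 1 (y + 1) (by omega)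
    simp only [List.nodup_cons, List.mem_cons, Prod.mk.injEq, not_or]
    refine ⟨⟨by omega, by omega, by omega, hy1⟩, ⟨by omega, by omega, hy2⟩, ⟨by omega, hy3⟩, hy4,
      ih _⟩

lemma zig_cx (k : ℕ) : ∀ y : ℤ, (cx 1 (1, y) (zig k)).length = 2 * k + 1 := by
  induction k with
  | zero =>
    intro y
    simp [zig, cx_cons]
  | succ k ih =>
    intro y
    simp only [zig, cx_cons, (st y).1, (st y).2.1, (st (y + 1)).2.2.1, (st (y + 1)).2.2.2,
      List.length_append, ih]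
    simp +decide
    omega

lemma zig_cx0 (k : ℕ) (y h : ℤ) (hh : h ≠ 1) : cx h (1, y) (zig k) = [] := by
  rcases lt_or_gt_of_ne hh with h1 | h1
  · exact cx_eq_nil_of_lt _ _ _ (fun v hv => by have := (zig_vt k y v hv).1; omega)
  · exact cx_eq_nil_of_le _ _ _ (fun v hv => by have := (zig_vt k y v hv).2.1; omega)

/-- the piece -/
def P0 (k : ℕ) : Wd × Wd := (0 :: zig k, [2, 2])

lemma s0 : (0 : ℤ × ℤ) + dv 0 = (1, 0) := by decide

lemma epU (k : ℕ) : ep 0 (0 :: zig k) = (2, 2 * (k : ℤ)) := by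
  rw [ep_cons, s0, zig_ep]
  simp

lemma cxUD (k : ℕ) (h : ℤ) : (cx h 0 ((0 :: zig k) ++ [2, 2])).length =
    if h = 1 then 2 * k + 2 else if h = 0 then 2 else 0 := by
  rw [cx_append, epU, cx_cons, s0]
  simp only [cx_cons, cx_nil, List.length_append, (st (2 * (k : ℤ))).2.2.1]
  by_cases h1 : h = 1
  · subst h1
    rw [zig_cx]
    simp +decide
  · rw [zig_cx0 k 0 h h1]
    by_cases h0 : h = 0
    · subst h0
      norm_num
    · have e1 : ¬ ((0 : ℤ) = h) := fun e => h0 e.symm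
      have e2 : ¬ ((2 : ℤ) = h + 1) := fun e => h1 (by omega)
      have e3 : ¬ ((1 : ℤ) = h + 1) := fun e => h0 (by omega)
      simp [e1, e2, e3, h1, h0]

lemma P0_free (k : ℕ) (hk : 1 ≤ k) : FreePiece (k + 1) (P0 k).1 (P0 k).2 := by
  refine ⟨⟨?_, ?_, ?_, ?_, ?_, ?_⟩, ?_, ?_, ?_⟩
  · show 0 < (ep 0 (0 :: zig k)).1
    rw [epU]
    norm_num
  · show (ep 0 [2, 2]).1 = -(ep 0 (0 :: zig k)).1
    rw [epU]
    show (ep 0 [2, 2]).1 = -2
    decide
  · show (vt 0 (0 :: zig k)).Nodup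
    rw [vt_cons, s0, List.nodup_cons]
    exact ⟨fun hv => by have := (zig_vt k 0 _ hv).1; simp at this, zig_nodup k 0⟩
  · show (vt 0 [2, 2]).Nodup
    decide
  · show ∀ p ∈ (vt 0 (0 :: zig k)).tail, 0 < p.1 ∧ p.1 ≤ (ep 0 (0 :: zig k)).1
    rw [epU, vt_cons, s0, List.tail_cons]
    intro p hp
    have := zig_vt k 0 p hp
    exact ⟨by linarith [this.1], this.2.1⟩
  · show ∀ p ∈ vs 0 [2, 2], (ep 0 [2, 2]).1 < p.1 ∧ p.1 ≤ 0
    decide
  · show Even ((0 :: zig k).length + [(2 : Fin 4), 2].length)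
    rw [List.length_cons, zig_length]
    exact ⟨2 * k + 2, by simp; ring⟩
  · intro h
    show (cx h 0 ((0 :: zig k) ++ [2, 2])).length ≤ 2 * (k + 1)
    rw [cxUD]
    split_ifs <;> omega
  · intro h h0 h1
    have h1' : h < (ep 0 (0 :: zig k)).1 := h1
    rw [epU] at h1'
    have h2 : h = 1 := by simp only at h1'; omega
    rintro ⟨y, y', h3, -⟩
    have h4 : (cx h 0 ((0 :: zig k) ++ [2, 2])).length = 2 := by
      have : cx h 0 ((0 :: zig k) ++ [2, 2]) = [y, y'] := h3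
      rw [this]
      rfl
    rw [cxUD, if_pos h2] at h4
    omega

lemma P0_not (k : ℕ) : ¬ FreePiece k (P0 k).1 (P0 k).2 := by
  intro h
  have h1 : (cx 1 0 ((0 :: zig k) ++ [2, 2])).length ≤ 2 * k := h.2.2.1 1
  rw [cxUD, if_pos rfl] at h1
  omega

lemma P0_len (k : ℕ) : (P0 k).1.length + (P0 k).2.length = 4 * k + 4 := by
  show (0 :: zig k).length + [(2 : Fin 4), 2].length = _
  rw [List.length_cons, zig_length]
  simp

lemma free_succ {k : ℕ} {U D : Wd} (h : FreePiece k U D) : FreePiece (k + 1) U D :=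
  ⟨h.1, h.2.1, fun l => (h.2.2.1 l).trans (by omega), h.2.2.2⟩

lemma Pc_mono (k : ℕ) {m n : ℕ} (h : m ≤ n) : Pc k m ⊆ Pc k n := by
  intro p hp
  rw [mem_Pc] at hp ⊢
  exact ⟨hp.1, by omega⟩

lemma sum_succ (k n : ℕ) (hk : 1 ≤ k) (hn : 2 * k + 2 ≤ n) (r : ℝ) (hr : 0 ≤ r) :
    ∑ p ∈ Pc k n, r ^ hl p + r ^ (2 * k + 2) ≤ ∑ p ∈ Pc (k + 1) n, r ^ hl p := by
  classical
  have h1 : P0 k ∉ Pc k n := fun h => P0_not k ((mem_Pc _ _ _).1 h).1
  have h2 : insert (P0 k) (Pc k n) ⊆ Pc (k + 1) n := by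
    intro p hp
    rcases mem_insert.1 hp with rfl | hp
    · rw [mem_Pc, P0_len]
      exact ⟨P0_free k hk, by omega⟩
    · rw [mem_Pc] at hp ⊢
      exact ⟨free_succ hp.1, hp.2⟩
  have h3 : hl (P0 k) = 2 * k + 2 := by
    unfold hl
    rw [P0_len]
    omega
  calc ∑ p ∈ Pc k n, r ^ hl p + r ^ (2 * k + 2) = ∑ p ∈ insert (P0 k) (Pc k n), r ^ hl p := by
        rw [sum_insert h1, h3, add_comm]
    _ ≤ ∑ p ∈ Pc (k + 1) n, r ^ hl p :=
        sum_le_sum_of_subset_of_nonneg h2 (fun _ _ _ => pow_nonneg hr _)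

end MUM

theorem mum_thm : MUM_Stmt := by
  intro k q eta C q' eta' C' hk h h'
  obtain ⟨hq, heta, hC, h1, h2, h3, -, -⟩ := h
  obtain ⟨hq', -, -, h1', -⟩ := h'
  by_contra hcon
  have hqq : q ≤ q' := not_lt.1 hcon
  set δ : ℝ := q' ^ (2 * k + 2) with hδ
  have hδ0 : 0 < δ := pow_pos hq' _
  have hA : ∀ n : ℕ, ∑ p ∈ Pc k n, q ^ hl p ≤ 1 - δ := by
    intro n
    have e1 : ∑ p ∈ Pc k n, q ^ hl p ≤ ∑ p ∈ Pc k (max n (2 * k + 2)), q' ^ hl p :=
      (sum_le_sum_of_subset_of_nonneg (MUM.Pc_mono k (le_max_left _ _))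
        (fun _ _ _ => pow_nonneg hq.le _)).trans
        (sum_le_sum fun p _ => pow_le_pow_left₀ hq.le hqq _)
    have e2 := MUM.sum_succ k (max n (2 * k + 2)) hk (le_max_right _ _) q' hq'.le
    have e3 := h1' (max n (2 * k + 2))
    linarith
  set s : ℝ := min 1 (δ / C) with hs
  have hs0 : 0 < s := lt_min one_pos (div_pos hδ0 hC)
  have hs1 : s ≤ 1 := min_le_left _ _
  have hsC : s * C ≤ δ := by
    have := min_le_right 1 (δ / C)
    calc s * C ≤ δ / C * C := mul_le_mul_of_nonneg_right this hC.le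
      _ = δ := div_mul_cancel₀ _ hC.ne'
  obtain ⟨n, hn⟩ := h2 ((1 - s) * q + s * ((1 + eta) * q)) (by
    have : 0 < s * (eta * q) := mul_pos hs0 (mul_pos heta hq)
    linarith)
  have hle : ∀ p ∈ Pc k n, ((1 - s) * q + s * ((1 + eta) * q)) ^ hl p ≤
      (1 - s) * q ^ hl p + s * ((1 + eta) * q) ^ hl p := by
    intro p _
    have hq2 : (0 : ℝ) ≤ (1 + eta) * q := by positivity
    have hs2 : (0 : ℝ) ≤ 1 - s := by linarith
    have hc := (convexOn_pow (𝕜 := ℝ) (hl p)).2 (Set.mem_Ici.2 hq.le) (Set.mem_Ici.2 hq2) hs2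
      hs0.le (by ring)
    simpa only [smul_eq_mul] using hc
  have hsum := sum_le_sum hle
  rw [sum_add_distrib, ← mul_sum, ← mul_sum] at hsum
  have e1 : (1 - s) * ∑ p ∈ Pc k n, q ^ hl p ≤ (1 - s) * (1 - δ) :=
    mul_le_mul_of_nonneg_left (hA n) (by linarith)
  have e2 : s * ∑ p ∈ Pc k n, ((1 + eta) * q) ^ hl p ≤ s * C :=
    mul_le_mul_of_nonneg_left (h3 n) hs0.le
  have e0 : 0 ≤ 1 - δ := (sum_nonneg fun _ _ => pow_nonneg hq.le _).trans (hA n)
  have e3 : (1 - s) * (1 - δ) ≤ 1 - δ := by nlinarith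
  linarith

end Pool.Agent.KCC
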