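import Pool.Agent.KCC.Stmts3
import Pool.Agent.KCC.Lib

/-!
# Column-convex polygons (MP_f6626d_co), module RHO: convergence of the critical weights
-/

set_option autoImplicit false

namespace Pool.Agent.KCC.RHO

open Finset Pool.Agent.Lib27 Pool.Agent.KCC

lemma hl_pos {k n : ℕ} {p : Wd × Wd} (h : p ∈ Pc k n) : 1 ≤ hl p := by
  have h1 := piece_pos k n p h
  rw [mem_Pc] at h
  obtain ⟨⟨_, h2, _⟩, _⟩ := h
  obtain ⟨r, hr⟩ := h2
  unfold hl
  omega

lemma mem_of_hl {k n N : ℕ} {p : Wd × Wd} (h : p ∈ Pc k N) (hn : hl p ≤ n) : p ∈ Pc k n := by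
  rw [mem_Pc] at h ⊢
  refine ⟨h.1, ?_⟩
  obtain ⟨⟨_, h2, _⟩, _⟩ := h
  obtain ⟨r, hr⟩ := h2
  unfold hl at hn
  omega

lemma Pc_mono {k n N : ℕ} (h : n ≤ N) : Pc k n ⊆ Pc k N := by
  intro p hp
  rw [mem_Pc] at hp ⊢
  exact ⟨hp.1, by omega⟩

lemma chord {eta τ : ℝ} (h0 : 0 ≤ τ) (h1 : τ ≤ eta) (h : ℕ) :
    eta * ((1 + τ) ^ h - 1) ≤ τ * ((1 + eta) ^ h - 1) := by
  induction h with
  | zero => simp
  | succ h ih =>
    have h2 : (1 : ℝ) ≤ (1 + eta) ^ h := one_le_pow₀ (by linarith)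
    have h3 : (1 + τ) * (eta * ((1 + τ) ^ h - 1)) ≤ (1 + τ) * (τ * ((1 + eta) ^ h - 1)) :=
      mul_le_mul_of_nonneg_left ih (by linarith)
    have h4 : (1 + τ) * (τ * ((1 + eta) ^ h - 1)) ≤ (1 + eta) * (τ * ((1 + eta) ^ h - 1)) :=
      mul_le_mul_of_nonneg_right (by linarith) (mul_nonneg h0 (by linarith))
    calc eta * ((1 + τ) ^ (h + 1) - 1)
        = (1 + τ) * (eta * ((1 + τ) ^ h - 1)) + eta * τ := by ring
      _ ≤ (1 + eta) * (τ * ((1 + eta) ^ h - 1)) + eta * τ := by linarith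
      _ = τ * ((1 + eta) ^ (h + 1) - 1) := by ring

lemma near_one {k : ℕ} {q eta C : ℝ} (hq : 0 < q) (he : 0 < eta) (hC : 0 < C)
    (h2 : ∀ r : ℝ, q < r → ∃ n : ℕ, 1 < ∑ p ∈ Pc k n, r ^ hl p)
    (h3 : ∀ n : ℕ, ∑ p ∈ Pc k n, ((1 + eta) * q) ^ hl p ≤ C) {δ : ℝ} (hδ : 0 < δ) :
    ∃ N : ℕ, 1 - δ < ∑ p ∈ Pc k N, q ^ hl p := by
  by_contra hcon
  push Not at hcon
  set τ : ℝ := min eta (δ * eta / C) with hτ
  have hτ0 : 0 < τ := lt_min he (by positivity)
  have hτ1 : τ ≤ eta := min_le_left _ _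
  have hτ2 : τ / eta * C ≤ δ := by
    have h5 : τ ≤ δ * eta / C := min_le_right _ _
    rw [le_div_iff₀ hC] at h5
    rw [div_mul_eq_mul_div, div_le_iff₀ he]
    exact h5
  obtain ⟨n, hn⟩ := h2 ((1 + τ) * q) (by nlinarith)
  refine absurd hn (not_lt.2 ?_)
  have h4 : ∀ p ∈ Pc k n, ((1 + τ) * q) ^ hl p ≤
      q ^ hl p + τ / eta * ((1 + eta) * q) ^ hl p := by
    intro p _
    have h5 := chord hτ0.le hτ1 (hl p)
    have h6 : (1 + τ) ^ hl p ≤ 1 + τ / eta * (1 + eta) ^ hl p := by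
      have h7 : (1 + τ) ^ hl p - 1 ≤ τ * ((1 + eta) ^ hl p - 1) / eta := by
        rw [le_div_iff₀ he]
        linarith
      have h8 : τ * ((1 + eta) ^ hl p - 1) / eta =
          τ / eta * (1 + eta) ^ hl p - τ / eta := by ring
      have h9 : 0 < τ / eta := by positivity
      linarith
    rw [mul_pow, mul_pow]
    have h10 := mul_le_mul_of_nonneg_right h6 (pow_nonneg hq.le (hl p))
    calc (1 + τ) ^ hl p * q ^ hl p ≤ _ := h10
      _ = _ := by ring
  calc ∑ p ∈ Pc k n, ((1 + τ) * q) ^ hl p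
      ≤ ∑ p ∈ Pc k n, (q ^ hl p + τ / eta * ((1 + eta) * q) ^ hl p) := sum_le_sum h4
    _ = ∑ p ∈ Pc k n, q ^ hl p + τ / eta * ∑ p ∈ Pc k n, ((1 + eta) * q) ^ hl p := by
        rw [sum_add_distrib, mul_sum]
    _ ≤ (1 - δ) + τ / eta * C :=
        add_le_add (hcon n) (mul_le_mul_of_nonneg_left (h3 n) (by positivity))
    _ ≤ 1 := by linarith

lemma tail_le {k : ℕ} {q eta C : ℝ} (hq : 0 < q) (he : 0 < eta)
    (h3 : ∀ n : ℕ, ∑ p ∈ Pc k n, ((1 + eta) * q) ^ hl p ≤ C) {n N : ℕ} :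
    ∑ p ∈ Pc k N, q ^ hl p ≤ ∑ p ∈ Pc k n, q ^ hl p + C / (1 + eta) ^ n := by
  classical
  have h1 : (0 : ℝ) < (1 + eta) ^ n := by positivity
  rw [← sum_filter_add_sum_filter_not (Pc k N) (fun p => hl p ≤ n)]
  refine add_le_add ?_ ?_
  · refine sum_le_sum_of_subset_of_nonneg ?_ fun _ _ _ => by positivity
    intro p hp
    rw [mem_filter] at hp
    exact mem_of_hl hp.1 hp.2
  · rw [le_div_iff₀ h1, sum_mul]
    refine le_trans ?_ (h3 N)
    refine (sum_le_sum (fun p hp => ?_)).trans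
      (sum_le_sum_of_subset_of_nonneg (filter_subset _ _) fun _ _ _ => by positivity)
    rw [mem_filter] at hp
    rw [mul_pow, mul_comm]
    exact mul_le_mul_of_nonneg_right (pow_le_pow_right₀ (by linarith) (by omega)) (by positivity)

end Pool.Agent.KCC.RHO

namespace Pool.Agent.KCC

open Finset Pool.Agent.Lib27 RHO

/-- Module RHO. -/
theorem rho_thm : RHO_Stmt := by
  intro k q eta C _ hTP
  obtain ⟨hq, he, hC, h1, h2, h3, _, _⟩ := hTP
  obtain ⟨N1, hN1⟩ := pow_unbounded_of_one_lt (2 * C) (show (1 : ℝ) < 1 + eta by linarith)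
  refine ⟨Real.exp (2 * (C / eta)), N1, Real.exp_pos _, ?_⟩
  intro n rho hn hrho hsum
  have hle : q ≤ rho := by
    by_contra hcon
    push Not at hcon
    have hne : (Pc k n).Nonempty := by
      by_contra h
      rw [not_nonempty_iff_eq_empty] at h
      rw [h, sum_empty] at hsum
      exact zero_ne_one hsum
    have h4 : ∑ p ∈ Pc k n, rho ^ hl p < ∑ p ∈ Pc k n, q ^ hl p :=
      sum_lt_sum_of_nonempty hne fun p hp =>
        pow_lt_pow_left₀ hcon hrho.le (by have := hl_pos hp; omega)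
    linarith [h1 n]
  refine ⟨hle, ?_⟩
  have hpn : (2 * C : ℝ) < (1 + eta) ^ n :=
    hN1.trans_le (pow_le_pow_right₀ (by linarith) hn)
  have hp0 : (0 : ℝ) < (1 + eta) ^ n := by positivity
  set ε : ℝ := C / (1 + eta) ^ n with hε
  have hε0 : 0 < ε := by positivity
  have hε1 : ε ≤ 1 / 2 := by
    rw [hε, div_le_iff₀ hp0]
    linarith
  have hS : 1 ≤ ∑ p ∈ Pc k n, q ^ hl p + ε := by
    refine le_of_forall_pos_lt_add fun δ hδ => ?_
    obtain ⟨N, hN⟩ := near_one hq he hC h2 h3 hδ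
    have h5 := tail_le hq he h3 (n := n) (N := N)
    linarith
  have hx1 : 1 ≤ rho / q := by rwa [one_le_div hq]
  have h6 : rho / q * ∑ p ∈ Pc k n, q ^ hl p ≤ 1 := by
    rw [← hsum, mul_sum]
    refine sum_le_sum fun p hp => ?_
    have h7 : rho ^ hl p = (rho / q) ^ hl p * q ^ hl p := by
      rw [← mul_pow, div_mul_cancel₀ _ hq.ne']
    rw [h7]
    refine mul_le_mul_of_nonneg_right ?_ (by positivity)
    calc rho / q = (rho / q) ^ 1 := (pow_one _).symm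
      _ ≤ (rho / q) ^ hl p := pow_le_pow_right₀ hx1 (hl_pos hp)
  have h8 : rho / q * (1 - ε) ≤ 1 :=
    le_trans (mul_le_mul_of_nonneg_left (by linarith) (by linarith)) h6
  have h9 : rho / q ≤ 1 + 2 * ε := by
    have h10 : (1 : ℝ) ≤ (1 + 2 * ε) * (1 - ε) := by nlinarith
    have h11 : 0 < 1 - ε := by linarith
    by_contra hcon
    push Not at hcon
    have := mul_lt_mul_of_pos_right hcon h11
    linarith
  have h12 : (n : ℝ) * ε ≤ C / eta := by
    have h13 := one_add_mul_le_pow (show (-2 : ℝ) ≤ eta by linarith) n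
    rw [hε, mul_div_assoc', div_le_div_iff₀ hp0 he]
    nlinarith
  calc (rho / q) ^ n ≤ (Real.exp (2 * ε)) ^ n :=
        pow_le_pow_left₀ (by linarith) (h9.trans (by linarith [Real.add_one_le_exp (2 * ε)])) n
    _ = Real.exp (n * (2 * ε)) := by rw [← Real.exp_nat_mul]
    _ ≤ Real.exp (2 * (C / eta)) := Real.exp_le_exp.2 (by linarith)

end Pool.Agent.KCC
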