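import Pool.Agent.KCC.Stmts
import Pool.Agent.Lib_helper66.SapR.K5

/-!
# Column-convex polygons (MP_f6626d_co): the sequence of models (module SEQ)
-/

set_option autoImplicit false

namespace Pool.Agent.KCC.SEQ

open Finset Pool.Agent.Lib27 Filter Topology
open Pool.Agent.Gap (IsCap closeP AreaModel)

/-- the error sequence -/
noncomputable def kap0 (C1 C θ : ℝ) (n : ℕ) : ℝ :=
  C1 * (Real.log n / Real.sqrt n) + C1 / (n : ℝ) ^ 5 + 2 * C * ((n : ℝ) ^ 4 * θ ^ n)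

lemma kap0_lim (C1 C θ : ℝ) (h0 : 0 < θ) (h1 : θ < 1) : Tendsto (kap0 C1 C θ) atTop (𝓝 0) := by
  have e1 : Tendsto (fun n : ℕ => Real.log n / Real.sqrt n) atTop (𝓝 0) := by
    have h := (isLittleO_log_rpow_atTop (show (0 : ℝ) < 1 / 2 by norm_num)).tendsto_div_nhds_zero
    have h2 := h.comp tendsto_natCast_atTop_atTop
    refine h2.congr fun n => ?_
    simp only [Function.comp_apply]
    rw [← Real.sqrt_eq_rpow]
  have e2 : Tendsto (fun n : ℕ => C1 / (n : ℝ) ^ 5) atTop (𝓝 0) := by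
    have : Tendsto (fun n : ℕ => (n : ℝ) ^ 5) atTop atTop :=
      (tendsto_pow_atTop (by norm_num)).comp tendsto_natCast_atTop_atTop
    exact this.const_div_atTop C1
  have e3 : Tendsto (fun n : ℕ => (n : ℝ) ^ 4 * θ ^ n) atTop (𝓝 0) :=
    tendsto_pow_const_mul_const_pow_of_lt_one 4 h0.le h1
  have h := ((e1.const_mul C1).add e2).add (e3.const_mul (2 * C))
  simp only [mul_zero, add_zero] at h
  exact h

/-- the index used for `n` -/
def mx (N0 n : ℕ) : ℕ := max n N0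

lemma mx_eq (N0 n : ℕ) (h : N0 ≤ n) : mx N0 n = n := max_eq_left h

/-- the bound given by NEAR -/
def NB (C θ C1 : ℝ) : Prop := ∀ (k n : ℕ) (rho : ℝ), 1 ≤ k → 2 ≤ n → 0 < rho → rho ≤ 1 →
    ∑ p ∈ Pc k n, rho ^ hl p = 1 → Tails C θ k n rho →
    ∑ q ∈ Om k n, |((|dq q| : ℤ) : ℝ) / 2 - (Ar k n q.2.2.2 : ℝ)| ≤
      C1 * n * Real.log n * ((Om k n).card : ℝ) + C1 / ((n : ℝ) ^ 5 * rho ^ n)

lemma near_bound {C θ C1 : ℝ} (hC : 0 < C) (hθ : 0 < θ) (hC1 : 0 < C1) (hN : NB C θ C1)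
    (k : ℕ) (hk : 1 ≤ k) (n' n : ℕ) (hnn : n' = n) (hn : 2 ≤ n) (d : Dat C θ k n') :
    ∑ q ∈ Om k n', |((|dq q| : ℤ) : ℝ) / 2 - (Ar k n' q.2.2.2 : ℝ)| ≤
      kap0 C1 C θ n * ((n : ℝ) * Real.sqrt n) * (((Om k n').card : ℝ) +
        1 / ((n : ℝ) * Real.sqrt n * d.G.rho ^ n)) := by
  subst hnn
  have h1 := hN k n' d.G.rho hk hn d.G.rho_pos d.rho_le d.crit d.tails
  refine h1.trans ?_
  have hn0 : (0 : ℝ) < n' := by
    have : 0 < n' := by omega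
    exact_mod_cast this
  have hn1 : (1 : ℝ) ≤ n' := by
    have : 1 ≤ n' := by omega
    exact_mod_cast this
  have hsq : 0 < Real.sqrt n' := Real.sqrt_pos.2 hn0
  have hρ := pow_pos d.G.rho_pos n'
  have hlog : 0 ≤ Real.log n' := Real.log_nonneg hn1
  obtain ⟨S, hS⟩ : ∃ S, S = ((Om k n').card : ℝ) := ⟨_, rfl⟩
  have hS0 : 0 ≤ S := by
    rw [hS]
    positivity
  rw [← hS]
  have hθn : 0 < θ ^ n' := pow_pos hθ n'
  have e1 : kap0 C1 C θ n' * ((n' : ℝ) * Real.sqrt n') *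
      (S + 1 / ((n' : ℝ) * Real.sqrt n' * d.G.rho ^ n')) =
      kap0 C1 C θ n' * ((n' : ℝ) * Real.sqrt n') * S +
        kap0 C1 C θ n' / d.G.rho ^ n' := by
    field_simp
  rw [e1]
  have e2 : C1 * n' * Real.log n' ≤ kap0 C1 C θ n' * ((n' : ℝ) * Real.sqrt n') := by
    have h3 : C1 * n' * Real.log n' =
        C1 * (Real.log n' / Real.sqrt n') * ((n' : ℝ) * Real.sqrt n') := by
      field_simp
    rw [h3]
    refine mul_le_mul_of_nonneg_right ?_ (by positivity)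
    unfold kap0
    have : 0 ≤ C1 / (n' : ℝ) ^ 5 := by positivity
    have : 0 ≤ 2 * C * ((n' : ℝ) ^ 4 * θ ^ n') := by positivity
    linarith
  have e3 : C1 / ((n' : ℝ) ^ 5 * d.G.rho ^ n') ≤ kap0 C1 C θ n' / d.G.rho ^ n' := by
    rw [← div_div]
    refine div_le_div_of_nonneg_right ?_ hρ.le
    unfold kap0
    have : 0 ≤ C1 * (Real.log n' / Real.sqrt n') := by positivity
    have : 0 ≤ 2 * C * ((n' : ℝ) ^ 4 * θ ^ n') := by positivity
    linarith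
  have e4 := mul_le_mul_of_nonneg_right e2 hS0
  linarith

lemma bad_bound {C θ C1 : ℝ} (hC : 0 < C) (hθ : 0 < θ) (hC1 : 0 < C1)
    (k : ℕ) (n' n : ℕ) (hnn : n' = n) (hn : 2 ≤ n) (d : Dat C θ k n') :
    ∑ w ∈ NoCut k n', 1 / (4 * (n' : ℝ)) * (1 + |((dbl 0 w : ℤ) : ℝ)| / 2) ≤
      kap0 C1 C θ n * (1 / ((n : ℝ) * Real.sqrt n * d.G.rho ^ n)) := by
  subst hnn
  have hn0 : (0 : ℝ) < n' := by
    have : 0 < n' := by omega
    exact_mod_cast this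
  have hn1 : (1 : ℝ) ≤ n' := by
    have : 1 ≤ n' := by omega
    exact_mod_cast this
  have hsq : 0 < Real.sqrt n' := Real.sqrt_pos.2 hn0
  have hsq1 : Real.sqrt n' ≤ n' := by
    rw [Real.sqrt_le_left hn0.le]
    nlinarith
  have hρ := pow_pos d.G.rho_pos n'
  have hlog : 0 ≤ Real.log n' := Real.log_nonneg hn1
  have hθn : 0 < θ ^ n' := pow_pos hθ n'
  have h3 := d.tails.2.2
  obtain ⟨S, hS⟩ : ∃ S, S = ((NoCut k n').card : ℝ) := ⟨_, rfl⟩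
  rw [← hS] at h3
  have h4 : S ≤ C * n' * θ ^ n' / d.G.rho ^ n' := by
    rw [le_div_iff₀ hρ]
    linarith
  have h5 : ∑ w ∈ NoCut k n', 1 / (4 * (n' : ℝ)) * (1 + |((dbl 0 w : ℤ) : ℝ)| / 2) ≤
      1 / (4 * (n' : ℝ)) * (5 * (n' : ℝ) ^ 2) * S := by
    have h6 : ∑ w ∈ NoCut k n', 1 / (4 * (n' : ℝ)) * (1 + |((dbl 0 w : ℤ) : ℝ)| / 2) ≤
        ∑ _w ∈ NoCut k n', 1 / (4 * (n' : ℝ)) * (5 * (n' : ℝ) ^ 2) := by
      refine Finset.sum_le_sum fun w hw => ?_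
      have hw' : w ∈ W n' := by
        classical
        exact (Finset.mem_filter.1 hw).1
      have hlen := ((mem_W n' w).1 hw').1
      have h6 := Pool.Agent.SapR.H66.abs_dbl_le w
      rw [hlen] at h6
      have h7 : |((dbl 0 w : ℤ) : ℝ)| ≤ 4 * (n' : ℝ) ^ 2 := by
        have h8 : ((|dbl 0 w| : ℤ) : ℝ) ≤ (((2 * n' : ℕ) : ℤ) ^ 2 : ℤ) := by exact_mod_cast h6
        push_cast at h8
        nlinarith
      have h9 : 1 + |((dbl 0 w : ℤ) : ℝ)| / 2 ≤ 5 * (n' : ℝ) ^ 2 := by nlinarith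
      exact mul_le_mul_of_nonneg_left h9 (by positivity)
    rw [Finset.sum_const, nsmul_eq_mul, ← hS] at h6
    linarith
  refine h5.trans ?_
  have h11 : 1 / (4 * (n' : ℝ)) * (5 * (n' : ℝ) ^ 2) * S ≤
      1 / (4 * (n' : ℝ)) * (5 * (n' : ℝ) ^ 2) * (C * n' * θ ^ n' / d.G.rho ^ n') :=
    mul_le_mul_of_nonneg_left h4 (by positivity)
  refine h11.trans ?_
  have h12 : 2 * C * ((n' : ℝ) ^ 4 * θ ^ n') ≤ kap0 C1 C θ n' := by
    unfold kap0
    have : 0 ≤ C1 * (Real.log n' / Real.sqrt n') := by positivity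
    have : 0 ≤ C1 / (n' : ℝ) ^ 5 := by positivity
    linarith
  have h13 : 2 * C * ((n' : ℝ) ^ 4 * θ ^ n') * (1 / ((n' : ℝ) * Real.sqrt n' * d.G.rho ^ n')) ≤
      kap0 C1 C θ n' * (1 / ((n' : ℝ) * Real.sqrt n' * d.G.rho ^ n')) :=
    mul_le_mul_of_nonneg_right h12 (by positivity)
  refine le_trans ?_ h13
  have e1 : 1 / (4 * (n' : ℝ)) * (5 * (n' : ℝ) ^ 2) * (C * n' * θ ^ n' / d.G.rho ^ n') =
      (5 / 4 * C * θ ^ n' / d.G.rho ^ n') * (n' : ℝ) ^ 2 := by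
    field_simp
  have e2 : 2 * C * ((n' : ℝ) ^ 4 * θ ^ n') * (1 / ((n' : ℝ) * Real.sqrt n' * d.G.rho ^ n')) =
      (2 * C * θ ^ n' / d.G.rho ^ n') * ((n' : ℝ) ^ 3 / Real.sqrt n') := by
    field_simp
  rw [e1, e2]
  have e3 : (n' : ℝ) ^ 2 ≤ (n' : ℝ) ^ 3 / Real.sqrt n' := by
    rw [le_div_iff₀ hsq]
    calc (n' : ℝ) ^ 2 * Real.sqrt n' ≤ (n' : ℝ) ^ 2 * n' :=
          mul_le_mul_of_nonneg_left hsq1 (by positivity)
      _ = _ := by ring
  have e4 : 5 / 4 * C * θ ^ n' / d.G.rho ^ n' ≤ 2 * C * θ ^ n' / d.G.rho ^ n' := by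
    refine div_le_div_of_nonneg_right ?_ hρ.le
    have : 0 < C * θ ^ n' := by positivity
    nlinarith
  exact mul_le_mul e4 e3 (by positivity) (by positivity)

/-- area functional on the sample space -/
noncomputable def AO (k n : ℕ) : OmS k n → ℕ := Sum.elim (fun q => Ar k n q.1.2.2.2) (fun _ => 0)

/-- the good part of the sample space -/
noncomputable def goodO (k n : ℕ) : Finset (OmS k n) := univ.map ⟨Sum.inl, Sum.inl_injective⟩

lemma sum_goodO (k n : ℕ) {β : Type} [AddCommMonoid β]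
    (F : ((_ : ℤ) × (_ : ℕ) × (Wd × Wd)) → β) (F' : OmS k n → β)
    (h : ∀ q : {q // q ∈ Om k n}, F' (Sum.inl q) = F q.1) :
    ∑ x ∈ goodO k n, F' x = ∑ q ∈ Om k n, F q := by
  unfold goodO
  rw [Finset.sum_map]
  simp only [Function.Embedding.coeFn_mk, h]
  exact Finset.sum_coe_sort (Om k n) F

lemma sum_OmS (k n : ℕ) (F' : OmS k n → ℝ) (F : ((_ : ℤ) × (_ : ℕ) × (Wd × Wd)) → ℝ) (H : Wd → ℝ)
    (h : ∀ q : {q // q ∈ Om k n}, F' (Sum.inl q) = F q.1)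
    (h' : ∀ w : {w // w ∈ NoCut k n}, F' (Sum.inr w) = H w.1) :
    ∑ x : OmS k n, F' x = ∑ q ∈ Om k n, F q + ∑ w ∈ NoCut k n, H w := by
  rw [Fintype.sum_sum_type]
  simp only [h, h']
  congr 1
  · exact Finset.sum_coe_sort (Om k n) F
  · exact Finset.sum_coe_sort (NoCut k n) H

lemma wtS_nonneg (k n : ℕ) (x : OmS k n) : 0 ≤ wtS k n x := by
  rcases x with q | w
  · simp only [wtS, Sum.elim_inl]
    exact zero_le_one
  · simp only [wtS, Sum.elim_inr]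
    positivity

lemma TZ_nonneg (k n : ℕ) (x : OmS k n) : (0 : ℝ) ≤ (TZ k n x : ℝ) := by
  rcases x with q | w
  · simp only [TZ, Sum.elim_inl]
    exact_mod_cast abs_nonneg _
  · simp only [TZ, Sum.elim_inr]
    exact_mod_cast abs_nonneg _

/-- the sequence of models -/
noncomputable def seqM (C θ C1 : ℝ) (hC : 0 < C) (hθ : 0 < θ) (hθ1 : θ < 1) (hC1 : 0 < C1)
    (hN : NB C θ C1) (k : ℕ) (hk : 1 ≤ k) (N0 : ℕ) (hN0 : 2 ≤ N0)
    (D : ∀ n, Dat C θ k (mx N0 n)) : KCG.SeqModel C θ where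
  G := fun n => (D n).G
  C0 := fun n => mx N0 n
  s := fun n => capS k (mx N0 n)
  t := fun n => capT k (mx N0 n)
  cls := fun n => (D n).cls
  cap_s := fun n => (D n).cap_s
  cap_t := fun n => (D n).cap_t
  B := fun n => (D n).B
  sol := fun n => (D n).sol
  Omega := fun n => OmS k (mx N0 n)
  fin := fun n => inferInstance
  good := fun n => goodO k (mx N0 n)
  wt := fun n => wtS k (mx N0 n)
  T := fun n x => (TZ k (mx N0 n) x : ℝ) / 2
  A := fun n => AO k (mx N0 n)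
  wt_nonneg := fun n x => wtS_nonneg _ _ x
  T_nonneg := fun n x => div_nonneg (TZ_nonneg _ _ x) zero_le_two
  c := fun _ => 1
  c_pos := fun _ => one_pos
  κ := kap0 C1 C θ
  κ_lim := kap0_lim C1 C θ hθ hθ1
  n1 := N0
  count := fun n hn => by
    have h1 := (D n).count
    rw [Polynomial.C_1, one_mul]
    have h2 : closeP (mx N0 n) (capT k (mx N0 n)) (D n).B (mx N0 n) =
        closeP (mx N0 n) (capT k (mx N0 n)) (D n).B n :=
      congrArg (closeP (mx N0 n) (capT k (mx N0 n)) (D n).B) (mx_eq N0 n hn)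
    rw [← h2, ← h1]
    refine sum_goodO k (mx N0 n) (fun q =>
      (Polynomial.X : Polynomial ℝ) ^ (Ar k (mx N0 n) q.2.2.2)) _ (fun q => ?_)
    simp only [wtS, AO, Sum.elim_inl, Polynomial.C_1, one_mul]
  near := fun n hn => by
    have h1 := near_bound hC hθ hC1 hN k hk (mx N0 n) n (mx_eq N0 n hn) (hN0.trans hn) (D n)
    have e1 : ∑ x ∈ goodO k (mx N0 n), wtS k (mx N0 n) x *
        |(TZ k (mx N0 n) x : ℝ) / 2 - AO k (mx N0 n) x| =
        ∑ q ∈ Om k (mx N0 n), |((|dq q| : ℤ) : ℝ) / 2 - (Ar k (mx N0 n) q.2.2.2 : ℝ)| := by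
      refine sum_goodO k (mx N0 n) (fun q =>
        |((|dq q| : ℤ) : ℝ) / 2 - (Ar k (mx N0 n) q.2.2.2 : ℝ)|) _ (fun q => ?_)
      simp only [wtS, TZ, AO, Sum.elim_inl, one_mul]
    have e2 : ∑ x ∈ goodO k (mx N0 n), wtS k (mx N0 n) x = ((Om k (mx N0 n)).card : ℝ) := by
      rw [sum_goodO k (mx N0 n) (fun _ => (1 : ℝ)) _ (fun q => rfl)]
      simp
    rw [e1, e2]
    exact h1
  bad := fun n hn => by
    have h1 := bad_bound hC hθ hC1 k (mx N0 n) n (mx_eq N0 n hn) (hN0.trans hn) (D n)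
    refine le_trans (le_of_eq ?_) h1
    have e1 : ∑ x : OmS k (mx N0 n), wtS k (mx N0 n) x * (1 + (TZ k (mx N0 n) x : ℝ) / 2) =
        ∑ q ∈ Om k (mx N0 n), (1 + ((|dq q| : ℤ) : ℝ) / 2) +
        ∑ w ∈ NoCut k (mx N0 n), 1 / (4 * ((mx N0 n : ℕ) : ℝ)) *
          (1 + |((dbl 0 w : ℤ) : ℝ)| / 2) := by
      refine sum_OmS k (mx N0 n) _ _ _ (fun q => ?_) (fun w => ?_)
      · simp only [wtS, TZ, Sum.elim_inl, one_mul]
      · simp only [wtS, TZ, Sum.elim_inr, Int.cast_abs]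
    have e2 : ∑ x ∈ goodO k (mx N0 n), wtS k (mx N0 n) x * (1 + (TZ k (mx N0 n) x : ℝ) / 2) =
        ∑ q ∈ Om k (mx N0 n), (1 + ((|dq q| : ℤ) : ℝ) / 2) := by
      refine sum_goodO k (mx N0 n) (fun q => (1 + ((|dq q| : ℤ) : ℝ) / 2)) _ (fun q => ?_)
      simp only [wtS, TZ, Sum.elim_inl, one_mul]
    rw [e1, e2]
    ring

lemma seqM_cdf (C θ C1 : ℝ) (hC : 0 < C) (hθ : 0 < θ) (hθ1 : θ < 1) (hC1 : 0 < C1)
    (hN : NB C θ C1) (k : ℕ) (hk : 1 ≤ k) (N0 : ℕ) (hN0 : 2 ≤ N0)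
    (D : ∀ n, Dat C θ k (mx N0 n)) (n : ℕ) (x : ℝ) :
    (seqM C θ C1 hC hθ hθ1 hC1 hN k hk N0 hN0 D).cdf n x = cdfS k (mx N0 n) x := by
  classical
  have key : ∀ y : OmS k (mx N0 n),
      ((TZ k (mx N0 n) y : ℝ) / 2 * ∑ y' : OmS k (mx N0 n), wtS k (mx N0 n) y' ≤
        x * ∑ y' : OmS k (mx N0 n), wtS k (mx N0 n) y' * ((TZ k (mx N0 n) y' : ℝ) / 2)) ↔
      ((TZ k (mx N0 n) y : ℝ) * ∑ y' : OmS k (mx N0 n), wtS k (mx N0 n) y' ≤
        x * ∑ y' : OmS k (mx N0 n), wtS k (mx N0 n) y' * (TZ k (mx N0 n) y' : ℝ)) := by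
    intro y
    have e : ∑ y' : OmS k (mx N0 n), wtS k (mx N0 n) y' * ((TZ k (mx N0 n) y' : ℝ) / 2) =
        (∑ y' : OmS k (mx N0 n), wtS k (mx N0 n) y' * (TZ k (mx N0 n) y' : ℝ)) / 2 := by
      rw [Finset.sum_div]
      refine Finset.sum_congr rfl fun y' _ => ?_
      ring
    rw [e]
    constructor
    · intro h
      linarith
    · intro h
      linarith
  have h1 : (seqM C θ C1 hC hθ hθ1 hC1 hN k hk N0 hN0 D).cdf n x =
      (∑ y ∈ univ.filter fun y : OmS k (mx N0 n) =>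
        (TZ k (mx N0 n) y : ℝ) / 2 * ∑ y' : OmS k (mx N0 n), wtS k (mx N0 n) y' ≤
        x * ∑ y' : OmS k (mx N0 n), wtS k (mx N0 n) y' * ((TZ k (mx N0 n) y' : ℝ) / 2),
        wtS k (mx N0 n) y) / ∑ y' : OmS k (mx N0 n), wtS k (mx N0 n) y' := by
    unfold KCG.SeqModel.cdf KCG.SeqModel.W
    congr 1
  rw [h1]
  unfold cdfS
  congr 1
  refine Finset.sum_congr ?_ fun _ _ => rfl
  ext y
  rw [Finset.mem_filter, Finset.mem_filter, key y]

end Pool.Agent.KCC.SEQ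

namespace Pool.Agent.KCC

/-- SEQ: the sequence of models. -/
theorem seq_thm (h : NEAR_Stmt) (hc : K5C_Stmt) : SEQ_Stmt := by
  have _ := hc
  intro C θ k N0 hC hθ hθ1 hk hN0 hD
  obtain ⟨C1, hC1, hN⟩ := h C θ hC hθ hθ1
  refine ⟨SEQ.seqM C θ C1 hC hθ hθ1 hC1 hN k hk N0 hN0
    (fun n => (hD (SEQ.mx N0 n) (le_max_right _ _)).some), ?_⟩
  intro n hn x
  rw [SEQ.seqM_cdf]
  simp only [SEQ.mx_eq N0 n hn]

end Pool.Agent.KCC
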