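import Pool.Agent.KCC.Stmts3
import Pool.Agent.KCC.Seq

/-!
# Column-convex polygons (MP_f6626d_co), module SQ2: the critical weights, the number of canonical
words and the sum of their integer areas for the models of `Seq.lean`
-/

set_option autoImplicit false

namespace Pool.Agent.KCC

open Finset Filter Topology MeasureTheory Pool.Agent.Lib27 Pool.Agent.AreaLaw
open Pool.Agent.Gap (IsCap closeP AreaModel)

theorem sq2_thm (h : NEAR_Stmt) : SQ2_Stmt := by
  intro C θ k N0 hC hθ hθ1 hk hN0 hD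
  obtain ⟨C1, hC1, hN⟩ := h C θ hC hθ hθ1
  obtain ⟨D, hDD⟩ : ∃ D : ∀ n, Dat C θ k (SEQ.mx N0 n), D = D :=
    ⟨fun n => (hD (SEQ.mx N0 n) (le_max_right _ _)).some, rfl⟩
  refine ⟨SEQ.seqM C θ C1 hC hθ hθ1 hC1 hN k hk N0 hN0 D, ?_⟩
  intro n hn
  have e := SEQ.mx_eq N0 n hn
  have key : ∀ (m : ℕ) (D' : Dat C θ k m), m = n →
      ∑ p ∈ Pc k n, D'.G.rho ^ hl p = 1 ∧ D'.G.rho ≤ 1 ∧ Tails C θ k n D'.G.rho ∧
      (closeP m (capT k m) D'.B n).eval 1 = ((Om k n).card : ℝ) ∧
      (closeP m (capT k m) D'.B n).derivative.eval 1 = ∑ q ∈ Om k n, (Ar k n q.2.2.2 : ℝ) := by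
    intro m D' hm
    subst hm
    refine ⟨D'.crit, D'.rho_le, D'.tails, ?_, ?_⟩
    · rw [← D'.count, Polynomial.eval_finsetSum]
      simp
    · rw [← D'.count, Polynomial.derivative_sum, Polynomial.eval_finsetSum]
      refine sum_congr rfl fun q _ => ?_
      rw [Polynomial.derivative_X_pow, Polynomial.eval_mul, Polynomial.eval_C,
        Polynomial.eval_pow, Polynomial.eval_X, one_pow, mul_one]
  exact key (SEQ.mx N0 n) (D n) e

end Pool.Agent.KCC
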