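import Pool.Agent.KCC.Main1
import Pool.Agent.KCC.GluB
import Pool.Agent.KCC.Sq2
import Pool.Agent.KCC.Bnd
import Pool.Agent.KCC.Rho
import Pool.Agent.KCC.Cnt
import Pool.Agent.KCC.Mum
import Pool.Agent.KCC.Lmq
import Pool.Agent.KCC.Fn2

/-!
# Column-convex polygons (MP_f6626d_co): the final theorem
-/

set_option autoImplicit false

namespace Pool.Agent.KCC

/-- the area law for column-convex polygons -/
theorem main1 : FINAL_Stmt := main_of_glu (glub_thm pos_thm)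

/-- the area law, the number of polygons and the mean area -/
theorem main : FINAL2_Stmt := by
  have hK2 : K2_Stmt := k2_thm pla_thm
  have hAR : AR_Stmt := ar_thm hK2
  have hTAIL : TAIL_Stmt := tal_thm xbr_thm XM.bey_main
  have hKW : KW_Stmt := kw_thm hK2 k5s_thm k5f_thm k5r_thm k5b_thm k5c_thm hAR
  have hK1 : K1_Stmt := k1_thm rot_thm (glub_thm pos_thm) pos_thm
  have hTR : TR_Stmt := tr_thm hK1 vcr_thm
  have hDAT : DAT_Stmt := dat_thm hTAIL hKW k5s_thm k5b_thm k5c_thm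
  have hNEAR : NEAR_Stmt := near_thm hK2 k4_thm k5s_thm k5c_thm hAR pos_thm
  have hC2 : KCG.GC2_Stmt := KCG.gc2
  have hC : KCG.GC_Stmt := KCG.GC.gc hC2
  have hRE : KCG.GRE_Stmt := KCG.gre hC
  have hSUP : KCG.GSUP_Stmt := KCG.gsup hC hRE
  have hW : KCG.GW_Stmt := KCG.gw hC hSUP
  have hM2 : KCG.GM2_Stmt := KCG.gm2 hC2 hRE hSUP hW
  obtain ⟨oLT, oLT1, oM2, oBAL, -⟩ := KCG.old_gap
  have hBND : BND_Stmt := bnd_thm KCG.glt_main hM2 oLT1 oM2 oBAL
  have hCNT : CNT_Stmt := cnt_thm hBND (sq2_thm hNEAR) rho_thm hDAT hNEAR hTR vcr_thm pos_thm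
  exact fn2_thm hTAIL main1 hCNT mum_thm (lmq_thm hCNT (gro_thm (blo_thm pla_thm)) mum_thm)

end Pool.Agent.KCC
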