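import Pool.Agent.KCC.Stmts

/-!
# Column-convex polygons (MP_f6626d_co): the data of one kernel (DAT)
-/

set_option autoImplicit false

namespace Pool.Agent.KCC

open Finset Pool.Agent.Lib27 Pool.Agent.Gap
open Pool.Agent.SapR (rot2 wordsUpTo)

namespace DAT

theorem mem_upTo (M : ℕ) (w : List (Fin 4)) : w ∈ wordsUpTo M ↔ w.length ≤ M := by
  simp [wordsUpTo, mem_words]

/-- the set of pieces increases with `n` -/
theorem Pc_mono (k : ℕ) {n n' : ℕ} (h : n ≤ n') : Pc k n ⊆ Pc k n' := by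
  classical
  intro p hp
  unfold Pc at hp ⊢
  rw [mem_filter, mem_product, mem_upTo, mem_upTo] at hp ⊢
  obtain ⟨⟨h1, h2⟩, h3, h4⟩ := hp
  exact ⟨⟨by omega, by omega⟩, h3, by omega⟩

/-- the straight piece is a piece -/
theorem straight_mem (hb : K5B_Stmt) (k n : ℕ) (hk : 1 ≤ k) (hn : 2 ≤ n) :
    (([0], [2]) : Wd × Wd) ∈ Pc k n := by
  classical
  have h := (hb k n 1 hk hn le_rfl).1
  unfold allowed at h
  exact (mem_filter.1 h).1

theorem hl_straight : hl (([0], [2]) : Wd × Wd) = 1 := by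
  unfold hl
  simp

/-- generating function of the pieces -/
noncomputable def pgf (k n : ℕ) (r : ℝ) : ℝ := ∑ p ∈ Pc k n, r ^ hl p

theorem pgf_mono_n (k : ℕ) {n n' : ℕ} (h : n ≤ n') {r : ℝ} (hr : 0 ≤ r) :
    pgf k n r ≤ pgf k n' r :=
  sum_le_sum_of_subset_of_nonneg (Pc_mono k h) fun _ _ _ => pow_nonneg hr _

theorem pgf_mono {k n : ℕ} {r r' : ℝ} (hr : 0 ≤ r) (h : r ≤ r') : pgf k n r ≤ pgf k n r' :=
  sum_le_sum fun _ _ => pow_le_pow_left₀ hr h _

theorem pgf_strict (hb : K5B_Stmt) {k n : ℕ} (hk : 1 ≤ k) (hn : 2 ≤ n) {r r' : ℝ} (hr : 0 ≤ r)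
    (h : r < r') : pgf k n r < pgf k n r' := by
  refine sum_lt_sum (fun _ _ => pow_le_pow_left₀ hr h.le _) ⟨_, straight_mem hb k n hk hn, ?_⟩
  rw [hl_straight, pow_one, pow_one]
  exact h

/-- one term of the tail sum -/
theorem pow_bound {x rho r θ C : ℝ} (m : ℕ) (hx : 0 ≤ x) (h0 : 0 ≤ rho) (hθ : 0 ≤ θ)
    (h : rho ≤ θ * r) (hC : x * r ^ m ≤ C) : x * rho ^ m ≤ C * θ ^ m := by
  calc x * rho ^ m ≤ x * (θ * r) ^ m :=
        mul_le_mul_of_nonneg_left (pow_le_pow_left₀ h0 h m) hx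
    _ = (x * r ^ m) * θ ^ m := by rw [mul_pow]; ring
    _ ≤ C * θ ^ m := mul_le_mul_of_nonneg_right hC (pow_nonneg hθ m)

theorem card_cap_zero (hc : K5C_Stmt) (k : ℕ) (g : ℤ) (N : ℕ) (hg : 1 ≤ g)
    (h : (N : ℤ) < 2 * g + 2) : (CapSet k g N).card = 0 := by
  classical
  rw [card_eq_zero, eq_empty_iff_forall_notMem]
  intro w hw
  unfold CapSet at hw
  rw [mem_filter, mem_words] at hw
  have h1 := (hc.1 g w hg hw.2.1).2.1
  rw [hw.1] at h1
  omega

/-- all bounds for one `n`, with `r = (1 + eta) q` and `rho ≤ θ r` -/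
theorem tails {k n : ℕ} {rho r θ C : ℝ} (hn : 1 ≤ n) (h0 : 0 < rho) (hθ : 0 < θ) (hr : 0 < r)
    (h : rho ≤ θ * r) (t1 : pgf k n r ≤ C)
    (t2 : ∀ M : ℕ, ∑ m ∈ range (M + 1), ∑ g ∈ Icc (1 : ℤ) m,
      ((CapSet k g (2 * m + 2)).card : ℝ) * r ^ m ≤ C)
    (t3 : ((NoCut k n).card : ℝ) * r ^ n ≤ C * n) : Tails C θ k n rho := by
  refine ⟨fun m => ?_, fun m _ => ?_, ?_⟩
  · refine pow_bound m (Nat.cast_nonneg _) h0.le hθ.le h ?_
    refine le_trans ?_ t1
    have : ((((Pc k n).filter (fun p => hl p = m)).card : ℝ)) * r ^ m =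
        ∑ p ∈ (Pc k n).filter (fun p => hl p = m), r ^ hl p := by
      rw [← nsmul_eq_mul, ← sum_const]
      refine sum_congr rfl fun p hp => ?_
      rw [(mem_filter.1 hp).2]
    rw [this]
    exact sum_le_sum_of_subset_of_nonneg (filter_subset _ _) fun _ _ _ => pow_nonneg hr.le _
  · rw [← sum_mul]
    refine pow_bound m (sum_nonneg fun _ _ => Nat.cast_nonneg _) h0.le hθ.le h ?_
    rw [sum_mul]
    refine le_trans ?_ (t2 m)
    refine single_le_sum (f := fun m : ℕ => ∑ g ∈ Icc (1 : ℤ) m,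
      ((CapSet k g (2 * m + 2)).card : ℝ) * r ^ m) (fun i _ => ?_) (self_mem_range_succ m)
    exact sum_nonneg fun _ _ => mul_nonneg (Nat.cast_nonneg _) (pow_nonneg hr.le _)
  · exact pow_bound n (Nat.cast_nonneg _) h0.le hθ.le h t3

theorem dec_t {k n : ℕ} {rho θ C : ℝ} (hθ : 0 < θ) (hC : 0 < C) (hT : Tails C θ k n rho) (m : ℕ) :
    ∑ g ∈ Icc (1 : ℤ) m, rho ^ m * capT k n m g ≤ C * θ ^ m := by
  by_cases hm : m ≤ n
  · refine le_trans (le_of_eq ?_) (hT.2.1 m hm)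
    refine sum_congr rfl fun g hg => ?_
    rw [mem_Icc] at hg
    unfold capT
    rw [if_pos ⟨hg.1, hm⟩, mul_comm]
  · refine le_trans (le_of_eq ?_) (by positivity : (0 : ℝ) ≤ C * θ ^ m)
    refine sum_eq_zero fun g _ => ?_
    unfold capT
    rw [if_neg (fun h => hm h.2), mul_zero]

theorem dec_s (hc : K5C_Stmt) {k n : ℕ} {rho θ C C' : ℝ} (h0 : 0 < rho) (h1 : rho ≤ 1)
    (hθ : 0 < θ) (hC : 0 < C) (hCC : C / θ ≤ C') (hT : Tails C θ k n rho) (m : ℕ) :
    ∑ g ∈ Icc (1 : ℤ) m, rho ^ m * capS k n m g ≤ C' * θ ^ m := by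
  have hC' : 0 < C' := lt_of_lt_of_le (by positivity) hCC
  by_cases hm : m ≤ n
  · rcases m with _ | j
    · rw [Nat.cast_zero, Icc_eq_empty (by norm_num), sum_empty]
      positivity
    · have e : ∑ g ∈ Icc (1 : ℤ) ((j + 1 : ℕ) : ℤ), rho ^ (j + 1) * capS k n (j + 1) g =
          rho * ∑ g ∈ Icc (1 : ℤ) (j : ℤ), ((CapSet k g (2 * j + 2)).card : ℝ) * rho ^ j := by
        rw [mul_sum]
        symm
        have hsub : Icc (1 : ℤ) (j : ℤ) ⊆ Icc (1 : ℤ) ((j + 1 : ℕ) : ℤ) :=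
          Icc_subset_Icc_right (by push_cast; omega)
        have key : ∀ g ∈ Icc (1 : ℤ) ((j + 1 : ℕ) : ℤ),
            rho ^ (j + 1) * capS k n (j + 1) g =
              rho * (((CapSet k g (2 * j + 2)).card : ℝ) * rho ^ j) := by
          intro g hg
          rw [mem_Icc] at hg
          unfold capS
          rw [if_pos ⟨hg.1, hm⟩, show 2 * (j + 1) = 2 * j + 2 by ring]
          ring
        rw [sum_congr rfl key]
        refine sum_subset hsub fun g hg hg' => ?_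
        rw [mem_Icc] at hg hg'
        have : (CapSet k g (2 * j + 2)).card = 0 := by
          refine card_cap_zero hc k g _ hg.1 ?_
          have h3 : (j : ℤ) < g := by
            by_contra hcon
            exact hg' ⟨hg.1, not_lt.1 hcon⟩
          push_cast
          omega
        rw [this]
        simp
      rw [e]
      have h5 := hT.2.1 j (by omega)
      have h6 : 0 ≤ ∑ g ∈ Icc (1 : ℤ) (j : ℤ), ((CapSet k g (2 * j + 2)).card : ℝ) * rho ^ j :=
        sum_nonneg fun _ _ => mul_nonneg (Nat.cast_nonneg _) (pow_nonneg h0.le _)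
      calc rho * ∑ g ∈ Icc (1 : ℤ) (j : ℤ), ((CapSet k g (2 * j + 2)).card : ℝ) * rho ^ j
          ≤ 1 * ∑ g ∈ Icc (1 : ℤ) (j : ℤ), ((CapSet k g (2 * j + 2)).card : ℝ) * rho ^ j :=
            mul_le_mul_of_nonneg_right h1 h6
        _ ≤ C * θ ^ j := by rw [one_mul]; exact h5
        _ = C / θ * θ ^ (j + 1) := by rw [pow_succ]; field_simp
        _ ≤ C' * θ ^ (j + 1) := mul_le_mul_of_nonneg_right hCC (by positivity)
  · refine le_trans (le_of_eq ?_) (by positivity : (0 : ℝ) ≤ C' * θ ^ m)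
    refine sum_eq_zero fun g _ => ?_
    unfold capS
    rw [if_neg (fun h => hm h.2), mul_zero]

theorem Tails.mono {k n : ℕ} {rho θ C C' : ℝ} (hθ : 0 < θ) (h : C ≤ C')
    (hT : Tails C θ k n rho) : Tails C' θ k n rho := by
  obtain ⟨h1, h2, h3⟩ := hT
  refine ⟨fun m => (h1 m).trans ?_, fun m hm => (h2 m hm).trans ?_, h3.trans ?_⟩
  · exact mul_le_mul_of_nonneg_right h (by positivity)
  · exact mul_le_mul_of_nonneg_right h (by positivity)
  · exact mul_le_mul_of_nonneg_right (mul_le_mul_of_nonneg_right h (Nat.cast_nonneg _))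
      (by positivity)

end DAT

open DAT in
/-- DAT. -/
theorem dat_thm (ht : TAIL_Stmt) (hk : KW_Stmt) (_hs : K5S_Stmt) (hb : K5B_Stmt)
    (hc : K5C_Stmt) : DAT_Stmt := by
  intro k hk1
  obtain ⟨q, eta, C0, hq, heta, hC0, t1, t2, t3, t4, t5⟩ := ht k hk1
  have hq' : q < (1 + eta / 2) * q := by nlinarith
  obtain ⟨n0, hn0⟩ := t2 _ hq'
  have hr : 0 < (1 + eta) * q := by positivity
  have hθ : 0 < (1 + eta / 2) / (1 + eta) := by positivity
  have hθ1 : (1 + eta / 2) / (1 + eta) < 1 := by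
    rw [div_lt_one (by positivity)]
    linarith
  have hθr : (1 + eta / 2) / (1 + eta) * ((1 + eta) * q) = (1 + eta / 2) * q := by
    field_simp
  set θ : ℝ := (1 + eta / 2) / (1 + eta) with hθdef
  have hCle : C0 ≤ C0 / θ := by
    rw [le_div_iff₀ hθ]
    nlinarith
  refine ⟨max (C0 / θ) (max q⁻¹ 1), θ, lt_max_of_lt_left (by positivity), hθ, hθ1, max n0 2,
    le_max_right _ _, ?_⟩
  intro n hn
  have hn0' : n0 ≤ n := (le_max_left _ _).trans hn
  have hn2 : 2 ≤ n := (le_max_right _ _).trans hn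
  obtain ⟨G, B, hloc, hcrit, htot, hcs, hct, hones, honet, hsupp, hsol, hcount⟩ := hk k n hk1 hn2
  have hcr : pgf k n G.rho = 1 := hcrit
  have hrho : G.rho ≤ (1 + eta / 2) * q := by
    by_contra hcon
    have h1 : pgf k n ((1 + eta / 2) * q) ≤ pgf k n G.rho :=
      pgf_mono (by positivity) (not_le.1 hcon).le
    have h2 : pgf k n0 ((1 + eta / 2) * q) ≤ pgf k n ((1 + eta / 2) * q) :=
      pgf_mono_n k hn0' (by positivity)
    have h3 : 1 < pgf k n0 ((1 + eta / 2) * q) := hn0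
    linarith
  have hrho' : q ≤ G.rho := by
    by_contra hcon
    have h1 := pgf_strict hb hk1 hn2 G.rho_pos.le (not_le.1 hcon)
    have h2 : pgf k n q ≤ 1 := t1 n
    linarith
  have hrho1 : G.rho ≤ 1 := by
    have h1 : G.rho ^ hl (([0], [2]) : Wd × Wd) ≤ pgf k n G.rho :=
      single_le_sum (f := fun p : Wd × Wd => G.rho ^ hl p)
        (fun _ _ => pow_nonneg G.rho_pos.le _) (straight_mem hb k n hk1 hn2)
    rw [hl_straight, pow_one, hcr] at h1
    exact h1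
  have hT0 : Tails C0 θ k n G.rho := by
    refine DAT.tails (by omega) G.rho_pos hθ hr ?_ (t3 n) t4 (t5 n (by omega))
    rw [hθr]
    exact hrho
  set C : ℝ := max (C0 / θ) (max q⁻¹ 1) with hCdef
  have hC1 : 1 ≤ C := (le_max_right _ _).trans (le_max_right _ _)
  have hCpos : 0 < C := by linarith
  have hCC0 : C0 ≤ C := hCle.trans (le_max_left _ _)
  have hT : Tails C θ k n G.rho := Tails.mono hθ hCC0 hT0
  have hCi : C⁻¹ ≤ 1 := inv_le_one_of_one_le₀ hC1
  have hCq : C⁻¹ ≤ q := by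
    rw [inv_le_comm₀ hCpos hq]
    exact (le_max_left _ _).trans (le_max_right _ _)
  refine ⟨⟨G, B, ⟨hloc, hCq.trans hrho', fun m => ?_⟩,
    ⟨hcs, Or.inr (hCi.trans hones), fun m g h => (hsupp m g h).1, fun m => ?_⟩,
    ⟨hct, Or.inl (hCi.trans honet), fun m g h => (hsupp m g h).2, fun m => ?_⟩,
    hsol, hcount, hcrit, hrho1, hT⟩⟩
  · rw [← mul_sum, htot m, mul_comm]
    exact hT.1 m
  · exact dec_s hc G.rho_pos hrho1 hθ hC0 (le_max_left _ _) hT0 m
  · exact dec_t hθ hCpos hT m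

end Pool.Agent.KCC
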