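import Pool.Agent.KCC.Stmts

/-!
# Column-convex polygons (MP_f6626d_co): the gap kernel (module KW)

The kernel counts the allowed pieces, the array `B` is defined by recursion for all half lengths
and agrees with the generating polynomial of the arches up to half length `n`.
-/

set_option autoImplicit false

namespace Pool.Agent.KCC.KW

open Finset Filter Topology Pool.Agent.Lib27
open Pool.Agent.SapR (rot2 wordsUpTo)
open Pool.Agent.Gap (IsCap closeP)

/-! ### membership -/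

lemma mem_words (N : ℕ) (w : Wd) : w ∈ words N ↔ w.length = N := Pool.Agent.Lib27.mem_words N w

lemma mem_ArchSet (k : ℕ) (g : ℤ) (N : ℕ) (w : Wd) :
    w ∈ ArchSet k g N ↔ w.length = N ∧ Arch g w ∧ Nar k w := by
  classical
  rw [ArchSet, mem_filter, mem_words]

lemma mem_CapSet (k : ℕ) (g : ℤ) (N : ℕ) (w : Wd) :
    w ∈ CapSet k g N ↔ w.length = N ∧ Arch g w ∧ Nar k w ∧ ∀ h : ℤ, 1 ≤ h → ¬ EC w h := by
  classical
  rw [CapSet, mem_filter, mem_words]

lemma mem_allowed (k n : ℕ) (g : ℤ) (p : Wd × Wd) : p ∈ allowed k n g ↔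
    p ∈ Pc k n ∧ 1 ≤ g ∧ 1 ≤ g + jump p ∧ Disj g p := by
  classical
  rw [allowed, mem_filter]

open Classical in
/-- free pieces of half length `i.1`, width `i.2` and jump `d` -/
noncomputable def PcT (k n : ℕ) (i : ℕ × ℕ) (d : ℤ) : Finset (Wd × Wd) :=
  (Pc k n).filter (fun p => hl p = i.1 ∧ htn p = i.2 ∧ jump p = d)

open Classical in
/-- allowed pieces of half length `i.1`, width `i.2` from gap `g` to gap `g'` -/
noncomputable def alT (k n : ℕ) (i : ℕ × ℕ) (g g' : ℤ) : Finset (Wd × Wd) :=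
  (allowed k n g).filter (fun p => hl p = i.1 ∧ htn p = i.2 ∧ jump p = g' - g)

lemma mem_PcT (k n : ℕ) (i : ℕ × ℕ) (d : ℤ) (p : Wd × Wd) : p ∈ PcT k n i d ↔
    p ∈ Pc k n ∧ hl p = i.1 ∧ htn p = i.2 ∧ jump p = d := by
  classical
  rw [PcT, mem_filter]

lemma mem_alT (k n : ℕ) (i : ℕ × ℕ) (g g' : ℤ) (p : Wd × Wd) : p ∈ alT k n i g g' ↔
    p ∈ allowed k n g ∧ hl p = i.1 ∧ htn p = i.2 ∧ jump p = g' - g := by
  classical
  rw [alT, mem_filter]

lemma alT_sub (k n : ℕ) (i : ℕ × ℕ) (g g' : ℤ) : alT k n i g g' ⊆ PcT k n i (g' - g) := by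
  intro p hp
  rw [mem_alT] at hp
  rw [mem_PcT]
  exact ⟨((mem_allowed _ _ _ _).1 hp.1).1, hp.2⟩

lemma ArchSet_zero (k : ℕ) (g : ℤ) : ArchSet k g 0 = ∅ := by
  by_contra hne
  obtain ⟨w, hw⟩ := nonempty_iff_ne_empty.2 hne
  obtain ⟨h1, h2, _⟩ := (mem_ArchSet _ _ _ _).1 hw
  exact h2.1 (List.length_eq_zero_iff.1 h1)

lemma CapSet_empty (hc : K5C_Stmt) (k : ℕ) (g : ℤ) (N : ℕ) (hg : 1 ≤ g)
    (h : (N : ℤ) < 2 * g + 2) : CapSet k g N = ∅ := by
  by_contra hne
  obtain ⟨T, hT⟩ := nonempty_iff_ne_empty.2 hne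
  obtain ⟨h1, h2, _⟩ := (mem_CapSet _ _ _ _).1 hT
  have := (hc.1 g T hg h2).2.1
  rw [h1] at this
  omega

/-- index set of the kernel -/
def SS (n : ℕ) : Finset (ℕ × ℕ) := (Icc 1 n ×ˢ Icc 1 n).filter (fun i => i.2 ≤ i.1)

lemma mem_SS (n : ℕ) (i : ℕ × ℕ) : i ∈ SS n ↔
    (1 ≤ i.1 ∧ i.1 ≤ n) ∧ (1 ≤ i.2 ∧ i.2 ≤ n) ∧ i.2 ≤ i.1 := by
  unfold SS
  rw [mem_filter, mem_product, mem_Icc, mem_Icc]
  tauto

lemma piece_mem (hs : K5S_Stmt) {k n : ℕ} {p : Wd × Wd} (hp : p ∈ Pc k n) :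
    (hl p, htn p) ∈ SS n ∧ jump p ∈ Icc (-(n : ℤ)) n := by
  obtain ⟨h1, h2, h3, h4, h5, h6, h7, _⟩ := hs k n p hp
  rw [mem_SS, mem_Icc]
  have h8 := abs_le.1 (show |jump p| ≤ (n : ℤ) by omega)
  refine ⟨?_, h8⟩
  simp only
  omega

/-! ### the two basic pieces -/

lemma hl_a : hl (([0], [2]) : Wd × Wd) = 1 := by simp [hl]

lemma hl_b : hl (([0, 3, 3], [2]) : Wd × Wd) = 2 := by simp [hl]

lemma htn_a : htn (([0], [2]) : Wd × Wd) = 1 := by simp [htn, ht, ep, dv]

lemma htn_b : htn (([0, 3, 3], [2]) : Wd × Wd) = 1 := by simp [htn, ht, ep, dv]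

/-! ### criticality -/

lemma exists_rho (S : Finset (ℕ × ℕ)) (t : ℕ × ℕ → ℝ) (h0 : ∀ i ∈ S, 1 ≤ i.1)
    (ht : ∀ i, 0 ≤ t i) (i0 : (1, 1) ∈ S) (h1 : 1 ≤ t (1, 1)) :
    ∃ rho : ℝ, 0 < rho ∧ ∑ i ∈ S, rho ^ i.1 * t i = 1 := by
  have hc : ContinuousOn (fun x : ℝ => ∑ i ∈ S, x ^ i.1 * t i) (Set.Icc 0 1) := by
    fun_prop
  have hz : ∑ i ∈ S, (0 : ℝ) ^ i.1 * t i = 0 := by
    apply sum_eq_zero
    intro i hi
    rw [zero_pow (by have := h0 i hi; omega), zero_mul]
  have ho : 1 ≤ ∑ i ∈ S, (1 : ℝ) ^ i.1 * t i := by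
    have := single_le_sum (f := fun i => (1 : ℝ) ^ i.1 * t i)
      (fun i _ => by simpa using ht i) i0
    simp only [one_pow, one_mul] at this ⊢
    linarith
  have := intermediate_value_Icc (zero_le_one) hc
  obtain ⟨x, hx, hx1⟩ := this ⟨by rw [hz]; norm_num, ho⟩
  refine ⟨x, ?_, hx1⟩
  rcases lt_or_eq_of_le hx.1 with h | h
  · exact h
  · exfalso
    rw [← h] at hx1
    simp only at hx1
    rw [hz] at hx1
    norm_num at hx1

lemma rho_ex (hb : K5B_Stmt) (k n : ℕ) (hk : 1 ≤ k) (hn : 2 ≤ n) : ∃ rho : ℝ, 0 < rho ∧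
    ∑ i ∈ SS n, rho ^ i.1 * ∑ d ∈ Icc (-(n : ℤ)) n, ((PcT k n i d).card : ℝ) = 1 := by
  apply exists_rho (SS n) (fun i => ∑ d ∈ Icc (-(n : ℤ)) n, ((PcT k n i d).card : ℝ))
  · intro i hi
    exact ((mem_SS n i).1 hi).1.1
  · intro i
    exact sum_nonneg fun d _ => by positivity
  · rw [mem_SS]
    omega
  · have h1 := single_le_sum (f := fun d => ((PcT k n (1, 1) d).card : ℝ))
      (s := Icc (-(n : ℤ)) n) (fun d _ => by positivity) (a := 0) (by
        rw [mem_Icc]; omega)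
    have hm : (([0], [2]) : Wd × Wd) ∈ PcT k n (1, 1) 0 := by
      obtain ⟨b1, _, b3, _⟩ := hb k n 1 hk hn le_rfl
      rw [mem_PcT]
      exact ⟨((mem_allowed _ _ _ _).1 b1).1, hl_a, htn_a, b3⟩
    have h2 : 1 ≤ (PcT k n (1, 1) 0).card := card_pos.2 ⟨_, hm⟩
    have h3 : (1 : ℝ) ≤ ((PcT k n (1, 1) 0).card : ℝ) := by exact_mod_cast h2
    exact le_trans h3 h1

lemma card_PcT_even (hr : K5R_Stmt) (k n : ℕ) (i : ℕ × ℕ) (d : ℤ) :
    (PcT k n i (-d)).card = (PcT k n i d).card := by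
  have key : ∀ d : ℤ, ∀ p ∈ PcT k n i d, KCC.flip p ∈ PcT k n i (-d) := by
    intro d p hp
    rw [mem_PcT] at hp ⊢
    obtain ⟨h1, h2, h3, h4⟩ := hp
    obtain ⟨f1, f2, f3, f4, f5, f6⟩ := hr k n p h1
    exact ⟨f1, by rw [f5]; exact h2, by unfold htn at h3 ⊢; rw [f4]; exact h3, by rw [f3, h4]⟩
  have key2 : ∀ d : ℤ, ∀ p ∈ PcT k n i d, KCC.flip (KCC.flip p) = p := by
    intro d p hp
    rw [mem_PcT] at hp
    exact (hr k n p hp.1).2.1
  apply card_nbij' (fun p => KCC.flip p) (fun p => KCC.flip p)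
  · intro p hp
    have := key (-d) p hp
    rwa [neg_neg] at this
  · intro p hp; exact key d p hp
  · intro p hp; exact key2 _ p hp
  · intro p hp; exact key2 _ p hp

lemma card_alT_symm (hr : K5R_Stmt) (k n : ℕ) (i : ℕ × ℕ) (g g' : ℤ) :
    (alT k n i g g').card = (alT k n i g' g).card := by
  have key : ∀ a b : ℤ, ∀ p ∈ alT k n i a b, KCC.flip p ∈ alT k n i b a := by
    intro a b p hp
    rw [mem_alT] at hp ⊢
    obtain ⟨h1, h2, h3, h4⟩ := hp
    have h0 := ((mem_allowed _ _ _ _).1 h1).1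
    obtain ⟨f1, f2, f3, f4, f5, f6⟩ := hr k n p h0
    have := (f6 a).1 h1
    rw [h4, show a + (b - a) = b by ring] at this
    exact ⟨this, by rw [f5]; exact h2, by unfold htn at h3 ⊢; rw [f4]; exact h3,
      by rw [f3, h4]; ring⟩
  have key2 : ∀ a b : ℤ, ∀ p ∈ alT k n i a b, KCC.flip (KCC.flip p) = p := by
    intro a b p hp
    rw [mem_alT] at hp
    exact (hr k n p ((mem_allowed _ _ _ _).1 hp.1).1).2.1
  apply card_nbij' (fun p => KCC.flip p) (fun p => KCC.flip p)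
  · intro p hp; exact key g g' p hp
  · intro p hp; exact key g' g p hp
  · intro p hp; exact key2 g g' p hp
  · intro p hp; exact key2 g' g p hp

lemma alT_far (hf : K5F_Stmt) (k n : ℕ) (i : ℕ × ℕ) (g g' : ℤ) (h : (i.1 : ℤ) ≤ g) :
    alT k n i g g' = PcT k n i (g' - g) := by
  apply subset_antisymm (alT_sub k n i g g')
  intro p hp
  rw [mem_PcT] at hp
  rw [mem_alT]
  exact ⟨hf k n g p hp.1 (by rw [hp.2.1]; exact h), hp.2⟩

/-- the gap kernel -/
noncomputable def kern (hs : K5S_Stmt) (hf : K5F_Stmt) (hr : K5R_Stmt) (hb : K5B_Stmt)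
    (k n : ℕ) (hk : 1 ≤ k) (hn : 2 ≤ n) : KCG.GapKernel where
  S := SS n
  R := n
  K := fun i g g' => ((alT k n i g g').card : ℝ)
  T := fun i d => ((PcT k n i d).card : ℝ)
  rho := (rho_ex hb k n hk hn).choose
  a_mem := by rw [mem_SS]; simp only; omega
  b_mem := by rw [mem_SS]; simp only; omega
  pos_mem := fun i hi => ⟨((mem_SS n i).1 hi).1.1, ((mem_SS n i).1 hi).2.1.1⟩
  T_nonneg := fun i d => by positivity
  T_even := fun i d => by rw [card_PcT_even hr]
  T_range := fun i d hd => by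
    rw [Nat.cast_eq_zero, card_eq_zero]
    by_contra hne
    obtain ⟨p, hp⟩ := nonempty_iff_ne_empty.2 hne
    rw [mem_PcT] at hp
    obtain ⟨h1, h2, h3, h4, h5, h6, h7, _⟩ := hs k n p hp.1
    rw [hp.2.2.2] at h7
    omega
  K_nonneg := fun i g g' => by positivity
  K_symm := fun i g g' => by rw [card_alT_symm hr]
  K_le := fun i g g' => by exact_mod_cast card_le_card (alT_sub k n i g g')
  K_out := fun i g g' hg => by
    rw [Nat.cast_eq_zero, card_eq_zero]
    by_contra hne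
    obtain ⟨p, hp⟩ := nonempty_iff_ne_empty.2 hne
    rw [mem_alT] at hp
    have := ((mem_allowed _ _ _ _).1 hp.1).2.1
    omega
  K_eq := fun i g g' hg hg' hR => by
    by_cases hi : i.1 ≤ n
    · rw [alT_far hf k n i g g' (by omega)]
    · have h : PcT k n i (g' - g) = ∅ := by
        by_contra hne
        obtain ⟨p, hp⟩ := nonempty_iff_ne_empty.2 hne
        rw [mem_PcT] at hp
        obtain ⟨h1, h2, h3, _⟩ := hs k n p hp.1
        rw [hp.2.1] at h3
        omega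
      have h' : alT k n i g g' = ∅ := by
        rw [← subset_empty, ← h]
        exact alT_sub k n i g g'
      rw [h, h']
  K_a := fun g hg => by
    obtain ⟨b1, _, b3, _⟩ := hb k n g hk hn hg
    have hm : (([0], [2]) : Wd × Wd) ∈ alT k n (1, 1) g g := by
      rw [mem_alT]
      exact ⟨b1, hl_a, htn_a, by rw [b3, sub_self]⟩
    have h2 : 1 ≤ (alT k n (1, 1) g g).card := card_pos.2 ⟨_, hm⟩
    exact_mod_cast h2
  K_b := fun g hg => by
    obtain ⟨_, b2, _, b4⟩ := hb k n g hk hn hg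
    have hm : (([0, 3, 3], [2]) : Wd × Wd) ∈ alT k n (2, 1) g (g + 1) := by
      rw [mem_alT]
      exact ⟨b2, hl_b, htn_b, by rw [b4]; ring⟩
    have h2 : 1 ≤ (alT k n (2, 1) g (g + 1)).card := card_pos.2 ⟨_, hm⟩
    exact_mod_cast h2
  rho_pos := (rho_ex hb k n hk hn).choose_spec.1
  crit := (rho_ex hb k n hk hn).choose_spec.2

lemma kern_loc (hs : K5S_Stmt) (hf : K5F_Stmt) (hr : K5R_Stmt) (hb : K5B_Stmt)
    (k n : ℕ) (hk : 1 ≤ k) (hn : 2 ≤ n) : KCG.Loc (kern hs hf hr hb k n hk hn) where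
  h_le := fun i hi => ((mem_SS n i).1 hi).2.2
  T_loc := fun i d hd => by
    show ((PcT k n i d).card : ℝ) = 0
    rw [Nat.cast_eq_zero, card_eq_zero]
    by_contra hne
    obtain ⟨p, hp⟩ := nonempty_iff_ne_empty.2 hne
    rw [mem_PcT] at hp
    obtain ⟨h1, h2, h3, h4, h5, h6, h7, _⟩ := hs k n p hp.1
    rw [hp.2.2.2, hp.2.1] at h7
    omega
  K_loc := fun i g g' hg hg' hR => by
    show ((alT k n i g g').card : ℝ) = ((PcT k n i (g' - g)).card : ℝ)
    rw [alT_far hf k n i g g' (by omega)]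

/-- grouping of the pieces by half length, width and jump -/
lemma group (hs : K5S_Stmt) (k n : ℕ) (f : ℕ → ℝ) :
    ∑ p ∈ Pc k n, f (hl p) = ∑ i ∈ SS n, f i.1 *
      ∑ d ∈ Icc (-(n : ℤ)) n, ((PcT k n i d).card : ℝ) := by
  classical
  have hmap : ∀ p ∈ Pc k n, (((hl p, htn p), jump p) : (ℕ × ℕ) × ℤ) ∈
      SS n ×ˢ Icc (-(n : ℤ)) n := by
    intro p hp
    rw [mem_product]
    exact piece_mem hs hp
  rw [← sum_fiberwise_of_maps_to hmap, sum_product]
  apply sum_congr rfl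
  intro i _
  rw [mul_sum]
  apply sum_congr rfl
  intro d _
  have hfib : (Pc k n).filter (fun p => (((hl p, htn p), jump p) : (ℕ × ℕ) × ℤ) = (i, d)) =
      PcT k n i d := by
    ext p
    rw [mem_filter, mem_PcT]
    constructor
    · rintro ⟨h1, h2⟩
      rw [Prod.mk.injEq, Prod.ext_iff] at h2
      simp only at h2
      exact ⟨h1, h2.1.1, h2.1.2, h2.2⟩
    · rintro ⟨h1, h2, h3, h4⟩
      refine ⟨h1, ?_⟩
      rw [Prod.mk.injEq, Prod.ext_iff]
      simp only
      exact ⟨⟨h2, h3⟩, h4⟩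
  rw [hfib]
  have e : ∀ p ∈ PcT k n i d, f (hl p) = f i.1 := by
    intro p hp
    rw [mem_PcT] at hp
    rw [hp.2.1]
  rw [sum_congr rfl e, sum_const, nsmul_eq_mul, mul_comm]

lemma kern_crit (hs : K5S_Stmt) (hf : K5F_Stmt) (hr : K5R_Stmt) (hb : K5B_Stmt)
    (k n : ℕ) (hk : 1 ≤ k) (hn : 2 ≤ n) :
    ∑ p ∈ Pc k n, (kern hs hf hr hb k n hk hn).rho ^ hl p = 1 := by
  rw [group hs k n (fun a => (kern hs hf hr hb k n hk hn).rho ^ a)]
  exact (kern hs hf hr hb k n hk hn).crit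

lemma kern_level (hs : K5S_Stmt) (hf : K5F_Stmt) (hr : K5R_Stmt) (hb : K5B_Stmt)
    (k n : ℕ) (hk : 1 ≤ k) (hn : 2 ≤ n) (m : ℕ) :
    ∑ i ∈ (kern hs hf hr hb k n hk hn).S.filter (fun i => i.1 = m),
      (kern hs hf hr hb k n hk hn).tot i =
      (((Pc k n).filter (fun p => hl p = m)).card : ℝ) := by
  have h1 := group hs k n (fun a => if a = m then 1 else 0)
  simp only [ite_mul, one_mul, zero_mul] at h1
  rw [← sum_filter] at h1
  rw [sum_const, nsmul_eq_mul, mul_one] at h1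
  rw [h1]
  have hS : (kern hs hf hr hb k n hk hn).S = SS n := rfl
  rw [hS, sum_filter]
  rfl

/-! ### caps -/

lemma capS_supp (hc : K5C_Stmt) (k n : ℕ) (m : ℕ) (g : ℤ) (hg : (m : ℤ) < g) :
    capS k n m g = 0 := by
  unfold capS
  split_ifs with h
  · rw [CapSet_empty hc k g (2 * m) h.1 (by push_cast; omega)]
    simp
  · rfl

lemma capT_supp (hc : K5C_Stmt) (k n : ℕ) (m : ℕ) (g : ℤ) (hg : (m : ℤ) < g) :
    capT k n m g = 0 := by
  unfold capT
  split_ifs with h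
  · rw [CapSet_empty hc k g (2 * m + 2) h.1 (by push_cast; omega)]
    simp
  · rfl

lemma capS_one (hc : K5C_Stmt) (k n : ℕ) (hk : 1 ≤ k) (hn : 2 ≤ n) : 1 ≤ capS k n 2 1 := by
  unfold capS
  rw [if_pos ⟨le_rfl, hn⟩, show 2 * 2 = 4 by norm_num, hc.2 k hk, card_singleton]
  norm_num

lemma capT_one (hc : K5C_Stmt) (k n : ℕ) (hk : 1 ≤ k) (hn : 2 ≤ n) : 1 ≤ capT k n 1 1 := by
  unfold capT
  rw [if_pos ⟨le_rfl, by omega⟩, show 2 * 1 + 2 = 4 by norm_num, hc.2 k hk, card_singleton]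
  norm_num

lemma isCapS (hc : K5C_Stmt) (k n : ℕ) (hk : 1 ≤ k) (hn : 2 ≤ n) : IsCap n (capS k n) where
  nonneg := fun m g => by
    unfold capS
    split_ifs <;> positivity
  supp_m := fun m g hm => by
    unfold capS
    rw [if_neg (by omega)]
  supp_g := fun m g hg => by
    by_cases hm : n < m
    · unfold capS
      rw [if_neg (by omega)]
    · rcases hg with hg | hg
      · unfold capS
        rw [if_neg (by omega)]
      · exact capS_supp hc k n m g (by omega)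
  nontriv := ⟨2, 1, lt_of_lt_of_le one_pos (capS_one hc k n hk hn)⟩

lemma isCapT (hc : K5C_Stmt) (k n : ℕ) (hk : 1 ≤ k) (hn : 2 ≤ n) : IsCap n (capT k n) where
  nonneg := fun m g => by
    unfold capT
    split_ifs <;> positivity
  supp_m := fun m g hm => by
    unfold capT
    rw [if_neg (by omega)]
  supp_g := fun m g hg => by
    by_cases hm : n < m
    · unfold capT
      rw [if_neg (by omega)]
    · rcases hg with hg | hg
      · unfold capT
        rw [if_neg (by omega)]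
      · exact capT_supp hc k n m g (by omega)
  nontriv := ⟨1, 1, lt_of_lt_of_le one_pos (capT_one hc k n hk hn)⟩

/-! ### the array -/

/-- the solution of the recursion, for all half lengths -/
noncomputable def Bv (G : KCG.GapKernel) (s : ℕ → ℤ → ℝ) : ℕ → ℤ → Polynomial ℝ
  | n, g => if 1 ≤ g then Polynomial.C (s n g) + ∑ i ∈ G.S.attach, if h : i.1.1 ≤ n then
      have : n - i.1.1 < n := by
        have := (G.pos_mem i.1 i.2).1
        omega
      ∑ g' ∈ Icc (g - G.R) (g + G.R),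
        Polynomial.C (G.K i.1 g g') * Polynomial.X ^ ((i.1.2 : ℤ) * (g + g')).toNat *
          Bv G s (n - i.1.1) g'
      else 0 else 0
termination_by n _ => n

lemma Bv_sol (G : KCG.GapKernel) (s : ℕ → ℤ → ℝ) : KCG.IsSol G s (Bv G s) where
  zero := fun n g hg => by
    rw [Bv, if_neg (by omega)]
  step := fun n g hg => by
    rw [Bv, if_pos hg]
    congr 1
    rw [← sum_attach G.S]
    apply sum_congr rfl
    intro i _
    by_cases h : i.1.1 ≤ n
    · rw [dif_pos h, if_pos h]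
    · rw [dif_neg h, if_neg h]

/-! ### polynomial form of K2 -/

lemma k2_poly (h2 : K2_Stmt) (ha : AR_Stmt) (k n : ℕ) (hk : 1 ≤ k) (g : ℤ) (N : ℕ) (hg : 1 ≤ g)
    (hN : N ≤ 2 * n + 2) :
    ∑ w ∈ ArchSet k g N, (Polynomial.X : Polynomial ℝ) ^ (Ar k n w) =
      Polynomial.C ((CapSet k g N).card : ℝ) +
      ∑ p ∈ allowed k n g, (Polynomial.X : Polynomial ℝ) ^ (ht p * (2 * g + jump p)).toNat *
        ∑ w ∈ ArchSet k (g + jump p) (N - (p.1.length + p.2.length)),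
          (Polynomial.X : Polynomial ℝ) ^ (Ar k n w) := by
  have h1 : ∑ w ∈ ArchSet k g N, (Polynomial.X : Polynomial ℝ) ^ (Ar k n w) =
      ∑ w ∈ CapSet k g N, (Polynomial.X : Polynomial ℝ) ^ (Ar k n w) +
      ∑ p ∈ allowed k n g, ∑ w ∈ ArchSet k (g + jump p) (N - (p.1.length + p.2.length)),
        (Polynomial.X : Polynomial ℝ) ^ (Ar k n (p.1 ++ w ++ p.2)) := by
    ext j
    have := h2 k n g N hk hg hN (fun w => ((Polynomial.X : Polynomial ℝ) ^ (Ar k n w)).coeff j)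
    rw [Polynomial.coeff_add, Polynomial.finsetSum_coeff, Polynomial.finsetSum_coeff,
      Polynomial.finsetSum_coeff, this]
    congr 1
    apply sum_congr rfl
    intro p _
    rw [Polynomial.finsetSum_coeff]
  rw [h1]
  congr 1
  · rw [sum_congr rfl (fun w hw => by rw [(ha k n hk).1 g N w hg hN hw, pow_zero]), sum_const]
    rw [nsmul_eq_mul, mul_one]
    simp
  · apply sum_congr rfl
    intro p hp
    rw [mul_sum]
    apply sum_congr rfl
    intro w hw
    rw [(ha k n hk).2 g N p w hg hN hp hw, pow_add, mul_comm]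

/-- generating polynomial of the arches -/
noncomputable def arB (k n : ℕ) (m : ℕ) (g : ℤ) : Polynomial ℝ :=
  if 1 ≤ g then ∑ w ∈ ArchSet k g (2 * m), (Polynomial.X : Polynomial ℝ) ^ (Ar k n w) else 0

open Classical in
lemma arB_step (h2 : K2_Stmt) (hs : K5S_Stmt) (ha : AR_Stmt) (k n : ℕ) (hk : 1 ≤ k)
    (m : ℕ) (g : ℤ) (hg : 1 ≤ g) (hm : m ≤ n) :
    arB k n m g = Polynomial.C (capS k n m g) + ∑ i ∈ SS n, if i.1 ≤ m then
      ∑ g' ∈ Icc (g - (n : ℤ)) (g + n), Polynomial.C ((alT k n i g g').card : ℝ) *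
        Polynomial.X ^ ((i.2 : ℤ) * (g + g')).toNat * arB k n (m - i.1) g' else 0 := by
  unfold arB capS
  rw [if_pos hg, if_pos ⟨hg, hm⟩, k2_poly h2 ha k n hk g (2 * m) hg (by omega)]
  congr 1
  have hmap : ∀ p ∈ allowed k n g, (((hl p, htn p), g + jump p) : (ℕ × ℕ) × ℤ) ∈
      SS n ×ˢ Icc (g - (n : ℤ)) (g + n) := by
    intro p hp
    have hp1 := ((mem_allowed _ _ _ _).1 hp).1
    obtain ⟨a1, a2⟩ := piece_mem hs hp1
    rw [mem_Icc] at a2
    rw [mem_product, mem_Icc]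
    refine ⟨a1, ?_, ?_⟩
    · simp only
      omega
    · simp only
      omega
  rw [← sum_fiberwise_of_maps_to hmap, sum_product]
  apply sum_congr rfl
  intro i hi
  rw [mem_SS] at hi
  have hfib : ∀ g' : ℤ, (allowed k n g).filter (fun p =>
      (((hl p, htn p), g + jump p) : (ℕ × ℕ) × ℤ) = (i, g')) =
      alT k n i g g' := by
    intro g'
    ext p
    rw [mem_filter, mem_alT]
    constructor
    · rintro ⟨h1, h3⟩
      rw [Prod.mk.injEq, Prod.ext_iff] at h3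
      obtain ⟨⟨b1, b2⟩, b3⟩ := h3
      simp only at b1 b2 b3
      exact ⟨h1, b1, b2, by omega⟩
    · rintro ⟨h1, h3, h4, h5⟩
      refine ⟨h1, ?_⟩
      rw [Prod.mk.injEq, Prod.ext_iff]
      simp only
      exact ⟨⟨h3, h4⟩, by omega⟩
  by_cases hin : i.1 ≤ m
  · rw [if_pos hin]
    apply sum_congr rfl
    intro g' _
    rw [hfib g']
    by_cases hg' : 1 ≤ g'
    · rw [if_pos hg']
      have hconst : ∀ p ∈ alT k n i g g',
          (Polynomial.X : Polynomial ℝ) ^ (ht p * (2 * g + jump p)).toNat *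
            ∑ w ∈ ArchSet k (g + jump p) (2 * m - (p.1.length + p.2.length)),
              (Polynomial.X : Polynomial ℝ) ^ (Ar k n w) =
          (Polynomial.X : Polynomial ℝ) ^ ((i.2 : ℤ) * (g + g')).toNat *
            ∑ w ∈ ArchSet k g' (2 * (m - i.1)), (Polynomial.X : Polynomial ℝ) ^ (Ar k n w) := by
        intro p hp
        obtain ⟨h1, h3, h4, h5⟩ := (mem_alT _ _ _ _ _ _).1 hp
        obtain ⟨q1, q2, q3, q4, _⟩ := hs k n p ((mem_allowed _ _ _ _).1 h1).1
        rw [q1, q4, h3, h4, h5, show g + (g' - g) = g' by ring,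
          show 2 * m - 2 * i.1 = 2 * (m - i.1) by omega,
          show 2 * g + (g' - g) = g + g' by ring]
      rw [sum_congr rfl hconst, sum_const, nsmul_eq_mul, mul_assoc]
      simp
    · rw [if_neg hg', mul_zero]
      apply sum_eq_zero
      intro p hp
      exfalso
      obtain ⟨h1, h3, h4, h5⟩ := (mem_alT _ _ _ _ _ _).1 hp
      have := ((mem_allowed _ _ _ _).1 h1).2.2.1
      omega
  · rw [if_neg hin]
    apply sum_eq_zero
    intro g' _
    rw [hfib g']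
    apply sum_eq_zero
    intro p hp
    obtain ⟨h1, h3, h4, h5⟩ := (mem_alT _ _ _ _ _ _).1 hp
    obtain ⟨q1, _⟩ := hs k n p ((mem_allowed _ _ _ _).1 h1).1
    rw [q1, h3, show 2 * m - 2 * i.1 = 0 by omega, ArchSet_zero, sum_empty, mul_zero]

/-- up to half length `n` the array is the generating polynomial of the arches -/
lemma Bv_eq (h2 : K2_Stmt) (hs : K5S_Stmt) (hf : K5F_Stmt) (hr : K5R_Stmt) (hb : K5B_Stmt)
    (ha : AR_Stmt) (k n : ℕ) (hk : 1 ≤ k) (hn : 2 ≤ n) :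
    ∀ m : ℕ, m ≤ n → ∀ g : ℤ,
      Bv (kern hs hf hr hb k n hk hn) (capS k n) m g = arB k n m g := by
  intro m
  induction m using Nat.strong_induction_on with
  | _ m ih =>
    intro hm g
    have hS := Bv_sol (kern hs hf hr hb k n hk hn) (capS k n)
    by_cases hg : 1 ≤ g
    · rw [hS.step m g hg, arB_step h2 hs ha k n hk m g hg hm]
      congr 1
      have e1 : (kern hs hf hr hb k n hk hn).S = SS n := rfl
      have e2 : (kern hs hf hr hb k n hk hn).R = n := rfl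
      have e3 : (kern hs hf hr hb k n hk hn).K =
        fun i g g' => ((alT k n i g g').card : ℝ) := rfl
      rw [e1, e2, e3]
      apply sum_congr rfl
      intro i hi
      rw [mem_SS] at hi
      by_cases h : i.1 ≤ m
      · rw [if_pos h, if_pos h]
        apply sum_congr rfl
        intro g' _
        rw [ih (m - i.1) (by omega) (by omega) g']
      · rw [if_neg h, if_neg h]
    · rw [hS.zero m g (by omega)]
      unfold arB
      rw [if_neg hg]

lemma count (h2 : K2_Stmt) (hs : K5S_Stmt) (hf : K5F_Stmt) (hr : K5R_Stmt) (hb : K5B_Stmt)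
    (ha : AR_Stmt) (k n : ℕ) (hk : 1 ≤ k) (hn : 2 ≤ n) :
    ∑ q ∈ Om k n, (Polynomial.X : Polynomial ℝ) ^ (Ar k n q.2.2.2) =
      closeP n (capT k n) (Bv (kern hs hf hr hb k n hk hn) (capS k n)) n := by
  unfold Om closeP
  rw [sum_sigma]
  simp_rw [sum_sigma, sum_product]
  rw [sum_comm]
  apply sum_congr rfl
  intro m hm
  rw [mem_range] at hm
  apply sum_congr rfl
  intro g hg
  rw [mem_Icc] at hg
  rw [Bv_eq h2 hs hf hr hb ha k n hk hn (n - m) (by omega) g]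
  unfold arB capT
  rw [if_pos hg.1, if_pos ⟨hg.1, by omega⟩, sum_const, nsmul_eq_mul]
  simp

end Pool.Agent.KCC.KW

namespace Pool.Agent.KCC

open Finset

/-- Module KW. -/
theorem kw_thm (h2 : K2_Stmt) (hs : K5S_Stmt) (hf : K5F_Stmt) (hr : K5R_Stmt) (hb : K5B_Stmt)
    (hc : K5C_Stmt) (ha : AR_Stmt) : KW_Stmt := by
  intro k n hk hn
  exact ⟨KW.kern hs hf hr hb k n hk hn, KW.Bv (KW.kern hs hf hr hb k n hk hn) (capS k n),
    KW.kern_loc hs hf hr hb k n hk hn, KW.kern_crit hs hf hr hb k n hk hn,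
    KW.kern_level hs hf hr hb k n hk hn, KW.isCapS hc k n hk hn, KW.isCapT hc k n hk hn,
    KW.capS_one hc k n hk hn, KW.capT_one hc k n hk hn,
    fun m g hg => ⟨KW.capS_supp hc k n m g hg, KW.capT_supp hc k n m g hg⟩,
    KW.Bv_sol _ _, KW.count h2 hs hf hr hb ha k n hk hn⟩

end Pool.Agent.KCC
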