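import Pool.Agent.KCC.Stmts
import Pool.Agent.Lib_helper41.SapR.Diag

/-!
# Column-convex polygons (MP_f6626d_co): module FIN, assembly of the final theorem
-/

set_option autoImplicit false

namespace Pool.Agent.KCC

open Finset Filter Topology MeasureTheory Pool.Agent.Lib27 Pool.Agent.AreaLaw

namespace FIN

theorem area_nonneg (n : ℕ) (s : Fin (2 * n) → Fin 4) : 0 ≤ area n s := by
  unfold area
  positivity

theorem areaCdf_mono (n : ℕ) (F : Finset (Fin (2 * n) → Fin 4)) : Monotone (areaCdf n F) := by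
  classical
  intro x y hxy
  unfold areaCdf
  apply div_le_div_of_nonneg_right _ (by positivity)
  have : (F.filter (fun s => area n s * (F.card : ℝ) ≤ x * ∑ t ∈ F, area n t)).card ≤
      (F.filter (fun s => area n s * (F.card : ℝ) ≤ y * ∑ t ∈ F, area n t)).card := by
    apply card_le_card
    intro s hs
    rw [mem_filter] at hs ⊢
    refine ⟨hs.1, hs.2.trans ?_⟩
    exact mul_le_mul_of_nonneg_right hxy (sum_nonneg fun t _ => area_nonneg n t)
  exact_mod_cast this

theorem colConvex_mono {k l : ℕ} (h : k ≤ l) (n : ℕ) : ColConvex k n ⊆ ColConvex l n := by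
  classical
  intro s hs
  unfold ColConvex at hs ⊢
  rw [mem_filter] at hs ⊢
  exact ⟨hs.1, fun t => (hs.2 t).trans (by omega)⟩

end FIN

/-- FIN -/
theorem fin_thm : FIN_Stmt := by
  intro hG hCONV hSTC hGRO
  obtain ⟨ν, hν, hG1, hG2⟩ := hG
  have hGF : GF ν := ⟨hG1, hG2⟩
  obtain ⟨K, hK, hdiag⟩ := SapR.M41.diagonal ν (fun k n x => areaCdf n (ColConvex k n) x)
    (fun k n => FIN.areaCdf_mono n (ColConvex k n)) (fun x hx k hk => hCONV ν hν hGF k hk x hx)
  refine ⟨ν, hν, hSTC ν hGF, K, hK, hdiag, ?_⟩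
  intro ε hε
  obtain ⟨k, -, hk⟩ := hGRO ε hε
  filter_upwards [hk, hK.eventually_ge_atTop k] with n h1 h2
  refine h1.trans ?_
  exact_mod_cast card_le_card (FIN.colConvex_mono h2 n)

end Pool.Agent.KCC
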