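import Pool.Agent.KCC.Stmts

/-!
# Column-convex polygons (MP_f6626d_co): mean error of the area functional

Module NEAR. For arches `w` of half length `N` we estimate
`rho ^ N * sum of (|dbl w - 2 Ar w| - 4 L N)^+` by the recursion K2.
-/

set_option autoImplicit false

namespace Pool.Agent.KCC.NEAR

open Finset Filter Topology Pool.Agent.Lib27 Pool.Agent.KCC

/-! ### membership -/

lemma mem_Pc {k n : ℕ} {p : Wd × Wd} (h : p ∈ Pc k n) : FreePiece k p.1 p.2 := by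
  classical
  unfold Pc at h
  exact (mem_filter.1 h).2.1

lemma mem_allowed {k n : ℕ} {g : ℤ} {p : Wd × Wd} (h : p ∈ allowed k n g) :
    p ∈ Pc k n ∧ 1 ≤ g ∧ 1 ≤ g + jump p := by
  classical
  unfold allowed at h
  have := mem_filter.1 h
  exact ⟨this.1, this.2.1, this.2.2.1⟩

lemma mem_ArchSet {k : ℕ} {g : ℤ} {N : ℕ} {w : Wd} (h : w ∈ ArchSet k g N) :
    w.length = N ∧ Arch g w := by
  classical
  unfold ArchSet at h
  have := mem_filter.1 h
  exact ⟨(mem_words _ _).1 this.1, this.2.1⟩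

lemma mem_CapSet {k : ℕ} {g : ℤ} {N : ℕ} {w : Wd} (h : w ∈ CapSet k g N) :
    w.length = N ∧ Arch g w := by
  classical
  unfold CapSet at h
  have := mem_filter.1 h
  exact ⟨(mem_words _ _).1 this.1, this.2.1⟩

lemma ArchSet_zero (k : ℕ) (g : ℤ) : ArchSet k g 0 = ∅ := by
  rw [Finset.eq_empty_iff_forall_notMem]
  intro w hw
  obtain ⟨h1, h2⟩ := mem_ArchSet hw
  exact h2.1 (List.eq_nil_of_length_eq_zero h1)

lemma CapSet_far (hc : K5C_Stmt) {k : ℕ} {g : ℤ} {N : ℕ} (hg : 1 ≤ g) (hN : (N : ℤ) < g + 1) :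
    CapSet k g (2 * N) = ∅ := by
  rw [Finset.eq_empty_iff_forall_notMem]
  intro w hw
  obtain ⟨h1, h2⟩ := mem_CapSet hw
  have h3 := (hc.1 g w hg h2).2.1
  rw [h1] at h3
  push_cast at h3
  omega

/-! ### weighted sums -/

/-- weight of a piece -/
noncomputable def mu (rho : ℝ) (p : Wd × Wd) : ℝ := rho ^ hl p

/-- weighted sum over the arches of gap `x` and half length `N` -/
noncomputable def Gs (k : ℕ) (rho : ℝ) (f : ℕ → Wd → ℝ) (N : ℕ) (x : ℤ) : ℝ :=
  rho ^ N * ∑ w ∈ ArchSet k x (2 * N), f N w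

/-- weighted number of the caps of gap `x` and half length `N` -/
noncomputable def Cs (k : ℕ) (rho : ℝ) (N : ℕ) (x : ℤ) : ℝ :=
  rho ^ N * ((CapSet k x (2 * N)).card : ℝ)

/-- distance of the shoelace sum and twice the area functional -/
noncomputable def Dd (k n : ℕ) (w : Wd) : ℝ := |(dbl 0 w : ℝ) - 2 * (Ar k n w : ℝ)|

/-- cost of a long piece -/
noncomputable def vv (L m : ℕ) : ℝ := if L < m then 4 * (m : ℝ) ^ 2 else 0

lemma vv_nonneg (L m : ℕ) : 0 ≤ vv L m := by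
  unfold vv
  split_ifs <;> positivity

lemma mu_nonneg {rho : ℝ} (hrho : 0 < rho) (p : Wd × Wd) : 0 ≤ mu rho p := by
  unfold mu
  exact pow_nonneg hrho.le _

lemma len_hl (hs : K5S_Stmt) {k n : ℕ} {p : Wd × Wd} (hp : p ∈ Pc k n) :
    p.1.length + p.2.length = 2 * hl p ∧ 1 ≤ hl p ∧ hl p ≤ n := by
  obtain ⟨h1, h2, h3, _⟩ := hs k n p hp
  exact ⟨h1, h2, h3⟩

/-- one step of the recursion -/
lemma step (h2 : K2_Stmt) (hs : K5S_Stmt) {k n : ℕ} (hk : 1 ≤ k) {rho : ℝ} (hrho : 0 < rho)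
    {f : ℕ → Wd → ℝ} {u v b : ℕ → ℝ} {Zb : ℝ} (hv : ∀ m, 0 ≤ v m)
    (hcap : ∀ N x T, N ≤ n → 1 ≤ x → T ∈ CapSet k x (2 * N) → f N T ≤ u N)
    (hstep : ∀ N x p w, N ≤ n → 1 ≤ x → p ∈ allowed k n x → hl p < N →
      w ∈ ArchSet k (x + jump p) (2 * (N - hl p)) →
      f N (p.1 ++ w ++ p.2) ≤ f (N - hl p) w + v (hl p))
    {N : ℕ} (hN : N ≤ n) (hb0 : 0 ≤ b (N - 1)) (hZ0 : 0 ≤ Zb)
    (hb : ∀ j x, j < N → 1 ≤ x → Gs k rho f j x ≤ b (N - 1))
    (hZ : ∀ j x m, j < N → 1 ≤ x → v m * Gs k rho (fun _ _ => 1) j x ≤ v m * Zb)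
    {x : ℤ} (hx : 1 ≤ x) :
    Gs k rho f N x ≤ Cs k rho N x * u N +
      ∑ p ∈ Pc k n, mu rho p * (b (N - 1) + v (hl p) * Zb) := by
  have hk2 := h2 k n x (2 * N) hk hx (by omega) (fun w => f N w)
  unfold Gs
  rw [hk2, mul_add]
  apply add_le_add
  · unfold Cs
    rw [mul_assoc]
    apply mul_le_mul_of_nonneg_left _ (by positivity)
    have h3 := sum_le_card_nsmul (CapSet k x (2 * N)) (fun w => f N w) (u N)
      (fun T hT => hcap N x T hN hx hT)
    rw [nsmul_eq_mul] at h3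
    exact h3
  · rw [mul_sum]
    have hsub : allowed k n x ⊆ Pc k n := fun p hp => (mem_allowed hp).1
    refine (sum_le_sum (g := fun p => mu rho p * (b (N - 1) + v (hl p) * Zb)) ?_).trans
      (sum_le_sum_of_subset_of_nonneg hsub fun p _ _ =>
        mul_nonneg (mu_nonneg hrho p) (add_nonneg hb0 (mul_nonneg (hv _) hZ0)))
    intro p hp
    have hp1 := hsub hp
    have hx' := (mem_allowed hp).2.2
    obtain ⟨l1, l2, l3⟩ := len_hl hs hp1
    rw [l1]
    rcases lt_or_ge (hl p) N with hlN | hlN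
    · rw [show 2 * N - 2 * hl p = 2 * (N - hl p) by omega]
      have e1 := hb (N - hl p) (x + jump p) (by omega) hx'
      have e2 := hZ (N - hl p) (x + jump p) (hl p) (by omega) hx'
      have key : rho ^ N * ∑ w ∈ ArchSet k (x + jump p) (2 * (N - hl p)),
          f N (p.1 ++ w ++ p.2) ≤
          mu rho p * (Gs k rho f (N - hl p) (x + jump p) +
            v (hl p) * Gs k rho (fun _ _ => 1) (N - hl p) (x + jump p)) := by
        have e3 : mu rho p * (Gs k rho f (N - hl p) (x + jump p) +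
            v (hl p) * Gs k rho (fun _ _ => 1) (N - hl p) (x + jump p)) =
            rho ^ N * ∑ w ∈ ArchSet k (x + jump p) (2 * (N - hl p)),
              (f (N - hl p) w + v (hl p)) := by
          have e4 : rho ^ N = rho ^ hl p * rho ^ (N - hl p) := by
            rw [← pow_add]; congr 1; omega
          unfold mu Gs
          rw [e4]
          simp only [mul_sum, mul_add, sum_add_distrib, mul_one]
          congr 1
          · apply sum_congr rfl
            intro w _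
            ring
          · apply sum_congr rfl
            intro w _
            ring
        rw [e3]
        apply mul_le_mul_of_nonneg_left _ (by positivity)
        apply sum_le_sum
        intro w hw
        exact hstep N x p w hN hx hp hlN hw
      refine key.trans ?_
      apply mul_le_mul_of_nonneg_left _ (mu_nonneg hrho p)
      exact add_le_add e1 e2
    · rw [show 2 * N - 2 * hl p = 0 by omega, ArchSet_zero, sum_empty, mul_zero]
      exact mul_nonneg (mu_nonneg hrho p) (add_nonneg hb0 (mul_nonneg (hv _) hZ0))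

/-- the recursion solved -/
lemma solve (h2 : K2_Stmt) (hs : K5S_Stmt) {k n : ℕ} (hk : 1 ≤ k) {rho : ℝ} (hrho : 0 < rho)
    {f : ℕ → Wd → ℝ} {u v cN : ℕ → ℝ} {Zb A : ℝ} (hv : ∀ m, 0 ≤ v m)
    (hu : ∀ m, 0 ≤ u m)
    (hcN : ∀ N x, N ≤ n → 1 ≤ x → Cs k rho N x ≤ cN N) (hcN0 : ∀ N, 0 ≤ cN N)
    (hmass : ∑ p ∈ Pc k n, mu rho p = 1) (hA : ∑ p ∈ Pc k n, mu rho p * v (hl p) ≤ A)
    (hcap : ∀ N x T, N ≤ n → 1 ≤ x → T ∈ CapSet k x (2 * N) → f N T ≤ u N)
    (hstep : ∀ N x p w, N ≤ n → 1 ≤ x → p ∈ allowed k n x → hl p < N →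
      w ∈ ArchSet k (x + jump p) (2 * (N - hl p)) →
      f N (p.1 ++ w ++ p.2) ≤ f (N - hl p) w + v (hl p))
    (hZ0 : 0 ≤ Zb)
    (hZ : ∀ j x m, j ≤ n → 1 ≤ x → v m * Gs k rho (fun _ _ => 1) j x ≤ v m * Zb)
    (N : ℕ) (hN : N ≤ n) : ∀ j x, j ≤ N → 1 ≤ x →
      Gs k rho f j x ≤ ∑ j ∈ range (N + 1), cN j * u j + N * (A * Zb) := by
  have hA0 : 0 ≤ A := le_trans (sum_nonneg fun p _ => mul_nonneg (mu_nonneg hrho p) (hv _)) hA
  induction N with
  | zero =>
    intro j x hj hx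
    have : j = 0 := by omega
    subst this
    unfold Gs
    rw [mul_zero, ArchSet_zero, sum_empty, mul_zero]
    have h1 : 0 ≤ ∑ j ∈ range (0 + 1), cN j * u j :=
      sum_nonneg fun j _ => mul_nonneg (hcN0 j) (hu j)
    simpa using h1
  | succ N ih =>
    intro j x hj hx
    have ih := ih (by omega)
    set B : ℝ := ∑ j ∈ range (N + 1), cN j * u j + N * (A * Zb) with hB
    have hB0 : 0 ≤ B := by
      have h1 : 0 ≤ ∑ j ∈ range (N + 1), cN j * u j :=
        sum_nonneg fun j _ => mul_nonneg (hcN0 j) (hu j)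
      have h2 : (0 : ℝ) ≤ N * (A * Zb) := by positivity
      linarith
    have hfin : B + cN (N + 1) * u (N + 1) + A * Zb =
        ∑ j ∈ range (N + 1 + 1), cN j * u j + ((N + 1 : ℕ) : ℝ) * (A * Zb) := by
      rw [sum_range_succ _ (N + 1), hB]
      push_cast
      ring
    rw [← hfin]
    have hc0 : 0 ≤ cN (N + 1) * u (N + 1) := mul_nonneg (hcN0 _) (hu _)
    have hAZ : 0 ≤ A * Zb := mul_nonneg hA0 hZ0
    rcases Nat.lt_or_ge j (N + 1) with hk' | hk'
    · have := ih j x (by omega) hx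
      linarith
    · have : j = N + 1 := by omega
      subst this
      have hst := step h2 hs hk hrho (b := fun _ => B) (u := u) (Zb := Zb) hv hcap hstep
        (N := N + 1) hN hB0 hZ0 (fun j x hj hx => ih j x (by omega) hx)
        (fun j x m hj hx => hZ j x m (by omega) hx) hx
      refine hst.trans ?_
      have e1 : ∑ p ∈ Pc k n, mu rho p * (B + v (hl p) * Zb) =
          (∑ p ∈ Pc k n, mu rho p) * B + (∑ p ∈ Pc k n, mu rho p * v (hl p)) * Zb := by
        rw [sum_mul, sum_mul, ← sum_add_distrib]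
        apply sum_congr rfl
        intro p _
        ring
      rw [e1, hmass, one_mul]
      have e2 : Cs k rho (N + 1) x * u (N + 1) ≤ cN (N + 1) * u (N + 1) :=
        mul_le_mul_of_nonneg_right (hcN _ _ hN hx) (hu _)
      have e3 : (∑ p ∈ Pc k n, mu rho p * v (hl p)) * Zb ≤ A * Zb :=
        mul_le_mul_of_nonneg_right hA hZ0
      linarith

/-- positive part of the error -/
noncomputable def fE (k n L N : ℕ) (w : Wd) : ℝ := max 0 (Dd k n w - 4 * L * N)

lemma fE_nonneg (k n L N : ℕ) (w : Wd) : 0 ≤ fE k n L N w := le_max_left _ _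

lemma Dd_le (k n L N : ℕ) (w : Wd) : Dd k n w ≤ 4 * L * N + fE k n L N w := by
  have := le_max_right 0 (Dd k n w - 4 * L * N)
  unfold fE
  linarith

lemma sq_le_vv (L m : ℕ) : 4 * (m : ℝ) ^ 2 ≤ 4 * L * m + vv L m := by
  unfold vv
  split_ifs with h
  · have : (0 : ℝ) ≤ 4 * L * m := by positivity
    linarith
  · push Not at h
    have h1 : (m : ℝ) ≤ L := by exact_mod_cast h
    have h2 : (m : ℝ) * m ≤ L * m := mul_le_mul_of_nonneg_right h1 (by positivity)
    nlinarith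

lemma cap_le (hc : K5C_Stmt) {k : ℕ} {x : ℤ} {N : ℕ} {T : Wd} (hx : 1 ≤ x)
    (hT : T ∈ CapSet k x (2 * N)) : |(dbl 0 T : ℝ)| ≤ 4 * (N : ℝ) ^ 2 := by
  obtain ⟨h1, h2⟩ := mem_CapSet hT
  have h3 := (hc.1 x T hx h2).2.2.1
  rw [h1] at h3
  have h4 : ((|dbl 0 T| : ℤ) : ℝ) ≤ (((((2 * N : ℕ) : ℤ)) ^ 2 : ℤ) : ℝ) := by exact_mod_cast h3
  push_cast at h4
  linarith

lemma fE_cap (hc : K5C_Stmt) (ha : AR_Stmt) {k n L N : ℕ} {x : ℤ} {T : Wd} (hk : 1 ≤ k)
    (hN : N ≤ n) (hx : 1 ≤ x) (hT : T ∈ CapSet k x (2 * N)) : fE k n L N T ≤ vv L N := by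
  have h1 : Dd k n T = |(dbl 0 T : ℝ)| := by
    unfold Dd
    rw [(ha k n hk).1 x (2 * N) T hx (by omega) hT]
    simp
  have h2 := cap_le hc hx hT
  have h3 := sq_le_vv L N
  unfold fE
  rw [h1]
  apply max_le (vv_nonneg _ _)
  linarith

lemma Dd_step (h4 : K4_Stmt) (hs : K5S_Stmt) (ha : AR_Stmt) {k n N : ℕ} {x : ℤ} {p : Wd × Wd}
    {w : Wd} (hk : 1 ≤ k) (hNn : N ≤ n) (hx : 1 ≤ x) (hp : p ∈ allowed k n x)
    (hN : hl p < N) (hw : w ∈ ArchSet k (x + jump p) (2 * (N - hl p))) :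
    Dd k n (p.1 ++ w ++ p.2) ≤ Dd k n w + 4 * (hl p : ℝ) ^ 2 := by
  obtain ⟨hp1, hp2, hp3⟩ := mem_allowed hp
  obtain ⟨l1, l2, l3, l4, l5, l6, l7, l8, l9⟩ := hs k n p hp1
  obtain ⟨hw1, hw2⟩ := mem_ArchSet hw
  have e1 := (ha k n hk).2 x (2 * N) p w hx (by omega) hp (by
    rw [l1, show 2 * N - 2 * hl p = 2 * (N - hl p) by omega]; exact hw)
  have e2 := h4.1 k x p w (mem_Pc hp1) hw2.2.1
  have hpos : 0 ≤ ht p * (2 * x + jump p) := mul_nonneg (by omega) (by omega)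
  have hto : ((ht p * (2 * x + jump p)).toNat : ℤ) = ht p * (2 * x + jump p) :=
    Int.toNat_of_nonneg hpos
  have e3 : (dbl 0 (p.1 ++ w ++ p.2) : ℤ) - 2 * (Ar k n (p.1 ++ w ++ p.2) : ℤ) =
      (dbl 0 w - 2 * (Ar k n w : ℤ)) + off p := by
    rw [e1, e2]
    push_cast
    rw [hto]
    ring
  have e4 : (dbl 0 (p.1 ++ w ++ p.2) : ℝ) - 2 * (Ar k n (p.1 ++ w ++ p.2) : ℝ) =
      ((dbl 0 w : ℝ) - 2 * (Ar k n w : ℝ)) + (off p : ℝ) := by exact_mod_cast e3
  have h5 : ((|off p| : ℤ) : ℝ) ≤ (((2 * (hl p : ℤ)) ^ 2 : ℤ) : ℝ) := by exact_mod_cast l8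
  push_cast at h5
  unfold Dd
  rw [e4]
  refine (abs_add_le _ _).trans ?_
  linarith

lemma fE_step (h4 : K4_Stmt) (hs : K5S_Stmt) (ha : AR_Stmt) {k n L N : ℕ} {x : ℤ}
    {p : Wd × Wd} {w : Wd} (hk : 1 ≤ k) (hNn : N ≤ n) (hx : 1 ≤ x) (hp : p ∈ allowed k n x)
    (hN : hl p < N) (hw : w ∈ ArchSet k (x + jump p) (2 * (N - hl p))) :
    fE k n L N (p.1 ++ w ++ p.2) ≤ fE k n L (N - hl p) w + vv L (hl p) := by
  have h1 := Dd_step h4 hs ha hk hNn hx hp hN hw
  have h2 := sq_le_vv L (hl p)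
  have h3 := Dd_le k n L (N - hl p) w
  have h4 : ((N - hl p : ℕ) : ℝ) = N - hl p := by
    rw [Nat.cast_sub hN.le]
  rw [h4] at h3
  have h5 := fE_nonneg k n L (N - hl p) w
  have h6 := vv_nonneg L (hl p)
  unfold fE at h5 ⊢
  unfold fE at h3
  apply max_le (by linarith)
  linarith

lemma geo {q : ℝ} (h0 : 0 ≤ q) (h1 : q < 1) (n : ℕ) : ∑ k ∈ range n, q ^ k ≤ 1 / (1 - q) := by
  have h2 : (0 : ℝ) < 1 - q := by linarith
  rw [geom_sum_eq h1.ne, ← neg_div_neg_eq]
  apply div_le_div₀ zero_le_one _ h2 (by linarith)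
  have := pow_nonneg h0 n
  linarith

/-- the estimate for one left cap and all arches -/
lemma inner (h4 : K4_Stmt) (hc : K5C_Stmt) (hpos : POS_Stmt) {k n m L : ℕ} {rho e Zb : ℝ}
    {x : ℤ} {T : Wd} (hrho : 0 < rho) (hx : 1 ≤ x) (hm : m ≤ n)
    (hT : T ∈ CapSet k x (2 * m + 2))
    (hE : Gs k rho (fE k n L) (n - m) x ≤ e)
    (hZ : Gs k rho (fun _ _ => 1) (n - m) x ≤ Zb) :
    ∑ w ∈ ArchSet k x (2 * (n - m)),
      |((|dbl 0 (glue w T)| : ℤ) : ℝ) / 2 - (Ar k n w : ℝ)| ≤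
    16 * L * n * ((ArchSet k x (2 * (n - m))).card : ℝ) +
      (rho ^ n)⁻¹ * (rho ^ m * (e + 4 * vv L m * Zb)) := by
  obtain ⟨hT1, hT2⟩ := mem_CapSet hT
  have hcast : ((n - m : ℕ) : ℝ) = n - m := by rw [Nat.cast_sub hm]
  have hxm : x ≤ m := by
    have h3 := (hc.1 x T hx hT2).2.1
    rw [hT1] at h3
    push_cast at h3
    omega
  have hxm' : (x : ℝ) ≤ m := by exact_mod_cast hxm
  have hm1 : (1 : ℝ) ≤ m := by
    have : (1 : ℤ) ≤ m := hx.trans hxm
    exact_mod_cast this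
  have hx0 : (0 : ℝ) < x := by exact_mod_cast hx
  have hTd : |(dbl 0 T : ℝ)| ≤ 4 * ((m : ℝ) + 1) ^ 2 := by
    have := cap_le hc (N := m + 1) hx (by rw [show 2 * (m + 1) = 2 * m + 2 by ring]; exact hT)
    push_cast at this
    exact this
  have hpt : ∀ w ∈ ArchSet k x (2 * (n - m)),
      |((|dbl 0 (glue w T)| : ℤ) : ℝ) / 2 - (Ar k n w : ℝ)| ≤
      16 * L * n + (fE k n L (n - m) w + 4 * vv L m * 1) := by
    intro w hw
    obtain ⟨hw1, hw2⟩ := mem_ArchSet hw
    have e1 := h4.2 x w T hx hw2 hT2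
    have e2 := hpos x w T hx hw2 hT2
    rw [abs_of_pos e2, e1]
    have e3 : ((dbl 0 w + dbl 0 T - 4 * x : ℤ) : ℝ) / 2 - (Ar k n w : ℝ) =
        (((dbl 0 w : ℝ) - 2 * (Ar k n w : ℝ)) + (dbl 0 T : ℝ)) / 2 - 2 * x := by
      push_cast
      ring
    rw [e3]
    have h5 : |(((dbl 0 w : ℝ) - 2 * (Ar k n w : ℝ)) + (dbl 0 T : ℝ)) / 2 - 2 * x| ≤
        (Dd k n w + |(dbl 0 T : ℝ)|) / 2 + 2 * x := by
      have e4 : |(((dbl 0 w : ℝ) - 2 * (Ar k n w : ℝ)) + (dbl 0 T : ℝ))| ≤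
          Dd k n w + |(dbl 0 T : ℝ)| := abs_add_le _ _
      have e5 := abs_sub ((((dbl 0 w : ℝ) - 2 * (Ar k n w : ℝ)) + (dbl 0 T : ℝ)) / 2)
        (2 * (x : ℝ))
      rw [abs_div, abs_of_pos (show (0 : ℝ) < 2 by norm_num),
        abs_of_pos (show (0 : ℝ) < 2 * x by linarith)] at e5
      linarith
    have h6 := Dd_le k n L (n - m) w
    rw [hcast] at h6
    have h7 := sq_le_vv L m
    have h8 := fE_nonneg k n L (n - m) w
    have h9 : (0 : ℝ) ≤ L * m := by positivity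
    have h10 : (0 : ℝ) ≤ L * ((n : ℝ) - m) := by
      rw [← hcast]
      positivity
    refine h5.trans ?_
    nlinarith
  refine (sum_le_sum hpt).trans ?_
  rw [sum_add_distrib, sum_const, nsmul_eq_mul, sum_add_distrib, ← mul_sum]
  have hE' : ∑ w ∈ ArchSet k x (2 * (n - m)), fE k n L (n - m) w ≤
      (rho ^ (n - m))⁻¹ * e := by
    unfold Gs at hE
    rw [inv_mul_eq_div, le_div_iff₀ (by positivity), mul_comm]
    exact hE
  have hZ' : ∑ w ∈ ArchSet k x (2 * (n - m)), (1 : ℝ) ≤ (rho ^ (n - m))⁻¹ * Zb := by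
    unfold Gs at hZ
    rw [inv_mul_eq_div, le_div_iff₀ (by positivity), mul_comm]
    exact hZ
  have hinv : (rho ^ (n - m))⁻¹ = (rho ^ n)⁻¹ * rho ^ m := by
    have : rho ^ n = rho ^ (n - m) * rho ^ m := by rw [← pow_add]; congr 1; omega
    rw [this]
    field_simp
  have hfin : (rho ^ n)⁻¹ * (rho ^ m * (e + 4 * vv L m * Zb)) =
      (rho ^ (n - m))⁻¹ * e + 4 * vv L m * ((rho ^ (n - m))⁻¹ * Zb) := by
    rw [hinv]; ring
  rw [hfin]
  apply add_le_add (le_of_eq (by ring))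
  apply add_le_add hE'
  exact mul_le_mul_of_nonneg_left hZ' (mul_nonneg (by norm_num) (vv_nonneg _ _))

/-- the sum over the left caps -/
lemma caps (hc : K5C_Stmt) {k n L : ℕ} {C θ rho e Zb : ℝ} (he : 0 ≤ e) (hZb : 0 ≤ Zb)
    (ht : ∀ m : ℕ, m ≤ n → ∑ g ∈ Icc (1 : ℤ) m, ((CapSet k g (2 * m + 2)).card : ℝ) * rho ^ m ≤
      C * θ ^ m) :
    ∑ x ∈ Icc (1 : ℤ) (n : ℤ), ∑ m ∈ range (n + 1), ∑ _T ∈ CapSet k x (2 * m + 2),
        rho ^ m * (e + 4 * vv L m * Zb) ≤
      ∑ m ∈ range (n + 1), C * θ ^ m * (e + 4 * vv L m * Zb) := by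
  rw [sum_comm]
  apply sum_le_sum
  intro m hm
  rw [mem_range] at hm
  have hw : 0 ≤ e + 4 * vv L m * Zb :=
    add_nonneg he (mul_nonneg (mul_nonneg (by norm_num) (vv_nonneg _ _)) hZb)
  have h1 : ∀ x ∈ Icc (1 : ℤ) (n : ℤ), ∑ _T ∈ CapSet k x (2 * m + 2),
      rho ^ m * (e + 4 * vv L m * Zb) =
      (((CapSet k x (2 * m + 2)).card : ℝ) * rho ^ m) * (e + 4 * vv L m * Zb) := by
    intro x _
    rw [sum_const, nsmul_eq_mul]
    ring
  rw [sum_congr rfl h1, ← sum_mul]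
  apply mul_le_mul_of_nonneg_right _ hw
  refine le_trans (le_of_eq ?_) (ht m (by omega))
  symm
  apply sum_subset
  · intro x hx
    rw [mem_Icc] at hx ⊢
    omega
  · intro x hx hx'
    rw [mem_Icc] at hx hx'
    rw [show 2 * m + 2 = 2 * (m + 1) by ring, CapSet_far hc hx.1 (by push_cast; omega),
      card_empty, Nat.cast_zero, zero_mul]

lemma exists_bound {q : ℝ} (h0 : 0 ≤ q) (h1 : q < 1) :
    ∃ B : ℝ, 0 < B ∧ ∀ k : ℕ, 4 * (k : ℝ) ^ 2 * q ^ k ≤ B := by
  have ht : Tendsto (fun k : ℕ => (k : ℝ) ^ 2 * q ^ k) atTop (𝓝 0) :=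
    tendsto_pow_const_mul_const_pow_of_abs_lt_one 2 (by rw [abs_of_nonneg h0]; exact h1)
  obtain ⟨B, hB⟩ := ht.bddAbove_range
  refine ⟨4 * max B 1, by positivity, fun k => ?_⟩
  have h2 : (k : ℝ) ^ 2 * q ^ k ≤ B := hB ⟨k, rfl⟩
  have h3 := le_max_left B 1
  linarith

/-- mean error of the area functional -/
theorem near (h2 : K2_Stmt) (h4 : K4_Stmt) (hs : K5S_Stmt) (hc : K5C_Stmt) (har : AR_Stmt)
    (hpos : POS_Stmt) : NEAR_Stmt := by
  classical
  intro C θ hC hθ0 hθ1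
  set q : ℝ := θ ^ (((3 : ℕ) : ℝ)⁻¹) with hq
  have hq3 : q ^ 3 = θ := Real.rpow_inv_natCast_pow hθ0.le (by norm_num)
  have hq0 : 0 < q := Real.rpow_pos_of_pos hθ0 _
  have hq1 : q < 1 := Real.rpow_lt_one hθ0.le hθ1 (by positivity)
  obtain ⟨B, hB0, hB⟩ := exists_bound hq0.le hq1
  have hlq : 0 < -Real.log q := by
    have := Real.log_neg hq0 hq1
    linarith
  set K : ℝ := 6 / (-Real.log q) with hK
  have hK0 : 0 < K := by positivity
  have h1θ : 0 < 1 - θ := by linarith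
  have h1q : 0 < 1 - q := by linarith
  set C' : ℝ := C / θ with hC'
  have hC'0 : 0 < C' := by positivity
  have hCC' : C ≤ C' := by
    rw [hC', le_div_iff₀ hθ0]
    nlinarith
  set Zb : ℝ := C' * (1 / (1 - θ)) with hZb
  have hZb0 : 0 < Zb := by positivity
  set a0 : ℝ := C' * (B * (1 / (1 - q))) with ha0
  have ha00 : 0 < a0 := by positivity
  refine ⟨16 * (K + 2) + a0 * Zb * (5 + Zb), by positivity, ?_⟩
  intro k n rho hk hn hrho hrho1 hmass ht
  obtain ⟨ht1, ht2, -⟩ := ht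
  set L : ℕ := ⌈K * Real.log n⌉₊ with hL
  set a : ℝ := a0 * q ^ L with ha
  have ha1 : 0 < a := by positivity
  have hn0 : (0 : ℝ) < n := by positivity
  have hn2 : (2 : ℝ) ≤ n := by exact_mod_cast hn
  have hlog : 1 ≤ 2 * Real.log n := by
    have h1 : Real.log 2 ≤ Real.log n := Real.log_le_log (by norm_num) hn2
    have h2 := Real.log_two_gt_d9
    norm_num at h2 ⊢
    linarith
  -- caps
  have hcap : ∀ N x, N ≤ n → 1 ≤ x → Cs k rho N x ≤ C' * θ ^ N := by
    intro N x hN hx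
    rcases lt_or_ge (N : ℤ) (x + 1) with hNx | hNx
    · unfold Cs
      rw [CapSet_far hc hx hNx, card_empty, Nat.cast_zero, mul_zero]
      positivity
    · obtain ⟨m, rfl⟩ : ∃ m, N = m + 1 := ⟨N - 1, by omega⟩
      push_cast at hNx
      have h3 : ((CapSet k x (2 * m + 2)).card : ℝ) * rho ^ m ≤ C * θ ^ m := by
        refine le_trans ?_ (ht2 m (by omega))
        exact single_le_sum (f := fun g => ((CapSet k g (2 * m + 2)).card : ℝ) * rho ^ m)
          (fun g _ => by positivity) (mem_Icc.2 ⟨hx, by omega⟩)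
      have h4 : C' * θ ^ (m + 1) = C * θ ^ m := by
        rw [hC']
        field_simp
        ring
      rw [h4]
      refine le_trans ?_ h3
      unfold Cs
      rw [show 2 * (m + 1) = 2 * m + 2 by ring, mul_comm]
      apply mul_le_mul_of_nonneg_left _ (by positivity)
      exact pow_le_pow_of_le_one hrho.le hrho1 (Nat.le_succ m)
  -- long pieces
  have hvv : ∀ m, θ ^ m * vv L m ≤ (B * q ^ L) * q ^ m := by
    intro m
    unfold vv
    split_ifs with hm
    · have e1 : θ ^ m = q ^ m * q ^ m * q ^ m := by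
        rw [← hq3, ← pow_mul, ← pow_add, ← pow_add]; congr 1; ring
      have e2 : q ^ m ≤ q ^ L := pow_le_pow_of_le_one hq0.le hq1.le hm.le
      have e3 : 4 * (m : ℝ) ^ 2 * q ^ m * q ^ m ≤ B * q ^ L :=
        mul_le_mul (hB m) e2 (by positivity) hB0.le
      have e4 : θ ^ m * (4 * (m : ℝ) ^ 2) =
          (4 * (m : ℝ) ^ 2 * q ^ m * q ^ m) * q ^ m := by rw [e1]; ring
      rw [e4]
      exact mul_le_mul_of_nonneg_right e3 (by positivity)
    · rw [mul_zero]; positivity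
  have hvsum : ∀ (D : ℝ) (N : ℕ), 0 ≤ D → D ≤ C' → ∑ m ∈ range N, D * θ ^ m * vv L m ≤ a := by
    intro D N hD0 hD
    have h3 : ∑ m ∈ range N, D * θ ^ m * vv L m ≤
        ∑ m ∈ range N, (C' * (B * q ^ L)) * q ^ m := by
      apply sum_le_sum
      intro m _
      have e1 := mul_le_mul_of_nonneg_left (hvv m) hD0
      have e2 : D * (B * q ^ L * q ^ m) ≤ C' * (B * q ^ L * q ^ m) :=
        mul_le_mul_of_nonneg_right hD (by positivity)
      linarith
    refine h3.trans ?_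
    rw [← mul_sum]
    have e1 := mul_le_mul_of_nonneg_left (geo hq0.le hq1 N)
      (show 0 ≤ C' * (B * q ^ L) by positivity)
    refine e1.trans (le_of_eq ?_)
    rw [ha, ha0]; ring
  have hA : ∑ p ∈ Pc k n, mu rho p * vv L (hl p) ≤ a := by
    have hmaps : ∀ p ∈ Pc k n, hl p ∈ range (n + 1) := by
      intro p hp
      have := len_hl hs hp
      rw [mem_range]; omega
    rw [← sum_fiberwise_of_maps_to hmaps]
    refine le_trans (sum_le_sum fun m _ => ?_) (hvsum C (n + 1) hC.le hCC')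
    have e1 : ∑ p ∈ (Pc k n).filter (fun p => hl p = m), mu rho p * vv L (hl p) =
        (((Pc k n).filter (fun p => hl p = m)).card : ℝ) * rho ^ m * vv L m := by
      rw [mul_assoc, ← nsmul_eq_mul, ← sum_const]
      apply sum_congr rfl
      intro p hp
      rw [mem_filter] at hp
      unfold mu
      rw [hp.2]
    rw [e1]
    exact mul_le_mul_of_nonneg_right (ht1 m) (vv_nonneg _ _)
  have hmass' : ∑ p ∈ Pc k n, mu rho p = 1 := hmass
  -- total weight of the arches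
  have hZ : ∀ j x, j ≤ n → 1 ≤ x → Gs k rho (fun _ _ => 1) j x ≤ Zb := by
    intro j x hj hx
    have := solve h2 hs hk hrho (f := fun _ _ => 1) (u := fun _ => 1) (v := fun _ => 0)
      (cN := fun N => C' * θ ^ N) (Zb := 0) (A := 0) (fun _ => le_rfl) (fun _ => zero_le_one)
      hcap (fun N => by positivity) hmass' (by simp) (fun _ _ _ _ _ _ => le_rfl)
      (fun _ _ _ _ _ _ _ _ _ => by simp) le_rfl (fun _ _ _ _ _ => by simp) j hj j x le_rfl hx
    refine this.trans ?_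
    simp only [mul_one, mul_zero, add_zero]
    rw [← mul_sum]
    exact mul_le_mul_of_nonneg_left (geo hθ0.le hθ1 _) hC'0.le
  -- error of the arches
  have hE : ∀ j x, j ≤ n → 1 ≤ x → Gs k rho (fE k n L) j x ≤ a + n * (a * Zb) := by
    intro j x hj hx
    have := solve h2 hs hk hrho (f := fE k n L) (u := vv L) (v := vv L)
      (cN := fun N => C' * θ ^ N) (Zb := Zb) (A := a) (vv_nonneg L) (vv_nonneg L)
      hcap (fun N => by positivity) hmass' hA
      (fun N x T hN hx hT => fE_cap hc har hk hN hx hT)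
      (fun N x p w hNn hx hp hN hw => fE_step h4 hs har hk hNn hx hp hN hw) hZb0.le
      (fun j x m hj hx => mul_le_mul_of_nonneg_left (hZ j x hj hx) (vv_nonneg _ _)) n le_rfl
      j x hj hx
    refine this.trans ?_
    exact add_le_add (hvsum C' _ hC'0.le le_rfl) le_rfl
  set e : ℝ := a + n * (a * Zb) with he
  have he0 : 0 ≤ e := by positivity
  -- the polygons
  have hsumOm : ∀ F : (_ : ℤ) × (_ : ℕ) × (Wd × Wd) → ℝ, ∑ q ∈ Om k n, F q =
      ∑ x ∈ Icc (1 : ℤ) n, ∑ m ∈ range (n + 1), ∑ T ∈ CapSet k x (2 * m + 2),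
        ∑ w ∈ ArchSet k x (2 * (n - m)), F ⟨x, m, T, w⟩ := by
    intro F
    unfold Om
    rw [sum_sigma]
    apply sum_congr rfl
    intro x _
    rw [sum_sigma]
    apply sum_congr rfl
    intro M _
    rw [sum_product]
  have hcard : ((Om k n).card : ℝ) = ∑ x ∈ Icc (1 : ℤ) n, ∑ m ∈ range (n + 1),
      ∑ _T ∈ CapSet k x (2 * m + 2), ((ArchSet k x (2 * (n - m))).card : ℝ) := by
    rw [card_eq_sum_ones]
    push_cast
    rw [hsumOm]
    apply sum_congr rfl
    intro x _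
    apply sum_congr rfl
    intro m _
    apply sum_congr rfl
    intro T _
    rw [sum_const, nsmul_eq_mul, mul_one]
  have hmain : ∑ q ∈ Om k n, |((|dq q| : ℤ) : ℝ) / 2 - (Ar k n q.2.2.2 : ℝ)| ≤
      16 * L * n * ((Om k n).card : ℝ) + (rho ^ n)⁻¹ *
        ∑ m ∈ range (n + 1), C * θ ^ m * (e + 4 * vv L m * Zb) := by
    have hc3 := caps hc (L := L) he0 hZb0.le ht2
    refine le_trans ?_ (add_le_add le_rfl
      (mul_le_mul_of_nonneg_left hc3 (by positivity : (0 : ℝ) ≤ (rho ^ n)⁻¹)))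
    rw [hsumOm, hcard]
    simp only [mul_sum, ← sum_add_distrib]
    apply sum_le_sum
    intro x hx
    apply sum_le_sum
    intro m hm
    apply sum_le_sum
    intro T hT
    rw [mem_Icc] at hx
    rw [mem_range] at hm
    exact inner h4 hc hpos (L := L) hrho hx.1 (by omega) hT
      (hE _ _ (by omega) hx.1) (hZ _ _ (by omega) hx.1)
  refine hmain.trans ?_
  have hsum : ∑ m ∈ range (n + 1), C * θ ^ m * (e + 4 * vv L m * Zb) ≤ Zb * e + 4 * a * Zb := by
    have e1 : ∑ m ∈ range (n + 1), C * θ ^ m * (e + 4 * vv L m * Zb) =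
        (C * ∑ m ∈ range (n + 1), θ ^ m) * e +
          4 * (∑ m ∈ range (n + 1), C * θ ^ m * vv L m) * Zb := by
      rw [mul_sum, sum_mul, mul_sum, sum_mul, ← sum_add_distrib]
      apply sum_congr rfl
      intro k _
      ring
    rw [e1]
    apply add_le_add
    · apply mul_le_mul_of_nonneg_right _ he0
      refine (mul_le_mul_of_nonneg_left (geo hθ0.le hθ1 _) hC.le).trans ?_
      exact mul_le_mul_of_nonneg_right hCC' (by positivity)
    · apply mul_le_mul_of_nonneg_right _ hZb0.le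
      have := hvsum C (n + 1) hC.le hCC'
      linarith
  have hqL : q ^ L ≤ ((n : ℝ) ^ 6)⁻¹ := by
    have e1 : q ^ L = Real.exp (L * Real.log q) := by
      rw [Real.exp_nat_mul, Real.exp_log hq0]
    have e2 : ((n : ℝ) ^ 6)⁻¹ = Real.exp (-(6 * Real.log n)) := by
      rw [Real.exp_neg, show (6 : ℝ) * Real.log n = ((6 : ℕ) : ℝ) * Real.log n by norm_num,
        Real.exp_nat_mul, Real.exp_log hn0]
    rw [e1, e2]
    apply Real.exp_le_exp.2
    have e3 : K * Real.log n ≤ L := Nat.le_ceil _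
    have e4 := mul_le_mul_of_nonneg_right e3 hlq.le
    have hKq : K * (-Real.log q) = 6 := div_mul_cancel₀ _ hlq.ne'
    have e5 : K * Real.log n * (-Real.log q) = 6 * Real.log n := by
      rw [← hKq]; ring
    rw [e5] at e4
    linarith
  have hL2 : 16 * (L : ℝ) ≤ 16 * (K + 2) * Real.log n := by
    have e1 : (L : ℝ) < K * Real.log n + 1 := Nat.ceil_lt_add_one (by positivity)
    linarith
  have hrn : 0 < rho ^ n := by positivity
  have hfirst : 16 * (L : ℝ) * n * ((Om k n).card : ℝ) ≤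
      (16 * (K + 2) + a0 * Zb * (5 + Zb)) * n * Real.log n * ((Om k n).card : ℝ) := by
    apply mul_le_mul_of_nonneg_right _ (Nat.cast_nonneg _)
    have e1 := mul_le_mul_of_nonneg_right hL2 hn0.le
    have e2 : 0 ≤ a0 * Zb * (5 + Zb) * n * Real.log n := by
      have : 0 ≤ Real.log n := by linarith
      positivity
    linarith
  have hsecond : (rho ^ n)⁻¹ * ∑ m ∈ range (n + 1), C * θ ^ m * (e + 4 * vv L m * Zb) ≤
      (16 * (K + 2) + a0 * Zb * (5 + Zb)) / ((n : ℝ) ^ 5 * rho ^ n) := by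
    have e1 : Zb * e + 4 * a * Zb ≤ a0 * Zb * (5 + Zb) / (n : ℝ) ^ 5 := by
      have e2 : Zb * e + 4 * a * Zb = a0 * Zb * (5 + n * Zb) * q ^ L := by
        rw [he, ha]; ring
      rw [e2]
      have e3 : a0 * Zb * (5 + n * Zb) ≤ a0 * Zb * (5 + Zb) * n := by
        have : 5 + n * Zb ≤ (5 + Zb) * n := by nlinarith
        have h2 := mul_le_mul_of_nonneg_left this (show 0 ≤ a0 * Zb by positivity)
        linarith
      have e4 : a0 * Zb * (5 + n * Zb) * q ^ L ≤ a0 * Zb * (5 + Zb) * n * ((n : ℝ) ^ 6)⁻¹ :=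
        mul_le_mul e3 hqL (by positivity) (by positivity)
      refine e4.trans (le_of_eq ?_)
      field_simp
    have e5 := hsum.trans e1
    have e6 := mul_le_mul_of_nonneg_left e5 (inv_nonneg.2 hrn.le)
    refine e6.trans ?_
    have e7 : (rho ^ n)⁻¹ * (a0 * Zb * (5 + Zb) / (n : ℝ) ^ 5) =
        a0 * Zb * (5 + Zb) / ((n : ℝ) ^ 5 * rho ^ n) := by field_simp
    rw [e7]
    apply div_le_div_of_nonneg_right _ (by positivity)
    linarith
  exact add_le_add hfirst hsecond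

end Pool.Agent.KCC.NEAR

namespace Pool.Agent.KCC

/-- NEAR : mean error of the area functional. -/
theorem near_thm (h2 : K2_Stmt) (h4 : K4_Stmt) (hs : K5S_Stmt) (hc : K5C_Stmt) (ha : AR_Stmt)
    (hp : POS_Stmt) : NEAR_Stmt := NEAR.near h2 h4 hs hc ha hp

end Pool.Agent.KCC
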