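import Pool.Agent.KCC.Stmts

/-!
# Column-convex polygons (MP_f6626d_co): recursion of the area functional (module AR)
-/

set_option autoImplicit false

namespace Pool.Agent.KCC

open Finset Pool.Agent.Lib27

namespace AR

lemma mem_ArchSet (k : ℕ) (g : ℤ) (N : ℕ) (w : Wd) :
    w ∈ ArchSet k g N ↔ w.length = N ∧ Arch g w ∧ Nar k w := by
  classical
  rw [ArchSet, mem_filter, mem_words]

lemma mem_CapSet (k : ℕ) (g : ℤ) (N : ℕ) (w : Wd) :
    w ∈ CapSet k g N ↔ w.length = N ∧ Arch g w ∧ Nar k w ∧ ∀ h : ℤ, 1 ≤ h → ¬ EC w h := by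
  classical
  rw [CapSet, mem_filter, mem_words]

lemma Arch_ep (g : ℤ) (w : Wd) (h : Arch g w) : (ep 0 w).2 / 2 = g := by
  rw [h.2.1]
  show 2 * g / 2 = g
  omega

open Classical in
/-- Counting form of K2. -/
lemma k2_count (h2 : K2_Stmt) (k n : ℕ) (g : ℤ) (N : ℕ) (hk : 1 ≤ k) (hg : 1 ≤ g)
    (hN : N ≤ 2 * n + 2) (w : Wd) :
    (if w ∈ ArchSet k g N then 1 else 0 : ℝ) = (if w ∈ CapSet k g N then 1 else 0) +
      (((allowed k n g).sigma
        (fun p => ArchSet k (g + jump p) (N - (p.1.length + p.2.length)))).filter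
        (fun q => q.1.1 ++ q.2 ++ q.1.2 = w)).card := by
  have := h2 k n g N hk hg hN (fun v => if v = w then 1 else 0)
  rw [sum_ite_eq', sum_ite_eq'] at this
  rw [this, card_filter]
  push_cast
  rw [sum_sigma]

lemma dec_mem (h2 : K2_Stmt) (k n : ℕ) (g : ℤ) (hk : 1 ≤ k) (hg : 1 ≤ g) (w : Wd)
    (hN : w.length ≤ 2 * n + 2) (q : (Wd × Wd) × Wd) (h : Dec k n g w q) :
    w ∈ ArchSet k g w.length ∧ w ∉ CapSet k g w.length ∧ ∀ q', Dec k n g w q' → q' = q := by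
  classical
  have hc := k2_count h2 k n g w.length hk hg hN w
  have hin : (⟨q.1, q.2⟩ : (_ : Wd × Wd) × Wd) ∈ (((allowed k n g).sigma
        (fun p => ArchSet k (g + jump p) (w.length - (p.1.length + p.2.length)))).filter
        (fun q => q.1.1 ++ q.2 ++ q.1.2 = w)) := by
    rw [mem_filter, mem_sigma]
    exact ⟨⟨h.1, h.2.1⟩, h.2.2.symm⟩
  have hpos : 1 ≤ (((allowed k n g).sigma
        (fun p => ArchSet k (g + jump p) (w.length - (p.1.length + p.2.length)))).filter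
        (fun q => q.1.1 ++ q.2 ++ q.1.2 = w)).card := card_pos.2 ⟨_, hin⟩
  have hposR : (1 : ℝ) ≤ ((((allowed k n g).sigma
        (fun p => ArchSet k (g + jump p) (w.length - (p.1.length + p.2.length)))).filter
        (fun q => q.1.1 ++ q.2 ++ q.1.2 = w)).card : ℝ) := by exact_mod_cast hpos
  have h1 : w ∈ ArchSet k g w.length := by
    by_contra hn
    rw [if_neg hn] at hc
    split_ifs at hc <;> linarith
  rw [if_pos h1] at hc
  have h3 : w ∉ CapSet k g w.length := by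
    intro hcap
    rw [if_pos hcap] at hc
    linarith
  rw [if_neg h3, zero_add] at hc
  have hcard : (((allowed k n g).sigma
        (fun p => ArchSet k (g + jump p) (w.length - (p.1.length + p.2.length)))).filter
        (fun q => q.1.1 ++ q.2 ++ q.1.2 = w)).card = 1 := by exact_mod_cast hc.symm
  refine ⟨h1, h3, fun q' h' => ?_⟩
  have hin' : (⟨q'.1, q'.2⟩ : (_ : Wd × Wd) × Wd) ∈ (((allowed k n g).sigma
        (fun p => ArchSet k (g + jump p) (w.length - (p.1.length + p.2.length)))).filter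
        (fun q => q.1.1 ++ q.2 ++ q.1.2 = w)) := by
    rw [mem_filter, mem_sigma]
    exact ⟨⟨h'.1, h'.2.1⟩, h'.2.2.symm⟩
  obtain ⟨a, ha⟩ := card_eq_one.1 hcard
  rw [ha, mem_singleton] at hin hin'
  have e := hin'.trans hin.symm
  rw [Sigma.mk.injEq] at e
  exact Prod.ext e.1 (eq_of_heq e.2)

lemma dec_of_not_cap (h2 : K2_Stmt) (k n : ℕ) (g : ℤ) (N : ℕ) (hk : 1 ≤ k) (hg : 1 ≤ g)
    (hN : N ≤ 2 * n + 2) (w : Wd) (hw : w ∈ ArchSet k g N) (hc : w ∉ CapSet k g N) :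
    ∃ q, Dec k n g w q := by
  classical
  have hk' := k2_count h2 k n g N hk hg hN w
  have hlen := ((mem_ArchSet _ _ _ _).1 hw).1
  rw [if_pos hw, if_neg hc, zero_add] at hk'
  have hcard : (((allowed k n g).sigma
        (fun p => ArchSet k (g + jump p) (N - (p.1.length + p.2.length)))).filter
        (fun q => q.1.1 ++ q.2 ++ q.1.2 = w)).card = 1 := by exact_mod_cast hk'.symm
  obtain ⟨a, ha⟩ := card_eq_one.1 hcard
  have : a ∈ (((allowed k n g).sigma
        (fun p => ArchSet k (g + jump p) (N - (p.1.length + p.2.length)))).filter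
        (fun q => q.1.1 ++ q.2 ++ q.1.2 = w)) := by rw [ha]; simp
  rw [mem_filter, mem_sigma] at this
  refine ⟨(a.1, a.2), this.1.1, ?_, this.2.symm⟩
  rw [hlen]
  exact this.1.2

lemma Ar_dec (h2 : K2_Stmt) (k n : ℕ) (g : ℤ) (hk : 1 ≤ k) (hg : 1 ≤ g) (w : Wd)
    (hN : w.length ≤ 2 * n + 2) (q : (Wd × Wd) × Wd) (h : Dec k n g w q) :
    Ar k n w = Ar k n q.2 + (ht q.1 * (2 * g + jump q.1)).toNat := by
  obtain ⟨h1, h3, h4⟩ := dec_mem h2 k n g hk hg w hN q h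
  have hep : (ep 0 w).2 / 2 = g := Arch_ep g w ((mem_ArchSet _ _ _ _).1 h1).2.1
  have hex : ∃ q : (Wd × Wd) × Wd, Dec k n ((ep 0 w).2 / 2) w q := ⟨q, by rw [hep]; exact h⟩
  have hspec : ∀ q', Dec k n ((ep 0 w).2 / 2) w q' → q' = q :=
    fun q' hq' => h4 q' (by rwa [hep] at hq')
  have hc : hex.choose = q := hspec _ hex.choose_spec
  have e1 : Ar k n w = Ar k n (hex.choose).2 +
      (ht (hex.choose).1 * (2 * ((ep 0 w).2 / 2) + jump (hex.choose).1)).toNat := by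
    conv_lhs => rw [Ar]
    rw [dif_pos hex]
  rw [e1, hc, hep]

lemma Ar_cap (h2 : K2_Stmt) (k n : ℕ) (g : ℤ) (N : ℕ) (hk : 1 ≤ k) (hg : 1 ≤ g)
    (hN : N ≤ 2 * n + 2) (w : Wd) (h : w ∈ CapSet k g N) : Ar k n w = 0 := by
  obtain ⟨hl, ha, _⟩ := (mem_CapSet _ _ _ _).1 h
  have hep : (ep 0 w).2 / 2 = g := Arch_ep g w ha
  rw [Ar, dif_neg]
  rintro ⟨q, hq⟩
  rw [hep] at hq
  have := (dec_mem h2 k n g hk hg w (by omega) q hq).2.1
  rw [hl] at this
  exact this h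

lemma Ar_step (h2 : K2_Stmt) (k n : ℕ) (g : ℤ) (N : ℕ) (hk : 1 ≤ k) (hg : 1 ≤ g)
    (hN : N ≤ 2 * n + 2) (p : Wd × Wd) (hp : p ∈ allowed k n g) (w : Wd)
    (hw : w ∈ ArchSet k (g + jump p) (N - (p.1.length + p.2.length))) :
    Ar k n (p.1 ++ w ++ p.2) = Ar k n w + (ht p * (2 * g + jump p)).toNat := by
  have hl := ((mem_ArchSet _ _ _ _).1 hw).1
  have hne : 0 < w.length := List.length_pos_of_ne_nil ((mem_ArchSet _ _ _ _).1 hw).2.1.1
  apply Ar_dec h2 k n g hk hg (p.1 ++ w ++ p.2) _ (p, w)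
  · refine ⟨hp, ?_, rfl⟩
    rw [mem_ArchSet]
    refine ⟨?_, ((mem_ArchSet _ _ _ _).1 hw).2⟩
    simp only [List.length_append]
    omega
  · simp only [List.length_append]
    omega

end AR

theorem ar_thm (h : K2_Stmt) : AR_Stmt := fun k n hk =>
  ⟨fun g N w hg hN hw => AR.Ar_cap h k n g N hk hg hN w hw,
    fun g N p w hg hN hp hw => AR.Ar_step h k n g N hk hg hN p hp w hw⟩

end Pool.Agent.KCC
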