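import Pool.Agent.KCC.Stmts
import Pool.Agent.Lib_helper27.Glue
import Pool.Agent.Lib_helper27.Count
import Pool.Agent.Lib_helper27.Transl

/-!
# BLO: blocks

Polygons of perimeter `2m` are opened at the leftmost lowest and at the rightmost highest vertical
edge and glued one after the other. The orientation is clockwise here: a polygon rooted at its
leftmost lowest vertex with first step North is `1 :: α ++ 3 :: β`, and gives the pair of strands
`(0 :: α, β ++ [2])`.
-/

set_option autoImplicit false

namespace Pool.Agent.KCC.BLO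

open Finset Pool.Agent.Lib27 Pool.Agent.AreaLaw

/-! ### crossings -/

lemma cx_append (h : ℤ) (p : ℤ × ℤ) (u v : Wd) :
    cx h p (u ++ v) = cx h p u ++ cx h (ep p u) v := by
  induction u generalizing p with
  | nil => rfl
  | cons a u ih =>
    rw [List.cons_append, cx, cx, ih, ep_cons, List.append_assoc]

lemma cx_length (h : ℤ) (p : ℤ × ℤ) (u : Wd) : (cx h p u).length ≤ u.length := by
  induction u generalizing p with
  | nil => exact le_rfl
  | cons a u ih =>
    rw [cx, List.length_append, List.length_cons]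
    have h1 := ih (p + dv a)
    split_ifs
    · rw [List.length_singleton]; omega
    · rw [List.length_nil]; omega

lemma cx_length_add (h : ℤ) (p q : ℤ × ℤ) (u : Wd) :
    (cx h (p + q) u).length = (cx (h - q.1) p u).length := by
  induction u generalizing p with
  | nil => rfl
  | cons a u ih =>
    rw [cx, cx, List.length_append, List.length_append]
    have h1 : p + q + dv a = (p + dv a) + q := by abel
    rw [h1, ih]
    congr 1
    have h2 : (a = 0 ∧ (p + q).1 = h ∨ a = 2 ∧ (p + q).1 = h + 1) ↔
        (a = 0 ∧ p.1 = h - q.1 ∨ a = 2 ∧ p.1 = h - q.1 + 1) := by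
      rw [Prod.fst_add]
      constructor
      · rintro (⟨h3, h4⟩ | ⟨h3, h4⟩)
        · exact Or.inl ⟨h3, by omega⟩
        · exact Or.inr ⟨h3, by omega⟩
      · rintro (⟨h3, h4⟩ | ⟨h3, h4⟩)
        · exact Or.inl ⟨h3, by omega⟩
        · exact Or.inr ⟨h3, by omega⟩
    by_cases h3 : (a = 0 ∧ (p + q).1 = h ∨ a = 2 ∧ (p + q).1 = h + 1)
    · rw [if_pos h3, if_pos (h2.1 h3)]; rfl
    · rw [if_neg h3, if_neg (fun h4 => h3 (h2.2 h4))]

/-- No crossing of a line if all vertices are on the left of it. -/
lemma cx_left (h : ℤ) (p : ℤ × ℤ) (u : Wd) (H : ∀ v ∈ vt p u, v.1 ≤ h) : cx h p u = [] := by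
  induction u generalizing p with
  | nil => rfl
  | cons a u ih =>
    rw [cx, ih (p + dv a) (fun v hv => H v (by
      unfold vt at hv ⊢
      rw [vs_cons, List.cons_append]
      exact List.mem_cons_of_mem _ hv))]
    have h1 : p.1 ≤ h := H p (by unfold vt; simp)
    have h2 : (p + dv a).1 ≤ h := H (p + dv a) (by
      unfold vt
      cases u with
      | nil => simp
      | cons b u => simp)
    rw [if_neg]
    · rfl
    · rintro (⟨rfl, h3⟩ | ⟨rfl, h3⟩)
      · have h4 : (dv 0).1 = 1 := rfl
        rw [Prod.fst_add, h4] at h2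
        omega
      · omega

/-- No crossing of a line if all vertices are on the right of it. -/
lemma cx_right (h : ℤ) (p : ℤ × ℤ) (u : Wd) (H : ∀ v ∈ vt p u, h < v.1) : cx h p u = [] := by
  induction u generalizing p with
  | nil => rfl
  | cons a u ih =>
    rw [cx, ih (p + dv a) (fun v hv => H v (by
      unfold vt at hv ⊢
      rw [vs_cons, List.cons_append]
      exact List.mem_cons_of_mem _ hv))]
    have h1 : h < p.1 := H p (by unfold vt; simp)
    have h2 : h < (p + dv a).1 := H (p + dv a) (by
      unfold vt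
      cases u with
      | nil => simp
      | cons b u => simp)
    rw [if_neg]
    · rfl
    · rintro (⟨rfl, h3⟩ | ⟨rfl, h3⟩)
      · omega
      · have h4 : (dv 2).1 = -1 := rfl
        rw [Prod.fst_add, h4] at h2
        omega

/-- The crossings in terms of positions. -/
lemma cx_eq_sum (h : ℤ) (p : ℤ × ℤ) (l : Wd) :
    (cx h p l).length = ∑ i ∈ range l.length,
      if ((ep p (l.take i)).1 = h ∧ (ep p (l.take (i + 1))).1 = h + 1) ∨
        ((ep p (l.take i)).1 = h + 1 ∧ (ep p (l.take (i + 1))).1 = h) then 1 else 0 := by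
  induction l generalizing p with
  | nil => rfl
  | cons a l ih =>
    rw [List.length_cons, sum_range_succ', cx, List.length_append, ih (p + dv a), add_comm]
    congr 1
    simp only [List.take_zero, ep_nil, zero_add, List.take_succ_cons, ep_cons]
    have key : ∀ (a : Fin 4) (x : ℤ), (a = 0 ∧ x = h ∨ a = 2 ∧ x = h + 1) ↔
        (x = h ∧ x + (dv a).1 = h + 1 ∨ x = h + 1 ∧ x + (dv a).1 = h) := by
      intro a x
      fin_cases a
      · simp [dv]
        omega
      · simp [dv]
        omega
      · simp [dv]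
        omega
      · simp [dv]
        omega
    rw [Prod.fst_add]
    by_cases h3 : (a = 0 ∧ p.1 = h ∨ a = 2 ∧ p.1 = h + 1)
    · rw [if_pos h3, if_pos ((key a p.1).1 h3)]; rfl
    · rw [if_neg h3, if_neg (fun h4 => h3 ((key a p.1).2 h4))]; rfl

lemma vcross_eq (n : ℕ) (s : Fin (2 * n) → Fin 4) (h : ℤ) :
    vcross n s h = (cx h 0 (List.ofFn s)).length := by
  classical
  rw [cx_eq_sum, vcross, card_filter, List.length_ofFn]
  apply sum_congr rfl
  intro i hi
  rw [mem_range] at hi
  rw [pos_eq n s i hi.le, pos_eq n s (i + 1) hi]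

/-! ### hooks -/

/-- Words from the origin to `(0, -1)` whose interior vertices are on the right of the
column `0`. -/
structure Hook (w : Wd) : Prop where
  ne : w ≠ []
  fin : ep 0 w = (0, -1)
  nd : (vt 0 w).Nodup
  pos : ∀ p ∈ (vs 0 w).tail, 0 < p.1

/-- Pairs of strands. -/
structure PB (A B : Wd) : Prop where
  hpos : 0 < (ep 0 A).1
  hend : ep (ep 0 A + (0, -1)) B = (0, -1)
  nd : (vt 0 A ++ vt (ep 0 A + (0, -1)) B).Nodup
  hA : ∀ p ∈ (vt 0 A).tail, 0 < p.1 ∧ p.1 ≤ (ep 0 A).1
  hB : ∀ p ∈ vs (ep 0 A + (0, -1)) B, 0 < p.1 ∧ p.1 ≤ (ep 0 A).1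

lemma vt_append (p : ℤ × ℤ) (u v : Wd) : vt p (u ++ v) = vs p u ++ vt (ep p u) v := by
  unfold vt
  rw [vs_append, ep_append, List.append_assoc]

lemma vs_ne (p : ℤ × ℤ) (u : Wd) (h : u ≠ []) : vs p u = p :: (vs p u).tail := by
  cases u with
  | nil => exact absurd rfl h
  | cons a u => rfl

lemma glue_fin {A B w : Wd} (h : PB A B) (hw : Hook w) : ep 0 (A ++ w ++ B) = (0, -1) := by
  rw [ep_append, ep_append, ep_eq (ep 0 A) w, hw.fin, add_comm, h.hend]

lemma vs_w {A w : Wd} (hw : Hook w) : vs (ep 0 A) w =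
    ep 0 A :: ((vs 0 w).tail.map (· + ep 0 A)) := by
  rw [vs_eq, vs_ne 0 w hw.ne, List.map_cons, zero_add]
  rfl

lemma glue_hook {A B w : Wd} (h : PB A B) (hw : Hook w) : Hook (A ++ w ++ B) := by
  have hAne : A ≠ [] := by
    rintro rfl
    have := h.hpos
    simp at this
  have hmid : ep (ep 0 A) w = ep 0 A + (0, -1) := by
    rw [ep_eq (ep 0 A) w, hw.fin, add_comm]
  have hvt : vt 0 (A ++ w ++ B) = vs 0 A ++ (vs (ep 0 A) w ++ vt (ep 0 A + (0, -1)) B) := by
    rw [vt_append, vs_append, ep_append, hmid, List.append_assoc]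
  have hin : ∀ p ∈ (vs 0 w).tail.map (· + ep 0 A), (ep 0 A).1 < p.1 := by
    intro p hp
    rw [List.mem_map] at hp
    obtain ⟨q, hq, rfl⟩ := hp
    have := hw.pos q hq
    rw [Prod.fst_add]
    omega
  have hA0 : ∀ p ∈ vt 0 A, p.1 ≤ (ep 0 A).1 := by
    intro p hp
    unfold vt at hp
    rw [vs_ne 0 A hAne, List.cons_append, List.mem_cons] at hp
    rcases hp with rfl | hp
    · exact h.hpos.le
    · have h3 := h.hA p (by
        unfold vt
        rw [vs_ne 0 A hAne, List.cons_append, List.tail_cons]
        exact hp)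
      exact h3.2
  have hB0 : ∀ p ∈ vt (ep 0 A + (0, -1)) B, p.1 ≤ (ep 0 A).1 := by
    intro p hp
    unfold vt at hp
    rw [List.mem_append, List.mem_singleton] at hp
    rcases hp with hp | rfl
    · exact (h.hB p hp).2
    · rw [h.hend]
      exact h.hpos.le
  refine ⟨by simp [hAne], glue_fin h hw, ?_, ?_⟩
  · rw [hvt, vs_w hw, List.cons_append]
    have hperm : List.Perm (vs 0 A ++ ep 0 A :: (List.map (fun x => x + ep 0 A) (vs 0 w).tail ++
        vt (ep 0 A + (0, -1)) B)) ((vt 0 A ++ vt (ep 0 A + (0, -1)) B) ++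
          List.map (fun x => x + ep 0 A) (vs 0 w).tail) := by
      unfold vt
      rw [List.append_assoc, List.append_assoc, List.append_assoc]
      refine List.Perm.append_left _ ?_
      rw [List.singleton_append]
      refine List.Perm.cons _ ?_
      refine (List.perm_append_comm).trans ?_
      rw [List.append_assoc]
    rw [hperm.nodup_iff, List.nodup_append']
    refine ⟨h.nd, ?_, ?_⟩
    · have h3 := hw.nd
      unfold vt at h3
      rw [List.nodup_append'] at h3
      have h4 : (vs 0 w).tail.Nodup := h3.1.sublist (List.tail_sublist _)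
      exact h4.map (add_left_injective _)
    · intro p hp hp'
      have h3 := hin p hp'
      rw [List.mem_append] at hp
      rcases hp with hp | hp
      · have := hA0 p hp; omega
      · have := hB0 p hp; omega
  · intro p hp
    rw [vs_append, vs_append, ep_append, hmid, vs_ne 0 A hAne] at hp
    rw [List.cons_append, List.cons_append, List.tail_cons, List.mem_append, List.mem_append,
      vs_w hw, List.mem_cons] at hp
    rcases hp with (hp | hp | hp) | hp
    · refine (h.hA p ?_).1
      unfold vt
      rw [vs_ne 0 A hAne, List.cons_append, List.tail_cons]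
      exact List.mem_append_left _ hp
    · rw [hp]
      exact h.hpos
    · have := hin p hp
      have := h.hpos
      omega
    · exact (h.hB p hp).1

lemma glue_cr {A B w : Wd} (h : PB A B) (hw : Hook w) (m : ℕ) (hl : A.length + B.length ≤ 2 * m)
    (hc : ∀ i : ℤ, cr w i ≤ 2 * m) (i : ℤ) : cr (A ++ w ++ B) i ≤ 2 * m := by
  have hAne : A ≠ [] := by
    rintro rfl
    have := h.hpos
    simp at this
  have hmid : ep (ep 0 A) w = ep 0 A + (0, -1) := by
    rw [ep_eq (ep 0 A) w, hw.fin, add_comm]
  unfold cr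
  rw [cx_append, cx_append, ep_append, hmid, List.length_append, List.length_append]
  have hw0 : ∀ v ∈ vt 0 w, 0 ≤ v.1 := by
    intro v hv
    unfold vt at hv
    rw [vs_ne 0 w hw.ne, List.cons_append, List.mem_cons, List.mem_append,
      List.mem_singleton] at hv
    rcases hv with rfl | hv | rfl
    · exact le_rfl
    · exact (hw.pos v hv).le
    · rw [hw.fin]
  rcases lt_or_ge i (ep 0 A).1 with h1 | h1
  · have h2 : cx i (ep 0 A) w = [] := by
      apply cx_right
      intro v hv
      unfold vt at hv
      rw [vs_eq (ep 0 A) w, ep_eq (ep 0 A) w, List.mem_append, List.mem_map,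
        List.mem_singleton] at hv
      rcases hv with ⟨q, hq, rfl⟩ | rfl
      · have := hw0 q (by unfold vt; exact List.mem_append_left _ hq)
        rw [Prod.fst_add]
        omega
      · rw [hw.fin, Prod.fst_add]
        change i < 0 + (ep 0 A).1
        omega
    rw [h2, List.length_nil]
    have h3 := cx_length i 0 A
    have h4 := cx_length i (ep 0 A + (0, -1)) B
    omega
  · have h2 : cx i 0 A = [] := by
      apply cx_left
      intro v hv
      unfold vt at hv
      rw [vs_ne 0 A hAne, List.cons_append, List.mem_cons] at hv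
      rcases hv with rfl | hv
      · have := h.hpos
        simp only [Prod.fst_zero]
        omega
      · have h3 := h.hA v (by
          unfold vt
          rw [vs_ne 0 A hAne, List.cons_append, List.tail_cons]
          exact hv)
        omega
    have h3 : cx i (ep 0 A + (0, -1)) B = [] := by
      apply cx_left
      intro v hv
      unfold vt at hv
      rw [List.mem_append, List.mem_singleton] at hv
      rcases hv with hv | rfl
      · have := (h.hB v hv).2
        omega
      · rw [h.hend]
        have := h.hpos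
        change (0 : ℤ) ≤ i
        omega
    rw [h2, h3, List.length_nil, add_zero, zero_add]
    have h4 := cx_length_add i 0 (ep 0 A) w
    rw [zero_add] at h4
    rw [h4]
    exact hc _

/-! ### finite sets -/

open Classical in
/-- Hooks with `N` steps and at most `2 m` crossings of every line. -/
noncomputable def Hk (m N : ℕ) : Finset Wd :=
  (words N).filter (fun w => Hook w ∧ ∀ i : ℤ, cr w i ≤ 2 * m)

lemma mem_Hk (m N : ℕ) (w : Wd) :
    w ∈ Hk m N ↔ w.length = N ∧ Hook w ∧ ∀ i : ℤ, cr w i ≤ 2 * m := by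
  classical
  rw [Hk, mem_filter, mem_words]

open Classical in
/-- Pairs of strands with `2 m` steps, the first of which has `l` steps. -/
noncomputable def Bk (m l : ℕ) : Finset (Wd × Wd) :=
  (words l ×ˢ words (2 * m - l)).filter (fun p => PB p.1 p.2)

lemma mem_Bk (m l : ℕ) (p : Wd × Wd) :
    p ∈ Bk m l ↔ (p.1.length = l ∧ p.2.length = 2 * m - l) ∧ PB p.1 p.2 := by
  classical
  rw [Bk, mem_filter, mem_product, mem_words, mem_words]

lemma step_card (m l N : ℕ) (hl : l ≤ 2 * m) :
    (Bk m l).card * (Hk m N).card ≤ (Hk m (N + 2 * m)).card := by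
  rw [← card_product]
  apply card_le_card_of_injOn (fun q => q.1.1 ++ q.2 ++ q.1.2)
  · intro q hq
    rw [mem_coe, mem_product, mem_Bk, mem_Hk] at hq
    obtain ⟨⟨⟨h1, h2⟩, h3⟩, h4, h5, h6⟩ := hq
    rw [mem_coe, mem_Hk]
    refine ⟨?_, glue_hook h3 h5, glue_cr h3 h5 m (by omega) h6⟩
    simp only [List.length_append]
    omega
  · intro q hq q' hq' h
    rw [mem_coe, mem_product, mem_Bk, mem_Hk] at hq hq'
    obtain ⟨⟨⟨h1, h2⟩, h3⟩, h4, h5, h6⟩ := hq
    obtain ⟨⟨⟨h1', h2'⟩, h3'⟩, h4', h5', h6'⟩ := hq'
    have e1 : q.1.1 ++ (q.2 ++ q.1.2) = q'.1.1 ++ (q'.2 ++ q'.1.2) := by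
      rw [← List.append_assoc, ← List.append_assoc]
      exact h
    obtain ⟨e2, e3⟩ := List.append_inj e1 (h1.trans h1'.symm)
    obtain ⟨e4, e5⟩ := List.append_inj e3 (h4.trans h4'.symm)
    exact Prod.ext (Prod.ext e2 e5) e4

lemma hook_base : Hook [3] := by
  refine ⟨by simp, by decide, by decide, ?_⟩
  intro p hp
  simp at hp

lemma pb_unit : PB [0] [2] := by
  refine ⟨by decide, by decide, by decide, ?_, ?_⟩
  · intro p hp
    have h1 : (vt 0 ([0] : Wd)).tail = [(1, 0)] := by decide
    rw [h1, List.mem_singleton] at hp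
    subst hp
    decide
  · intro p hp
    have h1 : vs (ep 0 ([0] : Wd) + (0, -1)) ([2] : Wd) = [(1, -1)] := by decide
    rw [h1, List.mem_singleton] at hp
    subst hp
    decide

lemma base_card (m r : ℕ) (hm : 1 ≤ m) : 1 ≤ (Hk m (2 * r + 1)).card := by
  induction r with
  | zero =>
    refine card_pos.2 ⟨[3], ?_⟩
    rw [mem_Hk]
    refine ⟨rfl, hook_base, fun i => ?_⟩
    have h1 : cx i 0 ([3] : Wd) = [] := by
      rw [cx, cx, if_neg (by simp)]
      rfl
    unfold cr
    rw [h1, List.length_nil]
    exact Nat.zero_le _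
  | succ r ih =>
    obtain ⟨w, hw⟩ := card_pos.1 ih
    rw [mem_Hk] at hw
    refine card_pos.2 ⟨[0] ++ w ++ [2], ?_⟩
    rw [mem_Hk]
    refine ⟨?_, glue_hook pb_unit hw.2.1, glue_cr pb_unit hw.2.1 m ?_ hw.2.2⟩
    · simp only [List.length_append, List.length_singleton]
      omega
    · simp only [List.length_singleton]
      omega

lemma pow_card (m l r j : ℕ) (hm : 1 ≤ m) (hl : l ≤ 2 * m) :
    (Bk m l).card ^ j ≤ (Hk m (2 * r + 1 + 2 * m * j)).card := by
  induction j with
  | zero => simpa using base_card m r hm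
  | succ j ih =>
    have h1 := step_card m l (2 * r + 1 + 2 * m * j) hl
    have h2 : 2 * r + 1 + 2 * m * (j + 1) = 2 * r + 1 + 2 * m * j + 2 * m := by ring
    rw [h2, pow_succ, mul_comm]
    exact (Nat.mul_le_mul_left _ ih).trans h1

lemma close_card (m n N : ℕ) (hN : N + 1 = 2 * n) : (Hk m N).card ≤ (ColConvex m n).card := by
  classical
  have hlist : ∀ w ∈ Hk m N, List.ofFn (fun i : Fin (2 * n) => (w ++ [1]).getD i.val 0) =
      w ++ [1] := by
    intro w hw
    rw [mem_Hk] at hw
    apply List.ext_getElem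
    · simp only [List.length_ofFn, List.length_append, List.length_singleton]
      omega
    · intro i h1 h2
      simp only [List.getElem_ofFn]
      rw [List.getD_eq_getElem _ _ h2]
  apply card_le_card_of_injOn (fun w => fun i : Fin (2 * n) => (w ++ [1]).getD i.val 0)
  · intro w hw
    have h0 := hlist w (mem_coe.1 hw)
    rw [mem_coe, mem_Hk] at hw
    obtain ⟨h1, h2, h3⟩ := hw
    rw [mem_coe, ColConvex, mem_filter, SAP_iff, h0]
    refine ⟨?_, fun h => ?_⟩
    · rw [mem_W]
      refine ⟨?_, ?_, ?_⟩
      · simp only [List.length_append, List.length_singleton]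
        omega
      · rw [ep_append, h2.fin]
        decide
      · rw [vs_append]
        exact h2.nd
    · rw [vcross_eq, h0, cx_append, List.length_append]
      have h4 : cx h (ep 0 w) [1] = [] := by
        rw [cx, cx, if_neg (by simp)]
        rfl
      rw [h4, List.length_nil, add_zero]
      exact h3 h
  · intro w hw w' hw' h
    have h1 := hlist w (mem_coe.1 hw)
    have h2 := hlist w' (mem_coe.1 hw')
    have h3 : (fun i : Fin (2 * n) => (w ++ [1]).getD i.val 0) =
      (fun i : Fin (2 * n) => (w' ++ [1]).getD i.val 0) := h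
    rw [h3, h2] at h1
    exact (List.append_cancel_right h1).symm

/-! ### opening -/

lemma open_PB (n : ℕ) (s : Wd) (hs : s ∈ Can n) (α β : Wd) (h1 : s = 1 :: α ++ 3 :: β)
    (h2 : ∀ v ∈ vs 0 s, v.1 ≤ (ep 0 (1 :: α : Wd)).1) : PB (0 :: α) (β ++ [2]) := by
  rw [mem_Can] at hs
  obtain ⟨⟨hl, hS⟩, -, hlex⟩ := hs
  set b : ℤ × ℤ := ep 0 (1 :: α : Wd) with hb
  have hvs : vs 0 s = 0 :: (vt (dv 1) α ++ vs (b + dv 3) β) := by
    rw [h1, List.cons_append, vs_cons, zero_add, vs_append, vs_cons]
    unfold vt
    have h3 : ep (dv 1) α = b := by rw [hb, ep_cons, zero_add]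
    rw [h3, List.append_assoc]
    rfl
  have hclose : ep (b + dv 3) β = 0 := by
    have h3 := hS.1
    rw [h1, ep_append, ep_cons] at h3
    exact h3
  have hnd : (vt (dv 1) α ++ (vs (b + dv 3) β ++ [0])).Nodup := by
    have h3 := hS.2
    rw [hvs] at h3
    have h4 : List.Perm (0 :: (vt (dv 1) α ++ vs (b + dv 3) β))
        (vt (dv 1) α ++ (vs (b + dv 3) β ++ [0])) := by
      rw [← List.append_assoc]
      exact (List.perm_append_singleton _ _).symm
    exact (h4.nodup_iff).1 h3
  have hcol : ∀ v ∈ vt (dv 1) α ++ (vs (b + dv 3) β ++ [0]), 0 ≤ v.1 ∧ v.1 ≤ b.1 := by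
    intro v hv
    have h3 : v ∈ vs 0 s := by
      rw [hvs, List.mem_cons, List.mem_append]
      rw [List.mem_append, List.mem_append, List.mem_singleton] at hv
      rcases hv with h | h | h
      · exact Or.inr (Or.inl h)
      · exact Or.inr (Or.inr h)
      · exact Or.inl h
    refine ⟨?_, h2 v h3⟩
    have h4 := hlex v h3
    unfold lexNonneg at h4
    omega
  have hb0 : 0 ≤ b.1 := (hcol 0 (by simp)).2
  -- the shifted strands
  have e1 : (0 : ℤ × ℤ) + dv 0 = dv 1 + (1, -1) := by decide
  have hepA : ep 0 (0 :: α : Wd) = b + (1, -1) := by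
    rw [ep_cons, e1, ep_add, hb, ep_cons, zero_add]
  have e2 : b + (1, -1) + (0, -1) = (b + dv 3) + (1, -1) := by
    have h3 : dv 3 = (0, -1) := rfl
    rw [h3]
    abel
  have hvtA : vt 0 (0 :: α : Wd) = 0 :: (vt (dv 1) α).map (· + (1, -1)) := by
    unfold vt
    rw [vs_cons, ep_cons, e1, vs_add, ep_add, List.map_append, List.map_singleton]
    rfl
  have hvsB : vs (b + (1, -1) + (0, -1)) (β ++ [2]) =
      (vs (b + dv 3) β ++ [0]).map (· + (1, -1)) := by
    rw [vs_append, e2, vs_add, ep_add, hclose, List.map_append, List.map_singleton, vs_cons]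
    rfl
  have hepB : ep (b + (1, -1) + (0, -1)) (β ++ [2]) = (0, -1) := by
    rw [ep_append, e2, ep_add, hclose]
    decide
  refine ⟨?_, ?_, ?_, ?_, ?_⟩
  · rw [hepA]
    change 0 < b.1 + 1
    omega
  · rw [hepA, hepB]
  · rw [hepA, hvtA]
    have h3 : vt (b + (1, -1) + (0, -1)) (β ++ [2]) =
        (vs (b + dv 3) β ++ [0]).map (· + (1, -1)) ++ [(0, -1)] := by
      unfold vt
      rw [hvsB, hepB]
    rw [h3, List.cons_append, ← List.append_assoc, ← List.map_append]
    have hshift : ∀ v ∈ (vt (dv 1) α ++ (vs (b + dv 3) β ++ [0])).map (· + ((1 : ℤ), (-1 : ℤ))),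
        0 < v.1 := by
      intro v hv
      rw [List.mem_map] at hv
      obtain ⟨q, hq, rfl⟩ := hv
      have := (hcol q hq).1
      change 0 < q.1 + 1
      omega
    rw [List.nodup_cons, List.nodup_append']
    refine ⟨?_, hnd.map (add_left_injective _), List.nodup_singleton _, ?_⟩
    · intro h4
      rw [List.mem_append, List.mem_singleton] at h4
      rcases h4 with h4 | h4
      · have := hshift 0 h4
        simp at this
      · exact absurd h4 (by decide)
    · intro v hv hv'
      rw [List.mem_singleton] at hv'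
      subst hv'
      have := hshift _ hv
      simp at this
  · intro p hp
    rw [hvtA, List.tail_cons, List.mem_map] at hp
    obtain ⟨q, hq, rfl⟩ := hp
    have := hcol q (List.mem_append_left _ hq)
    rw [hepA]
    change 0 < q.1 + 1 ∧ q.1 + 1 ≤ b.1 + 1
    omega
  · intro p hp
    rw [hepA, hvsB, List.mem_map] at hp
    obtain ⟨q, hq, rfl⟩ := hp
    have := hcol q (List.mem_append_right _ hq)
    rw [hepA]
    change 0 < q.1 + 1 ∧ q.1 + 1 ≤ b.1 + 1
    omega

lemma can_le_block (m : ℕ) (hm : 1 ≤ m) :
    ∃ l ≤ 2 * m, (Can m).card ≤ 2 * m * (Bk m l).card := by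
  classical
  have hlt : ∀ s ∈ Can m, (cut s).1.length ∈ range (2 * m) := by
    intro s hs
    obtain ⟨h1, h2, h3⟩ := cut_spec m s hs hm
    rw [mem_Can] at hs
    have h4 := hs.1.1
    rw [h1] at h4
    simp only [List.length_append, List.length_cons] at h4
    rw [mem_range]
    omega
  have hfib : ∀ l ∈ range (2 * m), ((Can m).filter (fun s => (cut s).1.length = l)).card ≤
      (Bk m l).card := by
    intro l hl
    have hcons : ∀ s ∈ Can m, (cut s).1 = 1 :: (cut s).1.tail := by
      intro s hs
      obtain ⟨h1, h2, h3⟩ := cut_spec m s hs hm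
      have h4 := can_cons m s hs hm
      generalize (cut s).1 = a at *
      generalize (cut s).2 = c at *
      cases a with
      | nil => simp at h2
      | cons x a =>
        rw [h4] at h1
        simp only [List.cons_append, List.cons.injEq] at h1
        rw [List.tail_cons, ← h1.1]
    apply card_le_card_of_injOn (fun s => (0 :: (cut s).1.tail, (cut s).2 ++ [2]))
    · intro s hs
      rw [mem_coe, mem_filter] at hs
      obtain ⟨hs, hlen⟩ := hs
      obtain ⟨h1, h2, h3⟩ := cut_spec m s hs hm
      have h4 := hcons s hs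
      have h5 := ((mem_Can m s).1 hs).1.1
      rw [mem_coe, mem_Bk]
      have h6 := congrArg List.length h1
      have h7 := congrArg List.length h4
      simp only [List.length_append, List.length_cons] at h6 h7
      refine ⟨⟨?_, ?_⟩, ?_⟩
      · simp only [List.length_cons]
        omega
      · simp only [List.length_append, List.length_singleton]
        omega
      · apply open_PB m s hs
        · rw [← h4]
          exact h1
        · rw [← h4]
          exact h3
    · intro s hs t ht hst
      rw [mem_coe, mem_filter] at hs ht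
      have h1 := (cut_spec m s hs.1 hm).1
      have h2 := (cut_spec m t ht.1 hm).1
      have h3 := hcons s hs.1
      have h4 := hcons t ht.1
      simp only [Prod.mk.injEq, List.cons.injEq, true_and] at hst
      have h5 := List.append_cancel_right hst.2
      rw [h1, h2, h3, h4, hst.1, h5]
  obtain ⟨l, hl, hmax⟩ := exists_max_image (range (2 * m)) (fun l => (Bk m l).card)
    ⟨0, by rw [mem_range]; omega⟩
  refine ⟨l, (mem_range.1 hl).le, ?_⟩
  rw [card_eq_sum_card_fiberwise hlt]
  calc ∑ l' ∈ range (2 * m), ((Can m).filter (fun s => (cut s).1.length = l')).card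
      ≤ ∑ _l' ∈ range (2 * m), (Bk m l).card :=
        sum_le_sum fun l' hl' => (hfib l' hl').trans (hmax l' hl')
    _ = 2 * m * (Bk m l).card := by rw [sum_const, card_range, smul_eq_mul]

/-- The statement of the module, without any hypothesis. -/
theorem blo : BLO_Stmt := by
  intro m j r hm
  obtain ⟨l, hl, hcard⟩ := can_le_block m (by omega)
  have h1 := W_le_can m hm
  have h2 : (SAP m).card ≤ 8 * m ^ 2 * (Bk m l).card := by
    rw [card_SAP]
    calc (W m).card ≤ 4 * m * (Can m).card := h1
      _ ≤ 4 * m * (2 * m * (Bk m l).card) := Nat.mul_le_mul_left _ hcard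
      _ = 8 * m ^ 2 * (Bk m l).card := by ring
  have h3 : (Bk m l).card ^ j ≤ (ColConvex m (m * j + 1 + r)).card :=
    (pow_card m l r j (by omega) hl).trans
      (close_card m (m * j + 1 + r) (2 * r + 1 + 2 * m * j) (by ring))
  have h4 : (SAP m).card ^ j ≤ (8 * m ^ 2) ^ j * (ColConvex m (m * j + 1 + r)).card := by
    calc (SAP m).card ^ j ≤ (8 * m ^ 2 * (Bk m l).card) ^ j := Nat.pow_le_pow_left h2 j
      _ = (8 * m ^ 2) ^ j * (Bk m l).card ^ j := mul_pow _ _ _
      _ ≤ (8 * m ^ 2) ^ j * (ColConvex m (m * j + 1 + r)).card := Nat.mul_le_mul_left _ h3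
  exact_mod_cast h4

end Pool.Agent.KCC.BLO

namespace Pool.Agent.KCC

/-- BLO (blocks). -/
theorem blo_thm (_h : PLA_Stmt) : BLO_Stmt := BLO.blo

end Pool.Agent.KCC
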