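import Pool.Agent.KCC.Stmts
import Pool.Agent.Lib_helper27.Transl

/-!
# CDF: distribution functions of the area on the sample space (MP_f6626d_co)

The uniform law on `ColConvex k n` is moved to the sample space `OmS k n` with the weights `wtS`.
-/

set_option autoImplicit false

namespace Pool.Agent.KCC.CDF

open Finset Filter Topology Pool.Agent.Lib27 Pool.Agent.AreaLaw

lemma sum_OmS (k n : ℕ) (F' : OmS k n → ℝ) (F : ((_ : ℤ) × (_ : ℕ) × (Wd × Wd)) → ℝ) (H : Wd → ℝ)
    (h : ∀ q : {q // q ∈ Om k n}, F' (Sum.inl q) = F q.1)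
    (h' : ∀ w : {w // w ∈ NoCut k n}, F' (Sum.inr w) = H w.1) :
    ∑ x : OmS k n, F' x = ∑ q ∈ Om k n, F q + ∑ w ∈ NoCut k n, H w := by
  rw [Fintype.sum_sum_type]
  simp only [h, h']
  congr 1
  · exact Finset.sum_coe_sort (Om k n) F
  · exact Finset.sum_coe_sort (NoCut k n) H

/-- the sums over `ColConvex k n` in terms of the sample space -/
lemma transfer (hTR : TR_Stmt) (k n : ℕ) (hk : 1 ≤ k) (hn : 2 ≤ n) (Φ : ℤ → ℝ) :
    ∑ s ∈ ColConvex k n, Φ |dbl 0 (List.ofFn s)| =
      4 * n * ∑ y : OmS k n, wtS k n y * Φ (TZ k n y) := by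
  have h1 := hTR k n hk hn (fun a => Φ |a|)
  simp only [abs_abs] at h1
  rw [h1]
  have hn0 : (0 : ℝ) < n := by exact_mod_cast (by omega : 0 < n)
  have h2 := sum_OmS k n (fun y => wtS k n y * Φ (TZ k n y))
    (fun q => 1 * Φ |dq q|)
    (fun w => 1 / (4 * (n : ℝ)) * Φ |dbl 0 w|)
    (fun q => rfl) (fun w => rfl)
  rw [h2, mul_add, mul_sum, mul_sum, mul_sum]
  congr 1
  · refine sum_congr rfl fun q _ => ?_
    ring
  · refine sum_congr rfl fun w _ => ?_
    field_simp

lemma areaCdf_eq (hTR : TR_Stmt) (k n : ℕ) (hk : 1 ≤ k) (hn : 2 ≤ n) (x : ℝ) :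
    areaCdf n (ColConvex k n) x = cdfS k n x := by
  classical
  have hn0 : (0 : ℝ) < n := by exact_mod_cast (by omega : 0 < n)
  obtain ⟨K, hK⟩ : ∃ K, K = 4 * (n : ℝ) := ⟨_, rfl⟩
  have hK0 : 0 < K := by rw [hK]; positivity
  have hZ : ((ColConvex k n).card : ℝ) = K * ∑ y : OmS k n, wtS k n y := by
    have := transfer hTR k n hk hn (fun _ => 1)
    simp only [mul_one, sum_const, nsmul_eq_mul] at this
    rw [this, hK]
  have harea : ∀ s : Fin (2 * n) → Fin 4, area n s = ((|dbl 0 (List.ofFn s)| : ℤ) : ℝ) / 2 := by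
    intro s
    rw [area_eq]
    rfl
  have hS : ∑ t ∈ ColConvex k n, area n t =
      K * (∑ y : OmS k n, wtS k n y * (TZ k n y : ℝ)) / 2 := by
    have := transfer hTR k n hk hn (fun a => (a : ℝ))
    simp only [harea]
    rw [← hK] at this
    rw [← this, Finset.sum_div]
  unfold areaCdf cdfS
  rw [hZ, hS]
  have h1 : (((ColConvex k n).filter (fun s => area n s * (K * ∑ y : OmS k n, wtS k n y) ≤
      x * (K * (∑ y : OmS k n, wtS k n y * (TZ k n y : ℝ)) / 2))).card : ℝ) =
      K * ∑ y ∈ univ.filter fun y : OmS k n => (TZ k n y : ℝ) *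
        ∑ y' : OmS k n, wtS k n y' ≤
      x * ∑ y' : OmS k n, wtS k n y' * (TZ k n y' : ℝ), wtS k n y := by
    have := transfer hTR k n hk hn (fun a => if (a : ℝ) *
        ∑ y' : OmS k n, wtS k n y' ≤
      x * ∑ y' : OmS k n, wtS k n y' * (TZ k n y' : ℝ) then 1 else 0)
    rw [← hK] at this
    simp only [mul_ite, mul_one, mul_zero] at this
    rw [Finset.card_filter, Finset.sum_filter, ← this]
    simp only [Nat.cast_sum, Nat.cast_ite, Nat.cast_one, Nat.cast_zero]
    refine sum_congr rfl fun s _ => ?_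
    refine if_congr ?_ rfl rfl
    rw [harea]
    constructor
    · intro h
      have h2 : K * ((((|dbl 0 (List.ofFn s)| : ℤ) : ℝ)) * ∑ y' : OmS k n, wtS k n y') ≤
          K * (x * ∑ y' : OmS k n, wtS k n y' * (TZ k n y' : ℝ)) := by
        linarith
      exact le_of_mul_le_mul_left h2 hK0
    · intro h
      have h2 := mul_le_mul_of_nonneg_left h hK0.le
      linarith
  rw [← mul_div_mul_left (∑ y ∈ univ.filter fun y : OmS k n => (TZ k n y : ℝ) *
        ∑ y' : OmS k n, wtS k n y' ≤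
      x * ∑ y' : OmS k n, wtS k n y' * (TZ k n y' : ℝ), wtS k n y) _ hK0.ne', ← h1]

end Pool.Agent.KCC.CDF

namespace Pool.Agent.KCC

/-- CDF (from TR; the orientation statement POS is not needed) -/
theorem cdf_thm (h : TR_Stmt) (_hp : POS_Stmt) : CDF_Stmt := fun k n hk hn x =>
  CDF.areaCdf_eq h k n hk hn x

end Pool.Agent.KCC
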