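import Pool.Agent.KCC.Stmts

/-!
# CONV : convergence of the area laws (MP_f6626d_co, column-convex polygons)
-/

set_option autoImplicit false

namespace Pool.Agent.KCC

open Finset Filter Topology MeasureTheory Pool.Agent.Lib27 Pool.Agent.AreaLaw
open Pool.Agent.Gap (IsCap closeP AreaModel)

theorem conv_thm (hd : DAT_Stmt) (hc : CDF_Stmt) (hs : SEQ_Stmt) : CONV_Stmt := by
  intro ν _ hGF k hk x hx
  obtain ⟨C, θ, hC, hθ, hθ1, N0, hN0, hdat⟩ := hd k hk
  obtain ⟨M, hM⟩ := hs C θ k N0 hC hθ hθ1 hk hN0 hdat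
  refine (hGF.2 C θ hC hθ hθ1 M x hx).congr' ?_
  filter_upwards [eventually_ge_atTop N0] with n hn
  rw [hM n hn x, hc k n hk (by omega) x]

end Pool.Agent.KCC
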