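import Pool.Agent.Lib_helper24.SapR.Defs

/-!
# Column-convex polygons (MP_f6626d_co): definitions

Words are lists over `Fin 4` (0 = E, 1 = N, 2 = W, 3 = S); `dv`, `ep`, `vs`, `vt`, `dbl`, `SAPw`,
`words`, `W`, `rv` are those of `Lib_helper27`, `rot2`, `wordsUpTo` those of
`Lib_helper24/SapR/Defs`. The line number `h` is the vertical line `x = h + 1/2`.

An even cut (e-cut) is a line which is crossed by exactly two steps, at an even distance `2 g`.
All gaps `g` below are HALF gaps, all half lengths are `(number of steps) / 2`.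
-/

set_option autoImplicit false

namespace Pool.Agent.KCC

open Finset Pool.Agent.Lib27
open Pool.Agent.SapR (rot2 wordsUpTo)

/-- words -/
abbrev Wd : Type := List (Fin 4)

/-- second coordinates (in the order of the word) of the steps of the word `w`, started at `p`,
which cross the line `x = h + 1/2` -/
def cx (h : ℤ) : ℤ × ℤ → Wd → List ℤ
  | _, [] => []
  | p, s :: t => (if (s = 0 ∧ p.1 = h) ∨ (s = 2 ∧ p.1 = h + 1) then [p.2] else []) ++
      cx h (p + dv s) t

/-- number of steps of the word `w`, started at `0`, which cross the line `x = h + 1/2` -/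
def cr (w : Wd) (h : ℤ) : ℕ := (cx h 0 w).length

/-- the line `x = h + 1/2` is an even cut of the word `w` -/
def EC (w : Wd) (h : ℤ) : Prop := ∃ y y' : ℤ, cx h 0 w = [y, y'] ∧ Even (y - y')

/-- every line is crossed at most `2 k` times -/
def Nar (k : ℕ) (w : Wd) : Prop := ∀ h : ℤ, cr w h ≤ 2 * k

/-! ### closed words -/

open Classical in
/-- words of the `k`-column-convex polygons of perimeter `2n` -/
noncomputable def Fam (k n : ℕ) : Finset Wd := (W n).filter (fun s => Nar k s)

open Classical in
/-- words of the `k`-column-convex polygons of perimeter `2n` without even cut -/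
noncomputable def NoCut (k n : ℕ) : Finset Wd :=
  (W n).filter (fun s => Nar k s ∧ ∀ h : ℤ, ¬ EC s h)

/-! ### arches and caps -/

/-- Arches of gap `g`: self-avoiding words from the origin to `(0, 2 g)` whose interior vertices
are on the right of the column `0`. (So the first step is E, the last step is W, and these are the
only steps which cross the line number `0`.) -/
def Arch (g : ℤ) (w : Wd) : Prop :=
  w ≠ [] ∧ ep 0 w = (0, 2 * g) ∧ (vt 0 w).Nodup ∧ ∀ p ∈ (vs 0 w).tail, 0 < p.1

open Classical in
/-- arches of gap `g` with `N` steps -/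
noncomputable def ArchSet (k : ℕ) (g : ℤ) (N : ℕ) : Finset Wd :=
  (words N).filter (fun w => Arch g w ∧ Nar k w)

open Classical in
/-- caps of gap `g` with `N` steps: arches without even cut on the right of the line `0` -/
noncomputable def CapSet (k : ℕ) (g : ℤ) (N : ℕ) : Finset Wd :=
  (words N).filter (fun w => Arch g w ∧ Nar k w ∧ ∀ h : ℤ, 1 ≤ h → ¬ EC w h)

/-- a word without its first and its last step -/
def strip (T : Wd) : Wd := T.tail.dropLast

/-- the polygon word of an arch `w` and an arch `T`: `w`, then `T` without its first and last step,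
rotated by 180 degrees -/
def glue (w T : Wd) : Wd := w ++ rot2 (strip T)

/-! ### pieces -/

/-- Pairs of strands `(U, D)` in a strip: `U` goes from the column `0` to the column
`h = (ep 0 U).1 > 0`, all its vertices except the first one are in the columns `1..h`; `D` goes
back by `h` columns, all its vertices except the last one are in the columns `1..h`. -/
def StripPair (U D : Wd) : Prop :=
  0 < (ep 0 U).1 ∧ (ep 0 D).1 = -(ep 0 U).1 ∧ (vt 0 U).Nodup ∧ (vt 0 D).Nodup ∧
  (∀ p ∈ (vt 0 U).tail, 0 < p.1 ∧ p.1 ≤ (ep 0 U).1) ∧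
  (∀ p ∈ vs 0 D, (ep 0 D).1 < p.1 ∧ p.1 ≤ 0)

/-- Free pieces: strip pairs with an even number of steps, at most `2 k` crossings of every line,
without intermediate even cut. -/
def FreePiece (k : ℕ) (U D : Wd) : Prop :=
  StripPair U D ∧ Even (U.length + D.length) ∧ Nar k (U ++ D) ∧
    ∀ h : ℤ, 0 < h → h < (ep 0 U).1 → ¬ EC (U ++ D) h

/-- change of the (half) gap along a piece -/
def jump (p : Wd × Wd) : ℤ := -(((ep 0 p.1).2 + (ep 0 p.2).2) / 2)

/-- width of a piece -/
def ht (p : Wd × Wd) : ℤ := (ep 0 p.1).1

/-- width of a piece as a natural number -/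
def htn (p : Wd × Wd) : ℕ := (ht p).toNat

/-- half of the number of steps of a piece -/
def hl (p : Wd × Wd) : ℕ := (p.1.length + p.2.length) / 2

/-- area offset of a piece -/
def off (p : Wd × Wd) : ℤ := dbl 0 p.1 + dbl 0 p.2

/-- the two strands are disjoint when the left gap is `2 g` -/
def Disj (g : ℤ) (p : Wd × Wd) : Prop :=
  List.Disjoint (vt 0 p.1) (vt (ep 0 p.1 + (0, 2 * (g + jump p))) p.2)

open Classical in
/-- the free pieces with at most `2 n` steps -/
noncomputable def Pc (k n : ℕ) : Finset (Wd × Wd) :=
  (wordsUpTo (2 * n) ×ˢ wordsUpTo (2 * n)).filter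
    (fun p => FreePiece k p.1 p.2 ∧ p.1.length + p.2.length ≤ 2 * n)

open Classical in
/-- the pieces allowed when the left gap is `2 g` -/
noncomputable def allowed (k n : ℕ) (g : ℤ) : Finset (Wd × Wd) :=
  (Pc k n).filter (fun p => 1 ≤ g ∧ 1 ≤ g + jump p ∧ Disj g p)

/-- rotation of a piece by 180 degrees (the crossing edges of the left line are moved) -/
def flip (p : Wd × Wd) : Wd × Wd := (0 :: rot2 p.2.dropLast, rot2 p.1.tail ++ [2])

end Pool.Agent.KCC
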