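import Pool.Agent.Lib_helper41.SapR.FinalDefs

/-!
Definitions for the result on `k`-column-convex self-avoiding polygons (problem MP_f6626d_co).
`SAP`, `pos`, `area` are in `Lib_helper27/Defs.lean`, `Staircase`, `areaCdf` in
`Lib_helper41/SapR/FinalDefs.lean`.
-/

set_option autoImplicit false

namespace Pool.Agent.AreaLaw

/-- The number of edges of the polygon `s` which cross the vertical line `x = h + 1/2`. -/
def vcross (n : ℕ) (s : Fin (2 * n) → Fin 4) (h : ℤ) : ℕ :=
  ((Finset.range (2 * n)).filter (fun i =>
    ((pos n s i).1 = h ∧ (pos n s (i + 1)).1 = h + 1) ∨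
      ((pos n s i).1 = h + 1 ∧ (pos n s (i + 1)).1 = h))).card

open Classical in
/-- The `k`-column-convex self-avoiding polygons of perimeter `2n`: every vertical line
`x = h + 1/2` crosses the polygon at most `2k` times (equivalently, it meets the enclosed region
in at most `k` intervals; `k = 1` gives the column-convex polygons). -/
noncomputable def ColConvex (k n : ℕ) : Finset (Fin (2 * n) → Fin 4) :=
  (SAP n).filter (fun s => ∀ h : ℤ, vcross n s h ≤ 2 * k)

end Pool.Agent.AreaLaw
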