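import Pool.Agent.KCC.Stmts

/-!
GLU: a canonical word of a column-convex polygon with positive area is glued from an arch and a cap.
-/

set_option autoImplicit false

namespace Pool.Agent.KCC

open Finset Pool.Agent.Lib27
open Pool.Agent.SapR (rot2 wordsUpTo)

namespace GLU

/-! ### rotation by 180 degrees -/

lemma two_two (a : Fin 4) : a + 2 + 2 = a := by revert a; decide

lemma add_two_zero (a : Fin 4) : a + 2 = 0 ↔ a = 2 := by revert a; decide

lemma add_two_two (a : Fin 4) : a + 2 = 2 ↔ a = 0 := by revert a; decide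

lemma dv_left (a : Fin 4) : (dv a).1 = -1 ∧ a = 2 ∨ 0 ≤ (dv a).1 := by revert a; decide

lemma dv_right (a : Fin 4) : (dv a).1 = 1 ∧ a = 0 ∨ (dv a).1 ≤ 0 := by revert a; decide

lemma rot2_rot2 (w : Wd) : rot2 (rot2 w) = w := by
  induction w with
  | nil => rfl
  | cons a w ih =>
    show (a + 2 + 2) :: rot2 (rot2 w) = a :: w
    rw [ih, two_two]

lemma rot2_length (w : Wd) : (rot2 w).length = w.length := by simp [rot2]

lemma rot2_cons (a : Fin 4) (w : Wd) : rot2 (a :: w) = (a + 2) :: rot2 w := rfl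

lemma ep_rot2 (w : Wd) (p : ℤ × ℤ) : ep (-p) (rot2 w) = - ep p w := by
  induction w generalizing p with
  | nil => rfl
  | cons a w ih =>
    rw [rot2_cons, ep_cons, ep_cons, dv_add_two, ← ih]
    congr 1
    abel

lemma vt_rot2 (w : Wd) (p : ℤ × ℤ) : vt (-p) (rot2 w) = (vt p w).map Neg.neg := by
  induction w generalizing p with
  | nil => rfl
  | cons a w ih =>
    rw [rot2_cons, vt_cons, vt_cons, dv_add_two, List.map_cons, ← ih]
    congr 2
    abel

lemma vs_rot2 (w : Wd) (p : ℤ × ℤ) : vs (-p) (rot2 w) = (vs p w).map Neg.neg := by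
  induction w generalizing p with
  | nil => rfl
  | cons a w ih =>
    rw [rot2_cons, vs_cons, vs_cons, dv_add_two, List.map_cons, ← ih]
    congr 2
    abel

lemma dbl_rot2 (w : Wd) (p : ℤ × ℤ) : dbl (-p) (rot2 w) = dbl p w := by
  induction w generalizing p with
  | nil => rfl
  | cons a w ih =>
    rw [rot2_cons, dbl_cons, dbl_cons, dv_add_two, ← ih]
    have h1 : -p + -dv a = -(p + dv a) := by abel
    rw [h1]
    simp only [Prod.fst_neg, Prod.snd_neg]
    ring

/-! ### crossings -/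

lemma cx_append (h : ℤ) (p : ℤ × ℤ) (u v : Wd) : cx h p (u ++ v) = cx h p u ++ cx h (ep p u) v := by
  induction u generalizing p with
  | nil => rfl
  | cons a u ih =>
    show _ ++ cx h (p + dv a) (u ++ v) = (_ ++ cx h (p + dv a) u) ++ cx h (ep (p + dv a) u) v
    rw [ih, List.append_assoc]

lemma cx_add (h : ℤ) (p q : ℤ × ℤ) (w : Wd) :
    cx h (p + q) w = (cx (h - q.1) p w).map (· + q.2) := by
  induction w generalizing p with
  | nil => rfl
  | cons a w ih =>
    have h1 : p + q + dv a = p + dv a + q := by abel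
    show (if (a = 0 ∧ (p + q).1 = h) ∨ (a = 2 ∧ (p + q).1 = h + 1) then [(p + q).2] else []) ++
      cx h (p + q + dv a) w = ((if (a = 0 ∧ p.1 = h - q.1) ∨ (a = 2 ∧ p.1 = h - q.1 + 1)
        then [p.2] else []) ++ cx (h - q.1) (p + dv a) w).map (· + q.2)
    rw [h1, ih, List.map_append]
    congr 1
    have h2 : ((a = 0 ∧ (p + q).1 = h) ∨ (a = 2 ∧ (p + q).1 = h + 1)) ↔
        ((a = 0 ∧ p.1 = h - q.1) ∨ (a = 2 ∧ p.1 = h - q.1 + 1)) := by
      rw [Prod.fst_add]
      constructor
      · rintro (⟨h3, h4⟩ | ⟨h3, h4⟩)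
        · exact Or.inl ⟨h3, by omega⟩
        · exact Or.inr ⟨h3, by omega⟩
      · rintro (⟨h3, h4⟩ | ⟨h3, h4⟩)
        · exact Or.inl ⟨h3, by omega⟩
        · exact Or.inr ⟨h3, by omega⟩
    by_cases h3 : (a = 0 ∧ (p + q).1 = h) ∨ (a = 2 ∧ (p + q).1 = h + 1)
    · rw [if_pos h3, if_pos (h2.1 h3)]; rfl
    · rw [if_neg h3, if_neg (fun h4 => h3 (h2.2 h4))]; rfl

lemma cx_rot2 (h : ℤ) (p : ℤ × ℤ) (w : Wd) :
    cx h (-p) (rot2 w) = (cx (-h - 1) p w).map Neg.neg := by
  induction w generalizing p with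
  | nil => rfl
  | cons a w ih =>
    have h1 : -p + dv (a + 2) = -(p + dv a) := by rw [dv_add_two]; abel
    show (if (a + 2 = 0 ∧ (-p).1 = h) ∨ (a + 2 = 2 ∧ (-p).1 = h + 1) then [(-p).2] else []) ++
      cx h (-p + dv (a + 2)) (rot2 w) = ((if (a = 0 ∧ p.1 = -h - 1) ∨ (a = 2 ∧ p.1 = -h - 1 + 1)
        then [p.2] else []) ++ cx (-h - 1) (p + dv a) w).map Neg.neg
    rw [h1, ih, List.map_append]
    congr 1
    have h2 : ((a + 2 = 0 ∧ (-p).1 = h) ∨ (a + 2 = 2 ∧ (-p).1 = h + 1)) ↔
        ((a = 0 ∧ p.1 = -h - 1) ∨ (a = 2 ∧ p.1 = -h - 1 + 1)) := by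
      rw [Prod.fst_neg, add_two_zero, add_two_two]
      constructor
      · rintro (⟨h3, h4⟩ | ⟨h3, h4⟩)
        · exact Or.inr ⟨h3, by omega⟩
        · exact Or.inl ⟨h3, by omega⟩
      · rintro (⟨h3, h4⟩ | ⟨h3, h4⟩)
        · exact Or.inr ⟨h3, by omega⟩
        · exact Or.inl ⟨h3, by omega⟩
    by_cases h3 : (a + 2 = 0 ∧ (-p).1 = h) ∨ (a + 2 = 2 ∧ (-p).1 = h + 1)
    · rw [if_pos h3, if_pos (h2.1 h3)]; rfl
    · rw [if_neg h3, if_neg (fun h4 => h3 (h2.2 h4))]; rfl

lemma cx_right (h : ℤ) (p : ℤ × ℤ) (w : Wd) (hw : ∀ q ∈ vt p w, h + 1 ≤ q.1) : cx h p w = [] := by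
  induction w generalizing p with
  | nil => rfl
  | cons a w ih =>
    have h1 := ih (p + dv a) (fun q hq => hw q (by rw [vt_cons]; exact List.mem_cons_of_mem _ hq))
    have h2 := hw p (by rw [vt_cons]; exact List.mem_cons_self)
    have h3 := hw (p + dv a) (by
      rw [vt_cons]; exact List.mem_cons_of_mem _ (mem_vt_self _ _))
    show (if (a = 0 ∧ p.1 = h) ∨ (a = 2 ∧ p.1 = h + 1) then [p.2] else []) ++ _ = _
    rw [h1, List.append_nil, if_neg]
    rintro (⟨_, h5⟩ | ⟨h4, h5⟩)
    · omega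
    · subst h4
      rw [Prod.fst_add] at h3
      have h6 : (dv 2).1 = -1 := by decide
      omega

lemma stay_right (h : ℤ) (p : ℤ × ℤ) (w : Wd) (hp : h + 1 ≤ p.1) (hw : cx h p w = []) :
    ∀ q ∈ vt p w, h + 1 ≤ q.1 := by
  induction w generalizing p with
  | nil =>
    intro q hq
    rw [vt_nil, List.mem_singleton] at hq
    rw [hq]; exact hp
  | cons a w ih =>
    have h0 : (if (a = 0 ∧ p.1 = h) ∨ (a = 2 ∧ p.1 = h + 1) then [p.2] else []) ++
        cx h (p + dv a) w = [] := hw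
    rw [List.append_eq_nil_iff] at h0
    obtain ⟨h1, h2⟩ := h0
    have h3 : ¬ ((a = 0 ∧ p.1 = h) ∨ (a = 2 ∧ p.1 = h + 1)) := by
      intro h4
      rw [if_pos h4] at h1
      exact absurd h1 (by simp)
    have h4 : h + 1 ≤ (p + dv a).1 := by
      rw [Prod.fst_add]
      rcases dv_left a with h5 | h5
      · have h6 : p.1 ≠ h + 1 := fun h7 => h3 (Or.inr ⟨h5.2, h7⟩)
        omega
      · omega
    intro q hq
    rw [vt_cons, List.mem_cons] at hq
    rcases hq with rfl | hq
    · exact hp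
    · exact ih (p + dv a) h4 h2 q hq

lemma stay_left (h : ℤ) (p : ℤ × ℤ) (w : Wd) (hp : p.1 ≤ h) (hw : cx h p w = []) :
    ∀ q ∈ vt p w, q.1 ≤ h := by
  induction w generalizing p with
  | nil =>
    intro q hq
    rw [vt_nil, List.mem_singleton] at hq
    rw [hq]; exact hp
  | cons a w ih =>
    have h0 : (if (a = 0 ∧ p.1 = h) ∨ (a = 2 ∧ p.1 = h + 1) then [p.2] else []) ++
        cx h (p + dv a) w = [] := hw
    rw [List.append_eq_nil_iff] at h0
    obtain ⟨h1, h2⟩ := h0
    have h3 : ¬ ((a = 0 ∧ p.1 = h) ∨ (a = 2 ∧ p.1 = h + 1)) := by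
      intro h4
      rw [if_pos h4] at h1
      exact absurd h1 (by simp)
    have h4 : (p + dv a).1 ≤ h := by
      rw [Prod.fst_add]
      rcases dv_right a with h5 | h5
      · have h6 : p.1 ≠ h := fun h7 => h3 (Or.inl ⟨h5.2, h7⟩)
        omega
      · omega
    intro q hq
    rw [vt_cons, List.mem_cons] at hq
    rcases hq with rfl | hq
    · exact hp
    · exact ih (p + dv a) h4 h2 q hq

/-- the first crossing -/
lemma first_cross (h : ℤ) (p : ℤ × ℤ) (w : Wd) (y : ℤ) (l : List ℤ) (hw : cx h p w = y :: l) :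
    ∃ (u : Wd) (a : Fin 4) (v : Wd), w = u ++ a :: v ∧ cx h p u = [] ∧ (ep p u).2 = y ∧
      ((a = 0 ∧ (ep p u).1 = h) ∨ (a = 2 ∧ (ep p u).1 = h + 1)) ∧ cx h (ep p u + dv a) v = l := by
  induction w generalizing p with
  | nil => exact absurd hw (by simp [cx])
  | cons a w ih =>
    have h0 : (if (a = 0 ∧ p.1 = h) ∨ (a = 2 ∧ p.1 = h + 1) then [p.2] else []) ++
        cx h (p + dv a) w = y :: l := hw
    by_cases h1 : (a = 0 ∧ p.1 = h) ∨ (a = 2 ∧ p.1 = h + 1)
    · rw [if_pos h1] at h0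
      simp only [List.cons_append, List.nil_append, List.cons.injEq] at h0
      exact ⟨[], a, w, rfl, rfl, h0.1, h1, h0.2⟩
    · rw [if_neg h1, List.nil_append] at h0
      obtain ⟨u, b, v, e1, e2, e3, e4, e5⟩ := ih (p + dv a) h0
      refine ⟨a :: u, b, v, by rw [e1]; rfl, ?_, e3, e4, e5⟩
      show (if (a = 0 ∧ p.1 = h) ∨ (a = 2 ∧ p.1 = h + 1) then [p.2] else []) ++
        cx h (p + dv a) u = []
      rw [if_neg h1, e2]; rfl

/-! ### half polygons -/

/-- the interior of an arch, moved to the column `0` -/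
def Half (g : ℤ) (u : Wd) : Prop :=
  ep 0 u = (0, 2 * g) ∧ (vt 0 u).Nodup ∧ ∀ p ∈ vt 0 u, 0 ≤ p.1

lemma dv0 : dv 0 = ((1 : ℤ), (0 : ℤ)) := rfl
lemma dv2 : dv 2 = ((-1 : ℤ), (0 : ℤ)) := rfl

lemma vt_arch (u : Wd) (g : ℤ) (h : ep 0 u = (0, 2 * g)) :
    vt 0 (0 :: u ++ [2]) = 0 :: ((vt 0 u).map (· + ((1 : ℤ), (0 : ℤ))) ++ [(0, 2 * g)]) := by
  have h1 : ep (0 + dv 0) u = (1, 2 * g) := by
    rw [zero_add, ep_eq, h, dv0]; simp
  show 0 :: vt (0 + dv 0) (u ++ [2]) = _
  rw [vt_append, h1, ← vt_add]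
  have h2 : vt (1, 2 * g) ([2] : Wd) = [(1, 2 * g), (0, 2 * g)] := by
    rw [vt_cons, vt_nil, dv2]; simp
  rw [h2]
  have h3 : vt (0 + ((1 : ℤ), (0 : ℤ))) u = vs (0 + dv 0) u ++ [(1, 2 * g)] := by
    unfold vt
    rw [← dv0, h1]
  rw [h3]
  simp

lemma arch_iff (g : ℤ) (w : Wd) : Arch g w ↔ g ≠ 0 ∧ ∃ u, w = 0 :: u ++ [2] ∧ Half g u := by
  constructor
  · rintro ⟨h1, h2, h3, h4⟩
    have hg : g ≠ 0 := by
      rintro rfl
      cases w with
      | nil => exact h1 rfl
      | cons a w =>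
        rw [vt_cons, List.nodup_cons] at h3
        apply h3.1
        have h5 := ep_mem_vt (0 + dv a) w
        rw [ep_cons] at h2
        rw [h2] at h5
        exact h5
    refine ⟨hg, ?_⟩
    cases w with
    | nil => exact absurd rfl h1
    | cons a w =>
      rcases List.eq_nil_or_concat w with rfl | ⟨u, b, rfl⟩
      · exfalso
        rw [ep_cons, ep_nil, zero_add] at h2
        have h5 : ∀ a : Fin 4, (dv a).1 = 0 → (dv a).2 = 1 ∨ (dv a).2 = -1 := by decide
        have h6 := h5 a (by rw [h2])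
        rw [h2] at h6
        simp only at h6
        omega
      · rw [List.concat_eq_append] at h2 h3 h4 ⊢
        have hpos : ∀ p ∈ vt (0 + dv a) u, 0 < p.1 := by
          intro p hp
          apply h4
          rw [vs_cons, List.tail_cons, vs_append]
          unfold vt at hp
          rw [List.mem_append] at hp ⊢
          rcases hp with hp | hp
          · exact Or.inl hp
          · right
            rw [vs_cons]
            rw [List.mem_singleton] at hp
            rw [hp]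
            exact List.mem_cons_self
        have ha : a = 0 := by
          have h5 := hpos _ (mem_vt_self _ _)
          have h6 : ∀ a : Fin 4, 0 < (0 + dv a).1 → a = 0 := by decide
          exact h6 a h5
        subst ha
        have h5 := hpos _ (ep_mem_vt _ _)
        rw [ep_cons, ep_append, ep_cons, ep_nil] at h2
        have hb : b = 2 := by
          have h6 : ∀ b : Fin 4, (dv b).1 < 0 → b = 2 := by decide
          apply h6
          have h7 : (ep (0 + dv 0) u + dv b).1 = 0 := by rw [h2]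
          rw [Prod.fst_add] at h7
          omega
        subst hb
        refine ⟨u, rfl, ?_⟩
        have e1 : ep 0 u = (0, 2 * g) := by
          have h6 : ep (0 + dv 0) u + dv 2 = ep 0 u := by
            rw [zero_add, ep_eq, dv0, dv2]
            ext <;> simp
          rw [← h6, h2]
        refine ⟨e1, ?_, ?_⟩
        · have h6 : (vt 0 (0 :: u ++ [2])).Nodup := h3
          rw [vt_arch u g e1, List.nodup_cons] at h6
          exact (h6.2.of_append_left).of_map _
        · intro p hp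
          have h6 : p + dv 0 ∈ vt (0 + dv 0) u := by
            rw [vt_add]
            exact List.mem_map_of_mem hp
          have h7 := hpos _ h6
          rw [dv0, Prod.fst_add] at h7
          simp only at h7
          omega
  · rintro ⟨hg, u, rfl, h1, h2, h3⟩
    refine ⟨by simp, ?_, ?_, ?_⟩
    · show ep (0 + dv 0) (u ++ [2]) = _
      rw [ep_append, zero_add, ep_eq (dv 0), h1, ep_cons, ep_nil, dv0, dv2]
      ext <;> simp
    · rw [vt_arch u g h1, List.nodup_cons]
      constructor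
      · rw [List.mem_append, List.mem_map, List.mem_singleton]
        rintro (⟨p, hp, h4⟩ | h4)
        · have h5 := h3 p hp
          have h6 : (p + ((1 : ℤ), (0 : ℤ))).1 = 0 := by rw [h4]; rfl
          rw [Prod.fst_add] at h6
          simp only at h6
          omega
        · have h6 : (0 : ℤ) = 2 * g := congrArg Prod.snd h4
          omega
      · rw [List.nodup_append]
        refine ⟨h2.map (add_left_injective _), by simp, ?_⟩
        intro a ha b hb hab
        rw [List.mem_map] at ha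
        rw [List.mem_singleton] at hb
        obtain ⟨p, hp, rfl⟩ := ha
        have h5 := h3 p hp
        rw [hb] at hab
        have h6 : (p + ((1 : ℤ), (0 : ℤ))).1 = 0 := by rw [hab]
        rw [Prod.fst_add] at h6
        simp only at h6
        omega
    · intro p hp
      have h4 : p ∈ vt (0 + dv 0) u := by
        have h5 : vs 0 (0 :: u ++ [2]) = 0 :: (vs (0 + dv 0) u ++ [ep (0 + dv 0) u]) := by
          show 0 :: vs (0 + dv 0) (u ++ [2]) = _
          rw [vs_append, vs_cons, vs_nil]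
        rw [h5, List.tail_cons] at hp
        exact hp
      rw [vt_add, List.mem_map] at h4
      obtain ⟨q, hq, rfl⟩ := h4
      have h5 := h3 q hq
      rw [dv0, Prod.fst_add]
      simp only
      omega

/-! ### glued words -/

lemma half_vs (g : ℤ) (u : Wd) (h : Half g u) : (0, 2 * g) ∉ vs 0 u := by
  intro h1
  have h2 := h.2.1
  unfold vt at h2
  rw [h.1, List.nodup_append] at h2
  exact h2.2.2 _ h1 _ (List.mem_singleton.2 rfl) rfl

lemma half_cx (g : ℤ) (u : Wd) (h : Half g u) (j : ℤ) (hj : j < 0) : cx j 0 u = [] :=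
  cx_right j 0 u (fun p hp => by have := h.2.2 p hp; omega)

lemma map_add_zero_int (l : List ℤ) : l.map (· + (0 : ℤ)) = l := by
  induction l with
  | nil => rfl
  | cons a l ih => rw [List.map_cons, ih, add_zero]

/-- crossings of an arch -/
lemma cx_arch (g : ℤ) (u : Wd) (h : Half g u) (j : ℤ) :
    cx j 0 (0 :: u ++ [2]) = if j = 0 then [0, 2 * g] else cx (j - 1) 0 u := by
  have h0 : cx j 0 (0 :: u ++ [2]) = (if j = 0 then [0] else []) ++ (cx (j - 1) 0 u ++
      if j = 0 then [2 * g] else []) := by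
    show (if ((0 : Fin 4) = 0 ∧ (0 : ℤ × ℤ).1 = j) ∨ ((0 : Fin 4) = 2 ∧ (0 : ℤ × ℤ).1 = j + 1) then
      [(0 : ℤ × ℤ).2] else []) ++ cx j (0 + dv 0) (u ++ [2]) = _
    congr 1
    · by_cases hj : j = 0
      · rw [if_pos (Or.inl ⟨rfl, by rw [hj]; rfl⟩), if_pos hj]; rfl
      · rw [if_neg, if_neg hj]
        rintro (⟨_, h1⟩ | ⟨h1, _⟩)
        · exact hj h1.symm
        · exact absurd h1 (by decide)
    · rw [cx_append]
      congr 1
      · rw [cx_add, dv0, map_add_zero_int]
      · have h1 : ep (0 + dv 0) u = (1, 2 * g) := by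
          rw [zero_add, ep_eq, h.1, dv0]; simp
        rw [h1]
        show (if ((2 : Fin 4) = 0 ∧ (1 : ℤ) = j) ∨ ((2 : Fin 4) = 2 ∧ (1 : ℤ) = j + 1) then
          [2 * g] else []) ++ [] = _
        rw [List.append_nil]
        by_cases hj : j = 0
        · rw [if_pos (Or.inr ⟨rfl, by omega⟩), if_pos hj]
        · rw [if_neg, if_neg hj]
          rintro (⟨h1, _⟩ | ⟨_, h1⟩)
          · exact absurd h1 (by decide)
          · omega
  rw [h0]
  by_cases hj : j = 0
  · rw [if_pos hj, if_pos hj, if_pos hj, half_cx g u h (j - 1) (by omega)]; rfl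
  · rw [if_neg hj, if_neg hj, if_neg hj, List.nil_append, List.append_nil]

/-- the left half -/
lemma cx_left (g : ℤ) (v : Wd) (j : ℤ) :
    cx j (0, 2 * g) (rot2 v) = (cx (-j - 1) 0 v).map (fun y => 2 * g - y) := by
  have h1 : ((0 : ℤ), 2 * g) = -0 + (0, 2 * g) := by simp
  rw [h1, cx_add]
  simp only
  rw [sub_zero, cx_rot2, List.map_map]
  apply List.map_congr_left
  intro y _
  simp only [Function.comp]
  ring

lemma ep_arch (g : ℤ) (u : Wd) (h : Half g u) : ep 0 (0 :: u ++ [2]) = (0, 2 * g) := by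
  show ep (0 + dv 0) (u ++ [2]) = _
  rw [ep_append, zero_add, ep_eq (dv 0), h.1, ep_cons, ep_nil, dv0, dv2]
  ext <;> simp

lemma strip_arch (v : Wd) : strip (0 :: v ++ [2]) = v := by
  unfold strip
  rw [List.cons_append, List.tail_cons, List.dropLast_concat]

/-- crossings of a glued word -/
lemma cx_glue (g : ℤ) (u v : Wd) (hu : Half g u) (hv : Half g v) (j : ℤ) :
    cx j 0 ((0 :: u ++ [2]) ++ rot2 v) = if j < 0 then (cx (-j - 1) 0 v).map (fun y => 2 * g - y)
      else cx j 0 (0 :: u ++ [2]) := by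
  rw [cx_append, ep_arch g u hu, cx_left]
  by_cases hj : j < 0
  · rw [if_pos hj, cx_arch g u hu, if_neg (by omega), half_cx g u hu (j - 1) (by omega),
      List.nil_append]
  · rw [if_neg hj, half_cx g v hv (-j - 1) (by omega)]
    simp

lemma cr_glue (g : ℤ) (u v : Wd) (hu : Half g u) (hv : Half g v) (j : ℤ) :
    cr ((0 :: u ++ [2]) ++ rot2 v) j =
      if j < 0 then cr (0 :: v ++ [2]) (-j) else cr (0 :: u ++ [2]) j := by
  unfold cr
  rw [cx_glue g u v hu hv]
  by_cases hj : j < 0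
  · rw [if_pos hj, if_pos hj, List.length_map, cx_arch g v hv, if_neg (by omega)]
  · rw [if_neg hj, if_neg hj]

lemma ec_glue_neg (g : ℤ) (u v : Wd) (hu : Half g u) (hv : Half g v) (j : ℤ) (hj : j < 0) :
    EC ((0 :: u ++ [2]) ++ rot2 v) j ↔ EC (0 :: v ++ [2]) (-j) := by
  unfold EC
  rw [cx_glue g u v hu hv, if_pos hj, cx_arch g v hv, if_neg (by omega)]
  constructor
  · rintro ⟨y, y', h1, h2⟩
    rcases hl : cx (-j - 1) 0 v with _ | ⟨a, _ | ⟨b, _ | ⟨c, l⟩⟩⟩
    · rw [hl] at h1; exact absurd h1 (by simp)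
    · rw [hl] at h1; exact absurd h1 (by simp)
    · rw [hl] at h1
      simp only [List.map_cons, List.map_nil, List.cons.injEq, and_true] at h1
      refine ⟨a, b, rfl, ?_⟩
      have h3 : a - b = -(y - y') := by rw [← h1.1, ← h1.2]; ring
      rw [h3]
      exact h2.neg
    · rw [hl] at h1; exact absurd h1 (by simp)
  · rintro ⟨a, b, h1, h2⟩
    refine ⟨2 * g - a, 2 * g - b, by rw [h1]; rfl, ?_⟩
    have h3 : 2 * g - a - (2 * g - b) = -(a - b) := by ring
    rw [h3]
    exact h2.neg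

lemma ec_glue_zero (g : ℤ) (u v : Wd) (hu : Half g u) (hv : Half g v) :
    EC ((0 :: u ++ [2]) ++ rot2 v) 0 := by
  unfold EC
  rw [cx_glue g u v hu hv, if_neg (by omega), cx_arch g u hu, if_pos rfl]
  exact ⟨0, 2 * g, rfl, ⟨-g, by ring⟩⟩

lemma cr_out (g : ℤ) (u : Wd) (hu : Half g u) (j : ℤ) (hj : j < 0) :
    cr (0 :: u ++ [2]) j = 0 := by
  unfold cr
  rw [cx_arch g u hu, if_neg (by omega), half_cx g u hu (j - 1) (by omega)]
  rfl

lemma cr_mid (g : ℤ) (u : Wd) (hu : Half g u) : cr (0 :: u ++ [2]) 0 = 2 := by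
  unfold cr
  rw [cx_arch g u hu, if_pos rfl]
  rfl

lemma nar_glue (k : ℕ) (hk : 1 ≤ k) (g : ℤ) (u v : Wd) (hu : Half g u) (hv : Half g v) :
    Nar k ((0 :: u ++ [2]) ++ rot2 v) ↔ Nar k (0 :: u ++ [2]) ∧ Nar k (0 :: v ++ [2]) := by
  constructor
  · intro h
    constructor
    · intro j
      by_cases hj : j < 0
      · rw [cr_out g u hu j hj]; exact Nat.zero_le _
      · have h1 := h j
        rw [cr_glue g u v hu hv, if_neg hj] at h1
        exact h1
    · intro j
      rcases lt_trichotomy j 0 with hj | hj | hj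
      · rw [cr_out g v hv j hj]; exact Nat.zero_le _
      · rw [hj, cr_mid g v hv]; omega
      · have h1 := h (-j)
        rw [cr_glue g u v hu hv, if_pos (by omega), neg_neg] at h1
        exact h1
  · rintro ⟨h1, h2⟩ j
    rw [cr_glue g u v hu hv]
    split_ifs
    · exact h2 (-j)
    · exact h1 j

lemma vs_glue (g : ℤ) (u v : Wd) (hu : Half g u) :
    vs 0 ((0 :: u ++ [2]) ++ rot2 v) = 0 :: ((vt 0 u).map (· + ((1 : ℤ), (0 : ℤ))) ++
      (vs 0 v).map (fun p => (0, 2 * g) - p)) := by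
  rw [vs_append, ep_arch g u hu]
  have h1 : vs 0 (0 :: u ++ [2]) = 0 :: (vt 0 u).map (· + ((1 : ℤ), (0 : ℤ))) := by
    have h2 := vt_arch u g hu.1
    have h3 : vt 0 (0 :: u ++ [2]) = vs 0 (0 :: u ++ [2]) ++ [ep 0 (0 :: u ++ [2])] := rfl
    rw [h3, ep_arch g u hu, ← List.cons_append] at h2
    exact List.append_cancel_right h2
  rw [h1, vs_eq (0, 2 * g) (rot2 v)]
  have h2 : vs 0 (rot2 v) = (vs 0 v).map Neg.neg := by
    have := vs_rot2 v 0
    rwa [neg_zero] at this
  rw [h2, List.map_map, List.cons_append]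
  congr 2
  apply List.map_congr_left
  intro p _
  simp only [Function.comp]
  abel

lemma ep_glue (g : ℤ) (u v : Wd) (hu : Half g u) (hv : ep 0 v = (0, 2 * g)) :
    ep 0 ((0 :: u ++ [2]) ++ rot2 v) = 0 := by
  rw [ep_append, ep_arch g u hu, ep_eq]
  have h2 : ep 0 (rot2 v) = - ep 0 v := by
    have := ep_rot2 v 0
    rwa [neg_zero] at this
  rw [h2, hv]
  simp

lemma SAPw_glue (g : ℤ) (u v : Wd) (hu : Half g u) (hv : Half g v) :
    SAPw ((0 :: u ++ [2]) ++ rot2 v) := by
  refine ⟨ep_glue g u v hu hv.1, ?_⟩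
  rw [vs_glue g u v hu, List.nodup_cons]
  have hA : ∀ p ∈ (vt 0 u).map (· + ((1 : ℤ), (0 : ℤ))), 1 ≤ p.1 := by
    intro p hp
    rw [List.mem_map] at hp
    obtain ⟨q, hq, rfl⟩ := hp
    have := hu.2.2 q hq
    rw [Prod.fst_add]
    simp only
    omega
  have hB : ∀ p ∈ (vs 0 v).map (fun p => ((0 : ℤ), 2 * g) - p), p.1 ≤ 0 := by
    intro p hp
    rw [List.mem_map] at hp
    obtain ⟨q, hq, rfl⟩ := hp
    have := hv.2.2 q (by unfold vt; exact List.mem_append_left _ hq)
    rw [Prod.fst_sub]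
    simp only
    omega
  constructor
  · rw [List.mem_append]
    rintro (h | h)
    · have := hA 0 h
      simp at this
    · rw [List.mem_map] at h
      obtain ⟨q, hq, h1⟩ := h
      have h2 : q = (0, 2 * g) := (sub_eq_zero.1 h1).symm
      rw [h2] at hq
      exact half_vs g v hv hq
  · rw [List.nodup_append]
    refine ⟨hu.2.1.map (add_left_injective _), ?_, ?_⟩
    · have h1 : (vs 0 v).Nodup := by
        have h2 := hv.2.1
        unfold vt at h2
        exact h2.of_append_left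
      exact h1.map (fun a b hab => sub_right_injective hab)
    · intro a ha b hb hab
      have h1 := hA a ha
      have h2 := hB b hb
      rw [hab] at h1
      omega

/-! ### decomposition -/

lemma half_zero (u : Wd) (h : Half 0 u) : u = [] := by
  cases u with
  | nil => rfl
  | cons a u =>
    exfalso
    obtain ⟨h1, h2, _⟩ := h
    rw [vt_cons, List.nodup_cons] at h2
    apply h2.1
    have h3 := ep_mem_vt (0 + dv a) u
    rw [ep_cons, mul_zero] at h1
    rw [h1] at h3
    exact h3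

lemma decomp (c : Wd) (hS : SAPw c) (h0 : c.getD 0 1 = 0) (hE : EC c 0) :
    ∃ (g : ℤ) (u v : Wd), c = (0 :: u ++ [2]) ++ rot2 v ∧ Half g u ∧ Half g v := by
  cases c with
  | nil => exact absurd h0 (by decide)
  | cons a c' =>
    have ha : a = 0 := h0
    subst ha
    obtain ⟨y, y', h1, h2⟩ := hE
    have h3 : (0 : ℤ) :: cx 0 (0 + dv 0) c' = [y, y'] := h1
    simp only [List.cons.injEq] at h3
    obtain ⟨hy, h4⟩ := h3
    obtain ⟨u, a, v', e1, e2, e3, e4, e5⟩ := first_cross 0 (0 + dv 0) c' y' [] h4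
    have hU := stay_right 0 (0 + dv 0) u (by rw [zero_add, dv0]; norm_num) e2
    have h5 := hU _ (ep_mem_vt _ _)
    have ha : a = 2 ∧ (ep (0 + dv 0) u).1 = 0 + 1 := by
      rcases e4 with e4 | e4
      · omega
      · exact e4
    obtain ⟨rfl, h6⟩ := ha
    obtain ⟨r, hr⟩ := h2
    have hy' : y' = 2 * (-r) := by omega
    have epU : ep (0 + dv 0) u = (1, 2 * (-r)) := by
      ext
      · rw [h6]; rfl
      · rw [e3, hy']
    have epU' : ep (0 + dv 0) u + dv 2 = (0, 2 * (-r)) := by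
      rw [epU, dv2]; simp
    rw [epU'] at e5
    have hV := stay_left 0 (0, 2 * (-r)) v' le_rfl e5
    have hvs : vs 0 (0 :: c') = 0 :: (vs (0 + dv 0) u ++ ep (0 + dv 0) u ::
        vs (0, 2 * (-r)) v') := by
      rw [e1, vs_cons, vs_append, vs_cons, epU']
    have hnd := hS.2
    rw [hvs, List.nodup_cons] at hnd
    obtain ⟨hn1, hn2⟩ := hnd
    have hep : ep (0, 2 * (-r)) v' = 0 := by
      have h7 := hS.1
      rw [e1, ep_cons, ep_append, ep_cons, epU'] at h7
      exact h7
    refine ⟨-r, u, rot2 v', ?_, ⟨?_, ?_, ?_⟩, ?_, ?_, ?_⟩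
    · rw [rot2_rot2, e1]
      simp
    · have h7 : ep (0 + dv 0) u = ep 0 u + dv 0 := ep_add 0 (dv 0) u
      have h8 : ep 0 u = (1, 2 * (-r)) - dv 0 := by rw [← epU, h7]; abel
      rw [h8, dv0]
      simp
    · rw [← nodup_vt (0 + dv 0) u]
      unfold vt
      have h7 : vs (0 + dv 0) u ++ ep (0 + dv 0) u :: vs (0, 2 * (-r)) v' =
          (vs (0 + dv 0) u ++ [ep (0 + dv 0) u]) ++ vs (0, 2 * (-r)) v' := by simp
      rw [h7] at hn2
      exact hn2.of_append_left
    · intro p hp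
      have h7 : p + dv 0 ∈ vt (0 + dv 0) u := by
        rw [vt_add]
        exact List.mem_map_of_mem hp
      have h8 := hU _ h7
      rw [dv0, Prod.fst_add] at h8
      simp only at h8
      omega
    · have h7 : ep 0 (rot2 v') = - ep 0 v' := by
        have := ep_rot2 v' 0
        rwa [neg_zero] at this
      rw [ep_eq] at hep
      rw [h7, eq_neg_of_add_eq_zero_left hep]
      simp
    · have h7 : vt 0 (rot2 v') = (vt 0 v').map Neg.neg := by
        have := vt_rot2 v' 0
        rwa [neg_zero] at this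
      rw [h7]
      refine List.Nodup.map neg_injective ?_
      rw [← nodup_vt (0, 2 * (-r)) v']
      unfold vt
      rw [hep, List.nodup_append]
      rw [List.nodup_append] at hn2
      refine ⟨(List.nodup_cons.1 hn2.2.1).2, by simp, ?_⟩
      intro a ha b hb hab
      rw [List.mem_singleton] at hb
      rw [hab, hb] at ha
      apply hn1
      rw [List.mem_append]
      exact Or.inr (List.mem_cons_of_mem _ ha)
    · intro p hp
      have h7 : vt 0 (rot2 v') = (vt 0 v').map Neg.neg := by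
        have := vt_rot2 v' 0
        rwa [neg_zero] at this
      rw [h7, List.mem_map] at hp
      obtain ⟨q, hq, rfl⟩ := hp
      have h8 : q + (0, 2 * (-r)) ∈ vt (0, 2 * (-r)) v' := by
        rw [vt_eq (0, 2 * (-r)) v']
        exact List.mem_map_of_mem hq
      have h9 := hV _ h8
      rw [Prod.fst_add] at h9
      simp only [add_zero] at h9
      rw [Prod.fst_neg]
      omega

lemma glue_inj (g g' : ℤ) (u v u' v' : Wd) (hu : Half g u) (hu' : Half g' u')
    (h : (0 :: u ++ [2]) ++ rot2 v = (0 :: u' ++ [2]) ++ rot2 v') : u = u' ∧ v = v' := by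
  have key : ∀ (g g' : ℤ) (u u' t a b : Wd), Half g u → Half g' u' → u' = u ++ t →
      2 :: a = t ++ 2 :: b → t = [] := by
    intro g g' u u' t a b h1 h2 h3 h4
    cases t with
    | nil => rfl
    | cons x t =>
      exfalso
      rw [List.cons_append, List.cons.injEq] at h4
      rw [← h4.1] at h3
      have h5 : ep 0 u + dv 2 ∈ vt 0 u' := by
        rw [h3, vt_append, vt_cons, List.mem_append]
        exact Or.inr (List.mem_cons_of_mem _ (mem_vt_self _ _))
      have h6 := h2.2.2 _ h5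
      rw [h1.1, dv2, Prod.fst_add] at h6
      simp at h6
  have h1 : u ++ 2 :: rot2 v = u' ++ 2 :: rot2 v' := by
    have h2 : (0 : Fin 4) :: (u ++ 2 :: rot2 v) = 0 :: (u' ++ 2 :: rot2 v') := by
      simpa using h
    exact (List.cons.inj h2).2
  rw [List.append_eq_append_iff] at h1
  have fin : ∀ u v u' v' : Wd, u' = u → (2 : Fin 4) :: rot2 v = 2 :: rot2 v' →
      u = u' ∧ v = v' := by
    intro u v u' v' h2 h3
    refine ⟨h2.symm, ?_⟩
    have h4 := (List.cons.inj h3).2
    rw [← rot2_rot2 v, h4, rot2_rot2]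
  rcases h1 with ⟨t, h2, h3⟩ | ⟨t, h2, h3⟩
  · have ht := key g g' u u' t _ _ hu hu' h2 h3
    subst ht
    rw [List.append_nil] at h2
    rw [List.nil_append] at h3
    exact fin u v u' v' h2 h3
  · have ht := key g' g u' u t _ _ hu' hu h2 h3
    subst ht
    rw [List.append_nil] at h2
    rw [List.nil_append] at h3
    have := fin u' v' u v h2 h3
    exact ⟨this.1.symm, this.2.symm⟩

/-! ### area and reversal -/

lemma dbl_add (p q : ℤ × ℤ) (w : Wd) : dbl (p + q) w = dbl p w +
    (q.1 * ((ep p w).2 - p.2) - q.2 * ((ep p w).1 - p.1)) := by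
  induction w generalizing p with
  | nil => simp
  | cons a w ih =>
    have h1 : p + q + dv a = p + dv a + q := by abel
    rw [dbl_cons, dbl_cons, ep_cons, h1, ih]
    simp only [Prod.fst_add, Prod.snd_add]
    ring

lemma dbl_rv (p : ℤ × ℤ) (w : Wd) : dbl (ep p w) (rv w) = - dbl p w := by
  induction w generalizing p with
  | nil => rfl
  | cons a w ih =>
    rw [rv_cons, ep_cons, dbl_append, ih, ep_rv, dbl_cons, dbl_nil, dbl_cons, dv_add_two]
    simp only [Prod.fst_add, Prod.snd_add, Prod.fst_neg, Prod.snd_neg]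
    ring

lemma ep_rv0 (w : Wd) : ep 0 (rv w) = - ep 0 w := by
  have h := ep_rv 0 w
  rw [ep_eq] at h
  exact eq_neg_of_add_eq_zero_left h

lemma dbl_rv0 (w : Wd) : dbl 0 (rv w) = - dbl 0 w := by
  have h := dbl_rv 0 w
  have h1 := dbl_add 0 (ep 0 w) (rv w)
  rw [zero_add, h, ep_rv0] at h1
  simp only [Prod.fst_neg, Prod.snd_neg, Prod.fst_zero, Prod.snd_zero, sub_zero] at h1
  linarith

lemma half_rv (g : ℤ) (u : Wd) (h : Half g u) : Half (-g) (rv u) := by
  have h1 : vt (ep 0 u) (rv u) = (vt 0 u).reverse := by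
    have h2 := vs_rv 0 u
    unfold vt
    rw [ep_rv]
    exact h2
  refine ⟨?_, ?_, ?_⟩
  · rw [ep_rv0, h.1]
    ext <;> simp
  · rw [← nodup_vt (ep 0 u) (rv u), h1]
    exact List.nodup_reverse.2 h.2.1
  · intro p hp
    have h2 : p + ep 0 u ∈ vt (ep 0 u) (rv u) := by
      rw [vt_eq (ep 0 u) (rv u)]
      exact List.mem_map_of_mem hp
    rw [h1, List.mem_reverse] at h2
    have h3 := h.2.2 _ h2
    rw [h.1, Prod.fst_add] at h3
    simpa using h3

lemma dbl_glue (g : ℤ) (u v : Wd) (hu : Half g u) (hv : Half g v) :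
    dbl 0 ((0 :: u ++ [2]) ++ rot2 v) = dbl 0 u + dbl 0 v + 4 * g := by
  rw [dbl_append, ep_arch g u hu]
  have h1 : dbl 0 (0 :: u ++ [2]) = dbl 0 u + 4 * g := by
    show ((0 : ℤ × ℤ).1 * (dv 0).2 - (0 : ℤ × ℤ).2 * (dv 0).1) + dbl (0 + dv 0) (u ++ [2]) = _
    have h2 : ep (0 + dv 0) u = (1, 2 * g) := by
      rw [ep_add, hu.1, dv0]; simp
    rw [dbl_append, h2, dbl_add, hu.1, dbl_cons, dbl_nil, dv0, dv2]
    simp only [Prod.fst_zero, Prod.snd_zero]
    ring
  have h2 : dbl (0, 2 * g) (rot2 v) = dbl 0 v := by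
    have h3 := dbl_add 0 (0, 2 * g) (rot2 v)
    have h4 : ep 0 (rot2 v) = - ep 0 v := by
      have := ep_rot2 v 0
      rwa [neg_zero] at this
    have h5 : dbl 0 (rot2 v) = dbl 0 v := by
      have := dbl_rot2 v 0
      rwa [neg_zero] at this
    rw [zero_add, h4, h5, hv.1] at h3
    rw [h3]
    simp
  rw [h1, h2]
  ring

lemma glue_arch (u v : Wd) : glue (0 :: u ++ [2]) (0 :: v ++ [2]) = (0 :: u ++ [2]) ++ rot2 v := by
  unfold glue
  rw [strip_arch]

lemma sign (hP : POS_Stmt) (g : ℤ) (u v : Wd) (hu : Half g u) (hv : Half g v)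
    (hd : 0 < dbl 0 ((0 :: u ++ [2]) ++ rot2 v)) : 1 ≤ g := by
  rcases lt_trichotomy g 0 with hg | hg | hg
  · exfalso
    have hu' := half_rv g u hu
    have hv' := half_rv g v hv
    have h1 := hP (-g) (0 :: rv u ++ [2]) (0 :: rv v ++ [2]) (by omega)
      ((arch_iff _ _).2 ⟨by omega, _, rfl, hu'⟩) ((arch_iff _ _).2 ⟨by omega, _, rfl, hv'⟩)
    rw [glue_arch, dbl_glue (-g) _ _ hu' hv', dbl_rv0, dbl_rv0] at h1
    rw [dbl_glue g u v hu hv] at hd
    omega
  · exfalso
    subst hg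
    rw [half_zero u hu, half_zero v hv] at hd
    exact absurd hd (by decide)
  · omega

/-! ### lengths -/

lemma ep_parity (p : ℤ × ℤ) (w : Wd) :
    ∃ t : ℤ, (ep p w).1 + (ep p w).2 + w.length = p.1 + p.2 + 2 * t := by
  induction w generalizing p with
  | nil => exact ⟨0, by simp⟩
  | cons a w ih =>
    obtain ⟨t, ht⟩ := ih (p + dv a)
    have h1 : ∀ a : Fin 4, (dv a).1 + (dv a).2 = 1 ∨ (dv a).1 + (dv a).2 = -1 := by decide
    rw [ep_cons, List.length_cons]
    push_cast
    simp only [Prod.fst_add, Prod.snd_add] at ht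
    rcases h1 a with h2 | h2
    · exact ⟨t + 1, by linarith⟩
    · exact ⟨t, by linarith⟩

lemma ep_le (p : ℤ × ℤ) (w : Wd) : (ep p w).2 ≤ p.2 + w.length := by
  induction w generalizing p with
  | nil => simp
  | cons a w ih =>
    have h1 := ih (p + dv a)
    have h2 : ∀ a : Fin 4, (dv a).2 ≤ 1 := by decide
    have h3 := h2 a
    rw [ep_cons, List.length_cons]
    push_cast
    rw [Prod.snd_add] at h1
    linarith

lemma half_even (g : ℤ) (u : Wd) (h : Half g u) : ∃ m : ℕ, u.length = 2 * m ∧ g ≤ m := by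
  obtain ⟨t, ht⟩ := ep_parity 0 u
  have h1 := ep_le 0 u
  rw [h.1] at ht h1
  simp only [Prod.fst_zero, Prod.snd_zero] at ht h1
  exact ⟨u.length / 2, by omega, by omega⟩

end GLU

open Classical in
theorem glu_thm (h : POS_Stmt) : GLU_Stmt := by
  intro k n hk hn F
  symm
  refine sum_nbij (fun q => glue q.2.2.2 q.2.2.1) ?_ ?_ ?_ ?_
  · rintro ⟨g, m, T, w⟩ hq
    simp only [Om, mem_sigma, mem_Icc, mem_range, mem_product] at hq
    obtain ⟨⟨hg1, hg2⟩, hm, hT, hw⟩ := hq
    simp only [CapSet, ArchSet, mem_filter, mem_words] at hT hw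
    obtain ⟨hTl, hTA, hTN, hTE⟩ := hT
    obtain ⟨hwl, hwA, hwN⟩ := hw
    have hpos := h g w T hg1 hwA hTA
    obtain ⟨_, u, rfl, hu⟩ := (GLU.arch_iff g w).1 hwA
    obtain ⟨_, v, rfl, hv⟩ := (GLU.arch_iff g T).1 hTA
    simp only
    rw [GLU.glue_arch] at hpos ⊢
    simp only [List.length_append, List.length_cons, List.length_nil] at hTl hwl
    rw [mem_filter, Fam, mem_filter, mem_W]
    refine ⟨⟨⟨?_, GLU.SAPw_glue g u v hu hv⟩, (GLU.nar_glue k hk g u v hu hv).2 ⟨hwN, hTN⟩⟩,
      ⟨rfl, GLU.ec_glue_zero g u v hu hv, ?_⟩, hpos⟩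
    · simp only [List.length_append, List.length_cons, List.length_nil, GLU.rot2_length]
      omega
    · intro j hj hE
      exact hTE (-j) (by omega) ((GLU.ec_glue_neg g u v hu hv j hj).1 hE)
  · rintro ⟨g, m, T, w⟩ hq ⟨g', m', T', w'⟩ hq' heq
    rw [mem_coe] at hq hq'
    simp only [Om, mem_sigma, mem_Icc, mem_range, mem_product] at hq hq'
    obtain ⟨_, hm, hT, hw⟩ := hq
    obtain ⟨_, hm', hT', hw'⟩ := hq'
    simp only [CapSet, ArchSet, mem_filter, mem_words] at hT hw hT' hw'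
    obtain ⟨_, u, rfl, hu⟩ := (GLU.arch_iff g w).1 hw.2.1
    obtain ⟨_, v, rfl, hv⟩ := (GLU.arch_iff g T).1 hT.2.1
    obtain ⟨_, u', rfl, hu'⟩ := (GLU.arch_iff g' w').1 hw'.2.1
    obtain ⟨_, v', rfl, hv'⟩ := (GLU.arch_iff g' T').1 hT'.2.1
    simp only at heq
    rw [GLU.glue_arch, GLU.glue_arch] at heq
    obtain ⟨e1, e2⟩ := GLU.glue_inj g g' u v u' v' hu hu' heq
    subst e1 e2
    have e3 : g = g' := by
      have h1 := hu.1
      rw [hu'.1] at h1
      have h2 := congrArg Prod.snd h1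
      simp only at h2
      omega
    have e4 : m = m' := by
      have h1 := hT.1
      have h2 := hT'.1
      omega
    subst e3 e4
    rfl
  · intro c hc
    rw [mem_coe, mem_filter, Fam, mem_filter, mem_W] at hc
    obtain ⟨⟨⟨hl, hS⟩, hN⟩, ⟨c1, c2, c3⟩, hd⟩ := hc
    obtain ⟨g, u, v, rfl, hu, hv⟩ := GLU.decomp c hS c1 c2
    have hg := GLU.sign h g u v hu hv hd
    obtain ⟨m, hm, hgm⟩ := GLU.half_even g v hv
    have hN' := (GLU.nar_glue k hk g u v hu hv).1 hN
    simp only [List.length_append, List.length_cons, List.length_nil, GLU.rot2_length] at hl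
    refine ⟨⟨g, m, (0 :: v ++ [2], 0 :: u ++ [2])⟩, ?_, GLU.glue_arch u v⟩
    rw [mem_coe]
    simp only [Om, mem_sigma, mem_Icc, mem_range, mem_product]
    refine ⟨⟨hg, by omega⟩, by omega, ?_, ?_⟩
    · simp only [CapSet, mem_filter, mem_words]
      refine ⟨?_, (GLU.arch_iff _ _).2 ⟨by omega, _, rfl, hv⟩, hN'.2, ?_⟩
      · simp only [List.length_append, List.length_cons, List.length_nil]
        omega
      · intro j hj hE
        apply c3 (-j) (by omega)
        rw [GLU.ec_glue_neg g u v hu hv (-j) (by omega), neg_neg]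
        exact hE
    · simp only [ArchSet, mem_filter, mem_words]
      refine ⟨?_, (GLU.arch_iff _ _).2 ⟨by omega, _, rfl, hu⟩, hN'.1⟩
      simp only [List.length_append, List.length_cons, List.length_nil]
      omega
  · intro q _
    rfl

end Pool.Agent.KCC
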