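import Pool.Agent.KCC.Stmts
import Pool.Agent.Lib_helper41.SapR.Transfer

/-!
# Column-convex polygons (MP_f6626d_co): growth of the classes (module GRO)
-/

set_option autoImplicit false

namespace Pool.Agent.KCC.GRO

open Finset Filter Topology Pool.Agent.Lib27 Pool.Agent.AreaLaw

lemma log_sq_div : Tendsto (fun n : ℕ => Real.log (8 * (n : ℝ) ^ 2) / n) atTop (𝓝 0) := by
  have h2 : Tendsto (fun x : ℝ => Real.log x / x) atTop (𝓝 0) := by
    have := Real.isLittleO_log_id_atTop.tendsto_div_nhds_zero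
    simpa using this
  have h3 : Tendsto (fun n : ℕ => Real.log (n : ℝ) / n) atTop (𝓝 0) :=
    h2.comp tendsto_natCast_atTop_atTop
  have h4 : Tendsto (fun n : ℕ => Real.log 8 / (n : ℝ)) atTop (𝓝 0) :=
    tendsto_const_nhds.div_atTop tendsto_natCast_atTop_atTop
  have h5 := h4.add (h3.const_mul 2)
  rw [mul_zero, add_zero] at h5
  refine h5.congr' ?_
  filter_upwards [eventually_ge_atTop 1] with n hn
  have hn0 : (0 : ℝ) < n := by exact_mod_cast hn
  rw [Real.log_mul (by norm_num) (by positivity), Real.log_pow]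
  push_cast
  ring

lemma rate : Tendsto (fun m : ℕ =>
    (Real.log (W m).card - Real.log (8 * (m : ℝ) ^ 2)) / (m : ℝ)) atTop (𝓝 Lc) := by
  have h := tendsto_W.sub log_sq_div
  rw [sub_zero] at h
  refine h.congr fun m => ?_
  rw [sub_div]

end Pool.Agent.KCC.GRO

namespace Pool.Agent.KCC

open Finset Filter Topology Pool.Agent.Lib27 Pool.Agent.AreaLaw

theorem gro_thm (h : BLO_Stmt) : GRO_Stmt := by
  intro ε hε
  have hev : ∀ᶠ m : ℕ in atTop, Lc - ε / 2 <
      (Real.log (W m).card - Real.log (8 * (m : ℝ) ^ 2)) / (m : ℝ) :=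
    GRO.rate.eventually (lt_mem_nhds (by linarith))
  obtain ⟨m, hm1, hm2⟩ := (hev.and (eventually_ge_atTop 2)).exists
  refine ⟨m, by omega, ?_⟩
  have hm0 : (0 : ℝ) < m := by
    have : 0 < m := by omega
    exact_mod_cast this
  have hWm : (0 : ℝ) < ((W m).card : ℝ) := by exact_mod_cast W_pos m (by omega)
  set q : ℝ := Real.log (W m).card - Real.log (8 * (m : ℝ) ^ 2) with hq
  set a : ℝ := q / m with ha
  have hqa : q = a * m := by
    rw [ha]
    field_simp
  have hW : ∀ᶠ n : ℕ in atTop, Real.log (W n).card / n < Lc + ε / 4 :=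
    tendsto_W.eventually (gt_mem_nhds (by linarith))
  obtain ⟨n0, hn0⟩ := exists_nat_gt ((m : ℝ) * |a| / (ε / 4))
  filter_upwards [hW, eventually_ge_atTop (max n0 1)] with n h2 hn
  have hn1 : n0 ≤ n := le_trans (le_max_left _ _) hn
  have hn2 : 1 ≤ n := le_trans (le_max_right _ _) hn
  have hnp : (0 : ℝ) < n := by exact_mod_cast hn2
  have hpos : (0 : ℝ) < ((W n).card : ℝ) := by exact_mod_cast W_pos n hn2
  rw [div_lt_iff₀ hnp] at h2
  set j := (n - 1) / m with hj
  set r := (n - 1) % m with hr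
  have hdiv : m * j + r = n - 1 := Nat.div_add_mod _ _
  have hrlt : r < m := Nat.mod_lt _ (by omega)
  have hb := h m j r hm2
  rw [show m * j + 1 + r = n by omega, card_SAP] at hb
  have h8 : (0 : ℝ) < 8 * (m : ℝ) ^ 2 := by positivity
  -- lower bound for the number of polygons
  have hlow : Real.exp (j * q) ≤ ((ColConvex m n).card : ℝ) := by
    have e1 : Real.exp (j * q) = ((W m).card : ℝ) ^ j / (8 * (m : ℝ) ^ 2) ^ j := by
      rw [Real.exp_nat_mul, hq, Real.exp_sub, Real.exp_log hWm, Real.exp_log h8, div_pow]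
    rw [e1, div_le_iff₀ (by positivity), mul_comm]
    exact hb
  rw [card_SAP]
  refine le_trans ?_ hlow
  rw [← Real.exp_log hpos, ← Real.exp_add]
  apply Real.exp_le_exp.2
  have hjm : |(m : ℝ) * j - n| ≤ m := by
    have e1 : m * j ≤ n := by omega
    have e2 : n ≤ m * j + m := by omega
    have e3 : (m : ℝ) * j ≤ n := by exact_mod_cast e1
    have e4 : (n : ℝ) ≤ (m : ℝ) * j + m := by exact_mod_cast e2
    rw [abs_le]
    constructor <;> linarith
  have h5 : (j : ℝ) * q = n * a + ((m : ℝ) * j - n) * a := by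
    rw [hqa]
    ring
  have h6 : -((m : ℝ) * |a|) ≤ ((m : ℝ) * j - n) * a := by
    have h7 : |((m : ℝ) * j - n) * a| ≤ m * |a| := by
      rw [abs_mul]
      exact mul_le_mul_of_nonneg_right hjm (abs_nonneg a)
    exact (abs_le.1 h7).1
  have h9 : (m : ℝ) * |a| ≤ n * (ε / 4) := by
    have h5 : (m : ℝ) * |a| / (ε / 4) < n :=
      lt_of_lt_of_le hn0 (by exact_mod_cast hn1)
    rw [div_lt_iff₀ (by linarith)] at h5
    exact h5.le
  have h10 : (n : ℝ) * (Lc - ε / 2) ≤ n * a := mul_le_mul_of_nonneg_left hm1.le hnp.le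
  rw [h5]
  nlinarith

end Pool.Agent.KCC
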