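import Pool.Agent.KCC.Stmts
import Pool.Agent.KCC.Lib
import Pool.Agent.Lib_helper27.Winding
import Pool.Agent.Lib_helper58.SapR.Rot

/-!
# Column-convex polygons (MP_f6626d_co), module K1: the root decomposition

From the rotation of the root (`ROT_Stmt`), the gluing of canonical words (`GLU_Stmt`) and the
reversal of words. The shoelace sum of a self-avoiding polygon of perimeter at least `4` is not `0`
(`dbl_ge`).
-/

set_option autoImplicit false

namespace Pool.Agent.KCC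

open Finset Pool.Agent.Lib27

namespace K1

lemma dbl_rv0 (s : Wd) (h : ep 0 s = 0) : dbl 0 (rv s) = - dbl 0 s := by
  have := Pool.Agent.SapR.H58.dbl_rv 0 s
  rwa [h] at this

/-- the words with an even cut are stable under reversal -/
lemma cut_rv (k n : ℕ) (s : Wd) (h : s ∈ Fam k n ∧ ∃ h : ℤ, EC s h) :
    rv s ∈ Fam k n ∧ ∃ h : ℤ, EC (rv s) h := by
  rw [mem_Fam, mem_W] at h ⊢
  obtain ⟨⟨⟨h1, h2⟩, h3⟩, j, h4⟩ := h
  exact ⟨⟨⟨by rw [Pool.Agent.SapR.H58.rv_length, h1], SAPw_rv s h2⟩, (Nar_rv k s h2.1).2 h3⟩, j,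
    (EC_rv s h2.1 j).2 h4⟩

lemma dbl_ne (n : ℕ) (hn : 2 ≤ n) (s : Wd) (h : s ∈ W n) : dbl 0 s ≠ 0 := by
  rw [mem_W] at h
  intro h0
  have := dbl_ge n s h.2 h.1 hn
  rw [h0, abs_zero] at this
  omega

end K1

open K1 Classical in
/-- The root decomposition for one family. -/
theorem k1_aux (hr : ROT_Stmt) (hg : GLU_Stmt) (k n : ℕ) (hk : 1 ≤ k) (hn : 2 ≤ n) (F : ℤ → ℝ) :
    ∑ s ∈ (Fam k n).filter (fun s => ∃ h : ℤ, EC s h), F |dbl 0 s| =
      4 * n * ∑ q ∈ Om k n, F (dq q) := by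
  classical
  set G : Wd → ℝ := fun s => if 0 < dbl 0 s then F (dbl 0 s) else 0 with hG
  have h1 : ∑ s ∈ (Fam k n).filter (fun s => ∃ h : ℤ, EC s h), F |dbl 0 s| =
      2 * ∑ s ∈ (Fam k n).filter (fun s => ∃ h : ℤ, EC s h), G s := by
    have e1 : ∀ s ∈ (Fam k n).filter (fun s => ∃ h : ℤ, EC s h), F |dbl 0 s| = G s + G (rv s) := by
      intro s hs
      rw [mem_filter, mem_Fam] at hs
      have hne := dbl_ne n hn s hs.1.1
      have hc := ((mem_W n s).1 hs.1.1).2.1
      simp only [hG, dbl_rv0 s hc]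
      rcases lt_or_gt_of_ne hne with h | h
      · rw [if_neg (by omega), if_pos (by omega), abs_of_neg h, zero_add]
      · rw [if_pos h, if_neg (by omega), abs_of_pos h, add_zero]
    rw [sum_congr rfl e1, sum_add_distrib]
    have e2 : ∑ s ∈ (Fam k n).filter (fun s => ∃ h : ℤ, EC s h), G (rv s) =
        ∑ s ∈ (Fam k n).filter (fun s => ∃ h : ℤ, EC s h), G s := by
      refine sum_nbij' rv rv ?_ ?_ (fun s _ => rv_rv s) (fun s _ => rv_rv s) (fun s _ => rfl)
      · intro s hs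
        rw [mem_filter] at hs ⊢
        exact cut_rv k n s hs
      · intro s hs
        rw [mem_filter] at hs ⊢
        exact cut_rv k n s hs
    rw [e2]; ring
  have h2 : ∑ s ∈ (Fam k n).filter (fun s => ∃ h : ℤ, EC s h), G s =
      2 * n * ∑ s ∈ (Fam k n).filter Canon, G s := by
    apply hr k n (by omega)
    intro s j hs hj
    rw [mem_W] at hs
    simp only [hG]
    rw [Pool.Agent.SapR.H58.dbl_rot' n j s hs.1 hs.2.1 hj]
  have h3 : ∑ s ∈ (Fam k n).filter Canon, G s = ∑ q ∈ Om k n, F (dq q) := by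
    rw [← hg k n hk (by omega) F]
    simp only [hG]
    rw [← sum_filter, filter_filter]
  rw [h1, h2, h3]
  ring

/-- **K1** (root decomposition). -/
theorem k1_thm (hr : ROT_Stmt) (hg : GLU_Stmt) (_hp : POS_Stmt) : K1_Stmt :=
  fun k n hk hn F => k1_aux hr hg k n hk hn F

end Pool.Agent.KCC
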