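import Pool.Agent.KCC.Stmts
import Pool.Agent.Lib_helper66.SapR.K4

/-! Column-convex polygons, module K4: area identities. -/

set_option autoImplicit false

namespace Pool.Agent.KCC

open Finset Pool.Agent.Lib27
open Pool.Agent.SapR (rot2 wordsUpTo)

namespace K4

open Pool.Agent.SapR.H66 (dbl_eq' ep0_rot2 dbl0_rot2)

/-- parity of the end point -/
lemma ep_par (w : Wd) : ∀ p : ℤ × ℤ, ∃ m : ℤ,
    (ep p w).1 + (ep p w).2 = p.1 + p.2 + w.length + 2 * m := by
  induction w with
  | nil => exact fun p => ⟨0, by simp⟩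
  | cons d w ih =>
    intro p
    obtain ⟨m, hm⟩ := ih (p + dv d)
    rw [ep_cons, hm, List.length_cons]
    fin_cases d
    · exact ⟨m, by simp [dv]; ring⟩
    · exact ⟨m, by simp [dv]; ring⟩
    · exact ⟨m - 1, by simp [dv]; ring⟩
    · exact ⟨m - 1, by simp [dv]; ring⟩

lemma jump_eq {k : ℕ} {p : Wd × Wd} (h : FreePiece k p.1 p.2) :
    (ep 0 p.1).2 + (ep 0 p.2).2 = -(2 * jump p) := by
  obtain ⟨⟨-, h2, -⟩, he, -⟩ := h
  obtain ⟨m, hm⟩ := ep_par p.1 0
  obtain ⟨m', hm'⟩ := ep_par p.2 0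
  obtain ⟨r, hr⟩ := he
  simp only [Prod.fst_zero, Prod.snd_zero] at hm hm'
  unfold jump
  omega

/-- an arch starts with an east step and ends with a west step -/
lemma arch_shape {g : ℤ} {w : Wd} (hg : 1 ≤ g) (h : Arch g w) :
    ∃ u : Wd, w = 0 :: (u ++ [2]) := by
  obtain ⟨h0, h1, -, h3⟩ := h
  rcases w with _ | ⟨s, t⟩
  · exact (h0 rfl).elim
  rcases List.eq_nil_or_concat t with rfl | ⟨u, s', rfl⟩
  · exfalso
    have h2 := congrArg Prod.snd h1
    have h4 := congrArg Prod.fst h1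
    fin_cases s <;> simp [dv] at h2 h4 <;> omega
  · have hs : 0 < (dv s).1 := by
      have h4 := h3 (dv s) (by
        rw [vs_cons, List.tail_cons, zero_add, List.concat_eq_append]
        cases u with
        | nil => simp
        | cons a u => simp)
      exact h4
    have hs0 : s = 0 := by
      fin_cases s <;> simp [dv] at hs ⊢
    have hu : 0 < (ep 0 (s :: u)).1 := by
      refine h3 _ ?_
      rw [vs_cons, List.tail_cons, List.concat_eq_append, vs_append, ep_cons]
      simp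
    have he : ep 0 (s :: u) + dv s' = (0, 2 * g) := by
      rw [← h1, List.concat_eq_append, ← List.cons_append, ep_append]
      simp
    have he1 := congrArg Prod.fst he
    simp only [Prod.fst_add] at he1
    have hs2 : s' = 2 := by
      generalize (ep 0 (s :: u)).1 = c at he1 hu
      fin_cases s' <;> simp [dv] at he1 ⊢ <;> omega
    exact ⟨u, by rw [hs0, hs2, List.concat_eq_append]⟩

lemma dbl_cap {g : ℤ} {u : Wd} (h : ep 0 (0 :: (u ++ [2]) : Wd) = (0, 2 * g)) :
    ep 0 u = (0, 2 * g) ∧ dbl 0 (0 :: (u ++ [2]) : Wd) = dbl 0 u + 4 * g := by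
  have h0 : ep (dv 0) u + dv 2 = (0, 2 * g) := by
    rw [← h, ep_cons, ep_append, zero_add]
    simp
  have h1 : ep 0 u = (0, 2 * g) := by
    rw [ep_eq (dv 0) u] at h0
    have e : ep 0 u = (ep 0 u + dv 0 + dv 2) := by
      ext <;> simp [dv]
    rw [e, h0]
  refine ⟨h1, ?_⟩
  rw [dbl_cons, dbl_append, zero_add, dbl_eq' (dv 0) u, ep_eq (dv 0) u, h1]
  simp [dv]
  ring

end K4

open K4 Pool.Agent.SapR.H66 in
theorem k4_thm : K4_Stmt := by
  refine ⟨?_, ?_⟩
  · intro k g p w hF hw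
    have hj := jump_eq hF
    obtain ⟨⟨-, h2, -⟩, -⟩ := hF
    rw [List.append_assoc, dbl_append, dbl_append, dbl_eq' (ep 0 p.1) w, dbl_eq' _ p.2,
      ep_eq (ep 0 p.1) w, hw]
    unfold ht off
    simp only [Prod.fst_add, Prod.snd_add, h2]
    linear_combination (ep 0 p.1).1 * hj
  · intro g w T hg hw hT
    obtain ⟨u, rfl⟩ := arch_shape hg hT
    obtain ⟨h1, h2⟩ := dbl_cap hT.2.1
    have hs : strip (0 :: (u ++ [2])) = u := by
      unfold strip
      rw [List.tail_cons, List.dropLast_concat]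
    unfold glue
    rw [hs, dbl_append, dbl_eq' _ (rot2 u), dbl0_rot2, ep0_rot2, hw.2.1, h1, h2]
    simp only [Prod.fst_neg, Prod.snd_neg]
    ring

end Pool.Agent.KCC
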