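import Pool.Agent.KCC.Stmts

/-!
# K5b (two basic pieces)
-/

set_option autoImplicit false

namespace Pool.Agent.KCC

open Finset Pool.Agent.Lib27
open Pool.Agent.SapR (rot2 wordsUpTo)

namespace K5B

lemma mem_upTo (M : ℕ) (s : Wd) (h : s.length ≤ M) : s ∈ wordsUpTo M := by
  unfold wordsUpTo
  rw [mem_biUnion]
  exact ⟨s.length, by rw [mem_range]; omega, (mem_words _ _).2 rfl⟩

lemma mem_al (k n : ℕ) (g : ℤ) (p : Wd × Wd) (h1 : FreePiece k p.1 p.2)
    (h2 : p.1.length + p.2.length ≤ 2 * n) (h3 : 1 ≤ g) (h4 : 1 ≤ g + jump p) (h5 : Disj g p) :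
    p ∈ allowed k n g := by
  classical
  unfold allowed Pc
  rw [mem_filter, mem_filter, mem_product]
  exact ⟨⟨⟨mem_upTo _ _ (by omega), mem_upTo _ _ (by omega)⟩, h1, h2⟩, h3, h4, h5⟩

lemma cr_a (h : ℤ) : cr (([0] : Wd) ++ [2]) h ≤ 2 := by
  unfold cr
  by_cases hh : h = 0
  · subst hh
    decide
  · have h1 : ¬ ((0 : ℤ) = h) := fun e => hh e.symm
    have h2 : ¬ ((1 : ℤ) = h + 1) := fun e => hh (by omega)
    simp [cx, dv, h1, h2]

lemma cr_b (h : ℤ) : cr (([0, 3, 3] : Wd) ++ [2]) h ≤ 2 := by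
  unfold cr
  by_cases hh : h = 0
  · subst hh
    decide
  · have h1 : ¬ ((0 : ℤ) = h) := fun e => hh e.symm
    have h2 : ¬ ((1 : ℤ) = h + 1) := fun e => hh (by omega)
    simp [cx, dv, h1, h2]

lemma free_a (k : ℕ) (hk : 1 ≤ k) : FreePiece k ([0] : Wd) [2] := by
  refine ⟨?_, by decide, fun h => le_trans (cr_a h) (by omega), fun h h0 h1 => ?_⟩
  · unfold StripPair
    decide
  · exfalso
    have h2 : (ep 0 ([0] : Wd)).1 = 1 := by decide
    omega

lemma free_b (k : ℕ) (hk : 1 ≤ k) : FreePiece k ([0, 3, 3] : Wd) [2] := by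
  refine ⟨?_, by decide, fun h => le_trans (cr_b h) (by omega), fun h h0 h1 => ?_⟩
  · unfold StripPair
    decide
  · exfalso
    have h2 : (ep 0 ([0, 3, 3] : Wd)).1 = 1 := by decide
    omega

lemma disj_a (g : ℤ) (hg : 1 ≤ g) : Disj g (([0], [2]) : Wd × Wd) := by
  intro v h1 h2
  simp [jump, dv, Prod.ext_iff] at h1 h2
  omega

lemma disj_b (g : ℤ) (hg : 1 ≤ g) : Disj g (([0, 3, 3], [2]) : Wd × Wd) := by
  intro v h1 h2
  simp [jump, dv, Prod.ext_iff] at h1 h2
  omega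

end K5B

theorem k5b_thm : K5B_Stmt := by
  intro k n g hk hn hg
  have j1 : jump (([0], [2]) : Wd × Wd) = 0 := by decide
  have j2 : jump (([0, 3, 3], [2]) : Wd × Wd) = 1 := by decide
  refine ⟨?_, ?_, j1, j2⟩
  · refine K5B.mem_al k n g _ (K5B.free_a k hk) ?_ hg (by rw [j1]; omega) (K5B.disj_a g hg)
    simp only [List.length_cons, List.length_nil]
    omega
  · refine K5B.mem_al k n g _ (K5B.free_b k hk) ?_ hg (by rw [j2]; omega) (K5B.disj_b g hg)
    simp only [List.length_cons, List.length_nil]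
    omega

end Pool.Agent.KCC
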