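import Pool.Agent.KCC.Stmts
import Pool.Agent.Lib_helper66.SapR.K5

/-! MP_f6626d_co, module K5C: arches and caps of the column-convex model (helper51). -/

set_option autoImplicit false

namespace Pool.Agent.KCC

open Finset Pool.Agent.Lib27

namespace K5C

lemma eq_zero_of_pos {d : Fin 4} (h : 0 < (dv d).1) : d = 0 := by
  fin_cases d <;> simp [dv] at h ⊢

lemma eq_two_of_neg {d : Fin 4} (h : (dv d).1 < 0) : d = 2 := by
  fin_cases d <;> simp [dv] at h ⊢

lemma mem_vs_self (p : ℤ × ℤ) {s : Wd} (h : s ≠ []) : p ∈ vs p s := by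
  cases s with
  | nil => exact absurd rfl h
  | cons d s => simp

/-- the form of an arch -/
lemma arch_form {g : ℤ} {w : Wd} (hg : 1 ≤ g) (h : Arch g w) : ∃ u : Wd, w = 0 :: u ++ [2] := by
  obtain ⟨h1, h2, -, h4⟩ := h
  cases w with
  | nil => exact absurd rfl h1
  | cons d s =>
    have hs : s ≠ [] := by
      rintro rfl
      rw [ep_cons, ep_nil, zero_add, Prod.ext_iff] at h2
      fin_cases d <;> simp [dv] at h2 <;> omega
    obtain ⟨u, e, rfl⟩ : ∃ (u : Wd) (e : Fin 4), s = u ++ [e] :=
      ⟨s.dropLast, s.getLast hs, (List.dropLast_append_getLast hs).symm⟩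
    rw [vs_cons, List.tail_cons] at h4
    have h5 := h4 _ (mem_vs_self _ hs)
    have h6 := h4 (ep (0 + dv d) u) (by
      rw [vs_append, List.mem_append]
      exact Or.inr (mem_vs_self _ (by simp)))
    rw [ep_cons, ep_append, ep_cons, ep_nil, Prod.ext_iff] at h2
    have h7 := h2.1
    rw [Prod.fst_add] at h7
    rw [zero_add] at h5
    have h8 : (dv e).1 < 0 := by
      change _ = (0 : ℤ) at h7
      omega
    refine ⟨u, ?_⟩
    rw [eq_zero_of_pos h5, eq_two_of_neg h8]
    rfl

/-- the inner word of an arch -/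
lemma arch_inner {g : ℤ} {u : Wd} (h : Arch g (0 :: u ++ [2])) : ep 0 u = (0, 2 * g) := by
  have h2 := h.2.1
  rw [ep_append, ep_cons, ep_eq, ep_cons, ep_nil, ep_eq _ u] at h2
  have h3 : dv 2 + (ep 0 u + dv 0) = ep 0 u := by
    rw [Prod.ext_iff]
    simp [dv]
  simpa [dv, Prod.ext_iff] using h2

end K5C

theorem k5c_thm : K5C_Stmt := by
  classical
  refine ⟨?_, ?_⟩
  · intro g w hg h
    obtain ⟨u, rfl⟩ := K5C.arch_form hg h
    have h1 := K5C.arch_inner h
    obtain ⟨c, hc⟩ := Pool.Agent.SapR.H66.lev_ep_parity 0 u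
    have h2 := Pool.Agent.SapR.H66.nrm_ep0 u
    rw [h1] at hc h2
    unfold Pool.Agent.SapR.lev at hc
    unfold Pool.Agent.SapR.H66.nrm at h2
    have h3 : ((0 :: u ++ [2] : Wd).length) = u.length + 2 := by simp
    refine ⟨?_, ?_, Pool.Agent.SapR.H66.abs_dbl_le _, u, rfl⟩
    · rw [h3, Nat.even_iff]
      simp at hc
      omega
    · rw [h3]
      simp only [abs_zero, zero_add] at h2
      have h4 := le_abs_self (2 * g)
      push_cast
      omega
  · intro k hk
    ext w
    unfold CapSet
    rw [mem_filter, mem_words, mem_singleton]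
    constructor
    · rintro ⟨hlen, hA, -, -⟩
      obtain ⟨u, rfl⟩ := K5C.arch_form le_rfl hA
      have h1 := K5C.arch_inner hA
      have h2 : u.length = 2 := by
        simp at hlen
        omega
      obtain ⟨a, b, rfl⟩ := List.length_eq_two.1 h2
      rw [ep_cons, ep_cons, ep_nil, Prod.ext_iff] at h1
      fin_cases a <;> fin_cases b <;> simp [dv] at h1 ⊢
    · rintro rfl
      refine ⟨rfl, ?_, ?_, ?_⟩
      · unfold Arch
        simp [dv, Prod.ext_iff]
        omega
      · intro h
        unfold cr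
        simp only [cx, dv]
        split_ifs <;> simp <;> omega
      · rintro h hh ⟨y, y', h1, h2⟩
        have h0 : ¬ (0 = h) := by omega
        have h3 : ¬ ((1 : ℤ) = h + 1) := by omega
        simp [cx, dv, h0, h3] at h1

end Pool.Agent.KCC
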