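import Pool.Agent.KCC.Stmts
import Pool.Agent.Lib_helper66.SapR.K5

/-! MP_f6626d_co, module K5F (helper68): free pieces at distance are allowed. -/

set_option autoImplicit false

namespace Pool.Agent.KCC.K5F

open Finset Pool.Agent.Lib27 Pool.Agent.KCC
open Pool.Agent.SapR.H66 (nrm nrm_add nrm_nonneg nrm_ep0 nrm_vt lev_ep_parity)

lemma ep_sum {U D : Wd} (h2 : (ep 0 D).1 = -(ep 0 U).1) (hev : Even (U.length + D.length)) :
    (ep 0 U).2 + (ep 0 D).2 = -(2 * jump (U, D)) := by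
  obtain ⟨c1, hc1⟩ := lev_ep_parity 0 U
  obtain ⟨c2, hc2⟩ := lev_ep_parity 0 D
  rw [Nat.even_iff] at hev
  unfold Pool.Agent.SapR.lev at hc1 hc2
  unfold jump
  simp only [Prod.fst_zero, Prod.snd_zero] at hc1 hc2
  simp only
  omega

end Pool.Agent.KCC.K5F

namespace Pool.Agent.KCC

open Finset Pool.Agent.Lib27 K5F
open Pool.Agent.SapR.H66 (nrm nrm_add nrm_nonneg nrm_ep0 nrm_vt lev_ep_parity)

theorem k5f_thm : K5F_Stmt := by
  classical
  intro k n g p hp hg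
  have hp' := hp
  unfold Pc at hp'
  obtain ⟨⟨⟨h1, h2, -, -, -, -⟩, hev, -, -⟩, hlen⟩ := (mem_filter.1 hp').2
  have hs := ep_sum h2 hev
  rw [show (p.1, p.2) = p from rfl] at hs
  have n1 := nrm_ep0 p.1
  have n2 := nrm_ep0 p.2
  have hl2 : ((p.1.length + p.2.length : ℕ) : ℤ) = 2 * (hl p : ℤ) := by
    unfold hl
    rw [Nat.even_iff] at hev
    omega
  push_cast at hl2
  have a1 : |(ep 0 p.1).1| = (ep 0 p.1).1 := abs_of_pos h1
  have a2 : |(ep 0 p.2).1| = (ep 0 p.1).1 := by rw [h2, abs_neg, a1]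
  unfold nrm at n1 n2
  rw [a1] at n1
  rw [a2] at n2
  have b1 := neg_abs_le (ep 0 p.1).2
  have b2 := le_abs_self (ep 0 p.1).2
  have b3 := neg_abs_le (ep 0 p.2).2
  have b4 := le_abs_self (ep 0 p.2).2
  have hjump : 1 ≤ g + jump p := by omega
  have hg1 : 1 ≤ g := by omega
  unfold allowed
  rw [mem_filter]
  refine ⟨hp, hg1, hjump, ?_⟩
  intro v hv1 hv2
  have q1 := nrm_vt _ _ v hv1
  have q2 := nrm_vt _ _ v hv2
  rw [ep_eq _ p.2, add_comm (ep 0 p.2)] at q2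
  have q3 : ep 0 p.1 + (0, 2 * (g + jump p)) + ep 0 p.2 = ((0, 2 * g) : ℤ × ℤ) := by
    rw [Prod.ext_iff]
    simp only [Prod.fst_add, Prod.snd_add]
    constructor
    · omega
    · omega
  rw [q3] at q2
  have q4 : nrm ((0, 2 * g) : ℤ × ℤ) ≤ nrm ((0, 2 * g) - v) + nrm v := by
    have := nrm_add ((0, 2 * g) - v) v
    rwa [sub_add_cancel] at this
  have q5 : nrm ((0, 2 * g) : ℤ × ℤ) = 2 * g := by
    unfold nrm
    simp only [abs_zero, zero_add]
    rw [abs_of_nonneg (by omega : 0 ≤ 2 * g)]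
  rw [sub_zero] at q1
  have q6 : nrm ((0, 2 * (g + jump p)) : ℤ × ℤ) ≤
      nrm (ep 0 p.1 - v) + nrm (v - (ep 0 p.1 + (0, 2 * (g + jump p)))) := by
    have := nrm_add (-(ep 0 p.1 - v)) (-(v - (ep 0 p.1 + (0, 2 * (g + jump p)))))
    rw [Pool.Agent.SapR.H66.nrm_neg, Pool.Agent.SapR.H66.nrm_neg] at this
    have e : -(ep 0 p.1 - v) + -(v - (ep 0 p.1 + (0, 2 * (g + jump p)))) =
      (0, 2 * (g + jump p)) := by abel
    rwa [e] at this
  have q7 : nrm ((0, 2 * (g + jump p)) : ℤ × ℤ) = 2 * (g + jump p) := by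
    unfold nrm
    simp only [abs_zero, zero_add]
    rw [abs_of_nonneg (by omega : 0 ≤ 2 * (g + jump p))]
  omega

end Pool.Agent.KCC
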