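import Pool.Agent.KCC.Stmts
import Pool.Agent.KCC.Lib
import Pool.Agent.Lib_helper66.SapR.K5

/-! MP_f6626d_co, module K5R (helper27): rotation of pieces by 180 degrees. -/

set_option autoImplicit false

namespace Pool.Agent.KCC.K5R

open Finset Pool.Agent.Lib27 Pool.Agent.KCC
open Pool.Agent.SapR (rot2 wordsUpTo)
open Pool.Agent.SapR.H66 (rot2_rot2 rot2_length ep_rot2 ep0_rot2 vt_rot2 vs_rot2 lev_ep_parity
  disjoint_map_add disjoint_map_neg)

/-- first letter E -/
lemma split_up {U : Wd} (h1 : 0 < (ep 0 U).1) (h5 : ∀ p ∈ (vt 0 U).tail, 0 < p.1) :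
    ∃ u, U = 0 :: u := by
  rcases U with _ | ⟨a, u⟩
  · simp at h1
  · refine ⟨u, ?_⟩
    have h := h5 (0 + dv a) (by rw [vt_cons, List.tail_cons]; exact mem_vt_self _ _)
    rw [zero_add] at h
    rcases letter a with rfl | rfl | rfl | rfl
    · rfl
    · rw [dv1] at h; simp at h
    · rw [dv2] at h; simp at h
    · rw [dv3] at h; simp at h

/-- last letter W -/
lemma split_down {D : Wd} {c : ℤ} (h1 : (ep 0 D).1 = c) (h0 : c < 0)
    (h6 : ∀ p ∈ vs 0 D, c < p.1) : ∃ d, D = d ++ [2] := by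
  rcases List.eq_nil_or_concat D with rfl | ⟨d, b, rfl⟩
  · simp at h1; omega
  · refine ⟨d, ?_⟩
    rw [List.concat_eq_append] at h1 h6 ⊢
    have h := h6 (ep 0 d) (by rw [vs_append]; simp)
    rw [ep_append, ep_cons, ep_nil, Prod.fst_add] at h1
    rcases letter b with rfl | rfl | rfl | rfl
    · rw [dv0] at h1; simp only at h1; omega
    · rw [dv1] at h1; simp only at h1; omega
    · rfl
    · rw [dv3] at h1; simp only at h1; omega

/-- the inner data of a strip pair -/
structure In (h : ℤ) (u d : Wd) : Prop where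
  pos : 0 < h
  eu : (ep (1, 0) u).1 = h
  ed : (ep 0 d).1 = 1 - h
  nu : (vt (1, 0) u).Nodup
  nd : (vt 0 d).Nodup
  hu : ∀ v ∈ vt (1, 0) u, 0 < v.1 ∧ v.1 ≤ h
  hd : ∀ v ∈ vt 0 d, -h < v.1 ∧ v.1 ≤ 0

lemma zdv0 : (0 : ℤ × ℤ) + dv 0 = (1, 0) := by rw [dv0]; rfl

lemma vt_snoc (p : ℤ × ℤ) (d : Wd) : vt p (d ++ [2]) = vt p d ++ [ep p (d ++ [2])] := by
  unfold vt
  rw [vs_append]
  simp

lemma vs_snoc (p : ℤ × ℤ) (d : Wd) : vs p (d ++ [2]) = vt p d := by
  unfold vt
  rw [vs_append]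
  simp

lemma strip_iff (h : ℤ) (u d : Wd) :
    (StripPair (0 :: u) (d ++ [2]) ∧ (ep 0 (0 :: u : Wd)).1 = h) ↔ In h u d := by
  have e1 : ep 0 (0 :: u : Wd) = ep (1, 0) u := by rw [ep_cons, zdv0]
  have e2 : (ep 0 (d ++ [2])).1 = (ep 0 d).1 - 1 := by
    rw [ep_append, ep_cons, ep_nil, Prod.fst_add, dv2]
    ring
  have e3 : (vt 0 (0 :: u : Wd)).tail = vt (1, 0) u := by rw [vt_cons, zdv0, List.tail_cons]
  unfold StripPair
  rw [e3, vs_snoc, e1, e2]
  constructor
  · rintro ⟨⟨h1, h2, h3, h4, h5, h6⟩, rfl⟩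
    rw [vt_cons, List.nodup_cons, zdv0] at h3
    rw [vt_snoc] at h4
    refine ⟨h1, rfl, by omega, h3.2, (List.nodup_append.1 h4).1, h5, fun v hv => ?_⟩
    have := h6 v hv
    omega
  · intro H
    refine ⟨⟨?_, ?_, ?_, ?_, ?_, ?_⟩, H.eu⟩
    · rw [H.eu]; exact H.pos
    · rw [H.eu, H.ed]; ring
    · rw [vt_cons, List.nodup_cons, zdv0]
      refine ⟨fun h0 => ?_, H.nu⟩
      have := (H.hu _ h0).1
      simp at this
    · rw [vt_snoc]
      refine List.nodup_append.2 ⟨H.nd, by simp, ?_⟩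
      intro v hv w hw
      rw [List.mem_singleton] at hw
      subst hw
      intro hvw
      have h7 := (H.hd v hv).1
      rw [hvw, e2, H.ed] at h7
      omega
    · intro v hv
      rw [H.eu]
      exact H.hu v hv
    · intro v hv
      have := H.hd v hv
      rw [H.ed]
      omega

/-- rotation of the inner data -/
lemma In.rot {h : ℤ} {u d : Wd} (H : In h u d) : In h (rot2 d) (rot2 u) := by
  have e1 : vt (1, 0) (rot2 d) = (vt 0 d).map (fun v => ((1 : ℤ), (0 : ℤ)) - v) := by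
    rw [vt_rot2, vt_eq (-(1, 0)) d, List.map_map]
    apply List.map_congr_left
    intro v _
    simp only [Function.comp]
    abel
  have e2 : vt 0 (rot2 u) = (vt (1, 0) u).map (fun v => ((1 : ℤ), (0 : ℤ)) - v) := by
    rw [vt_rot2, neg_zero, vt_eq (1, 0) u, List.map_map]
    apply List.map_congr_left
    intro v _
    simp only [Function.comp]
    abel
  have hinj : Function.Injective (fun v : ℤ × ℤ => ((1 : ℤ), (0 : ℤ)) - v) := by
    intro a b hab
    simpa using hab
  refine ⟨H.pos, ?_, ?_, ?_, ?_, ?_, ?_⟩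
  · rw [ep_rot2, ep_eq (-(1, 0)) d]
    have := H.ed
    simp only [Prod.fst_neg, Prod.fst_add]
    omega
  · rw [ep0_rot2, Prod.fst_neg]
    have := H.eu
    rw [ep_eq (1, 0) u, Prod.fst_add] at this
    simp only at this
    omega
  · rw [e1]; exact (List.nodup_map_iff hinj).2 H.nd
  · rw [e2]; exact (List.nodup_map_iff hinj).2 H.nu
  · intro v hv
    rw [e1, List.mem_map] at hv
    obtain ⟨w, hw, rfl⟩ := hv
    have := H.hd w hw
    simp only [Prod.fst_sub]
    omega
  · intro v hv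
    rw [e2, List.mem_map] at hv
    obtain ⟨w, hw, rfl⟩ := hv
    have := H.hu w hw
    simp only [Prod.fst_sub]
    omega

/-- crossings of the inner lines -/
lemma cx_inner {u d : Wd} {i : ℤ} (hi : 1 ≤ i)
    (H : (ep (ep (1, 0) u) d).1 = 1) :
    cx i 0 ((0 :: u) ++ (d ++ [2]) : Wd) = cx i (1, 0) u ++ cx i (ep (1, 0) u) d := by
  rw [List.cons_append, cx_cons, if_neg (by
    rintro (⟨_, h2⟩ | ⟨h1, _⟩)
    · simp only [Prod.fst_zero] at h2; omega
    · exact absurd h1 (by decide)), List.nil_append, zdv0, cx_append, cx_append, cx_cons, cx_nil,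
    if_neg (by
      rintro (⟨h1, _⟩ | ⟨_, h2⟩)
      · exact absurd h1 (by decide)
      · omega), List.append_nil, List.append_nil]

lemma In.ends {h : ℤ} {u d : Wd} (H : In h u d) : (ep (ep (1, 0) u) d).1 = 1 := by
  rw [ep_eq, Prod.fst_add, H.eu, H.ed]
  ring

lemma cx_zero {h : ℤ} {u d : Wd} (H : In h u d) :
    (cx 0 0 ((0 :: u) ++ (d ++ [2]) : Wd)).length = 2 := by
  have h1 : cx 0 (1, 0) u = [] := cx_eq_nil_of_lt _ _ _ fun v hv => (H.hu v hv).1
  have h2 : cx 0 (ep (1, 0) u) d = [] := by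
    apply cx_eq_nil_of_lt
    intro v hv
    rw [vt_eq, List.mem_map] at hv
    obtain ⟨w, hw, rfl⟩ := hv
    have := H.hd w hw
    rw [Prod.fst_add, H.eu]
    omega
  rw [List.cons_append, cx_cons, if_pos (Or.inl ⟨rfl, rfl⟩), zdv0, cx_append, cx_append, h1, h2,
    cx_cons, if_pos (Or.inr ⟨rfl, by rw [H.ends]; ring⟩), cx_nil]
  rfl

lemma cx_neg {h : ℤ} {u d : Wd} (H : In h u d) {i : ℤ} (hi : i < 0) :
    cx i 0 ((0 :: u) ++ (d ++ [2]) : Wd) = [] := by
  have h1 : cx i (1, 0) u = [] := cx_eq_nil_of_lt _ _ _ fun v hv => by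
    have := (H.hu v hv).1
    omega
  have h2 : cx i (ep (1, 0) u) d = [] := by
    apply cx_eq_nil_of_lt
    intro v hv
    rw [vt_eq, List.mem_map] at hv
    obtain ⟨w, hw, rfl⟩ := hv
    have := H.hd w hw
    rw [Prod.fst_add, H.eu]
    omega
  rw [List.cons_append, cx_cons, if_neg (by
    rintro (⟨_, h3⟩ | ⟨h3, _⟩)
    · simp only [Prod.fst_zero] at h3; omega
    · exact absurd h3 (by decide)), List.nil_append, zdv0, cx_append, cx_append, h1, h2,
    cx_cons, if_neg (by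
      rintro (⟨h3, _⟩ | ⟨_, h3⟩)
      · exact absurd h3 (by decide)
      · have := H.ends
        omega), cx_nil]
  rfl

lemma cx_big {h : ℤ} {u d : Wd} (H : In h u d) {i : ℤ} (hi : h ≤ i) :
    cx i 0 ((0 :: u) ++ (d ++ [2]) : Wd) = [] := by
  have h0 := H.pos
  rw [cx_inner (by omega) H.ends]
  have h1 : cx i (1, 0) u = [] := cx_eq_nil_of_le _ _ _ fun v hv => by
    have := (H.hu v hv).2
    omega
  have h2 : cx i (ep (1, 0) u) d = [] := by
    apply cx_eq_nil_of_le
    intro v hv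
    rw [vt_eq, List.mem_map] at hv
    obtain ⟨w, hw, rfl⟩ := hv
    have := H.hd w hw
    rw [Prod.fst_add, H.eu]
    omega
  rw [h1, h2]
  rfl

/-- crossings of the rotated piece and of the piece -/
lemma cx_flip {h : ℤ} {u d : Wd} (H : In h u d) {i : ℤ} (h1 : 1 ≤ i) (h2 : i < h) :
    ∃ A B : List ℤ,
      cx i 0 ((0 :: rot2 d) ++ (rot2 u ++ [2]) : Wd) =
        A.map (fun a => -a) ++ B.map (fun b => -(b + (ep 0 (d ++ [2])).2)) ∧
      cx (h - i) 0 ((0 :: u) ++ (d ++ [2]) : Wd) =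
        B ++ A.map (fun a => a + (ep 0 (0 :: u : Wd)).2) := by
  refine ⟨cx (-i - 1) (-1, 0) d, cx (h - i) (1, 0) u, ?_, ?_⟩
  · rw [cx_inner h1 H.rot.ends]
    congr 1
    · have := cx_rot2 i (-1, 0) d
      rw [show -((-1 : ℤ), (0 : ℤ)) = (1, 0) by ext <;> simp] at this
      exact this
    · have e1 : ep (1, 0) (rot2 d) = -(-(ep (1, 0) (rot2 d))) := (neg_neg _).symm
      rw [e1, cx_rot2]
      have e2 : -(ep (1, 0) (rot2 d)) = (1, 0) + (-h - 1, (ep 0 (d ++ [2])).2) := by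
        rw [ep_rot2, neg_neg, ep_eq (-(1, 0)) d, ep_append, ep_cons, ep_nil, dv2]
        have := H.ed
        ext
        · simp only [Prod.fst_add, Prod.fst_neg]; omega
        · simp
      rw [e2, cx_add]
      simp only
      rw [show -i - 1 - (-h - 1) = h - i by ring, List.map_map]
      rfl
  · rw [cx_inner (by omega) H.ends]
    congr 1
    have e1 : ep (1, 0) u = (-1, 0) + (h + 1, (ep 0 (0 :: u : Wd)).2) := by
      have e2 : ep 0 (0 :: u : Wd) = ep (1, 0) u := by rw [ep_cons, zdv0]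
      rw [e2]
      have := H.eu
      ext
      · simp only [Prod.fst_add]; omega
      · simp
    rw [e1, cx_add]
    simp only
    rw [show h - i - (h + 1) = -i - 1 by ring]

/-- an even cut of the rotated piece gives an even cut of the piece -/
lemma EC_flip {h : ℤ} {u d : Wd} (H : In h u d)
    (hs : Even ((ep 0 (0 :: u : Wd)).2 + (ep 0 (d ++ [2])).2)) {i : ℤ} (h1 : 1 ≤ i) (h2 : i < h)
    (hE : EC ((0 :: rot2 d) ++ (rot2 u ++ [2]) : Wd) i) :
    EC ((0 :: u) ++ (d ++ [2]) : Wd) (h - i) := by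
  obtain ⟨A, B, e1, e2⟩ := cx_flip H h1 h2
  obtain ⟨y, y', hy, hev⟩ := hE
  unfold EC
  rw [e1] at hy
  rw [e2]
  set s := (ep 0 (0 :: u : Wd)).2
  set t := (ep 0 (d ++ [2])).2
  rcases A with _ | ⟨a1, _ | ⟨a2, A⟩⟩
  · rcases B with _ | ⟨b1, _ | ⟨b2, _ | ⟨b3, B⟩⟩⟩
    · simp at hy
    · simp at hy
    · simp only [List.map_nil, List.nil_append, List.map_cons, List.cons.injEq, and_true] at hy
      refine ⟨b1, b2, by simp, ?_⟩
      have : b1 - b2 = -(y - y') := by omega
      rw [this]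
      exact hev.neg
    · simp at hy
  · rcases B with _ | ⟨b1, _ | ⟨b2, B⟩⟩
    · simp at hy
    · simp only [List.map_nil, List.nil_append, List.map_cons, List.cons_append, List.cons.injEq,
        and_true] at hy
      refine ⟨b1, a1 + s, by simp, ?_⟩
      have : b1 - (a1 + s) = (y - y') - (s + t) := by omega
      rw [this]
      exact hev.sub hs
    · simp at hy
  · rcases A with _ | ⟨a3, A⟩
    · rcases B with _ | ⟨b1, B⟩
      · simp only [List.map_nil, List.append_nil, List.map_cons, List.cons.injEq,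
          and_true] at hy
        refine ⟨a1 + s, a2 + s, by simp, ?_⟩
        have : a1 + s - (a2 + s) = -(y - y') := by omega
        rw [this]
        exact hev.neg
      · simp at hy
    · simp at hy

lemma cr_flip {h : ℤ} {u d : Wd} (H : In h u d) {i : ℤ} (h1 : 1 ≤ i) (h2 : i < h) :
    cr ((0 :: rot2 d) ++ (rot2 u ++ [2]) : Wd) i = cr ((0 :: u) ++ (d ++ [2]) : Wd) (h - i) := by
  obtain ⟨A, B, e1, e2⟩ := cx_flip H h1 h2
  unfold cr
  rw [e1, e2]
  simp only [List.length_append, List.length_map]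
  omega

lemma Nar_flip {k : ℕ} {h : ℤ} {u d : Wd} (H : In h u d) (hN : Nar k ((0 :: u) ++ (d ++ [2]))) :
    Nar k ((0 :: rot2 d) ++ (rot2 u ++ [2])) := by
  intro i
  rcases lt_trichotomy i 0 with hi | hi | hi
  · have : cr ((0 :: rot2 d) ++ (rot2 u ++ [2]) : Wd) i = 0 := by
      unfold cr
      rw [cx_neg H.rot hi]
      rfl
    omega
  · subst hi
    have h1 := hN 0
    have h2 := cx_zero H
    have h3 := cx_zero H.rot
    unfold cr at h1 ⊢
    omega
  · rcases lt_or_ge i h with hi2 | hi2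
    · rw [cr_flip H (by omega) hi2]
      exact hN _
    · have : cr ((0 :: rot2 d) ++ (rot2 u ++ [2]) : Wd) i = 0 := by
        unfold cr
        rw [cx_big H.rot hi2]
        rfl
      omega

/-- the sum of the heights -/
lemma even_sum {U D : Wd} (h2 : (ep 0 D).1 = -(ep 0 U).1) (hev : Even (U.length + D.length)) :
    (ep 0 U).2 + (ep 0 D).2 = -(2 * jump (U, D)) := by
  obtain ⟨c1, hc1⟩ := lev_ep_parity 0 U
  obtain ⟨c2, hc2⟩ := lev_ep_parity 0 D
  rw [Nat.even_iff] at hev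
  unfold Pool.Agent.SapR.lev at hc1 hc2
  unfold jump
  simp only [Prod.fst_zero, Prod.snd_zero] at hc1 hc2
  simp only
  omega

lemma flip_eq (u d : Wd) : flip (0 :: u, d ++ [2]) = (0 :: rot2 d, rot2 u ++ [2]) := by
  unfold flip
  simp only [List.dropLast_concat, List.tail_cons]

/-- the structure of a free piece -/
lemma free_split {k : ℕ} {p : Wd × Wd} (h : FreePiece k p.1 p.2) :
    ∃ u d : Wd, p = (0 :: u, d ++ [2]) ∧ In (ep 0 p.1).1 u d := by
  obtain ⟨hS, -, -, -⟩ := h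
  obtain ⟨U, D⟩ := p
  obtain ⟨h1, h2, h3, h4, h5, h6⟩ := hS
  obtain ⟨u, rfl⟩ := split_up h1 fun v hv => (h5 v hv).1
  obtain ⟨d, rfl⟩ := split_down (D := D) h2 (by simp only at h1 ⊢; omega)
    (fun v hv => by
      have := (h6 v hv).1
      simp only at h2 this ⊢
      omega)
  exact ⟨u, d, rfl, (strip_iff _ _ _).1 ⟨⟨h1, h2, h3, h4, h5, h6⟩, rfl⟩⟩

lemma free_flip {k : ℕ} {u d : Wd} {h : ℤ} (H : In h u d)
    (hF : FreePiece k (0 :: u) (d ++ [2])) : FreePiece k (0 :: rot2 d) (rot2 u ++ [2]) := by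
  obtain ⟨hS, hev, hN, hE⟩ := hF
  have hS' := (strip_iff h _ _).2 H.rot
  have hS2 := (strip_iff h _ _).2 H
  have hsum := even_sum hS.2.1 hev
  refine ⟨hS'.1, ?_, Nar_flip H hN, ?_⟩
  · simp only [List.length_cons, List.length_append, rot2_length, List.length_nil] at hev ⊢
    rw [Nat.even_iff] at hev ⊢
    omega
  · intro i h1 h2 hc
    rw [hS'.2] at h2
    refine hE (h - i) (by omega) (by rw [hS2.2]; omega) ?_
    refine EC_flip H ?_ (by omega) h2 hc
    rw [hsum]
    exact (even_two_mul _).neg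

lemma jump_flip {u d : Wd} (h2 : (ep 0 (d ++ [2])).1 = -(ep 0 (0 :: u : Wd)).1)
    (hev : Even ((0 :: u : Wd).length + (d ++ [2]).length)) :
    jump (0 :: rot2 d, rot2 u ++ [2]) = -jump (0 :: u, d ++ [2]) := by
  have h := even_sum h2 hev
  have e1 : (ep 0 (0 :: rot2 d : Wd)).2 = -(ep 0 (d ++ [2])).2 := by
    rw [ep_cons, zdv0, ep_rot2, ep_eq (-(1, 0)) d, ep_append, ep_cons, ep_nil, dv2]
    simp
  have e2 : (ep 0 (rot2 u ++ [2])).2 = -(ep 0 (0 :: u : Wd)).2 := by
    rw [ep_append, ep0_rot2, ep_cons, ep_nil, dv2, ep_cons, zdv0, ep_eq (1, 0) u]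
    simp
  have e3 : jump (0 :: rot2 d, rot2 u ++ [2]) =
      -((-(ep 0 (d ++ [2])).2 + -(ep 0 (0 :: u : Wd)).2) / 2) := by
    unfold jump
    simp only
    rw [e1, e2]
  rw [e3]
  omega

/-- disjointness in terms of the inner words -/
lemma disj_iff {h g g' : ℤ} {u d : Wd} (H : In h u d) (hg : 1 ≤ g)
    (hgg : g' = g + jump (0 :: u, d ++ [2]))
    (hsum : (ep 0 (0 :: u : Wd)).2 + (ep 0 (d ++ [2])).2 = -(2 * jump (0 :: u, d ++ [2]))) :
    Disj g (0 :: u, d ++ [2]) ↔
      List.Disjoint (vt (1, 0) u) (vt (ep (1, 0) u + (0, 2 * g')) d) := by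
  unfold Disj
  simp only
  rw [← hgg, vt_cons, zdv0, vt_snoc]
  have e1 : ep 0 (0 :: u : Wd) = ep (1, 0) u := by rw [ep_cons, zdv0]
  rw [e1]
  rw [e1] at hsum
  have e2 : ep (ep (1, 0) u + (0, 2 * g')) (d ++ [2]) = (0, 2 * g) := by
    rw [ep_eq]
    have h3 : (ep 0 (d ++ [2])).1 = -h := by
      rw [ep_append, ep_cons, ep_nil, Prod.fst_add, dv2, H.ed]
      ring
    have h4 := H.eu
    ext
    · simp only [Prod.fst_add]; omega
    · simp only [Prod.snd_add]; omega
  rw [e2]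
  constructor
  · intro hd v h1 h2
    exact hd (List.mem_cons_of_mem _ h1) (List.mem_append_left _ h2)
  · intro hd v h1 h2
    rw [List.mem_cons] at h1
    rw [List.mem_append, List.mem_singleton] at h2
    rcases h1 with rfl | h1
    · rcases h2 with h2 | h2
      · rw [vt_eq, List.mem_map] at h2
        obtain ⟨w, hw, h3⟩ := h2
        have h4 := (H.hd w hw).1
        have h5 := congrArg Prod.fst h3
        rw [Prod.fst_add, Prod.fst_add, H.eu] at h5
        simp only [Prod.fst_zero] at h5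
        omega
      · have h5 := congrArg Prod.snd h2
        simp only [Prod.snd_zero] at h5
        omega
    · rcases h2 with h2 | h2
      · exact hd h1 h2
      · subst h2
        have := (H.hu _ h1).1
        simp at this

/-- rotation of the inner words -/
lemma inner_rot {g g' : ℤ} {u d : Wd} {h : ℤ} (H : In h u d)
    (hs : (ep (1, 0) u).2 + 2 * g' + (ep 0 d).2 = 2 * g) :
    List.Disjoint (vt (1, 0) (rot2 d)) (vt (ep (1, 0) (rot2 d) + (0, 2 * g)) (rot2 u)) ↔
      List.Disjoint (vt (1, 0) u) (vt (ep (1, 0) u + (0, 2 * g')) d) := by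
  set c : ℤ × ℤ := ep (1, 0) u + (1, 2 * g') with hc
  have e1 : vt (1, 0) (rot2 d) =
      ((vt (ep (1, 0) u + (0, 2 * g')) d).map (- ·)).map (· + c) := by
    rw [vt_rot2, vt_eq (-(1, 0)) d, vt_eq (ep (1, 0) u + (0, 2 * g')) d]
    simp only [List.map_map]
    apply List.map_congr_left
    intro v _
    simp only [Function.comp, hc]
    ext
    · simp only [Prod.fst_add, Prod.fst_neg]; ring
    · simp only [Prod.snd_add, Prod.snd_neg]; ring
  have e2 : vt (ep (1, 0) (rot2 d) + (0, 2 * g)) (rot2 u) =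
      ((vt (1, 0) u).map (- ·)).map (· + c) := by
    rw [vt_eq (ep (1, 0) (rot2 d) + (0, 2 * g)) (rot2 u), vt_rot2, neg_zero, vt_eq (1, 0) u]
    simp only [List.map_map]
    apply List.map_congr_left
    intro v _
    simp only [Function.comp, hc]
    rw [ep_rot2, ep_eq (-(1, 0)) d]
    have h1 := H.eu
    have h2 := H.ed
    ext
    · simp only [Prod.fst_add, Prod.fst_neg]; omega
    · simp only [Prod.snd_add, Prod.snd_neg]; omega
  rw [e1, e2, disjoint_map_add, disjoint_map_neg]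
  exact List.disjoint_comm

end Pool.Agent.KCC.K5R

namespace Pool.Agent.KCC

open Finset Pool.Agent.Lib27 K5R
open Pool.Agent.SapR (rot2 wordsUpTo)
open Pool.Agent.SapR.H66 (rot2_rot2 rot2_length ep_rot2 ep0_rot2)

theorem k5r_thm : K5R_Stmt := by
  classical
  intro k n p hp
  rw [mem_Pc] at hp
  obtain ⟨hF, hlen⟩ := hp
  obtain ⟨u, d, rfl, H⟩ := free_split hF
  simp only at hF hlen H
  have hF' := free_flip H hF
  have hS := hF.1
  have hev := hF.2.1
  have hlen' : (0 :: rot2 d : Wd).length + (rot2 u ++ [2] : Wd).length =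
      (0 :: u : Wd).length + (d ++ [2] : Wd).length := by
    simp only [List.length_cons, List.length_append, rot2_length, List.length_nil]
    omega
  have hj := K5R.jump_flip hS.2.1 hev
  have hsum := even_sum hS.2.1 hev
  have hsum' := even_sum hF'.1.2.1 hF'.2.1
  have hPc : ((0 :: u, d ++ [2]) : Wd × Wd) ∈ Pc k n := (mem_Pc k n _).2 ⟨hF, hlen⟩
  have hPc' : ((0 :: rot2 d, rot2 u ++ [2]) : Wd × Wd) ∈ Pc k n :=
    (mem_Pc k n _).2 ⟨hF', by rw [hlen']; exact hlen⟩
  rw [K5R.flip_eq]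
  refine ⟨hPc', ?_, hj, ?_, ?_, ?_⟩
  · rw [K5R.flip_eq, rot2_rot2, rot2_rot2]
  · unfold ht
    simp only
    have h1 := ((strip_iff _ _ _).2 H.rot).2
    exact h1
  · unfold hl
    simp only
    rw [hlen']
  · intro g
    rw [mem_allowed, mem_allowed, hj]
    have e0 : g + jump (0 :: u, d ++ [2]) + -jump (0 :: u, d ++ [2]) = g := by ring
    rw [e0]
    have key : 1 ≤ g → 1 ≤ g + jump (0 :: u, d ++ [2]) →
        (Disj g (0 :: u, d ++ [2]) ↔
          Disj (g + jump (0 :: u, d ++ [2])) (0 :: rot2 d, rot2 u ++ [2])) := by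
      intro h1 h2
      rw [disj_iff H h1 rfl hsum, disj_iff H.rot h2 (by rw [hj, e0]) hsum']
      refine (inner_rot H ?_).symm
      have e1 : ep 0 (0 :: u : Wd) = ep (1, 0) u := by rw [ep_cons, zdv0]
      have e2 : (ep 0 (d ++ [2])).2 = (ep 0 d).2 := by
        rw [ep_append, ep_cons, ep_nil, Prod.snd_add, dv2]
        simp
      rw [e1, e2] at hsum
      omega
    constructor
    · rintro ⟨-, h1, h2, h3⟩
      exact ⟨hPc', h2, h1, (key h1 h2).1 h3⟩
    · rintro ⟨-, h1, h2, h3⟩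
      exact ⟨hPc, h2, h1, (key h2 h1).2 h3⟩

end Pool.Agent.KCC
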