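import Pool.Agent.KCC.Stmts
import Pool.Agent.Lib_helper58.SapR.Pos

/-! POS: the glued word of two arches is a polygon word with positive orientation. -/

set_option autoImplicit false

namespace Pool.Agent.KCC

open Finset Pool.Agent.Lib27
open Pool.Agent.SapR (rot2)
open Pool.Agent.SapR.H58 (rot2_length rot2_take ep_rot2' vs_rot2')

namespace POS

lemma dv_east : ∀ a : Fin 4, 0 < (dv a).1 → a = 0 := by decide

lemma dv_west : ∀ a : Fin 4, (dv a).1 < 0 → a = 2 := by decide

lemma dv_snd : ∀ a : Fin 4, (dv a).2 ≤ 1 := by decide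

lemma dv_fst : ∀ a : Fin 4, (dv a).1 ≤ 1 ∧ -1 ≤ (dv a).1 := by decide

/-- an arch starts with an E step and ends with a W step -/
lemma arch_form {g : ℤ} {w : Wd} (hg : 1 ≤ g) (h : Arch g w) : w = 0 :: (strip w ++ [2]) := by
  obtain ⟨h0, h1, h2, h3⟩ := h
  cases w with
  | nil => exact absurd rfl h0
  | cons a w' =>
    have hw' : w' ≠ [] := by
      rintro rfl
      rw [ep_cons, ep_nil, zero_add, Prod.ext_iff] at h1
      have h4 := dv_snd a
      have h5 := h1.2
      simp only at h5
      omega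
    obtain ⟨m, b, rfl⟩ : ∃ m b, w' = m ++ [b] :=
      ⟨w'.dropLast, w'.getLast hw', (List.dropLast_append_getLast hw').symm⟩
    have hs : strip (a :: (m ++ [b])) = m := by
      simp [strip]
    rw [hs]
    rw [vs_cons, List.tail_cons] at h3
    have ha : a = 0 := by
      apply dv_east
      have h4 : (0 : ℤ × ℤ) + dv a ∈ vs (0 + dv a) (m ++ [b]) := by
        cases m <;> simp
      have h5 := h3 _ h4
      rwa [zero_add] at h5
    have hb0 : 0 < (ep (0 + dv a) m).1 := by
      apply h3
      rw [vs_append]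
      simp
    rw [ep_cons, ep_append, ep_cons, ep_nil, Prod.ext_iff] at h1
    have h6 : (ep (0 + dv a) m).1 + (dv b).1 = 0 := h1.1
    have hb : b = 2 := by
      apply dv_west
      omega
    rw [ha, hb]

/-- the strand inside an arch -/
lemma strip_props {g : ℤ} {T : Wd} (hg : 1 ≤ g) (h : Arch g T) :
    ep 0 (strip T) = (0, 2 * g) ∧ (vs 0 (strip T)).Nodup ∧
      ∀ q ∈ vs 0 (strip T), 0 ≤ q.1 ∧ q ≠ (0, 2 * g) := by
  have hf := arch_form hg h
  obtain ⟨h0, h1, h2, h3⟩ := h
  set t := strip T with ht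
  rw [hf] at h1 h2 h3
  have h4 : ep 0 (0 :: (t ++ [2])) = ep 0 t := by
    rw [ep_cons, ep_append, ep_cons, ep_nil, ep_eq (0 + dv 0) t, add_assoc]
    have : (0 : ℤ × ℤ) + dv 0 + dv 2 = 0 := by decide
    rw [this, add_zero]
  rw [h4] at h1
  rw [vs_cons, List.tail_cons] at h3
  have h5 : (vs (0 + dv 0) (t ++ [2])).Nodup := by
    unfold vt at h2
    rw [vs_cons, List.nodup_append'] at h2
    exact (List.nodup_cons.1 h2.1).2
  have h6 : vs (0 + dv 0) (t ++ [2]) = (vs 0 t).map (· + (0 + dv 0)) ++ [ep 0 t + (0 + dv 0)] := by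
    rw [vs_append, vs_eq (0 + dv 0) t, vs_cons, vs_nil, ep_eq (0 + dv 0) t]
  rw [h6, List.nodup_append'] at h5
  refine ⟨h1, h5.1.of_map, ?_⟩
  intro q hq
  have hq' : q + (0 + dv 0) ∈ (vs 0 t).map (· + (0 + dv 0)) := List.mem_map_of_mem hq
  constructor
  · have h7 := h3 (q + (0 + dv 0)) (by rw [h6]; exact List.mem_append_left _ hq')
    have h8 : (q + (0 + dv 0)).1 = q.1 + 1 := by
      simp [dv]
    omega
  · intro hq2
    apply h5.2.2 hq'
    rw [hq2, h1]
    simp

section Main

variable {g : ℤ} {w T : Wd}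

lemma take_left (u : Wd) (j : ℕ) (hj : j ≤ w.length) : (w ++ rot2 u).take j = w.take j := by
  rw [List.take_append_of_le_length hj]

lemma ep_right (hw : ep 0 w = (0, 2 * g)) (u : Wd) (i : ℕ) :
    ep 0 ((w ++ rot2 u).take (w.length + i)) = - ep 0 (u.take i) + (0, 2 * g) := by
  rw [List.take_append, List.take_of_length_le (by omega), Nat.add_sub_cancel_left,
    ep_append, rot2_take, hw, ep_eq, ep_rot2']

lemma col_left (hw : Arch g w) (u : Wd) (j : ℕ) (h0 : 0 < j) (hj : j < w.length) :
    0 < (ep 0 ((w ++ rot2 u).take j)).1 := by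
  rw [take_left u j hj.le]
  apply hw.2.2.2
  obtain ⟨i, rfl⟩ : ∃ i, j = i + 1 := ⟨j - 1, by omega⟩
  have h1 : i < (vs 0 w).tail.length := by simp; omega
  have h2 : (vs 0 w).tail[i] = ep 0 (w.take (i + 1)) := by
    rw [List.getElem_tail, vs_getElem]
  rw [← h2]
  exact List.getElem_mem _

lemma col_right (hg : 1 ≤ g) (hw : Arch g w) (hT : Arch g T) (j : ℕ) (h0 : w.length ≤ j)
    (hj : j ≤ (w ++ rot2 (strip T)).length) :
    (ep 0 ((w ++ rot2 (strip T)).take j)).1 ≤ 0 := by
  obtain ⟨i, rfl⟩ : ∃ i, j = w.length + i := ⟨j - w.length, by omega⟩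
  rw [ep_right hw.2.1]
  obtain ⟨p1, p2, p3⟩ := strip_props hg hT
  rw [List.length_append, rot2_length] at hj
  have h1 : 0 ≤ (ep 0 ((strip T).take i)).1 := by
    rcases Nat.lt_or_ge i (strip T).length with hi | hi
    · have h2 : i < (vs 0 (strip T)).length := by simpa using hi
      have h3 := (p3 _ (List.getElem_mem h2)).1
      rwa [vs_getElem] at h3
    · rw [List.take_of_length_le hi, p1]
  simp only [Prod.fst_add, Prod.fst_neg]
  omega

lemma glue_SAPw (hg : 1 ≤ g) (hw : Arch g w) (hT : Arch g T) :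
    SAPw (w ++ rot2 (strip T)) := by
  obtain ⟨p1, p2, p3⟩ := strip_props hg hT
  refine ⟨?_, ?_⟩
  · rw [ep_append, ep_eq, ep_rot2', hw.2.1, p1]
    simp
  · rw [vs_append, hw.2.1, vs_eq (0, 2 * g), vs_rot2', List.nodup_append']
    have hw3 := hw.2.2.1
    unfold vt at hw3
    rw [List.nodup_append'] at hw3
    refine ⟨hw3.1, ?_, ?_⟩
    · apply List.Nodup.map (add_left_injective _)
      exact List.Nodup.map neg_injective p2
    · intro p hp hp'
      rw [List.mem_map] at hp'
      obtain ⟨q, hq, rfl⟩ := hp'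
      rw [List.mem_map] at hq
      obtain ⟨q, hq, rfl⟩ := hq
      obtain ⟨q1, q2⟩ := p3 q hq
      have hf := arch_form hg hw
      rw [hf, vs_cons, List.mem_cons] at hp
      rcases hp with hp | hp
      · apply q2
        have h1 : q = (0, 2 * g) := by
          rw [Prod.ext_iff] at hp ⊢
          simp only [Prod.fst_add, Prod.fst_neg, Prod.snd_add, Prod.snd_neg, Prod.fst_zero,
            Prod.snd_zero] at hp ⊢
          omega
        exact h1
      · have h1 := hw.2.2.2 (-q + (0, 2 * g)) (by rw [hf, vs_cons, List.tail_cons]; exact hp)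
        simp only [Prod.fst_add, Prod.fst_neg] at h1
        omega

end Main

lemma wind_low (s : Wd) (f : ℤ × ℤ) (hf : f.2 + 1 < -(s.length : ℤ)) : wind 0 s f = 0 := by
  rw [wind_sum]
  apply sum_eq_zero
  intro k hk
  rw [mem_range] at hk
  have := vertex_bound s k hk.le
  unfold wstep
  rw [if_neg, if_neg]
  · rintro ⟨_, h, _⟩
    omega
  · rintro ⟨_, h, _⟩
    omega

end POS

open POS in
theorem pos_thm : POS_Stmt := by
  intro g w T hg hw hT
  have hglue : glue w T = w ++ rot2 (strip T) := rfl
  rw [hglue]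
  set c := w ++ rot2 (strip T) with hc
  have hS : SAPw c := glue_SAPw hg hw hT
  have hwf := arch_form hg hw
  have hlw : 2 ≤ w.length := by
    rw [hwf]
    simp
  have hfirst : c.getD 0 0 = 0 := by
    rw [hc, hwf]
    simp
  have hlc : c.length = w.length + (strip T).length := by
    rw [hc, List.length_append, rot2_length]
  have hlt : 1 ≤ (strip T).length := by
    by_contra h
    have h0 : strip T = [] := List.length_eq_zero_iff.1 (by omega)
    have h1 := (strip_props hg hT).1
    rw [h0, ep_nil, Prod.ext_iff] at h1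
    have h2 := h1.2
    simp only [Prod.snd_zero] at h2
    omega
  have h3 : 3 ≤ c.length := by omega
  have hcl : ∀ j, 0 < j → j < w.length → 0 < (ep 0 (c.take j)).1 := fun j h0 hj =>
    col_left hw (strip T) j h0 hj
  have hcr : ∀ j, w.length ≤ j → j ≤ c.length → (ep 0 (c.take j)).1 ≤ 0 := fun j h0 hj =>
    col_right hg hw hT j h0 hj
  have hmid : ep 0 (c.take w.length) = (0, 2 * g) := by
    rw [hc, take_left _ _ le_rfl, List.take_length, hw.2.1]
  -- the cells below the first step
  have hstep : ∀ k : ℕ, wind 0 c ((0 : ℤ), -(k : ℤ) - 1) =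
      wind 0 c ((0 : ℤ), -((k + 1 : ℕ) : ℤ) - 1) := by
    intro k
    have hfl : flow 0 c ((0 : ℤ), -(k : ℤ) - 1) 0 = 0 := by
      rw [flow_sum]
      apply sum_eq_zero
      intro j hj
      rw [mem_range] at hj
      unfold fstep
      rw [if_neg, if_neg]
      · norm_num
      · rintro ⟨h, h'⟩
        have h1 : ep 0 (c.take (j + 1)) = ((0 : ℤ), -(k : ℤ) - 1) := by
          rw [vertex_succ c j hj, h, h', dv_add_two]
          abel
        have h2 : (ep 0 (c.take j)).1 = 1 := by
          rw [h]
          simp [dv]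
        have h4 : ¬ w.length ≤ j := by
          intro h5
          have := hcr j h5 hj.le
          omega
        have h5 : ¬ j + 1 < w.length := by
          intro h6
          have h7 := hcl (j + 1) (by omega) h6
          rw [h1] at h7
          simp at h7
        have h6 : j + 1 = w.length := by omega
        rw [h6, hmid, Prod.ext_iff] at h1
        have h7 := h1.2
        simp only at h7
        omega
      · rintro ⟨h, h'⟩
        have h1 : (ep 0 (c.take (j + 1))).1 = 1 := by
          rw [vertex_succ c j hj, h, h']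
          simp [dv]
        have h4 : ¬ w.length ≤ j + 1 := by
          intro h5
          have := hcr (j + 1) h5 hj
          omega
        have h5 : j = 0 := by
          by_contra h6
          have h7 := hcl j (by omega) (by omega)
          rw [h] at h7
          simp at h7
        subst h5
        rw [List.take_zero, ep_nil, Prod.ext_iff] at h
        have h7 := h.2
        simp only [Prod.snd_zero] at h7
        omega
    have e0 := wind_flow_closed c hS.1 ((0 : ℤ), -(k : ℤ) - 1) 0
    rw [hfl] at e0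
    have h4 : Q ((0 : ℤ), -(k : ℤ) - 1) 0 = ((0 : ℤ), -(k : ℤ) - 1) := rfl
    have h5 : Q ((0 : ℤ), -(k : ℤ) - 1) (0 + 3) = ((0 : ℤ), -(k : ℤ) - 1 - 1) := rfl
    rw [h4, h5] at e0
    push_cast
    have h6 : (-((k : ℤ) + 1) - 1) = (-(k : ℤ) - 1 - 1) := by ring
    rw [h6]
    linarith
  have hall : ∀ k : ℕ, wind 0 c ((0 : ℤ), -1) = wind 0 c ((0 : ℤ), -(k : ℤ) - 1) := by
    intro k
    induction k with
    | zero => simp
    | succ k ih => rw [ih, hstep k]
  have hR : wind 0 c ((0 : ℤ), -1) = 0 := by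
    rw [hall (c.length + 1)]
    apply wind_low
    push_cast
    omega
  have hl1 : wind 0 c (Q 0 (c.getD 0 0)) = 1 := by
    have hr := right_const c hS h3 0 (by omega)
    rw [List.take_zero, ep_nil, hfirst] at hr
    have h6 : Q 0 (0 + 3) = ((0 : ℤ), (-1 : ℤ)) := by simp [Q]
    rw [h6, hR] at hr
    rw [hfirst]
    linarith
  set M := c.length + 2 with hM
  have hsum : ∑ f ∈ Box M, wind 0 c f = xdy 0 c := by
    rw [sum_wind M c 0, hS.1]
    · simp
    · intro j hj
      have := vertex_bound c j hj.le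
      rw [hM]; push_cast
      omega
  have hdbl : dbl 0 c = 2 * xdy 0 c := by
    rw [dbl_eq_xdy, hS.1]; simp
  have hnn : ∀ f, 0 ≤ wind 0 c f := by
    intro f
    rcases wind_range c hS h3 f with h | h | h
    · omega
    · rw [h, hl1]; norm_num
    · rw [h, hl1]; norm_num
  have hmem : Q 0 (c.getD 0 0) ∈ Box M := by
    have h1 : (1 : ℤ) < M := by rw [hM]; push_cast; omega
    rw [Box, mem_product, mem_Ico, mem_Ico, hfirst]
    simp only [Q, Matrix.cons_val_zero, Prod.fst_zero, Prod.snd_zero]
    omega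
  have hge : 1 ≤ ∑ f ∈ Box M, wind 0 c f := by
    rw [← hl1]
    exact single_le_sum (fun f _ => hnn f) hmem
  rw [hsum] at hge
  rw [hdbl]
  omega

end Pool.Agent.KCC
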