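import Pool.Agent.KCC.Stmts
import Pool.Agent.Lib_helper58.SapR.Root

/-!
# Column-convex polygons: canonical rotations (ROT)
-/

set_option autoImplicit false

namespace Pool.Agent.KCC

open Finset Pool.Agent.Lib27

namespace ROT

lemma cx_append (h : ℤ) (p : ℤ × ℤ) (u v : Wd) :
    cx h p (u ++ v) = cx h p u ++ cx h (ep p u) v := by
  induction u generalizing p with
  | nil => simp [cx]
  | cons a u ih =>
    rw [List.cons_append, cx, cx, ih (p + dv a), ep_cons, List.append_assoc]

lemma cx_add (h : ℤ) (p q : ℤ × ℤ) (w : Wd) :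
    cx h (p + q) w = (cx (h - q.1) p w).map (· + q.2) := by
  induction w generalizing p with
  | nil => simp [cx]
  | cons a w ih =>
    have h1 : p + q + dv a = p + dv a + q := by abel
    rw [cx, cx, h1, ih (p + dv a), List.map_append]
    congr 1
    have h2 : ((a = 0 ∧ (p + q).1 = h) ∨ (a = 2 ∧ (p + q).1 = h + 1)) ↔
        ((a = 0 ∧ p.1 = h - q.1) ∨ (a = 2 ∧ p.1 = h - q.1 + 1)) := by
      simp only [Prod.fst_add]
      constructor
      · rintro (⟨h3, h4⟩ | ⟨h3, h4⟩)
        · exact Or.inl ⟨h3, by omega⟩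
        · exact Or.inr ⟨h3, by omega⟩
      · rintro (⟨h3, h4⟩ | ⟨h3, h4⟩)
        · exact Or.inl ⟨h3, by omega⟩
        · exact Or.inr ⟨h3, by omega⟩
    by_cases h3 : (a = 0 ∧ p.1 = h - q.1) ∨ (a = 2 ∧ p.1 = h - q.1 + 1)
    · rw [if_pos (h2.2 h3), if_pos h3]
      simp
    · rw [if_neg (fun h4 => h3 (h2.1 h4)), if_neg h3]
      simp

/-- crossings of a rotated closed word -/
lemma cx_rot (u v : Wd) (hs : ep 0 (u ++ v) = 0) (h : ℤ) :
    ∃ A B : List ℤ, cx (h + (ep 0 u).1) 0 (u ++ v) = A ++ B ∧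
      cx h 0 (v ++ u) = (B ++ A).map (· + (-(ep 0 u).2)) := by
  refine ⟨cx (h + (ep 0 u).1) 0 u, cx (h + (ep 0 u).1) (ep 0 u) v, cx_append _ _ _ _, ?_⟩
  have h3 : ep 0 v = - ep 0 u := by
    rw [ep_append, ep_eq] at hs
    exact eq_neg_of_add_eq_zero_left hs
  rw [cx_append, List.map_append, h3]
  congr 1
  · have h4 := cx_add h (ep 0 u) (-ep 0 u) v
    rw [add_neg_cancel] at h4
    rw [h4]
    simp only [Prod.fst_neg, Prod.snd_neg, sub_neg_eq_add]
  · have h4 := cx_add h 0 (-ep 0 u) u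
    rw [zero_add] at h4
    rw [h4]
    simp only [Prod.fst_neg, Prod.snd_neg, sub_neg_eq_add]

lemma cr_rot (u v : Wd) (hs : ep 0 (u ++ v) = 0) (h : ℤ) :
    cr (v ++ u) h = cr (u ++ v) (h + (ep 0 u).1) := by
  obtain ⟨A, B, h1, h2⟩ := cx_rot u v hs h
  unfold cr
  rw [h1, h2, List.length_map, List.length_append, List.length_append]
  omega

lemma even_two (A B : List ℤ) (c : ℤ) :
    (∃ y y' : ℤ, (B ++ A).map (· + c) = [y, y'] ∧ Even (y - y')) ↔
      ∃ y y' : ℤ, A ++ B = [y, y'] ∧ Even (y - y') := by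
  have key : ∀ (A B : List ℤ) (c : ℤ), (∃ y y' : ℤ, A ++ B = [y, y'] ∧ Even (y - y')) →
      ∃ y y' : ℤ, (B ++ A).map (· + c) = [y, y'] ∧ Even (y - y') := by
    rintro A B c ⟨y, y', h1, h2⟩
    match A, B, h1 with
    | [], B, h1 =>
      rw [List.nil_append] at h1
      rw [h1]
      exact ⟨y + c, y' + c, by simp, by simpa using h2⟩
    | [a], B, h1 =>
      rw [List.singleton_append, List.cons.injEq] at h1
      obtain ⟨rfl, rfl⟩ := h1
      refine ⟨y' + c, a + c, by simp, ?_⟩
      have h3 : y' + c - (a + c) = -(a - y') := by ring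
      rw [h3]
      exact h2.neg
    | a :: b :: A, B, h1 =>
      simp only [List.cons_append, List.cons.injEq] at h1
      obtain ⟨rfl, rfl, h3⟩ := h1
      rw [List.append_eq_nil_iff] at h3
      obtain ⟨rfl, rfl⟩ := h3
      exact ⟨a + c, b + c, by simp, by simpa using h2⟩
  constructor
  · rintro ⟨y, y', h1, h2⟩
    have h3 : B ++ A = [y + (-c), y' + (-c)] := by
      have h4 : ((B ++ A).map (· + c)).map (· + (-c)) = [y, y'].map (· + (-c)) := by rw [h1]
      rw [List.map_map] at h4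
      have h5 : ((fun x : ℤ => x + -c) ∘ fun x => x + c) = id := by
        funext x
        simp
      rw [h5, List.map_id] at h4
      simpa using h4
    obtain ⟨z, z', h6, h7⟩ := key B A 0 ⟨_, _, h3, by
      have h8 : y + -c - (y' + -c) = y - y' := by ring
      rw [h8]
      exact h2⟩
    exact ⟨z, z', by simpa using h6, h7⟩
  · exact key A B c

lemma ec_rot (u v : Wd) (hs : ep 0 (u ++ v) = 0) (h : ℤ) :
    EC (v ++ u) h ↔ EC (u ++ v) (h + (ep 0 u).1) := by
  obtain ⟨A, B, h1, h2⟩ := cx_rot u v hs h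
  unfold EC
  rw [h1, h2]
  exact even_two A B _

/-- column at time `j` -/
def X (s : Wd) (j : ℕ) : ℤ := (ep 0 (s.take j)).1

@[simp] lemma X_zero (s : Wd) : X s 0 = 0 := by simp [X]

lemma X_succ (s : Wd) (j : ℕ) (hj : j < s.length) :
    X s (j + 1) = X s j + (dv (s.getD j 0)).1 := by
  unfold X
  rw [vertex_succ s j hj, Prod.fst_add]

lemma X_length (s : Wd) (h : ep 0 s = 0) : X s s.length = 0 := by
  unfold X
  rw [List.take_length, h]
  rfl

lemma ec_rotate (s : Wd) (hs : ep 0 s = 0) (j : ℕ) (hj : j ≤ s.length) (k : ℤ) :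
    EC (s.rotate j) k ↔ EC s (k + X s j) := by
  rw [List.rotate_eq_drop_append_take hj, ec_rot _ _ (by rwa [List.take_append_drop]),
    List.take_append_drop]
  rfl

lemma cr_rotate (s : Wd) (hs : ep 0 s = 0) (j : ℕ) (hj : j ≤ s.length) (k : ℤ) :
    cr (s.rotate j) k = cr s (k + X s j) := by
  rw [List.rotate_eq_drop_append_take hj, cr_rot _ _ (by rwa [List.take_append_drop]),
    List.take_append_drop]
  rfl

/-- the step number `j` crosses the line `h` -/
def Cr (s : Wd) (h : ℤ) (j : ℕ) : Prop :=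
  (s.getD j 0 = 0 ∧ X s j = h) ∨ (s.getD j 0 = 2 ∧ X s j = h + 1)

instance (s : Wd) (h : ℤ) (j : ℕ) : Decidable (Cr s h j) := by
  unfold Cr
  infer_instance

lemma cx_len (h : ℤ) (p : ℤ × ℤ) (w : Wd) :
    (cx h p w).length = (List.range w.length).countP (fun j => decide
      ((w.getD j 0 = 0 ∧ (ep p (w.take j)).1 = h) ∨
        (w.getD j 0 = 2 ∧ (ep p (w.take j)).1 = h + 1))) := by
  induction w generalizing p with
  | nil => simp [cx]
  | cons a w ih =>
    rw [cx, List.length_append, ih (p + dv a), List.length_cons, List.range_succ_eq_map,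
      List.countP_cons, List.countP_map, add_comm]
    congr 1
    simp only [List.getD_cons_zero, List.take_zero, ep_nil, decide_eq_true_eq]
    split_ifs <;> rfl

lemma cr_eq (s : Wd) (h : ℤ) : cr s h = ((range s.length).filter (fun j => Cr s h j)).card := by
  unfold cr
  rw [cx_len, ← SapR.H58.countP_range]
  rfl

/-- cyclic column function -/
def Kc (s : Wd) (j : ℕ) : ℤ := X s (j % s.length)

lemma Kc_succ (s : Wd) (hs : ep 0 s = 0) (h0 : 0 < s.length) (j : ℕ) :
    Kc s (j + 1) = Kc s j + (dv (s.getD (j % s.length) 0)).1 := by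
  unfold Kc
  have hi : j % s.length < s.length := Nat.mod_lt _ h0
  rw [← X_succ s _ hi]
  by_cases h : j % s.length + 1 < s.length
  · rw [Nat.add_mod, Nat.mod_eq_of_lt (a := j % s.length + 1 % s.length)]
    · rw [Nat.mod_eq_of_lt (a := 1)]
      omega
    · rw [Nat.mod_eq_of_lt (a := 1)] <;> omega
  · have h1 : j % s.length + 1 = s.length := by omega
    rw [h1, X_length s hs]
    have h2 : (j + 1) % s.length = 0 := by
      rw [← Nat.mod_add_mod, h1, Nat.mod_self]
    rw [h2, X_zero]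

lemma dv_le {a : Fin 4} (h : a ≠ 0) : (dv a).1 ≤ 0 := by
  revert h; revert a; decide

lemma dv_ge {a : Fin 4} (h : a ≠ 2) : 0 ≤ (dv a).1 := by
  revert h; revert a; decide

lemma dv_abs (a : Fin 4) : -1 ≤ (dv a).1 ∧ (dv a).1 ≤ 1 := by
  revert a; decide

lemma east_exists (s : Wd) (hs : ep 0 s = 0) (h : ℤ) (a b : ℕ) (ha : a < s.length)
    (hb : b < s.length) (h1 : X s a ≤ h) (h2 : h + 1 ≤ X s b) :
    ∃ j, j < s.length ∧ X s j = h ∧ s.getD j 0 = 0 := by
  by_contra hcon
  push Not at hcon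
  have h0 : 0 < s.length := by omega
  have key : ∀ k, Kc s (a + k) ≤ h := by
    intro k
    induction k with
    | zero =>
      unfold Kc
      rw [add_zero, Nat.mod_eq_of_lt ha]
      exact h1
    | succ k ih =>
      rw [← add_assoc, Kc_succ s hs h0]
      by_cases hu : s.getD ((a + k) % s.length) 0 = 0
      · have h3 := (dv_abs (s.getD ((a + k) % s.length) 0)).2
        by_contra hlt
        have he : Kc s (a + k) = h := by omega
        exact hcon _ (Nat.mod_lt _ h0) he hu
      · have h3 := dv_le hu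
        omega
  have := key (s.length - a + b)
  unfold Kc at this
  have h3 : (a + (s.length - a + b)) % s.length = b := by
    have : a + (s.length - a + b) = b + s.length := by omega
    rw [this, Nat.add_mod_right, Nat.mod_eq_of_lt hb]
  rw [h3] at this
  omega

lemma west_exists (s : Wd) (hs : ep 0 s = 0) (h : ℤ) (a b : ℕ) (ha : a < s.length)
    (hb : b < s.length) (h1 : h + 1 ≤ X s a) (h2 : X s b ≤ h) :
    ∃ j, j < s.length ∧ X s j = h + 1 ∧ s.getD j 0 = 2 := by
  by_contra hcon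
  push Not at hcon
  have h0 : 0 < s.length := by omega
  have key : ∀ k, h + 1 ≤ Kc s (a + k) := by
    intro k
    induction k with
    | zero =>
      unfold Kc
      rw [add_zero, Nat.mod_eq_of_lt ha]
      exact h1
    | succ k ih =>
      rw [← add_assoc, Kc_succ s hs h0]
      by_cases hu : s.getD ((a + k) % s.length) 0 = 2
      · have h3 := (dv_abs (s.getD ((a + k) % s.length) 0)).1
        by_contra hlt
        have he : Kc s (a + k) = h + 1 := by omega
        exact hcon _ (Nat.mod_lt _ h0) he hu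
      · have h3 := dv_ge hu
        omega
  have := key (s.length - a + b)
  unfold Kc at this
  have h3 : (a + (s.length - a + b)) % s.length = b := by
    have : a + (s.length - a + b) = b + s.length := by omega
    rw [this, Nat.add_mod_right, Nat.mod_eq_of_lt hb]
  rw [h3] at this
  omega

lemma cross_both (s : Wd) (hs : ep 0 s = 0) (h : ℤ) (j : ℕ) (hj : j < s.length)
    (hc : Cr s h j) :
    (∃ a, a < s.length ∧ X s a ≤ h) ∧ ∃ b, b < s.length ∧ h + 1 ≤ X s b := by
  have h0 : 0 < s.length := by omega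
  have h1 := Kc_succ s hs h0 j
  have h2 : Kc s j = X s j := by rw [Kc, Nat.mod_eq_of_lt hj]
  rw [h2, Nat.mod_eq_of_lt hj] at h1
  rcases hc with ⟨h3, h4⟩ | ⟨h3, h4⟩
  · refine ⟨⟨j, hj, h4.le⟩, (j + 1) % s.length, Nat.mod_lt _ h0, ?_⟩
    rw [h3] at h1
    have h5 : (dv 0).1 = 1 := by decide
    rw [h5, h4] at h1
    exact h1.ge
  · refine ⟨⟨(j + 1) % s.length, Nat.mod_lt _ h0, ?_⟩, j, hj, h4.ge⟩
    rw [h3] at h1
    have h5 : (dv 2).1 = -1 := by decide
    rw [h5, h4] at h1
    have h6 : Kc s (j + 1) = h := by omega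
    exact h6.le

/-- the two crossings of an even cut -/
lemma cut_cross (s : Wd) (hs : ep 0 s = 0) (h : ℤ) (hc : EC s h) :
    ∃ i, i < s.length ∧ X s i = h ∧ s.getD i 0 = 0 ∧
      ∀ k, k < s.length → X s k = h → s.getD k 0 = 0 → k = i := by
  obtain ⟨y, y', h1, _⟩ := hc
  have h2 : cr s h = 2 := by
    unfold cr
    rw [h1]
    rfl
  rw [cr_eq] at h2
  obtain ⟨j, hj⟩ : ((range s.length).filter (fun j => Cr s h j)).Nonempty := by
    rw [← card_pos]
    omega
  rw [mem_filter, mem_range] at hj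
  obtain ⟨⟨a, ha, hXa⟩, b, hb, hXb⟩ := cross_both s hs h j hj.1 hj.2
  obtain ⟨i, hi, hXi, hsi⟩ := east_exists s hs h a b ha hb hXa hXb
  obtain ⟨m, hm, hXm, hsm⟩ := west_exists s hs h b a hb ha hXb hXa
  refine ⟨i, hi, hXi, hsi, ?_⟩
  intro k hk hXk hsk
  by_contra hne
  have hmi : m ≠ i := by
    rintro rfl
    rw [hsi] at hsm
    exact absurd hsm (by decide)
  have hmk : m ≠ k := by
    rintro rfl
    rw [hsk] at hsm
    exact absurd hsm (by decide)
  have hsub : ({m, k, i} : Finset ℕ) ⊆ (range s.length).filter (fun j => Cr s h j) := by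
    intro x hx
    simp only [mem_insert, mem_singleton] at hx
    rw [mem_filter, mem_range]
    rcases hx with rfl | rfl | rfl
    · exact ⟨hm, Or.inr ⟨hsm, hXm⟩⟩
    · exact ⟨hk, Or.inl ⟨hsk, hXk⟩⟩
    · exact ⟨hi, Or.inl ⟨hsi, hXi⟩⟩
  have h3 : ({m, k, i} : Finset ℕ).card = 3 := by
    rw [card_insert_of_notMem, card_insert_of_notMem, card_singleton]
    · simpa using hne
    · simp only [mem_insert, mem_singleton, not_or]
      exact ⟨hmk, hmi⟩
  have := card_le_card hsub
  omega

lemma X_bound (s : Wd) (j : ℕ) (hj : j ≤ s.length) :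
    -(2 * s.length : ℤ) ≤ X s j ∧ X s j ≤ 2 * s.length := by
  have := vertex_bound s j hj
  unfold X
  omega

/-- the leftmost even cut -/
lemma exists_lowest (s : Wd) (hs : ep 0 s = 0) (hex : ∃ k, EC s k) :
    ∃ k, EC s k ∧ ∀ m, m < k → ¬ EC s m := by
  obtain ⟨k, hk, hmin⟩ := Int.exists_least_of_bdd (P := fun k => EC s k)
    ⟨-(2 * s.length : ℤ), by
      intro z hz
      obtain ⟨i, hi, hXi, _⟩ := cut_cross s hs z hz
      have := (X_bound s i hi.le).1
      omega⟩ hex
  refine ⟨k, hk, ?_⟩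
  intro m hm hc
  have := hmin m hc
  omega

lemma getD_rotate (s : Wd) (j : ℕ) (hj : j < s.length) :
    (s.rotate j).getD 0 1 = s.getD j 0 := by
  have h0 : 0 < s.length := by omega
  rw [List.getD_eq_getElem _ _ (by simpa using h0), List.getD_eq_getElem _ _ hj,
    List.getElem_rotate]
  simp [Nat.mod_eq_of_lt hj]

lemma mem_Fam (k n : ℕ) (s : Wd) :
    s ∈ Fam k n ↔ (s.length = 2 * n ∧ SAPw s) ∧ Nar k s := by
  simp only [Fam, mem_filter, mem_W]

lemma fam_rotate (k n j : ℕ) (s : Wd) (h : s ∈ Fam k n) (hj : j ≤ 2 * n) :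
    s.rotate j ∈ Fam k n := by
  rw [mem_Fam] at h ⊢
  obtain ⟨⟨h1, h2⟩, h3⟩ := h
  refine ⟨⟨by rw [List.length_rotate, h1], ?_⟩, ?_⟩
  · rw [List.rotate_eq_drop_append_take (by omega)]
    apply SAPw_rotate
    rwa [List.take_append_drop]
  · intro m
    rw [cr_rotate s h2.1 j (by omega)]
    exact h3 _

lemma cut_rotate (k n j : ℕ) (s : Wd) (h : s ∈ Fam k n) (hj : j ≤ 2 * n)
    (hc : ∃ m, EC s m) : ∃ m, EC (s.rotate j) m := by
  rw [mem_Fam] at h
  obtain ⟨m, hm⟩ := hc
  refine ⟨m - X s j, ?_⟩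
  rw [ec_rotate s h.1.2.1 j (by omega)]
  simpa using hm

lemma existsUnique_root (k n : ℕ) (s : Wd) (h : s ∈ Fam k n) (hc : ∃ m, EC s m) :
    ∃ i, i < 2 * n ∧ Canon (s.rotate i) ∧ ∀ j, j < 2 * n → Canon (s.rotate j) → j = i := by
  rw [mem_Fam] at h
  obtain ⟨⟨hl, hS⟩, hR⟩ := h
  obtain ⟨k, hk, hmin⟩ := exists_lowest s hS.1 hc
  obtain ⟨i, hi, hXi, hui, huniq⟩ := cut_cross s hS.1 k hk
  refine ⟨i, by omega, ⟨?_, ?_, ?_⟩, ?_⟩
  · rw [getD_rotate s i hi]; exact hui
  · rw [ec_rotate s hS.1 i hi.le, zero_add, hXi]; exact hk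
  · intro m hm
    rw [ec_rotate s hS.1 i hi.le, hXi]
    exact hmin _ (by omega)
  · intro m hm ⟨c1, c2, c3⟩
    have hm' : m < s.length := by omega
    rw [getD_rotate s m hm'] at c1
    rw [ec_rotate s hS.1 m hm'.le, zero_add] at c2
    have hXm : X s m = k := by
      rcases lt_trichotomy (X s m) k with hlt | heq | hgt
      · exact absurd c2 (hmin _ hlt)
      · exact heq
      · exfalso
        apply c3 (k - X s m) (by omega)
        rw [ec_rotate s hS.1 m hm'.le]
        simpa using hk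
    exact huniq m hm' hXm c1

end ROT

open ROT in
open Classical in
/-- ROT. -/
theorem rot_thm : ROT_Stmt := by
  intro k n hn G hG
  have hW : ∀ s ∈ Fam k n, s ∈ W n := fun s hs => (mem_filter.1 hs).1
  have h1 : ∀ s ∈ (Fam k n).filter (fun s => ∃ h : ℤ, EC s h), G s = ∑ j ∈ range (2 * n),
      (if Canon (s.rotate j) then G (s.rotate j) else 0) := by
    intro s hs
    rw [mem_filter] at hs
    obtain ⟨i, hi, hci, huniq⟩ := existsUnique_root k n s hs.1 hs.2
    rw [sum_eq_single i]
    · rw [if_pos hci, hG s i (hW s hs.1) hi.le]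
    · intro j hj hji
      rw [mem_range] at hj
      rw [if_neg]
      intro hc
      exact hji (huniq j hj hc)
    · intro h
      exact absurd (mem_range.2 hi) h
  rw [sum_congr rfl h1, sum_comm]
  have h2 : ∀ j ∈ range (2 * n), ∑ s ∈ (Fam k n).filter (fun s => ∃ h : ℤ, EC s h),
      (if Canon (s.rotate j) then G (s.rotate j) else 0) =
        ∑ s ∈ (Fam k n).filter Canon, G s := by
    intro j hj
    rw [mem_range] at hj
    have h3 : (Fam k n).filter Canon =
        ((Fam k n).filter (fun s => ∃ h : ℤ, EC s h)).filter Canon := by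
      rw [filter_filter]
      apply filter_congr
      intro s _
      constructor
      · intro h
        exact ⟨⟨0, h.2.1⟩, h⟩
      · intro h
        exact h.2
    rw [h3, sum_filter Canon]
    refine sum_nbij' (fun s => s.rotate j) (fun s => s.rotate (2 * n - j)) ?_ ?_ ?_ ?_ ?_
    · intro s hs
      rw [mem_filter] at hs ⊢
      exact ⟨fam_rotate k n j s hs.1 hj.le, cut_rotate k n j s hs.1 hj.le hs.2⟩
    · intro s hs
      rw [mem_filter] at hs ⊢
      exact ⟨fam_rotate k n _ s hs.1 (by omega), cut_rotate k n _ s hs.1 (by omega) hs.2⟩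
    · intro s hs
      have hl := ((mem_Fam k n s).1 (mem_filter.1 hs).1).1.1
      simp only [List.rotate_rotate]
      rw [Nat.add_sub_cancel' hj.le, ← hl, List.rotate_length]
    · intro s hs
      have hl := ((mem_Fam k n s).1 (mem_filter.1 hs).1).1.1
      simp only [List.rotate_rotate]
      rw [Nat.sub_add_cancel hj.le, ← hl, List.rotate_length]
    · intro s hs
      rfl
  rw [sum_congr rfl h2, sum_const, card_range, nsmul_eq_mul]
  push_cast
  ring

end Pool.Agent.KCC
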