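import Pool.Agent.KCC.Stmts
import Pool.Agent.Lib_helper41.SapR.Transfer

/-!
# Column-convex polygons (MP_f6626d_co): module STC, the staircase polygons
-/

set_option autoImplicit false

namespace Pool.Agent.KCC

open Filter Topology MeasureTheory Pool.Agent.Lib27 Pool.Agent.AreaLaw

theorem stc_thm : STC_Stmt := by
  intro ν hG x hx
  have key : Tendsto (fun n : ℕ => areaCdf n (Short 1 n) x) atTop (𝓝 (ν (Set.Iic x)).toReal) := by
    refine (hG.1 (Pool.Agent.SapR.M41.mdl 1 le_rfl) x hx).congr' ?_
    filter_upwards [eventually_gt_atTop 1] with n hn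
    exact (Pool.Agent.SapR.M41.short_cdf 1 le_rfl n (by omega) x).symm
  refine key.congr' ?_
  filter_upwards [eventually_ge_atTop 2] with n hn
  exact (Pool.Agent.SapR.M41.stair_cdf n hn x).symm

end Pool.Agent.KCC
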