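import Pool.Agent.KCC.Stmts2
import Pool.Agent.KCC.Lib

/-! TAL: the tails, from the mass gap part. -/

set_option autoImplicit false

namespace Pool.Agent.KCC

open Finset Pool.Agent.Lib27 Pool.Agent.OC
open scoped NNReal ENNReal

namespace TAL

/-- from `ENNReal` to real sums -/
theorem real_sum_le {α : Type*} (s : Finset α) (f : α → ℝ) (g : α → ℝ≥0∞)
    (hf : ∀ a ∈ s, 0 ≤ f a) (hfg : ∀ a ∈ s, ENNReal.ofReal (f a) = g a) {B : ℝ≥0}
    (h : ∑ a ∈ s, g a ≤ (B : ℝ≥0∞)) : ∑ a ∈ s, f a ≤ (B : ℝ) := by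
  have h1 : ENNReal.ofReal (∑ a ∈ s, f a) = ∑ a ∈ s, g a := by
    rw [ENNReal.ofReal_sum_of_nonneg hf]
    exact Finset.sum_congr rfl hfg
  rw [← h1] at h
  have h2 := ENNReal.ofReal_le_iff_le_toReal (ENNReal.coe_ne_top (r := B)) |>.1 h
  simpa using h2

/-- the set of the pieces, as pairs of bridges -/
def UU (k : ℕ) : Set (Wd × Wd) := {p | ∃ l : ℕ, 1 ≤ l ∧ p ∈ XM.Eir (2 * k) l}

/-- a piece as a pair of bridges -/
def ph (p : Wd × Wd) : Wd × Wd := (p.1, rv p.2)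

theorem ph_inj : Function.Injective ph := by
  rintro ⟨a, b⟩ ⟨a', b'⟩ h
  simp only [ph, Prod.mk.injEq] at h
  have h1 : rv (rv b) = rv (rv b') := by rw [h.2]
  rw [rv_rv, rv_rv] at h1
  rw [h.1, h1]

theorem lg_ph (p : Wd × Wd) : XM.lg (ph p) = p.1.length + p.2.length := by
  simp [XM.lg, ph, rv]

theorem two_hl {k n : ℕ} {p : Wd × Wd} (hp : p ∈ Pc k n) :
    p.1.length + p.2.length = 2 * hl p := by
  obtain ⟨⟨_, h, _⟩, _⟩ := (mem_Pc k n p).1 hp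
  unfold hl
  obtain ⟨t, ht⟩ := h
  omega

theorem one_le_hl {k n : ℕ} {p : Wd × Wd} (hp : p ∈ Pc k n) : 1 ≤ hl p := by
  have h2 := two_hl hp
  obtain ⟨⟨⟨h, _⟩, _⟩, _⟩ := (mem_Pc k n p).1 hp
  have h0 : p.1.length ≠ 0 := by
    intro h0
    rw [List.length_eq_zero_iff.1 h0] at h
    simp at h
  omega

theorem gs_UU_le (k : ℕ) (Z : ℝ≥0∞) :
    gs (XM.Wz Z) (UU k) ≤ ∑' l : ℕ, XM.we (2 * k) Z (l + 1) := by
  refine le_trans (gs_mono _ ?_) (gs_iUnion _ (fun l => XM.Eir (2 * k) (l + 1)))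
  rintro p ⟨l, hl, hp⟩
  refine Set.mem_iUnion.2 ⟨l - 1, ?_⟩
  rwa [Nat.sub_add_cancel hl]

theorem Eir_disj {c l l' : ℕ} {p : Wd × Wd} (h : p ∈ XM.Eir c l) (h' : p ∈ XM.Eir c l') :
    l = l' := by
  have e1 := h.1.1.1.2.1
  have e2 := h'.1.1.1.2.1
  rw [e1] at e2
  exact_mod_cast e2

theorem le_gs_UU (k : ℕ) (Z : ℝ≥0∞) :
    ∑' l : ℕ, XM.we (2 * k) Z (l + 1) ≤ gs (XM.Wz Z) (UU k) := by
  rw [ENNReal.tsum_eq_iSup_sum]
  refine iSup_le fun s => ?_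
  refine sum_gs_le (XM.Wz Z) s (fun l => XM.Eir (2 * k) (l + 1)) (UU k) ?_ ?_
  · intro l _ p hp
    exact ⟨l + 1, by omega, hp⟩
  · intro i _ j _ p hi hj
    have := Eir_disj hi hj
    omega

theorem piece_term {k n : ℕ} {x : ℝ} {Z : ℝ≥0∞} (hx0 : 0 ≤ x) (hZ : ENNReal.ofReal x = Z)
    {p : Wd × Wd} (hp : p ∈ Pc k n) :
    ENNReal.ofReal ((x ^ 2) ^ hl p) = XM.Wz Z (ph p) := by
  unfold XM.Wz
  rw [lg_ph, two_hl hp, ← hZ, ← pow_mul, ENNReal.ofReal_pow hx0]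

theorem pieces_le (hx : XBR_Stmt) (k n : ℕ) {x : ℝ} {Z : ℝ≥0∞} (hx0 : 0 ≤ x)
    (hZ : ENNReal.ofReal x = Z) {B : ℝ≥0} (hB : gs (XM.Wz Z) (UU k) ≤ B) :
    ∑ p ∈ Pc k n, (x ^ 2) ^ hl p ≤ B := by
  refine real_sum_le _ _ (fun p => XM.Wz Z (ph p)) (fun p _ => by positivity)
    (fun p hp => piece_term hx0 hZ hp) ?_
  rw [← gs_finset (fun p => XM.Wz Z (ph p)) (Pc k n)]
  refine (gs_le_of_inj _ (XM.Wz Z) ph ?_ ph_inj.injOn (fun _ _ => le_rfl)).trans hB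
  intro p hp
  exact ((hx.2.2.1 k n p).1 hp).1

theorem pieces_ge (hx : XBR_Stmt) (k : ℕ) {x : ℝ} {Z : ℝ≥0∞} (hx0 : 0 ≤ x)
    (hZ : ENNReal.ofReal x = Z) (h1 : 1 ≤ gs (XM.Wz Z) (UU k)) {t : ℝ} (ht : t < 1) :
    ∃ n, t < ∑ p ∈ Pc k n, (x ^ 2) ^ hl p := by
  classical
  by_contra hcon
  push Not at hcon
  have h2 : gs (XM.Wz Z) (UU k) ≤ ENNReal.ofReal t := by
    refine gs_const_le ?_
    intro F hF
    obtain ⟨n, hn⟩ : ∃ n, ∀ a ∈ F, XM.lg a ≤ 2 * n :=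
      ⟨F.sup XM.lg, fun a ha => by
        have := Finset.le_sup (f := XM.lg) ha
        omega⟩
    have h3 : ∑ a ∈ F, XM.Wz Z a ≤ ∑ p ∈ Pc k n, XM.Wz Z (ph p) := by
      rw [← Finset.sum_image (s := Pc k n) (g := ph) (f := XM.Wz Z) ph_inj.injOn]
      refine Finset.sum_le_sum_of_subset ?_
      intro a ha
      rw [Finset.mem_image]
      refine ⟨(a.1, rv a.2), ?_, ?_⟩
      · rw [hx.2.2.1 k n]
        refine ⟨?_, ?_⟩
        · simp only [rv_rv]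
          exact hF ha
        · have := hn a ha
          unfold XM.lg at this
          simpa [rv] using this
      · simp only [ph, rv_rv]
    refine h3.trans ?_
    have h4 : ∑ p ∈ Pc k n, XM.Wz Z (ph p) =
        ENNReal.ofReal (∑ p ∈ Pc k n, (x ^ 2) ^ hl p) := by
      rw [ENNReal.ofReal_sum_of_nonneg (fun p _ => by positivity)]
      exact Finset.sum_congr rfl fun p hp => (piece_term hx0 hZ hp).symm
    rw [h4]
    exact ENNReal.ofReal_le_ofReal (hcon n)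
  have h3 := h1.trans h2
  rw [ENNReal.one_le_ofReal] at h3
  linarith

theorem caps_le (hx : XBR_Stmt) (k M : ℕ) {x : ℝ} {Z : ℝ≥0∞} (hx0 : 0 ≤ x)
    (hZ : ENNReal.ofReal x = Z) {B : ℝ≥0} (hB : gs (XM.wz Z) (XM.Cap (2 * k)) ≤ B) :
    ∑ m ∈ range (M + 1), ∑ g ∈ Icc (1 : ℤ) m,
      ((CapSet k g (2 * m + 2)).card : ℝ) * (x ^ 2) ^ (m + 1) ≤ B := by
  have h0 : ∑ m ∈ range (M + 1), ∑ g ∈ Icc (1 : ℤ) m,
      ((CapSet k g (2 * m + 2)).card : ℝ) * (x ^ 2) ^ (m + 1) =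
      ∑ i ∈ (range (M + 1)).sigma (fun m => Icc (1 : ℤ) m),
        ((CapSet k i.2 (2 * i.1 + 2)).card : ℝ) * (x ^ 2) ^ (i.1 + 1) := by
    rw [Finset.sum_sigma]
  rw [h0]
  refine real_sum_le _ _
    (fun i => gs (XM.wz Z) ((CapSet k i.2 (2 * i.1 + 2) : Finset Wd) : Set Wd))
    (fun i _ => by positivity) ?_ ?_
  · intro i _
    rw [gs_finset]
    have h1 : ∀ w ∈ CapSet k i.2 (2 * i.1 + 2), XM.wz Z w = ENNReal.ofReal ((x ^ 2) ^ (i.1 + 1)) := by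
      intro w hw
      rw [mem_CapSet] at hw
      unfold XM.wz
      rw [hw.1, ← hZ, ← pow_mul, ← ENNReal.ofReal_pow hx0, mul_add]
    rw [Finset.sum_congr rfl h1, Finset.sum_const, nsmul_eq_mul,
      ENNReal.ofReal_mul (Nat.cast_nonneg _), ENNReal.ofReal_natCast]
  · refine (sum_gs_le (XM.wz Z) _
      (fun i : (Σ _ : ℕ, ℤ) => ((CapSet k i.2 (2 * i.1 + 2) : Finset Wd) : Set Wd))
      (XM.Cap (2 * k)) ?_ ?_).trans hB
    · intro i hi w hw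
      rw [Finset.mem_sigma, Finset.mem_Icc] at hi
      exact (hx.2.2.2.1 k i.2 _ w hi.2.1 hw).1
    · rintro ⟨m, g⟩ hi ⟨m', g'⟩ hj w hw hw'
      rw [Finset.mem_sigma, Finset.mem_Icc] at hi hj
      obtain ⟨_, e1, e2⟩ := hx.2.2.2.1 k g _ w hi.2.1 hw
      obtain ⟨_, e3, e4⟩ := hx.2.2.2.1 k g' _ w hj.2.1 hw'
      rw [e1] at e3
      have h1 := (Prod.ext_iff.1 e3).2
      simp only at h1
      have h2 : g = g' := by omega
      have h3 : m = m' := by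
        simp only at e2 e4
        omega
      subst h2
      subst h3
      rfl

end TAL

open TAL in
theorem tal_thm : TAL_Stmt := by
  intro hx hbey k hk
  obtain ⟨z1, z2, h1, eta, C, heta, B1, B2, B3⟩ := hbey (2 * k - 2)
  have hc : 2 * k - 2 + 2 = 2 * k := by omega
  rw [hc] at h1 B1 B2 B3
  set z : ℝ≥0∞ := XM.zst (2 * k - 2) with hz
  have heta' : (0 : ℝ) < eta := by exact_mod_cast heta
  have hzt : z ≠ ∞ := ne_top_of_le_ne_top (by simp) z2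
  set ζ : ℝ := z.toReal with hζ
  have hZ : ENNReal.ofReal ζ = z := ENNReal.ofReal_toReal hzt
  have hζ8 : (8 : ℝ)⁻¹ ≤ ζ := by
    have := ENNReal.toReal_mono hzt z1
    simpa using this
  have hζ0 : 0 < ζ := lt_of_lt_of_le (by norm_num) hζ8
  set ζ1 : ℝ := (1 + eta) * ζ with hζ1
  have hζ10 : 0 ≤ ζ1 := by positivity
  have hZ1 : ENNReal.ofReal ζ1 = (1 + eta) * z := by
    rw [hζ1, ENNReal.ofReal_mul (by positivity), hZ, ENNReal.ofReal_add (by norm_num) heta'.le,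
      ENNReal.ofReal_one, ENNReal.ofReal_coe_nnreal]
  have hmono : (1 + (eta : ℝ)) * ζ ^ 2 ≤ ζ1 ^ 2 := by
    rw [hζ1, mul_pow]
    apply mul_le_mul_of_nonneg_right _ (by positivity)
    nlinarith
  have hpow : ∀ m : ℕ, ((1 + (eta : ℝ)) * ζ ^ 2) ^ m ≤ (ζ1 ^ 2) ^ m := fun m =>
    pow_le_pow_left₀ (by positivity) hmono m
  have hC0 : (0 : ℝ) ≤ C := C.2
  refine ⟨ζ ^ 2, eta, 64 * C + 1, by positivity, heta', by positivity, ?_, ?_, ?_, ?_, ?_⟩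
  · intro n
    have h2 := pieces_le hx k n hζ0.le hZ (B := 1) ((gs_UU_le k z).trans (by rw [h1]; simp))
    simpa using h2
  · intro r hr
    have hr0 : 0 < r := lt_trans (by positivity) hr
    have ht : ζ ^ 2 / r < 1 := (div_lt_one hr0).2 hr
    obtain ⟨n, hn⟩ := pieces_ge hx k hζ0.le hZ (h1.symm.le.trans (le_gs_UU k z)) ht
    refine ⟨n, ?_⟩
    have h2 : (∑ p ∈ Pc k n, (ζ ^ 2) ^ hl p) ≤ (ζ ^ 2 / r) * ∑ p ∈ Pc k n, r ^ hl p := by
      rw [Finset.mul_sum]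
      refine Finset.sum_le_sum fun p hp => ?_
      obtain ⟨j, hj⟩ : ∃ j, hl p = j + 1 := ⟨hl p - 1, by have := one_le_hl hp; omega⟩
      rw [hj, pow_succ (ζ ^ 2), pow_succ r]
      have h3 : ζ ^ 2 / r * (r ^ j * r) = r ^ j * ζ ^ 2 := by
        field_simp
      rw [h3]
      exact mul_le_mul_of_nonneg_right (pow_le_pow_left₀ (by positivity) hr.le j)
        (by positivity)
    have h3 : 0 < ζ ^ 2 / r := by positivity
    by_contra hcon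
    rw [not_lt] at hcon
    have h4 : (ζ ^ 2 / r) * ∑ p ∈ Pc k n, r ^ hl p ≤ (ζ ^ 2 / r) * 1 :=
      mul_le_mul_of_nonneg_left hcon h3.le
    linarith
  · intro n
    have h2 : gs (XM.Wz ((1 + eta) * z)) (UU k) ≤ C := by
      refine (gs_UU_le k _).trans (le_trans ?_ B1)
      exact ENNReal.tsum_comp_le_tsum_of_injective (add_left_injective 1)
        (XM.we (2 * k) ((1 + eta) * z))
    have h3 := pieces_le hx k n hζ10 hZ1 h2
    have h4 : ∑ p ∈ Pc k n, ((1 + (eta : ℝ)) * ζ ^ 2) ^ hl p ≤ ∑ p ∈ Pc k n, (ζ1 ^ 2) ^ hl p :=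
      Finset.sum_le_sum fun p _ => hpow _
    linarith
  · intro M
    have h3 := caps_le hx k M hζ10 hZ1 B2
    have hζ1' : (8 : ℝ)⁻¹ ≤ ζ1 := by
      rw [hζ1]
      nlinarith
    have h5 : (1 : ℝ) ≤ 64 * ζ1 ^ 2 := by nlinarith
    have h4 : ∑ m ∈ range (M + 1), ∑ g ∈ Icc (1 : ℤ) m,
        ((CapSet k g (2 * m + 2)).card : ℝ) * ((1 + (eta : ℝ)) * ζ ^ 2) ^ m ≤
        64 * ∑ m ∈ range (M + 1), ∑ g ∈ Icc (1 : ℤ) m,
          ((CapSet k g (2 * m + 2)).card : ℝ) * (ζ1 ^ 2) ^ (m + 1) := by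
      rw [Finset.mul_sum]
      refine Finset.sum_le_sum fun m _ => ?_
      rw [Finset.mul_sum]
      refine Finset.sum_le_sum fun g _ => ?_
      have h6 : (0 : ℝ) ≤ ((CapSet k g (2 * m + 2)).card : ℝ) := Nat.cast_nonneg _
      have h7 : ((1 + (eta : ℝ)) * ζ ^ 2) ^ m ≤ 64 * (ζ1 ^ 2) ^ (m + 1) := by
        refine (hpow m).trans ?_
        rw [pow_succ (ζ1 ^ 2)]
        have h8 : 0 ≤ (ζ1 ^ 2) ^ m := by positivity
        nlinarith
      calc _ ≤ ((CapSet k g (2 * m + 2)).card : ℝ) * (64 * (ζ1 ^ 2) ^ (m + 1)) :=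
            mul_le_mul_of_nonneg_left h7 h6
        _ = _ := by ring
    linarith
  · intro n hn
    have h2 := B3 n hn
    rw [← hx.2.2.2.2 k n, ← hZ1, ← ENNReal.ofReal_pow hζ10, ← ENNReal.ofReal_natCast,
      ← ENNReal.ofReal_mul (Nat.cast_nonneg _)] at h2
    have h3 : (C : ℝ≥0∞) * (n : ℝ≥0∞) = ENNReal.ofReal ((C : ℝ) * n) := by
      rw [ENNReal.ofReal_mul hC0, ENNReal.ofReal_coe_nnreal, ENNReal.ofReal_natCast]
    rw [h3, ENNReal.ofReal_le_ofReal_iff (by positivity)] at h2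
    have h4 := hpow n
    rw [← pow_mul] at h4
    have h5 : ((NoCut k n).card : ℝ) * ((1 + (eta : ℝ)) * ζ ^ 2) ^ n ≤
        ((NoCut k n).card : ℝ) * ζ1 ^ (2 * n) :=
      mul_le_mul_of_nonneg_left h4 (Nat.cast_nonneg _)
    have h6 : (C : ℝ) * n ≤ (64 * C + 1) * n :=
      mul_le_mul_of_nonneg_right (by linarith) (Nat.cast_nonneg _)
    linarith

end Pool.Agent.KCC
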