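import Pool.Agent.KCC.Stmts

/-!
# TR: from the frozen encoding to canonical words and words without even cut
-/

set_option autoImplicit false

namespace Pool.Agent.KCC

open Finset Pool.Agent.Lib27 Pool.Agent.AreaLaw

/-- TR, from the root decomposition and the frozen encoding -/
theorem tr_thm (h : K1_Stmt) (hv : VCR_Stmt) : TR_Stmt := by
  classical
  intro k n hk hn F
  have e1 : (Fam k n).filter (fun s => ¬ ∃ h : ℤ, EC s h) = NoCut k n := by
    ext s
    simp only [Fam, NoCut, mem_filter, not_exists, and_assoc]
  have e2 := h k n hk hn F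
  have e3 := sum_filter_add_sum_filter_not (Fam k n) (fun s => ∃ h : ℤ, EC s h)
    (fun s => F |dbl 0 s|)
  rw [e1] at e3
  rw [hv.2 k n (by omega) F, ← e3, ← e2]

end Pool.Agent.KCC
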