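import Pool.Agent.KCC.Stmts
import Pool.Agent.Lib_helper27.Transl

/-!
# Column-convex polygons (MP_f6626d_co): module VCR (the frozen encoding)
-/

set_option autoImplicit false

namespace Pool.Agent.KCC

open Finset Pool.Agent.Lib27 Pool.Agent.AreaLaw

namespace VCR

lemma cross_iff (p : ℤ × ℤ) (s : Fin 4) (h : ℤ) :
    ((s = 0 ∧ p.1 = h) ∨ (s = 2 ∧ p.1 = h + 1)) ↔
      ((p.1 = h ∧ (p + dv s).1 = h + 1) ∨ (p.1 = h + 1 ∧ (p + dv s).1 = h)) := by
  fin_cases s <;> simp [dv] <;> omega

lemma cx_length (h : ℤ) (p : ℤ × ℤ) (l : List (Fin 4)) :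
    (cx h p l).length = ((range l.length).filter (fun i =>
      ((ep p (l.take i)).1 = h ∧ (ep p (l.take (i + 1))).1 = h + 1) ∨
        ((ep p (l.take i)).1 = h + 1 ∧ (ep p (l.take (i + 1))).1 = h))).card := by
  induction l generalizing p with
  | nil => simp [cx]
  | cons s t ih =>
    rw [cx, List.length_append, ih (p + dv s), card_filter, card_filter, List.length_cons,
      sum_range_succ', add_comm]
    congr 1
    simp only [List.take_zero, ep_nil, zero_add, List.take_succ_cons, ep_cons]
    by_cases hc : (s = 0 ∧ p.1 = h) ∨ (s = 2 ∧ p.1 = h + 1)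
    · rw [if_pos hc, if_pos ((cross_iff p s h).1 hc)]
      rfl
    · rw [if_neg hc, if_neg (fun h' => hc ((cross_iff p s h).2 h'))]
      rfl

lemma vcross_eq (n : ℕ) (s : Fin (2 * n) → Fin 4) (h : ℤ) :
    vcross n s h = cr (List.ofFn s) h := by
  unfold vcross cr
  rw [cx_length, List.length_ofFn]
  congr 1
  refine filter_congr fun i hi => ?_
  rw [mem_range] at hi
  rw [pos_eq n s i hi.le, pos_eq n s (i + 1) hi]

end VCR

open VCR

open Classical in
theorem vcr_thm : VCR_Stmt := by
  refine ⟨vcross_eq, fun k n _ F => ?_⟩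
  unfold ColConvex Fam
  rw [← image_SAP n, filter_map, sum_map]
  refine sum_congr (filter_congr fun s _ => ?_) fun s _ => rfl
  simp only [Function.comp, Function.Embedding.coeFn_mk]
  unfold Nar
  exact forall_congr' fun h => by rw [vcross_eq]

end Pool.Agent.KCC
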