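import Pool.Agent.KCC.Stmts2
import Pool.Agent.KCC.Lib

/-!
# Column-convex polygons (MP_f6626d_co): the two sets of definitions (XBR)
-/

set_option autoImplicit false

namespace Pool.Agent.KCC

open Finset Pool.Agent.Lib27

namespace XBR

lemma cx_stp (h : ℤ) (p : ℤ × ℤ) (w : Wd) :
    cx h p w = ((XM.stp p w).filter (XM.xs h)).map (fun q => q.1.2) := by
  induction w generalizing p with
  | nil => rfl
  | cons a w ih =>
    rw [cx_cons, ih]
    have e : XM.stp p (a :: w) = (p, a) :: XM.stp (p + dv a) w := rfl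
    rw [e, List.filter_cons]
    by_cases hc : (a = 0 ∧ p.1 = h) ∨ (a = 2 ∧ p.1 = h + 1)
    · have hx : XM.xs h (p, a) = true := decide_eq_true hc
      rw [if_pos hc, if_pos hx]
      rfl
    · have hx : XM.xs h (p, a) = false := decide_eq_false hc
      rw [if_neg hc, hx]
      rfl

lemma cr_eq (w : Wd) (h : ℤ) : XM.cr w h = cr w h := by
  unfold XM.cr cr
  rw [cx_stp, List.length_map, List.countP_eq_length_filter]

lemma crh_eq (w : Wd) (h : ℤ) : XM.crh w h = (cx h 0 w).sum := by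
  unfold XM.crh
  rw [cx_stp]

lemma even_add_iff (y y' : ℤ) : Even (y + y') ↔ Even (y - y') := by
  rw [Int.even_add, Int.even_sub]

lemma EC_iff (w : Wd) (h : ℤ) : XM.ECut w h ↔ EC w h := by
  unfold XM.ECut EC
  rw [cr_eq, crh_eq]
  unfold cr
  constructor
  · rintro ⟨h1, h2⟩
    obtain ⟨y, y', hy⟩ := List.length_eq_two.1 h1
    refine ⟨y, y', hy, ?_⟩
    rw [hy] at h2
    rw [← even_add_iff]
    simpa using h2
  · rintro ⟨y, y', hy, h2⟩
    rw [← even_add_iff] at h2
    rw [hy]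
    exact ⟨rfl, by simpa using h2⟩

/-- parity of the end point -/
lemma par (p : ℤ × ℤ) (s : Wd) :
    Even ((ep p s).1 + (ep p s).2 + (s.length : ℤ) + p.1 + p.2) := by
  induction s generalizing p with
  | nil =>
    refine ⟨p.1 + p.2, ?_⟩
    simp only [ep_nil, List.length_nil, Nat.cast_zero]
    ring
  | cons a s ih =>
    obtain ⟨c, hc⟩ := ih (p + dv a)
    have h1 : (dv a).1 + (dv a).2 = 1 ∨ (dv a).1 + (dv a).2 = -1 := by
      clear hc c ih; revert a; decide
    rw [Prod.fst_add, Prod.snd_add] at hc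
    rw [ep_cons, List.length_cons]
    push_cast
    rcases h1 with h1 | h1
    · exact ⟨c, by linarith⟩
    · exact ⟨c + 1, by linarith⟩

lemma ep_neg (D : Wd) : ep (-(ep 0 D)) D = 0 := by
  rw [ep_eq, add_neg_cancel]

lemma ep_rv0 (D : Wd) : ep 0 (rv D) = -(ep 0 D) := by
  have := ep_rv (-(ep 0 D)) D
  rwa [ep_neg] at this

lemma cx_rv0 (h : ℤ) (D : Wd) : cx h 0 (rv D) = (cx h (-(ep 0 D)) D).reverse := by
  have := cx_rv h (-(ep 0 D)) D
  rwa [ep_neg] at this

lemma cr_rv0 (D : Wd) (h : ℤ) : cr (rv D) h = cr D (h + (ep 0 D).1) := by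
  have := cx_length h (-(ep 0 D)) D
  rw [Prod.fst_neg, sub_neg_eq_add] at this
  rw [← this]
  unfold cr
  rw [cx_rv0, List.length_reverse]

lemma vt_rv0 (D : Wd) : vt 0 (rv D) =
    (-(ep 0 D) + ep 0 D) :: ((vs 0 D).map (· + -(ep 0 D))).reverse := by
  have h1 := vt_rv (-(ep 0 D)) D
  rw [ep_neg, vt_eq (-(ep 0 D)) D] at h1
  rw [h1]
  unfold vt
  rw [List.map_append, List.reverse_append]
  simp

lemma mem_tail_rv0 (D : Wd) (v : ℤ × ℤ) :
    v ∈ (vt 0 (rv D)).tail ↔ ∃ u ∈ vs 0 D, u + -(ep 0 D) = v := by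
  rw [vt_rv0, List.tail_cons, List.mem_reverse, List.mem_map]

lemma SAWs_rv0 (D : Wd) : SAWs (rv D) ↔ (vt 0 D).Nodup := by
  unfold SAWs
  have h1 := vt_rv (-(ep 0 D)) D
  rw [ep_neg] at h1
  rw [h1, List.nodup_reverse, nodup_vt]

lemma rv_bri (D : Wd) (l : ℕ) : rv D ∈ XM.Bri l ↔ (vt 0 D).Nodup ∧ (ep 0 D).1 = -(l : ℤ) ∧
    ∀ p ∈ vs 0 D, (ep 0 D).1 < p.1 ∧ p.1 ≤ 0 := by
  unfold XM.Bri
  rw [Set.mem_ofPred_eq, SAWs_rv0, ep_rv0, Prod.fst_neg]
  constructor
  · rintro ⟨h1, h2, h3⟩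
    refine ⟨h1, by linarith, fun p hp => ?_⟩
    have h4 := h3 (p + -(ep 0 D)) ((mem_tail_rv0 D _).2 ⟨p, hp, rfl⟩)
    rw [Prod.fst_add, Prod.fst_neg] at h4
    constructor <;> linarith [h4.1, h4.2]
  · rintro ⟨h1, h2, h3⟩
    refine ⟨h1, by linarith, fun p hp => ?_⟩
    obtain ⟨u, hu, rfl⟩ := (mem_tail_rv0 D _).1 hp
    have h4 := h3 u hu
    rw [Prod.fst_add, Prod.fst_neg]
    constructor <;> linarith [h4.1, h4.2]

/-- even cuts of a strip pair -/
lemma cut_iff {U D : Wd} (h1 : (ep 0 D).1 = -(ep 0 U).1) (hev : Even (U.length + D.length))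
    (h : ℤ) (h0 : 0 < h) (hl : h < (ep 0 U).1) : XM.PC 0 (U, rv D) h ↔ EC (U ++ D) h := by
  have hU : 0 < (cx h 0 U).length := cx_pos h 0 U (by simpa using h0.le) hl
  have hD : 0 < (cx h (ep 0 U) D).length := by
    refine cx_pos' h _ D hl ?_
    rw [ep_eq, Prod.fst_add, h1]
    linarith
  set s : ℤ := (ep 0 U).2 + (ep 0 D).2 with hs
  have hsev : Even s := by
    have a1 := par 0 U
    have a2 := par 0 D
    have a3 : Even ((U.length : ℤ) + D.length) := by exact_mod_cast hev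
    simp only [Prod.fst_zero, Prod.snd_zero, add_zero] at a1 a2
    obtain ⟨c1, e1⟩ := a1
    obtain ⟨c2, e2⟩ := a2
    obtain ⟨c3, e3⟩ := a3
    exact ⟨c1 + c2 - c3, by linarith⟩
  have hpt : ep 0 U = -(ep 0 D) + (0, s) := by
    ext
    · rw [Prod.fst_add, Prod.fst_neg]; linarith
    · rw [Prod.snd_add, Prod.snd_neg]; simp only; linarith
  have hcx : cx h (ep 0 U) D = (cx h (-(ep 0 D)) D).map (· + s) := by
    rw [hpt, cx_add]
    simp
  unfold XM.PC XM.CC EC
  simp only
  rw [cr_eq, cr_eq, crh_eq, crh_eq, cx_rv0, cx_append]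
  unfold cr
  rw [cx_rv0, List.length_reverse, List.sum_reverse]
  rw [hcx] at hD ⊢
  set A := cx h 0 U with hA
  set B := cx h (-(ep 0 D)) D with hB
  rw [List.length_map] at hD
  constructor
  · rintro ⟨⟨hA1, hB1⟩, he⟩
    obtain ⟨a, ha⟩ := List.length_eq_one_iff.1 hA1
    obtain ⟨b, hb⟩ := List.length_eq_one_iff.1 hB1
    rw [ha, hb] at he ⊢
    refine ⟨a, b + s, rfl, ?_⟩
    rw [← even_add_iff]
    simp only [List.sum_cons, List.sum_nil, add_zero] at he
    have : a + (b + s) = (a + b) + s := by ring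
    rw [this]
    exact he.add hsev
  · rintro ⟨y, y', hy, he⟩
    have hlen := congrArg List.length hy
    simp only [List.length_append, List.length_map, List.length_cons, List.length_nil] at hlen
    have hA1 : A.length = 1 := by omega
    have hB1 : B.length = 1 := by omega
    obtain ⟨a, ha⟩ := List.length_eq_one_iff.1 hA1
    obtain ⟨b, hb⟩ := List.length_eq_one_iff.1 hB1
    rw [ha, hb] at hy ⊢
    simp only [List.map_cons, List.map_nil, List.cons_append, List.nil_append, List.cons.injEq,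
      and_true] at hy
    obtain ⟨e1, e2⟩ := hy
    refine ⟨⟨rfl, rfl⟩, ?_⟩
    simp only [List.sum_cons, List.sum_nil, add_zero]
    rw [← even_add_iff] at he
    have : a + b = (y + y') - s := by linarith
    rw [this]
    exact he.sub hsev

lemma piece_iff (k : ℕ) (U D : Wd) :
    FreePiece k U D ↔ ∃ l : ℕ, 1 ≤ l ∧ (U, rv D) ∈ XM.Eir (2 * k) l := by
  constructor
  · rintro ⟨⟨h1, h2, h3, h4, h5, h6⟩, hev, hnar, hcut⟩
    obtain ⟨l, hl⟩ := Int.eq_ofNat_of_zero_le h1.le
    refine ⟨l, by omega, ⟨⟨⟨?_, ?_, ?_⟩, ?_⟩, ?_⟩⟩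
    · refine ⟨h3, hl, fun p hp => ?_⟩
      have := h5 p hp
      rw [hl] at this
      exact this
    · exact (rv_bri D l).2 ⟨h4, by rw [h2, hl], h6⟩
    · intro h
      simp only
      rw [cr_eq, cr_eq, cr_rv0, h2]
      have := hnar h
      rw [cr_append] at this
      exact this
    · intro h h0 hh
      rw [cut_iff h2 hev h (by simpa using h0) (by rw [hl]; exact hh)]
      exact hcut h (by simpa using h0) (by rw [hl]; exact hh)
    · unfold XM.lg
      simp only
      have : (rv D).length = D.length := by simp [rv]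
      rw [this]
      exact hev
  · rintro ⟨l, hl1, ⟨⟨⟨⟨h3, hl, h5⟩, hD, hnar⟩, hcut⟩, hev⟩⟩
    obtain ⟨h4, h2, h6⟩ := (rv_bri D l).1 hD
    simp only at hl h5 hnar h3
    have h2' : (ep 0 D).1 = -(ep 0 U).1 := by rw [h2, hl]
    have hev' : Even (U.length + D.length) := by
      unfold XM.lg at hev
      simp only at hev
      have : (rv D).length = D.length := by simp [rv]
      rwa [this] at hev
    refine ⟨⟨by rw [hl]; exact_mod_cast hl1, h2', h3, h4, ?_, h6⟩, hev', ?_, ?_⟩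
    · intro p hp
      have := h5 p hp
      rw [hl]
      exact this
    · intro h
      have := hnar h
      rw [cr_eq, cr_eq, cr_rv0, h2'] at this
      rw [cr_append]
      exact this
    · intro h h0 hh
      rw [← cut_iff h2' hev' h h0 hh]
      exact hcut h (by simpa using h0) (by rw [← hl]; exact hh)

end XBR

/-- XBR. -/
theorem xbr_thm : XBR_Stmt := by
  refine ⟨XBR.cr_eq, XBR.EC_iff, fun k n p => ?_, fun k g N w hg hw => ?_, fun k n => ?_⟩
  · rw [mem_Pc, XBR.piece_iff]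
  · rw [mem_CapSet] at hw
    obtain ⟨h1, h2, h3, h4⟩ := hw
    have h2' := h2
    obtain ⟨h5, h6, h7, h8⟩ := h2
    refine ⟨⟨h7, by rw [h6], h8, ?_, ?_, ?_, ?_⟩, h6, h1⟩
    · obtain ⟨u, rfl⟩ := Arch_eq h2' (by omega)
      rw [List.cons_append, vs_cons, vs_append, List.tail_cons, vs_cons, vs_nil]
      simp
    · rw [h6]
      exact ⟨g, by simp only; ring⟩
    · intro h
      rw [XBR.cr_eq]
      exact h3 h
    · intro h hh
      rw [XBR.EC_iff]
      exact h4 h hh
  · classical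
    ext w
    rw [mem_NoCut]
    unfold XM.NoE
    rw [mem_filter]
    simp only [XBR.cr_eq, XBR.EC_iff]
    rfl

end Pool.Agent.KCC
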