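import Pool.Agent.KCC.Pla
import Pool.Agent.KCC.K2
import Pool.Agent.KCC.K4
import Pool.Agent.KCC.K5S
import Pool.Agent.KCC.K5F
import Pool.Agent.KCC.K5R
import Pool.Agent.KCC.K5B
import Pool.Agent.KCC.K5C
import Pool.Agent.KCC.Ar
import Pool.Agent.KCC.Kw
import Pool.Agent.KCC.Pos
import Pool.Agent.KCC.Rot
import Pool.Agent.KCC.K1
import Pool.Agent.KCC.Vcr
import Pool.Agent.KCC.Tr
import Pool.Agent.KCC.Near
import Pool.Agent.KCC.Dat
import Pool.Agent.KCC.Cdf
import Pool.Agent.KCC.Seq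
import Pool.Agent.KCC.Conv
import Pool.Agent.KCC.Stc
import Pool.Agent.KCC.Blo
import Pool.Agent.KCC.Gro
import Pool.Agent.KCC.Fin
import Pool.Agent.KCC.Xbr
import Pool.Agent.KCC.Tal

/-!
# Column-convex polygons (MP_f6626d_co): assembly of the combinatorial half
-/

set_option autoImplicit false

namespace Pool.Agent.KCC

/-- the final theorem from the three remaining inputs -/
theorem main_of (hglu : GLU_Stmt) (hx : XM.BEY_Stmt) (hg : KCG.GFINE_Stmt) : FINAL_Stmt := by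
  have hK2 : K2_Stmt := k2_thm pla_thm
  have hAR : AR_Stmt := ar_thm hK2
  have hTAIL : TAIL_Stmt := tal_thm xbr_thm hx
  have hKW : KW_Stmt := kw_thm hK2 k5s_thm k5f_thm k5r_thm k5b_thm k5c_thm hAR
  have hK1 : K1_Stmt := k1_thm rot_thm hglu pos_thm
  have hTR : TR_Stmt := tr_thm hK1 vcr_thm
  have hDAT : DAT_Stmt := dat_thm hTAIL hKW k5s_thm k5b_thm k5c_thm
  have hNEAR : NEAR_Stmt := near_thm hK2 k4_thm k5s_thm k5c_thm hAR pos_thm
  have hCDF : CDF_Stmt := cdf_thm hTR pos_thm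
  have hSEQ : SEQ_Stmt := seq_thm hNEAR k5c_thm
  exact fin_thm hg (conv_thm hDAT hCDF hSEQ) stc_thm (gro_thm (blo_thm pla_thm))

end Pool.Agent.KCC
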