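import Pool.Agent.KCC.Main0
import Pool.Agent.XM.Main
import Pool.Agent.KCG.Main

/-!
# Column-convex polygons (MP_f6626d_co): assembly up to GLU
-/

set_option autoImplicit false

namespace Pool.Agent.KCC

/-- the final theorem from GLU -/
theorem main_of_glu (hglu : GLU_Stmt) : FINAL_Stmt := main_of hglu XM.bey_main KCG.gfine_main

end Pool.Agent.KCC
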