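import Pool.Agent.KCC.Stmts

/-!
# PLA: planarity of two disjoint strands in a strip of columns

Parity of the horizontal steps between two columns below a given height. Horizontal steps have the
same height at both ends, so moving the point horizontally does not change the parity; moving it
vertically does not either, because the point is not on the path.
-/

set_option autoImplicit false

namespace Pool.Agent.KCC.PLA

open Pool.Agent.Lib27

open Classical in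
/-- Indicator in `ZMod 2`. -/
noncomputable def ind (P : Prop) : ZMod 2 := if P then 1 else 0

lemma ind_congr {P Q : Prop} (h : P ↔ Q) : ind P = ind Q := by
  unfold ind
  by_cases hP : P
  · rw [if_pos hP, if_pos (h.1 hP)]
  · rw [if_neg hP, if_neg (fun hQ => hP (h.2 hQ))]

lemma ind_true {P : Prop} (h : P) : ind P = 1 := by
  unfold ind; exact if_pos h

lemma ind_false {P : Prop} (h : ¬ P) : ind P = 0 := by
  unfold ind; exact if_neg h

lemma ind_inj {P Q : Prop} (h : ind P = ind Q) : P ↔ Q := by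
  unfold ind at h
  by_cases hP : P <;> by_cases hQ : Q
  · exact ⟨fun _ => hQ, fun _ => hP⟩
  · rw [if_pos hP, if_neg hQ] at h; exact absurd h (by decide)
  · rw [if_neg hP, if_pos hQ] at h; exact absurd h (by decide)
  · exact ⟨fun h => absurd h hP, fun h => absurd h hQ⟩

lemma add_self2 (x : ZMod 2) : x + x = 0 := by revert x; decide

/-- Parity of the number of steps between the columns `l` and `l + 1` below the height `q`. -/
noncomputable def cp (l q : ℤ) : ℤ × ℤ → Wd → ZMod 2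
  | _, [] => 0
  | a, d :: u => ind (((d = 0 ∧ a.1 = l) ∨ (d = 2 ∧ a.1 = l + 1)) ∧ a.2 < q) + cp l q (a + dv d) u

lemma dvc (d : Fin 4) (a : ℤ × ℤ) :
    (d = 0 ∧ (a + dv d).1 = a.1 + 1 ∧ (a + dv d).2 = a.2) ∨
    (d = 1 ∧ (a + dv d).1 = a.1 ∧ (a + dv d).2 = a.2 + 1) ∨
    (d = 2 ∧ (a + dv d).1 = a.1 - 1 ∧ (a + dv d).2 = a.2) ∨
    (d = 3 ∧ (a + dv d).1 = a.1 ∧ (a + dv d).2 = a.2 - 1) := by
  have h : (d = 0 ∧ (dv d).1 = 1 ∧ (dv d).2 = 0) ∨ (d = 1 ∧ (dv d).1 = 0 ∧ (dv d).2 = 1) ∨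
      (d = 2 ∧ (dv d).1 = -1 ∧ (dv d).2 = 0) ∨ (d = 3 ∧ (dv d).1 = 0 ∧ (dv d).2 = -1) := by
    revert d; decide
  rw [Prod.fst_add, Prod.snd_add]
  rcases h with ⟨h1, h2, h3⟩ | ⟨h1, h2, h3⟩ | ⟨h1, h2, h3⟩ | ⟨h1, h2, h3⟩
  · exact Or.inl ⟨h1, by omega, by omega⟩
  · exact Or.inr (Or.inl ⟨h1, by omega, by omega⟩)
  · exact Or.inr (Or.inr (Or.inl ⟨h1, by omega, by omega⟩))
  · exact Or.inr (Or.inr (Or.inr ⟨h1, by omega, by omega⟩))

lemma key (l q : ℤ) (a : ℤ × ℤ) (d : Fin 4) (h1 : (l, q) ≠ a) (h2 : (l, q) ≠ a + dv d) :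
    ind (((d = 0 ∧ a.1 = l) ∨ (d = 2 ∧ a.1 = l + 1)) ∧ a.2 < q) +
      ind (((d = 0 ∧ a.1 = l - 1) ∨ (d = 2 ∧ a.1 = l - 1 + 1)) ∧ a.2 < q) =
    ind (a.1 = l ∧ a.2 < q) + ind ((a + dv d).1 = l ∧ (a + dv d).2 < q) := by
  have h1' : ¬ (a.1 = l ∧ a.2 = q) := fun h => h1 (Prod.ext h.1.symm h.2.symm)
  have h2' : ¬ ((a + dv d).1 = l ∧ (a + dv d).2 = q) := fun h => h2 (Prod.ext h.1.symm h.2.symm)
  rcases dvc d a with ⟨hd, h3, h4⟩ | ⟨hd, h3, h4⟩ | ⟨hd, h3, h4⟩ | ⟨hd, h3, h4⟩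
  · rw [ind_congr (P := ((d = 0 ∧ a.1 = l) ∨ (d = 2 ∧ a.1 = l + 1)) ∧ a.2 < q)
      (Q := a.1 = l ∧ a.2 < q), ind_congr (P := ((d = 0 ∧ a.1 = l - 1) ∨ (d = 2 ∧ a.1 = l - 1 + 1)) ∧
      a.2 < q) (Q := (a + dv d).1 = l ∧ (a + dv d).2 < q)]
    · rw [h3, h4, hd]
      constructor
      · rintro ⟨h | h, h'⟩
        · exact ⟨by omega, h'⟩
        · exact absurd h.1 (by decide)
      · rintro ⟨h, h'⟩
        exact ⟨Or.inl ⟨rfl, by omega⟩, h'⟩
    · rw [hd]
      constructor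
      · rintro ⟨h | h, h'⟩
        · exact ⟨h.2, h'⟩
        · exact absurd h.1 (by decide)
      · rintro ⟨h, h'⟩
        exact ⟨Or.inl ⟨rfl, h⟩, h'⟩
  · rw [ind_false (P := ((d = 0 ∧ a.1 = l) ∨ (d = 2 ∧ a.1 = l + 1)) ∧ a.2 < q),
      ind_false (P := ((d = 0 ∧ a.1 = l - 1) ∨ (d = 2 ∧ a.1 = l - 1 + 1)) ∧ a.2 < q),
      ind_congr (P := (a + dv d).1 = l ∧ (a + dv d).2 < q) (Q := a.1 = l ∧ a.2 < q), add_zero,
      add_self2]
    · rw [h3, h4] at h2' ⊢
      constructor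
      · rintro ⟨h, h'⟩; exact ⟨h, by omega⟩
      · rintro ⟨h, h'⟩
        refine ⟨h, ?_⟩
        by_contra h5
        exact h2' ⟨h, by omega⟩
    · rw [hd]
      rintro ⟨h | h, h'⟩ <;> exact absurd h.1 (by decide)
    · rw [hd]
      rintro ⟨h | h, h'⟩ <;> exact absurd h.1 (by decide)
  · rw [ind_congr (P := ((d = 0 ∧ a.1 = l) ∨ (d = 2 ∧ a.1 = l + 1)) ∧ a.2 < q)
      (Q := (a + dv d).1 = l ∧ (a + dv d).2 < q),
      ind_congr (P := ((d = 0 ∧ a.1 = l - 1) ∨ (d = 2 ∧ a.1 = l - 1 + 1)) ∧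
      a.2 < q) (Q := a.1 = l ∧ a.2 < q), add_comm]
    · rw [hd]
      constructor
      · rintro ⟨h | h, h'⟩
        · exact absurd h.1 (by decide)
        · exact ⟨by omega, h'⟩
      · rintro ⟨h, h'⟩
        exact ⟨Or.inr ⟨rfl, by omega⟩, h'⟩
    · rw [h3, h4, hd]
      constructor
      · rintro ⟨h | h, h'⟩
        · exact absurd h.1 (by decide)
        · exact ⟨by omega, h'⟩
      · rintro ⟨h, h'⟩
        exact ⟨Or.inr ⟨rfl, by omega⟩, h'⟩
  · rw [ind_false (P := ((d = 0 ∧ a.1 = l) ∨ (d = 2 ∧ a.1 = l + 1)) ∧ a.2 < q),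
      ind_false (P := ((d = 0 ∧ a.1 = l - 1) ∨ (d = 2 ∧ a.1 = l - 1 + 1)) ∧ a.2 < q),
      ind_congr (P := (a + dv d).1 = l ∧ (a + dv d).2 < q) (Q := a.1 = l ∧ a.2 < q), add_zero,
      add_self2]
    · rw [h3, h4]
      constructor
      · rintro ⟨h, h'⟩
        refine ⟨h, ?_⟩
        by_contra h5
        exact h1' ⟨h, by omega⟩
      · rintro ⟨h, h'⟩; exact ⟨h, by omega⟩
    · rw [hd]
      rintro ⟨h | h, h'⟩ <;> exact absurd h.1 (by decide)
    · rw [hd]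
      rintro ⟨h | h, h'⟩ <;> exact absurd h.1 (by decide)

lemma deg (l q : ℤ) (a : ℤ × ℤ) (u : Wd) (hv : (l, q) ∉ vt a u) :
    cp l q a u + cp (l - 1) q a u = ind (a.1 = l ∧ a.2 < q) +
      ind ((ep a u).1 = l ∧ (ep a u).2 < q) := by
  induction u generalizing a with
  | nil =>
    simp only [cp, ep_nil, add_zero]
    rw [add_self2]
  | cons d u ih =>
    rw [vt_cons, List.mem_cons, not_or] at hv
    have h := ih (a + dv d) hv.2
    have k := key l q a d hv.1 (fun h => hv.2 (by rw [h]; exact mem_vt_self _ _))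
    rw [ep_cons]
    have e : cp l q a (d :: u) + cp (l - 1) q a (d :: u) =
        (ind (((d = 0 ∧ a.1 = l) ∨ (d = 2 ∧ a.1 = l + 1)) ∧ a.2 < q) +
          ind (((d = 0 ∧ a.1 = l - 1) ∨ (d = 2 ∧ a.1 = l - 1 + 1)) ∧ a.2 < q)) +
        (cp l q (a + dv d) u + cp (l - 1) q (a + dv d) u) := by
      simp only [cp]
      ring
    rw [e, k, h]
    have := add_self2 (ind ((a + dv d).1 = l ∧ (a + dv d).2 < q))
    linear_combination this

lemma cp_eq_zero (l q : ℤ) (a : ℤ × ℤ) (u : Wd)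
    (h : (∀ v ∈ vt a u, v.1 ≤ l) ∨ (∀ v ∈ vt a u, l + 1 ≤ v.1)) : cp l q a u = 0 := by
  induction u generalizing a with
  | nil => rfl
  | cons d u ih =>
    rw [vt_cons] at h
    simp only [cp]
    rw [ih (a + dv d) (h.imp (fun h v hv => h v (by simp [hv])) (fun h v hv => h v (by simp [hv]))),
      ind_false, add_zero]
    have h1 : a ∈ a :: vt (a + dv d) u := by simp
    have h2 : a + dv d ∈ a :: vt (a + dv d) u := by simp [mem_vt_self]
    rintro ⟨h3, -⟩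
    rcases dvc d a with ⟨hd, h4, h5⟩ | ⟨hd, h4, h5⟩ | ⟨hd, h4, h5⟩ | ⟨hd, h4, h5⟩
    · rcases h3 with h3 | h3
      · rcases h with h | h
        · have := h _ h2; omega
        · have := h _ h1; omega
      · rw [hd] at h3; exact absurd h3.1 (by decide)
    · rw [hd] at h3; rcases h3 with h3 | h3 <;> exact absurd h3.1 (by decide)
    · rcases h3 with h3 | h3
      · rw [hd] at h3; exact absurd h3.1 (by decide)
      · rcases h with h | h
        · have := h _ h1; omega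
        · have := h _ h2; omega
    · rw [hd] at h3; rcases h3 with h3 | h3 <;> exact absurd h3.1 (by decide)

/-- Moving the point up by one does not change the parity. -/
lemma cp_up (l q : ℤ) (a : ℤ × ℤ) (u : Wd) (hv : (l, q) ∉ vt a u) :
    cp l q a u = cp l (q + 1) a u := by
  induction u generalizing a with
  | nil => rfl
  | cons d u ih =>
    rw [vt_cons, List.mem_cons, not_or] at hv
    simp only [cp]
    rw [ih (a + dv d) hv.2]
    congr 1
    apply ind_congr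
    have h1 : ¬ (a.1 = l ∧ a.2 = q) := fun h => hv.1 (Prod.ext h.1.symm h.2.symm)
    have h2 : ¬ ((a + dv d).1 = l ∧ (a + dv d).2 = q) := fun h =>
      hv.2 (by rw [show (l, q) = a + dv d from Prod.ext h.1.symm h.2.symm]; exact mem_vt_self _ _)
    constructor
    · rintro ⟨h3, h4⟩; exact ⟨h3, by omega⟩
    · rintro ⟨h3, h4⟩
      refine ⟨h3, ?_⟩
      by_contra h5
      have h6 : a.2 = q := by omega
      rcases h3 with ⟨h3, h7⟩ | ⟨h3, h7⟩
      · exact h1 ⟨h7, h6⟩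
      · rcases dvc d a with ⟨hd, h8, h9⟩ | ⟨hd, h8, h9⟩ | ⟨hd, h8, h9⟩ | ⟨hd, h8, h9⟩
        · rw [hd] at h3; exact absurd h3 (by decide)
        · rw [hd] at h3; exact absurd h3 (by decide)
        · exact h2 ⟨by omega, by omega⟩
        · rw [hd] at h3; exact absurd h3 (by decide)

/-- The side of the point `v` with respect to the path. -/
noncomputable def side (h : ℤ) (a : ℤ × ℤ) (u : Wd) (v : ℤ × ℤ) : ZMod 2 :=
  cp v.1 v.2 a u + ind (v.1 = h ∧ (ep a u).2 < v.2)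

lemma side_eq (h : ℤ) (a : ℤ × ℤ) (u : Wd) (ha : a.1 = 0) (he : (ep a u).1 = h) (v : ℤ × ℤ)
    (hv : v ∉ vt a u) : side h a u v = cp (v.1 - 1) v.2 a u + ind (v.1 = 0 ∧ a.2 < v.2) := by
  have h1 := deg v.1 v.2 a u hv
  unfold side
  rw [ind_congr (P := v.1 = h ∧ (ep a u).2 < v.2) (Q := (ep a u).1 = v.1 ∧ (ep a u).2 < v.2)
    ⟨fun h => ⟨by omega, h.2⟩, fun h => ⟨by omega, h.2⟩⟩,
    ind_congr (P := v.1 = 0 ∧ a.2 < v.2) (Q := a.1 = v.1 ∧ a.2 < v.2)
    ⟨fun h => ⟨by omega, h.2⟩, fun h => ⟨by omega, h.2⟩⟩]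
  have h2 := add_self2 (cp (v.1 - 1) v.2 a u)
  have h3 := add_self2 (ind ((ep a u).1 = v.1 ∧ (ep a u).2 < v.2))
  linear_combination h1 - h2 + h3

lemma side_east (h : ℤ) (a : ℤ × ℤ) (u : Wd) (ha : a.1 = 0) (he : (ep a u).1 = h) (v w : ℤ × ℤ)
    (h1 : w.1 = v.1 + 1) (h2 : w.2 = v.2) (h0 : 0 ≤ v.1) (hh : w.1 ≤ h) (hw : w ∉ vt a u) :
    side h a u v = side h a u w := by
  rw [side_eq h a u ha he w hw]
  unfold side
  rw [ind_false (P := v.1 = h ∧ (ep a u).2 < v.2) (fun h => by omega),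
    ind_false (P := w.1 = 0 ∧ a.2 < w.2) (fun h => by omega), h1, h2, add_sub_cancel_right]

lemma side_north (h : ℤ) (a : ℤ × ℤ) (u : Wd) (he : (ep a u).1 = h) (v w : ℤ × ℤ)
    (h1 : w.1 = v.1) (h2 : w.2 = v.2 + 1) (hv : v ∉ vt a u) :
    side h a u v = side h a u w := by
  unfold side
  rw [h1, h2, cp_up v.1 v.2 a u hv]
  congr 1
  apply ind_congr
  constructor
  · rintro ⟨h3, h4⟩; exact ⟨h3, by omega⟩
  · rintro ⟨h3, h4⟩
    refine ⟨h3, ?_⟩
    by_contra h5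
    apply hv
    have : v = ep a u := Prod.ext (by omega) (by omega)
    rw [this]
    exact ep_mem_vt a u

lemma side_const (h : ℤ) (a : ℤ × ℤ) (u : Wd) (ha : a.1 = 0) (he : (ep a u).1 = h) (w : Wd)
    (b : ℤ × ℤ) (hw : ∀ v ∈ vt b w, 0 ≤ v.1 ∧ v.1 ≤ h) (hd : ∀ v ∈ vt b w, v ∉ vt a u) :
    side h a u b = side h a u (ep b w) := by
  induction w generalizing b with
  | nil => rfl
  | cons e w ih =>
    rw [vt_cons] at hw hd
    rw [ep_cons, ← ih (b + dv e) (fun v hv => hw v (by simp [hv])) (fun v hv => hd v (by simp [hv]))]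
    have w1 := hw b (by simp)
    have w2 := hw (b + dv e) (by simp [mem_vt_self])
    have d1 := hd b (by simp)
    have d2 := hd (b + dv e) (by simp [mem_vt_self])
    rcases dvc e b with ⟨_, h1, h2⟩ | ⟨_, h1, h2⟩ | ⟨_, h1, h2⟩ | ⟨_, h1, h2⟩
    · exact side_east h a u ha he b (b + dv e) h1 h2 w1.1 w2.2 d2
    · exact side_north h a u he b (b + dv e) h1 h2 d1
    · exact (side_east h a u ha he (b + dv e) b (by omega) h2.symm w2.1 w1.2 d1).symm
    · exact (side_north h a u he (b + dv e) b h1.symm (by omega) d2).symm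

end PLA

open Pool.Agent.Lib27 in
theorem pla_thm : PLA_Stmt := by
  intro x x' U D hx hs hxx hd
  obtain ⟨h0, h1, _, _, h4, h5⟩ := hs
  have hQ1 : (ep 0 U + (0, x')).1 = (ep 0 U).1 := by simp
  have hQ2 : (ep 0 U + (0, x')).2 = (ep 0 U).2 + x' := by simp
  have hu : ∀ v ∈ vt 0 U, 0 ≤ v.1 ∧ v.1 ≤ (ep 0 U).1 := by
    intro v hv
    rw [vt_head, List.mem_cons] at hv
    rcases hv with rfl | hv
    · exact ⟨le_refl _, h0.le⟩
    · have := h4 v hv
      exact ⟨this.1.le, this.2⟩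
  generalize hQ : ep 0 U + (0, x') = Q at hQ1 hQ2 hd
  have hE : ep Q D = ep 0 D + Q := ep_eq Q D
  have hE1 : (ep Q D).1 = 0 := by rw [hE, Prod.fst_add]; omega
  have hE2 : (ep Q D).2 = x := by rw [hE, Prod.snd_add]; omega
  have hw : ∀ v ∈ vt Q D, 0 ≤ v.1 ∧ v.1 ≤ (ep 0 U).1 := by
    intro v hv
    unfold vt at hv
    rw [List.mem_append, List.mem_singleton] at hv
    rcases hv with hv | rfl
    · rw [vs_eq, List.mem_map] at hv
      obtain ⟨v', hv', rfl⟩ := hv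
      have := h5 v' hv'
      rw [Prod.fst_add]
      omega
    · omega
  have hc := PLA.side_const (ep 0 U).1 0 U rfl rfl D Q hw (fun v hv hv' => hd hv' hv)
  rw [PLA.side_eq (ep 0 U).1 0 U rfl rfl (ep Q D) (fun h => hd h (ep_mem_vt Q D))] at hc
  unfold PLA.side at hc
  rw [PLA.cp_eq_zero ((ep Q D).1 - 1) _ 0 U (Or.inr fun v hv => by
      have := (hu v hv).1; omega),
    PLA.cp_eq_zero Q.1 _ 0 U (Or.inl fun v hv => by
      have := (hu v hv).2; omega), zero_add, zero_add] at hc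
  have h6 := (PLA.ind_inj hc).2 ⟨hE1, by rw [hE2]; exact hx⟩
  omega

end Pool.Agent.KCC
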