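import Pool.Agent.KCC.Defs
import Pool.Agent.KCC.FinalDefs
import Pool.Agent.KCG.Defs

/-!
# Column-convex polygons (MP_f6626d_co): statements of the modules (combinatorics, assembly)

Template: the landed files for the diagonal direction. The new statements differ by
* levels are columns, cuts are vertical lines `x = h + 1/2` crossed by exactly two steps at an even
  distance (not diagonals with exactly two vertices);
* no run length `r`; instead at most `2 k` crossings of every line (`Nar k`) and pieces with at most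
  `2 n` steps;
* gaps are half gaps, `area = ∑ h (g + g') + O(offsets)`.
All statements up to `TR` have been checked by computer for `n ≤ 7`, `k ≤ 3`.
-/

set_option autoImplicit false

namespace Pool.Agent.KCC

open Finset Filter Topology MeasureTheory Pool.Agent.Lib27 Pool.Agent.AreaLaw
open Pool.Agent.SapR (rot2 wordsUpTo)
open Pool.Agent.Gap (IsCap closeP AreaModel)

/-! ### A. strands, arches, pieces -/

/-- PLA (planarity). Two disjoint strands in a strip do not change their order: `U` starts at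
`(0, 0)`, `D` ends at `(0, x)`, and `D` starts `x'` above the end of `U` (full gaps).
Template: `k3` and `planar` in `Lib_helper41/SapR/Planar.lean` (parity of crossings). -/
def PLA_Stmt : Prop := ∀ (x x' : ℤ) (U D : Wd), 1 ≤ x → StripPair U D →
  x = (ep 0 U).2 + x' + (ep 0 D).2 → List.Disjoint (vt 0 U) (vt (ep 0 U + (0, x')) D) → 1 ≤ x'

/-- K2 (decomposition of an arch at the first even cut), from PLA.
Template: `k2` in `Lib_helper24/SapR/K2.lean` and `Glue.lean`. -/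
def K2_Stmt : Prop := ∀ (k n : ℕ) (g : ℤ) (N : ℕ), 1 ≤ k → 1 ≤ g → N ≤ 2 * n + 2 → ∀ F : Wd → ℝ,
  ∑ w ∈ ArchSet k g N, F w = ∑ w ∈ CapSet k g N, F w +
    ∑ p ∈ allowed k n g, ∑ w ∈ ArchSet k (g + jump p) (N - (p.1.length + p.2.length)),
      F (p.1 ++ w ++ p.2)

/-- K4 (area identities). -/
def K4_Stmt : Prop :=
  (∀ (k : ℕ) (g : ℤ) (p : Wd × Wd) (w : Wd), FreePiece k p.1 p.2 →
    ep 0 w = (0, 2 * (g + jump p)) →
    dbl 0 (p.1 ++ w ++ p.2) = dbl 0 w + (2 * (ht p * (2 * g + jump p)) + off p)) ∧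
  (∀ (g : ℤ) (w T : Wd), 1 ≤ g → Arch g w → Arch g T →
    dbl 0 (glue w T) = dbl 0 w + dbl 0 T - 4 * g)

/-- K5a (sizes). Template: `Lib_helper66/SapR/K5.lean`. -/
def K5S_Stmt : Prop := ∀ (k n : ℕ) (p : Wd × Wd), p ∈ Pc k n →
  p.1.length + p.2.length = 2 * hl p ∧ 1 ≤ hl p ∧ hl p ≤ n ∧ ht p = htn p ∧ 1 ≤ htn p ∧
    htn p ≤ hl p ∧ |jump p| + 1 ≤ hl p ∧ |off p| ≤ (2 * (hl p : ℤ)) ^ 2 ∧
    (ep 0 p.1).2 + (ep 0 p.2).2 = -(2 * jump p)

/-- K5b (far pieces are allowed). -/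
def K5F_Stmt : Prop := ∀ (k n : ℕ) (g : ℤ) (p : Wd × Wd), p ∈ Pc k n → (hl p : ℤ) ≤ g →
  p ∈ allowed k n g

/-- K5c (rotation of pieces by 180 degrees). -/
def K5R_Stmt : Prop := ∀ (k n : ℕ) (p : Wd × Wd), p ∈ Pc k n →
  flip p ∈ Pc k n ∧ flip (flip p) = p ∧ jump (flip p) = -jump p ∧ ht (flip p) = ht p ∧
    hl (flip p) = hl p ∧ ∀ g : ℤ, p ∈ allowed k n g ↔ flip p ∈ allowed k n (g + jump p)

/-- K5d (two basic pieces). -/
def K5B_Stmt : Prop := ∀ (k n : ℕ) (g : ℤ), 1 ≤ k → 2 ≤ n → 1 ≤ g →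
  (([0], [2]) : Wd × Wd) ∈ allowed k n g ∧ (([0, 3, 3], [2]) : Wd × Wd) ∈ allowed k n g ∧
    jump (([0], [2]) : Wd × Wd) = 0 ∧ jump (([0, 3, 3], [2]) : Wd × Wd) = 1

/-- K5e (arches and caps). -/
def K5C_Stmt : Prop :=
  (∀ (g : ℤ) (w : Wd), 1 ≤ g → Arch g w → Even w.length ∧ 2 * g + 2 ≤ w.length ∧
    |dbl 0 w| ≤ (w.length : ℤ) ^ 2 ∧ ∃ u : Wd, w = 0 :: u ++ [2]) ∧
  (∀ k : ℕ, 1 ≤ k → CapSet k 1 4 = {[0, 1, 1, 2]})

/-! ### B. integer area, canonical polygon words -/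

/-- `q = (p, v)` is a decomposition of the arch `w` of gap `g` -/
def Dec (k n : ℕ) (g : ℤ) (w : Wd) (q : (Wd × Wd) × Wd) : Prop :=
  q.1 ∈ allowed k n g ∧
  q.2 ∈ ArchSet k (g + jump q.1) (w.length - (q.1.1.length + q.1.2.length)) ∧
  w = q.1.1 ++ q.2 ++ q.1.2

lemma piece_pos (k n : ℕ) (p : Wd × Wd) (h : p ∈ Pc k n) : 0 < p.1.length + p.2.length := by
  classical
  unfold Pc at h
  have h1 := (mem_filter.1 h).2.1.1.1
  rcases p with ⟨U, D⟩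
  cases U with
  | nil => simp at h1
  | cons a U => simp only [List.length_cons]; omega

lemma Dec_lt (k n : ℕ) (g : ℤ) (w : Wd) (q : (Wd × Wd) × Wd) (h : Dec k n g w q) :
    q.2.length < w.length := by
  classical
  have h0 : q.1 ∈ Pc k n := by
    have := h.1
    unfold allowed at this
    exact (mem_filter.1 this).1
  have h1 := piece_pos k n q.1 h0
  rw [h.2.2]
  simp only [List.length_append]
  omega

open Classical in
/-- The integer area functional of an arch: the sum of `h (g + g')` over its pieces. -/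
noncomputable def Ar (k n : ℕ) (w : Wd) : ℕ :=
  if h : ∃ q : (Wd × Wd) × Wd, Dec k n ((ep 0 w).2 / 2) w q then
    have : (h.choose).2.length < w.length := Dec_lt k n _ w _ h.choose_spec
    Ar k n (h.choose).2 +
      (ht (h.choose).1 * (2 * ((ep 0 w).2 / 2) + jump (h.choose).1)).toNat
  else 0
termination_by w.length

/-- AR (recursion of the area functional), from K2. Template: `Lib_helper41/SapR/ArDef.lean`. -/
def AR_Stmt : Prop := ∀ (k n : ℕ), 1 ≤ k →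
  (∀ (g : ℤ) (N : ℕ) (w : Wd), 1 ≤ g → N ≤ 2 * n + 2 → w ∈ CapSet k g N → Ar k n w = 0) ∧
  (∀ (g : ℤ) (N : ℕ) (p : Wd × Wd) (w : Wd), 1 ≤ g → N ≤ 2 * n + 2 → p ∈ allowed k n g →
    w ∈ ArchSet k (g + jump p) (N - (p.1.length + p.2.length)) →
    Ar k n (p.1 ++ w ++ p.2) = Ar k n w + (ht p * (2 * g + jump p)).toNat)

/-- the canonical words `glue w T` of the polygons of perimeter `2n` with an even cut: gap `g`,
half length `m` of the left cap, left cap `T`, arch `w` -/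
noncomputable def Om (k n : ℕ) : Finset ((_ : ℤ) × (_ : ℕ) × (Wd × Wd)) :=
  (Icc (1 : ℤ) n).sigma fun g => (range (n + 1)).sigma fun m =>
    CapSet k g (2 * m + 2) ×ˢ ArchSet k g (2 * (n - m))

/-- twice the signed area of a canonical word -/
def dq (q : (_ : ℤ) × (_ : ℕ) × (Wd × Wd)) : ℤ := dbl 0 (glue q.2.2.2 q.2.2.1)

open Classical in
/-- number of right caps (with the two crossing edges) -/
noncomputable def capS (k n : ℕ) (m : ℕ) (g : ℤ) : ℝ :=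
  if 1 ≤ g ∧ m ≤ n then ((CapSet k g (2 * m)).card : ℝ) else 0

open Classical in
/-- number of left caps (without the two crossing edges) -/
noncomputable def capT (k n : ℕ) (m : ℕ) (g : ℤ) : ℝ :=
  if 1 ≤ g ∧ m ≤ n then ((CapSet k g (2 * m + 2)).card : ℝ) else 0

/-- KW : the kernel and the area generating function of the canonical polygon words
(from K2, K5S, K5F, K5R, K5B, K5C, AR). Template: `Lib_helper89/FL/KW.lean`,
`Lib_helper41/SapR/Model.lean`, `OC/Kwg.lean`. -/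
def KW_Stmt : Prop := ∀ k n : ℕ, 1 ≤ k → 2 ≤ n →
  ∃ (G : KCG.GapKernel) (B : ℕ → ℤ → Polynomial ℝ), KCG.Loc G ∧
    ∑ p ∈ Pc k n, G.rho ^ hl p = 1 ∧
    (∀ m : ℕ, ∑ i ∈ G.S.filter (fun i => i.1 = m), G.tot i =
      (((Pc k n).filter (fun p => hl p = m)).card : ℝ)) ∧
    IsCap n (capS k n) ∧ IsCap n (capT k n) ∧ 1 ≤ capS k n 2 1 ∧ 1 ≤ capT k n 1 1 ∧
    (∀ (m : ℕ) (g : ℤ), (m : ℤ) < g → capS k n m g = 0 ∧ capT k n m g = 0) ∧
    KCG.IsSol G (capS k n) B ∧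
    ∑ q ∈ Om k n, (Polynomial.X : Polynomial ℝ) ^ (Ar k n q.2.2.2) = closeP n (capT k n) B n

/-! ### C. roots -/

/-- POS (orientation). Template: `k1pos` in `Lib_helper58/SapR/Pos.lean` (winding numbers,
`Lib_helper27/Winding.lean`). -/
def POS_Stmt : Prop := ∀ (g : ℤ) (w T : Wd), 1 ≤ g → Arch g w → Arch g T → 0 < dbl 0 (glue w T)

/-- CAN (the canonical rotation starts with the east step across the leftmost even cut). -/
def Canon (s : Wd) : Prop := s.getD 0 1 = 0 ∧ EC s 0 ∧ ∀ h : ℤ, h < 0 → ¬ EC s h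

open Classical in
/-- ROT. Template: `sum_canon` in `Lib_helper58/SapR/Root.lean`, `Rot.lean`. -/
def ROT_Stmt : Prop := ∀ (k n : ℕ), 1 ≤ n → ∀ G : Wd → ℝ,
  (∀ (s : Wd) (j : ℕ), s ∈ W n → j ≤ 2 * n → G (s.rotate j) = G s) →
  ∑ s ∈ (Fam k n).filter (fun s => ∃ h : ℤ, EC s h), G s =
    2 * n * ∑ s ∈ (Fam k n).filter Canon, G s

open Classical in
/-- GLU (a canonical word is glued from an arch and a cap, up to orientation).
Template: `glue_mem`, `canon_decomp`, `k1` in `Lib_helper58/SapR/K1.lean`. From POS. -/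
def GLU_Stmt : Prop := ∀ (k n : ℕ), 1 ≤ k → 1 ≤ n → ∀ F : ℤ → ℝ,
  ∑ s ∈ (Fam k n).filter (fun s => Canon s ∧ 0 < dbl 0 s), F (dbl 0 s) =
    ∑ q ∈ Om k n, F (dq q)

open Classical in
/-- K1 (root decomposition), from ROT, GLU and the reversal of words.
Template: `k1` in `Lib_helper58/SapR/K1.lean`, `OC/K1g.lean`. -/
def K1_Stmt : Prop := ∀ (k n : ℕ), 1 ≤ k → 2 ≤ n → ∀ F : ℤ → ℝ,
  ∑ s ∈ (Fam k n).filter (fun s => ∃ h : ℤ, EC s h), F |dbl 0 s| =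
    4 * n * ∑ q ∈ Om k n, F (dq q)

/-- VCR (the frozen encoding). Template: `Lib_helper27/Transl.lean`,
`Lib_helper41/SapR/Transfer.lean`. -/
def VCR_Stmt : Prop :=
  (∀ (n : ℕ) (s : Fin (2 * n) → Fin 4) (h : ℤ), vcross n s h = cr (List.ofFn s) h) ∧
  ∀ (k n : ℕ), 1 ≤ n → ∀ F : ℤ → ℝ,
    ∑ s ∈ ColConvex k n, F |dbl 0 (List.ofFn s)| = ∑ w ∈ Fam k n, F |dbl 0 w|

/-- TR : from the frozen encoding to canonical words and words without even cut (from K1, VCR). -/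
def TR_Stmt : Prop := ∀ (k n : ℕ), 1 ≤ k → 2 ≤ n → ∀ F : ℤ → ℝ,
  ∑ s ∈ ColConvex k n, F |dbl 0 (List.ofFn s)| =
    4 * n * ∑ q ∈ Om k n, F (dq q) + ∑ w ∈ NoCut k n, F |dbl 0 w|

/-! ### D. tails -/

/-- TAIL : the mass gap for a fixed `k`; `q` is the square of the critical point (from the modules
of `Pool/Agent/XM`). -/
def TAIL_Stmt : Prop := ∀ k : ℕ, 1 ≤ k → ∃ q eta C : ℝ, 0 < q ∧ 0 < eta ∧ 0 < C ∧
  (∀ n : ℕ, ∑ p ∈ Pc k n, q ^ hl p ≤ 1) ∧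
  (∀ r : ℝ, q < r → ∃ n : ℕ, 1 < ∑ p ∈ Pc k n, r ^ hl p) ∧
  (∀ n : ℕ, ∑ p ∈ Pc k n, ((1 + eta) * q) ^ hl p ≤ C) ∧
  (∀ M : ℕ, ∑ m ∈ range (M + 1), ∑ g ∈ Icc (1 : ℤ) m,
    ((CapSet k g (2 * m + 2)).card : ℝ) * ((1 + eta) * q) ^ m ≤ C) ∧
  (∀ n : ℕ, 1 ≤ n → ((NoCut k n).card : ℝ) * ((1 + eta) * q) ^ n ≤ C * n)

/-- the three exponential tail bounds for the half perimeter `n` -/
def Tails (C θ : ℝ) (k n : ℕ) (rho : ℝ) : Prop :=
  (∀ m : ℕ, (((Pc k n).filter (fun p => hl p = m)).card : ℝ) * rho ^ m ≤ C * θ ^ m) ∧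
  (∀ m : ℕ, m ≤ n → ∑ g ∈ Icc (1 : ℤ) m, ((CapSet k g (2 * m + 2)).card : ℝ) * rho ^ m ≤
    C * θ ^ m) ∧
  ((NoCut k n).card : ℝ) * rho ^ n ≤ C * n * θ ^ n

/-- NEAR : mean error of the area functional (from K2, K4, K5S, K5C, AR, POS).
Template: `Lib_helper89/FL/NEAR.lean`, `OC/Nearg.lean`. -/
def NEAR_Stmt : Prop := ∀ C θ : ℝ, 0 < C → 0 < θ → θ < 1 → ∃ C1 : ℝ, 0 < C1 ∧
  ∀ (k n : ℕ) (rho : ℝ), 1 ≤ k → 2 ≤ n → 0 < rho → rho ≤ 1 →
    ∑ p ∈ Pc k n, rho ^ hl p = 1 → Tails C θ k n rho →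
    ∑ q ∈ Om k n, |((|dq q| : ℤ) : ℝ) / 2 - (Ar k n q.2.2.2 : ℝ)| ≤
      C1 * n * Real.log n * ((Om k n).card : ℝ) + C1 / ((n : ℝ) ^ 5 * rho ^ n)

/-! ### E. models -/

/-- the kernel, arrays and bounds for half perimeter `n` -/
structure Dat (C θ : ℝ) (k n : ℕ) where
  G : KCG.GapKernel
  B : ℕ → ℤ → Polynomial ℝ
  cls : KCG.Cls C θ G
  cap_s : KCG.ClsCap C θ G n (capS k n)
  cap_t : KCG.ClsCap C θ G n (capT k n)
  sol : KCG.IsSol G (capS k n) B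
  count : ∑ q ∈ Om k n, (Polynomial.X : Polynomial ℝ) ^ (Ar k n q.2.2.2) = closeP n (capT k n) B n
  crit : ∑ p ∈ Pc k n, G.rho ^ hl p = 1
  rho_le : G.rho ≤ 1
  tails : Tails C θ k n G.rho

/-- DAT (from TAIL, KW, K5S, K5B, K5C). Template: `OC/DatM.lean`. -/
def DAT_Stmt : Prop := ∀ k : ℕ, 1 ≤ k → ∃ C θ : ℝ, 0 < C ∧ 0 < θ ∧ θ < 1 ∧
  ∃ N0 : ℕ, 2 ≤ N0 ∧ ∀ n : ℕ, N0 ≤ n → Nonempty (Dat C θ k n)

/-- the sample space -/
abbrev OmS (k n : ℕ) : Type := {q // q ∈ Om k n} ⊕ {w // w ∈ NoCut k n}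

/-- weights on the sample space -/
noncomputable def wtS (k n : ℕ) : OmS k n → ℝ := Sum.elim (fun _ => 1) (fun _ => 1 / (4 * (n : ℝ)))

/-- absolute shoelace sum on the sample space -/
def TZ (k n : ℕ) : OmS k n → ℤ := Sum.elim (fun q => |dq q.1|) (fun w => |dbl 0 w.1|)

open Classical in
/-- distribution function on the sample space -/
noncomputable def cdfS (k n : ℕ) (x : ℝ) : ℝ :=
  (∑ y ∈ univ.filter fun y : OmS k n => (TZ k n y : ℝ) * ∑ y' : OmS k n, wtS k n y' ≤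
      x * ∑ y' : OmS k n, wtS k n y' * (TZ k n y' : ℝ), wtS k n y) / ∑ y' : OmS k n, wtS k n y'

/-- CDF (from TR, POS). Template: `OC/Cdf.lean`. -/
def CDF_Stmt : Prop := ∀ k n : ℕ, 1 ≤ k → 2 ≤ n → ∀ x : ℝ,
  areaCdf n (ColConvex k n) x = cdfS k n x

/-- SEQ (from NEAR): the sequence of models (`T = TZ / 2`, `A = Ar`). Template: `OC/SeqM.lean`. -/
def SEQ_Stmt : Prop := ∀ (C θ : ℝ) (k N0 : ℕ), 0 < C → 0 < θ → θ < 1 → 1 ≤ k → 2 ≤ N0 →
  (∀ n, N0 ≤ n → Nonempty (Dat C θ k n)) → ∃ M : KCG.SeqModel C θ,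
    ∀ n, N0 ≤ n → ∀ x : ℝ, M.cdf n x = cdfS k n x

/-- the property of the universal law `ν` given by `KCG.GFINE_Stmt` -/
def GF (ν : Measure ℝ) : Prop := (∀ M : AreaModel, M.Conv ν) ∧
  ∀ C θ : ℝ, 0 < C → 0 < θ → θ < 1 → ∀ M : KCG.SeqModel C θ,
    ∀ x : ℝ, ν {x} = 0 → Tendsto (fun n : ℕ => M.cdf n x) atTop (𝓝 (ν (Set.Iic x)).toReal)

/-- CONV (from DAT, CDF, SEQ). -/
def CONV_Stmt : Prop := ∀ ν : Measure ℝ, IsProbabilityMeasure ν → GF ν → ∀ k : ℕ, 1 ≤ k →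
  ∀ x : ℝ, ν {x} = 0 →
    Tendsto (fun n : ℕ => areaCdf n (ColConvex k n) x) atTop (𝓝 (ν (Set.Iic x)).toReal)

/-- STC : the staircase polygons. Template: `OC/Stc.lean`. -/
def STC_Stmt : Prop := ∀ ν : Measure ℝ, GF ν → ∀ x : ℝ, ν {x} = 0 →
  Tendsto (fun n : ℕ => areaCdf n (Staircase n) x) atTop (𝓝 (ν (Set.Iic x)).toReal)

/-- BLO (blocks): polygons of perimeter `2m` opened at the leftmost and at the rightmost vertical
edge, glued one after the other. Template: `Lib_helper41/SapR/Open.lean`, `OpenPair.lean`,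
`K7.lean`. -/
def BLO_Stmt : Prop := ∀ m j r : ℕ, 2 ≤ m →
  ((SAP m).card : ℝ) ^ j ≤ (8 * (m : ℝ) ^ 2) ^ j * ((ColConvex m (m * j + 1 + r)).card : ℝ)

/-- GRO (growth), from BLO: for large `k`, the `k`-column-convex polygons have almost the growth
rate of all polygons. Template: `OC/NarC.lean`, `Lib_helper41/SapR/K7.lean`. -/
def GRO_Stmt : Prop := ∀ ε : ℝ, 0 < ε → ∃ k : ℕ, 1 ≤ k ∧ ∀ᶠ n : ℕ in atTop,
  Real.exp (-(ε * n)) * ((SAP n).card : ℝ) ≤ ((ColConvex k n).card : ℝ)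

/-- the final theorem -/
def FINAL_Stmt : Prop := ∃ ν : Measure ℝ, IsProbabilityMeasure ν ∧
  (∀ x : ℝ, ν {x} = 0 →
    Tendsto (fun n : ℕ => areaCdf n (Staircase n) x) atTop (𝓝 (ν (Set.Iic x)).toReal)) ∧
  ∃ K : ℕ → ℕ, Tendsto K atTop atTop ∧
    (∀ k : ℕ → ℕ, (∀ᶠ n : ℕ in atTop, 1 ≤ k n ∧ k n ≤ K n) → ∀ x : ℝ, ν {x} = 0 →
      Tendsto (fun n : ℕ => areaCdf n (ColConvex (k n) n) x) atTop (𝓝 (ν (Set.Iic x)).toReal)) ∧
    ∀ ε : ℝ, 0 < ε → ∀ᶠ n : ℕ in atTop,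
      Real.exp (-(ε * n)) * ((SAP n).card : ℝ) ≤ ((ColConvex (K n) n).card : ℝ)

/-- FIN : assembly. Template: `OC/Fin.lean`, `diag_force` in `Lib_helper89/FL/Diag.lean`,
`Lib_helper41/SapR/Diag.lean`, `MainThm.lean`. -/
def FIN_Stmt : Prop := KCG.GFINE_Stmt → CONV_Stmt → STC_Stmt → GRO_Stmt → FINAL_Stmt

end Pool.Agent.KCC
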