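import Pool.Agent.KCC.Stmts
import Pool.Agent.XM.Stmts

/-!
# Column-convex polygons (MP_f6626d_co): from the mass gap part (Pool/Agent/XM) to TAIL
-/

set_option autoImplicit false

namespace Pool.Agent.KCC

open Finset Pool.Agent.Lib27

/-- XBR : the two sets of definitions. A free piece `(U, D)` is the pair `(U, rv D)` of bridges. -/
def XBR_Stmt : Prop :=
  (∀ (w : Wd) (h : ℤ), XM.cr w h = cr w h) ∧
  (∀ (w : Wd) (h : ℤ), XM.ECut w h ↔ EC w h) ∧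
  (∀ (k n : ℕ) (p : Wd × Wd), p ∈ Pc k n ↔
    (∃ l : ℕ, 1 ≤ l ∧ (p.1, rv p.2) ∈ XM.Eir (2 * k) l) ∧ p.1.length + p.2.length ≤ 2 * n) ∧
  (∀ (k : ℕ) (g : ℤ) (N : ℕ) (w : Wd), 1 ≤ g → w ∈ CapSet k g N →
    w ∈ XM.Cap (2 * k) ∧ ep 0 w = (0, 2 * g) ∧ w.length = N) ∧
  (∀ (k n : ℕ), NoCut k n = XM.NoE (2 * k) n)

/-- TAL : the tails (from XBR and the result `XM.BEY_Stmt` of the mass gap part). With
`c = 2 k - 2`, `z = (XM.zst c).toReal`, `q = z ^ 2`: for (ii) use `hl p ≥ 1` and that the sums over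
`Pc k n` at `q` increase to `1`. -/
def TAL_Stmt : Prop := XBR_Stmt → XM.BEY_Stmt → TAIL_Stmt

end Pool.Agent.KCC
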