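import Pool.Agent.KCC.Stmts

/-!
# Column-convex polygons (MP_f6626d_co): number of polygons and mean area for fixed `k`

Extension of the final theorem: for every `k` the number of `k`-column-convex polygons of perimeter
`2n` is `μ_k ^ n * n ^ (-3/2)` up to constants (words: `μ_k ^ n * n ^ (-1/2)`), their mean area is
`n ^ (3/2)` up to constants, `μ_k` is strictly increasing and tends to the growth rate of all polygons.
-/

set_option autoImplicit false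

namespace Pool.Agent.KCC

open Finset Filter Topology MeasureTheory Pool.Agent.Lib27 Pool.Agent.AreaLaw
open Pool.Agent.SapR (rot2 wordsUpTo)
open Pool.Agent.Gap (IsCap closeP AreaModel)

/-- the conclusions of TAIL for one `k`; `TAIL_Stmt` is `∀ k, 1 ≤ k → ∃ q eta C, TP k q eta C`
(by definition) -/
def TP (k : ℕ) (q eta C : ℝ) : Prop := 0 < q ∧ 0 < eta ∧ 0 < C ∧
  (∀ n : ℕ, ∑ p ∈ Pc k n, q ^ hl p ≤ 1) ∧
  (∀ r : ℝ, q < r → ∃ n : ℕ, 1 < ∑ p ∈ Pc k n, r ^ hl p) ∧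
  (∀ n : ℕ, ∑ p ∈ Pc k n, ((1 + eta) * q) ^ hl p ≤ C) ∧
  (∀ M : ℕ, ∑ m ∈ range (M + 1), ∑ g ∈ Icc (1 : ℤ) m,
    ((CapSet k g (2 * m + 2)).card : ℝ) * ((1 + eta) * q) ^ m ≤ C) ∧
  (∀ n : ℕ, 1 ≤ n → ((NoCut k n).card : ℝ) * ((1 + eta) * q) ^ n ≤ C * n)

/-- BND (from KCG.GLT_Stmt, KCG.GM2_Stmt and the old LT1, M2, BAL): order of the coefficients and of
the mean. Proof: if one of the four bounds fails for infinitely many `n`, take such a sequence, by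
compactness (`KCG.GFIN.sub_exists`) a subsequence along which the three parameters converge, and
`KCG.GFIN.sub_side` (its proof also gives the upper bound, with `cr n ≤ C1` and the convergence of the
staircase coefficients). Template: `Lib_helper89/FL/ZBound.lean`, `KCG/GFIN.lean`. -/
def BND_Stmt : Prop := ∀ C θ : ℝ, 0 < C → 0 < θ → θ < 1 → ∀ M : KCG.SeqModel C θ,
  ∃ C1 : ℝ, 0 < C1 ∧ ∀ᶠ n : ℕ in atTop,
    C1⁻¹ ≤ ((n : ℝ) * Real.sqrt n) * (M.G n).rho ^ n *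
      (closeP (M.C0 n) (M.t n) (M.B n) n).eval 1 ∧
    ((n : ℝ) * Real.sqrt n) * (M.G n).rho ^ n *
      (closeP (M.C0 n) (M.t n) (M.B n) n).eval 1 ≤ C1 ∧
    C1⁻¹ * (((n : ℝ) * Real.sqrt n) * (closeP (M.C0 n) (M.t n) (M.B n) n).eval 1) ≤
      (closeP (M.C0 n) (M.t n) (M.B n) n).derivative.eval 1 ∧
    (closeP (M.C0 n) (M.t n) (M.B n) n).derivative.eval 1 ≤
      C1 * (((n : ℝ) * Real.sqrt n) * (closeP (M.C0 n) (M.t n) (M.B n) n).eval 1)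

/-- SQ2 (from NEAR, as SEQ; the model of `Seq.lean`): the sequence of models, its critical weights,
number of canonical words and sum of their integer areas. -/
def SQ2_Stmt : Prop := ∀ (C θ : ℝ) (k N0 : ℕ), 0 < C → 0 < θ → θ < 1 → 1 ≤ k → 2 ≤ N0 →
  (∀ n, N0 ≤ n → Nonempty (Dat C θ k n)) → ∃ M : KCG.SeqModel C θ, ∀ n, N0 ≤ n →
    ∑ p ∈ Pc k n, (M.G n).rho ^ hl p = 1 ∧ (M.G n).rho ≤ 1 ∧ Tails C θ k n (M.G n).rho ∧
    (closeP (M.C0 n) (M.t n) (M.B n) n).eval 1 = ((Om k n).card : ℝ) ∧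
    (closeP (M.C0 n) (M.t n) (M.B n) n).derivative.eval 1 =
      ∑ q ∈ Om k n, (Ar k n q.2.2.2 : ℝ)

/-- RHO : the critical weights of the truncated kernels converge exponentially fast. Proof:
`q ≤ rho` by (i). `∑ p ∈ Pc k n, q ^ hl p ≥ 1 - C (1 + eta)^(-n)`: for `N` large the sum over `Pc k N` is
close to `1` (by (ii), (iii): if it were bounded by `1 - δ` for all `N` then also the sums at some
`r > q` would be `≤ 1`, by Hoelder between `q` and `(1 + eta) q`, or because a power series with radius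
`> q` is continuous at `q`), and the part with `hl p > n` is at most `(1 + eta)^(-n) C`. Then
`1 = ∑ rho ^ hl p ≥ (rho / q) ∑ q ^ hl p`. -/
def RHO_Stmt : Prop := ∀ (k : ℕ) (q eta C : ℝ), 1 ≤ k → TP k q eta C →
  ∃ (C1 : ℝ) (N1 : ℕ), 0 < C1 ∧ ∀ (n : ℕ) (rho : ℝ), N1 ≤ n → 0 < rho →
    ∑ p ∈ Pc k n, rho ^ hl p = 1 → q ≤ rho ∧ (rho / q) ^ n ≤ C1

/-- CNT : number of polygons and mean area for fixed `k` (from BND, SQ2, RHO, DAT, NEAR, TR, VCR,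
POS). `card ColConvex = 4 n card Om + card NoCut`, `∑ area = 4 n ∑ |dq| / 2 + ∑ |dbl| / 2`,
`|dbl 0 w| ≤ 4 n ^ 2`; NoCut is exponentially smaller by `Tails`; for small `n` adjust the constant
(`ColConvex k n` contains the rectangles `1 × (n - 1)`, so it is not empty and has positive area for
`n ≥ 2`). -/
def CNT_Stmt : Prop := ∀ (k : ℕ) (q eta C : ℝ), 1 ≤ k → TP k q eta C →
  ∃ C1 : ℝ, 0 < C1 ∧ ∀ n : ℕ, 2 ≤ n →
    C1⁻¹ * ((q⁻¹) ^ n / Real.sqrt n) ≤ ((ColConvex k n).card : ℝ) ∧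
    ((ColConvex k n).card : ℝ) ≤ C1 * ((q⁻¹) ^ n / Real.sqrt n) ∧
    C1⁻¹ * ((n : ℝ) * Real.sqrt n) ≤
      (∑ s ∈ ColConvex k n, area n s) / ((ColConvex k n).card : ℝ) ∧
    (∑ s ∈ ColConvex k n, area n s) / ((ColConvex k n).card : ℝ) ≤
      C1 * ((n : ℝ) * Real.sqrt n)

/-- MUM : the critical weight is strictly decreasing in `k`. Proof: `Pc k n ⊆ Pc (k + 1) n`, and the
piece `(0 :: (replicate k [0,1,2,1]).flatten ++ [0], [2, 2])` of width `2` (line `1` is crossed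
`2 k + 2` times, total length `4 k + 4`) is in `Pc (k + 1) n`, not in `Pc k n`, for `n ≥ 2 k + 2`. If
`q ≤ q'` then `∑ over Pc (k+1) n of q' ^ hl ≤ 1` bounds the sums over `Pc k n` at `q` by
`1 - q ^ (2 k + 2)`, for all `n`, against (ii) and (iii) (see RHO). -/
def MUM_Stmt : Prop := ∀ (k : ℕ) (q eta C q' eta' C' : ℝ), 1 ≤ k → TP k q eta C →
  TP (k + 1) q' eta' C' → q' < q

/-- LMQ : the growth rates tend to the growth rate of all polygons (from CNT, GRO, MUM). Proof: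
`Lib_helper27`: `log card (SAP n) / n → Lc`, `M = exp Lc`; `(q k)⁻¹ ≤ M` because
`ColConvex k n ⊆ SAP n`; GRO: for `ε > 0` some `k` with `(q k)⁻¹ ≥ M exp (-ε)`; monotone by MUM. -/
def LMQ_Stmt : Prop := ∀ q : ℕ → ℝ, (∀ k, 1 ≤ k → ∃ eta C, TP k (q k) eta C) →
  ∃ M : ℝ, Tendsto (fun n : ℕ => ((SAP n).card : ℝ) ^ ((1 : ℝ) / n)) atTop (𝓝 M) ∧
    Tendsto (fun k : ℕ => (q k)⁻¹) atTop (𝓝 M)

/-- the extended final theorem -/
def FINAL2_Stmt : Prop := ∃ ν : Measure ℝ, IsProbabilityMeasure ν ∧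
  (∀ x : ℝ, ν {x} = 0 →
    Tendsto (fun n : ℕ => areaCdf n (Staircase n) x) atTop (𝓝 (ν (Set.Iic x)).toReal)) ∧
  (∃ K : ℕ → ℕ, Tendsto K atTop atTop ∧
    (∀ k : ℕ → ℕ, (∀ᶠ n : ℕ in atTop, 1 ≤ k n ∧ k n ≤ K n) → ∀ x : ℝ, ν {x} = 0 →
      Tendsto (fun n : ℕ => areaCdf n (ColConvex (k n) n) x) atTop (𝓝 (ν (Set.Iic x)).toReal)) ∧
    ∀ ε : ℝ, 0 < ε → ∀ᶠ n : ℕ in atTop,
      Real.exp (-(ε * n)) * ((SAP n).card : ℝ) ≤ ((ColConvex (K n) n).card : ℝ)) ∧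
  ∃ (μ : ℕ → ℝ) (M : ℝ), (∀ k, 1 ≤ k → 0 < μ k ∧ μ k < μ (k + 1)) ∧ Tendsto μ atTop (𝓝 M) ∧
    Tendsto (fun n : ℕ => ((SAP n).card : ℝ) ^ ((1 : ℝ) / n)) atTop (𝓝 M) ∧
    ∀ k, 1 ≤ k → ∃ C : ℝ, 0 < C ∧ ∀ n : ℕ, 2 ≤ n →
      C⁻¹ * (μ k ^ n / Real.sqrt n) ≤ ((ColConvex k n).card : ℝ) ∧
      ((ColConvex k n).card : ℝ) ≤ C * (μ k ^ n / Real.sqrt n) ∧
      C⁻¹ * ((n : ℝ) * Real.sqrt n) ≤
        (∑ s ∈ ColConvex k n, area n s) / ((ColConvex k n).card : ℝ) ∧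
      (∑ s ∈ ColConvex k n, area n s) / ((ColConvex k n).card : ℝ) ≤
        C * ((n : ℝ) * Real.sqrt n)

/-- FN2 : assembly. -/
def FN2_Stmt : Prop := TAIL_Stmt → FINAL_Stmt → CNT_Stmt → MUM_Stmt → LMQ_Stmt → FINAL2_Stmt

end Pool.Agent.KCC
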